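import Mathlib

/-!
# Homomorphism counts over classes of nearly embeddable graphs: definitions

`CMap`: combinatorial maps (graphs cellularly embedded in closed surfaces, orientable or not).
`NearEmb k G`: `G` is `k`-nearly embeddable (at most `k` apices, Euler genus at most `k`, at most
`k` vortices of depth at most `k`).
`InClass k G`: `G` is obtained by `k`-clique sums from `k`-nearly embeddable graphs.
-/

set_option autoImplicit false

namespace Pool.Agent.HomV

open Finset Classical

/-- A combinatorial map.  `D` is the set of darts (half edges), `opp d` is the other half of the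
edge of `d`.  A flag `(d, s)` is a side of the dart `d`.  The side `s` of `d` is the side
`xor s (tw d)` of `opp d`.  `corner (d, s)` is the next flag at the same vertex on this side of
`d`: the flags `x` and `corner x` bound a corner of a face. -/
structure CMap (D : Type) where
  /-- the other half of the edge -/
  opp : D → D
  opp_opp : ∀ d, opp (opp d) = d
  opp_ne : ∀ d, opp d ≠ d
  /-- are the names of the two sides exchanged along the edge? -/
  tw : D → Bool
  tw_opp : ∀ d, tw (opp d) = tw d
  /-- the neighbouring flag at the same corner -/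
  corner : D × Bool → D × Bool
  corner_corner : ∀ x, corner (corner x) = x
  corner_ne : ∀ x, corner x ≠ x

/-- The other side of the same dart. -/
def fl {D : Type} (x : D × Bool) : D × Bool := (x.1, !x.2)

namespace CMap

variable {D : Type} (M : CMap D)

/-- The flag at the other end of the edge on the same side. -/
def across (x : D × Bool) : D × Bool := (M.opp x.1, xor x.2 (M.tw x.1))

/-- Neighbouring flags of the same vertex. -/
def VRel (x y : D × Bool) : Prop := y = M.corner x ∨ y = fl x

/-- Neighbouring flags of the same face. -/
def FRel (x y : D × Bool) : Prop := y = M.corner x ∨ y = M.across x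

/-- Neighbouring flags of the same component. -/
def CRel (x y : D × Bool) : Prop := y = M.corner x ∨ y = M.across x ∨ y = fl x

/-- number of vertices -/
noncomputable def nV : ℕ := Nat.card (Quot M.VRel)

/-- number of faces -/
noncomputable def nF : ℕ := Nat.card (Quot M.FRel)

/-- number of components -/
noncomputable def nC : ℕ := Nat.card (Quot M.CRel)

/-- number of edges -/
noncomputable def nE (_ : CMap D) : ℕ := Nat.card D / 2

/-- The (total) Euler genus `2 * nC - nV + nE - nF` is at most `k`. -/
def EulerGenusLE (k : ℕ) : Prop := 2 * M.nC + M.nE ≤ M.nV + M.nF + k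

end CMap

variable {V : Type}

/-- `G` is `k`-nearly embeddable: after deleting the set `apex` of at most `k` vertices, `G` is
the union of a graph embedded in a surface of Euler genus at most `k` and of `r ≤ k` vortices of
depth at most `k`.  The embedding is given by a combinatorial map `M` on the embedded graph
together with one new vertex (the hub) in each of the `r` discs, which is joined to the society of
the vortex in the cyclic order around the disc. -/
structure NearEmb (k : ℕ) (G : SimpleGraph V) where
  /-- the apex vertices -/
  apex : Finset V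
  apex_card : apex.card ≤ k
  /-- the number of vortices -/
  r : ℕ
  r_le : r ≤ k
  /-- the length of the society of a vortex -/
  len : Fin r → ℕ
  /-- the society of a vortex -/
  soc : (i : Fin r) → Fin (len i) → V
  /-- the bags of a vortex -/
  bag : (i : Fin r) → Fin (len i) → Finset V
  soc_inj : ∀ i, Function.Injective (soc i)
  soc_mem : ∀ i t, soc i t ∈ bag i t
  bag_card : ∀ i t, (bag i t).card ≤ k
  /-- the bags that contain a vertex form an interval -/
  bag_conv : ∀ i v, ∀ t₁ t₂ t₃ : Fin (len i), t₁ ≤ t₂ → t₂ ≤ t₃ → v ∈ bag i t₁ → v ∈ bag i t₃ →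
    v ∈ bag i t₂
  /-- the vortices are disjoint -/
  bag_disj : ∀ i j t s v, v ∈ bag i t → v ∈ bag j s → i = j
  bag_apex : ∀ i t v, v ∈ bag i t → v ∉ apex
  /-- the darts of the map -/
  D : Type
  fin : Fintype D
  /-- the map -/
  M : CMap D
  /-- the vertex (of `G`, or a hub) at which a dart starts -/
  pt : D → V ⊕ Fin r
  pt_iff : ∀ x y : D × Bool, pt x.1 = pt y.1 ↔ Relation.EqvGen M.VRel x y
  pt_apex : ∀ d v, pt d = Sum.inl v → v ∉ apex
  /-- the flags at a hub in cyclic order, one for each dart -/
  hub : (i : Fin r) → Fin (len i) → D × Bool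
  pt_hub : ∀ i t, pt (hub i t).1 = Sum.inr i
  hub_soc : ∀ i t, pt (M.opp (hub i t).1) = Sum.inl (soc i t)
  hub_next : ∀ i t, M.corner (fl (hub i t)) = hub i (finRotate (len i) t)
  hub_surj : ∀ i d, pt d = Sum.inr i → ∃ t, (hub i t).1 = d
  /-- an embedded vertex of a vortex belongs to its society -/
  emb_soc : ∀ d i t v, pt d = Sum.inl v → v ∈ bag i t → ∃ s, soc i s = v
  /-- every edge of `G` without apices is embedded or lies in a bag -/
  adj : ∀ u v, G.Adj u v → u ∉ apex → v ∉ apex →
    (∃ d, pt d = Sum.inl u ∧ pt (M.opp d) = Sum.inl v) ∨ ∃ i t, u ∈ bag i t ∧ v ∈ bag i t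
  genus : M.EulerGenusLE k

/-- The graph `G[A]` in which the intersection `A ∩ B` is made complete (on the same vertex type;
the vertices outside `A` are isolated). -/
def torso (G : SimpleGraph V) (A B : Set V) : SimpleGraph V where
  Adj u v := u ≠ v ∧ u ∈ A ∧ v ∈ A ∧ (G.Adj u v ∨ (u ∈ B ∧ v ∈ B))
  symm := ⟨fun _ _ h =>
    ⟨h.1.symm, h.2.2.1, h.2.1, h.2.2.2.imp (fun h => h.symm) (fun h => ⟨h.2, h.1⟩)⟩⟩
  loopless := ⟨fun _ h => h.1 rfl⟩

/-- The closure of the `k`-nearly embeddable graphs under clique sums of order at most `k`. -/
inductive InClass (k : ℕ) : SimpleGraph V → Prop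
  | near (G : SimpleGraph V) (h : Nonempty (NearEmb k G)) : InClass k G
  | sum (G : SimpleGraph V) (A B : Set V) (hAB : A ∪ B = Set.univ)
      (hadj : ∀ u v, G.Adj u v → (u ∈ A ∧ v ∈ A) ∨ (u ∈ B ∧ v ∈ B))
      (hcard : (A ∩ B).ncard ≤ k) (hA : InClass k (torso G A B)) (hB : InClass k (torso G B A)) :
      InClass k G

end Pool.Agent.HomV
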