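import Pool.Agent.HomV.ChA
import Pool.Agent.HomV.Defs

/-!
# Homological copies of `X`
-/

set_option autoImplicit false

namespace Pool.Agent.HomV

open Finset Classical

variable {U : Type} [Fintype U] {V : Type} [Fintype V]

/-- A homological copy of `X` (over the live vertices `Y`) in the graph `F`: every vertex `a` of `F`
has a fibre `f a` and a parity `t a`, every edge `ab` of `F` a label `y a b`, a chain in the stars
of `f a` and `f b`; the labels at `a` sum to `t a` times the star of `f a`; every fibre over `Y`
has an odd number of odd vertices. -/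
structure HomX (X : SimpleGraph U) (Y : Finset U) (F : SimpleGraph V) where
  f : V → U
  t : V → ZMod 2
  y : V → V → Ch U
  y_symm : ∀ a b, y a b = y b a
  y_adj : ∀ a b, y a b ≠ 0 → F.Adj a b
  y_star : ∀ a b, InStar X Y (f a) (y a b)
  eqn : ∀ a, ∑ b, y a b = t a • star X Y (f a)
  total : ∀ i ∈ Y, ∑ a ∈ univ.filter (fun a => f a = i), t a = 1

end Pool.Agent.HomV
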