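import Pool.Agent.HomV.ChDef

/-!
# Good graphs exist

The graph of the points `(x, y)` and the lines `y = m x + b` over `ZMod p`, `p ≥ 5 * Q + 10`:
bipartite, no 4-cycle, all degrees `p`. It stays connected after deleting a set `S` of less than `Q`
vertices: every line outside of `S` has a point outside of `S`; for two points `P`, `P'` outside of
`S` there are a line `l` through `P` outside of `S` and (if `P'` is not on `l`) a line `l'` through
`P'` such that `l'` and the intersection of `l` and `l'` are not in `S`.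
-/

set_option autoImplicit false

namespace Pool.Agent.HomV

open Finset Classical

/-- Points and non vertical lines of the affine plane over `ZMod p`. -/
abbrev AffU (p : ℕ) : Type := (ZMod p × ZMod p) ⊕ (ZMod p × ZMod p)

/-- Incidence. -/
def affR (p : ℕ) : AffU p → AffU p → Prop
  | Sum.inl P, Sum.inr l => P.2 = l.1 * P.1 + l.2
  | Sum.inr l, Sum.inl P => P.2 = l.1 * P.1 + l.2
  | _, _ => False

/-- The incidence graph. -/
def affX (p : ℕ) : SimpleGraph (AffU p) where
  Adj := affR p
  symm := ⟨by
    rintro (a | a) (b | b) h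
    · exact h
    · exact h
    · exact h
    · exact h⟩
  loopless := ⟨by
    rintro (a | a) h
    · exact h
    · exact h⟩

lemma affX_adj_lr {p : ℕ} (P l : ZMod p × ZMod p) :
    (affX p).Adj (Sum.inl P) (Sum.inr l) ↔ P.2 = l.1 * P.1 + l.2 := Iff.rfl

lemma affX_adj_rl {p : ℕ} (P l : ZMod p × ZMod p) :
    (affX p).Adj (Sum.inr l) (Sum.inl P) ↔ P.2 = l.1 * P.1 + l.2 := Iff.rfl

lemma affX_adj_ll {p : ℕ} (P P' : ZMod p × ZMod p) :
    ¬ (affX p).Adj (Sum.inl P) (Sum.inl P') := fun h => h

lemma affX_adj_rr {p : ℕ} (l l' : ZMod p × ZMod p) :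
    ¬ (affX p).Adj (Sum.inr l) (Sum.inr l') := fun h => h

/-- Two points on two lines. -/
lemma aff_c4 {p : ℕ} [Fact p.Prime] {P P' l l' : ZMod p × ZMod p} (h1 : P.2 = l.1 * P.1 + l.2)
    (h2 : P'.2 = l.1 * P'.1 + l.2) (h3 : P.2 = l'.1 * P.1 + l'.2)
    (h4 : P'.2 = l'.1 * P'.1 + l'.2) : P = P' ∨ l = l' := by
  have h5 : (l.1 - l'.1) * (P.1 - P'.1) = 0 := by
    linear_combination -h1 + h2 + h3 - h4
  rcases mul_eq_zero.1 h5 with h | h
  · right
    have h6 : l.1 = l'.1 := sub_eq_zero.1 h
    have h7 : l.2 = l'.2 := by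
      rw [h6] at h1
      linear_combination -h1 + h3
    exact Prod.ext h6 h7
  · left
    have h6 : P.1 = P'.1 := sub_eq_zero.1 h
    have h7 : P.2 = P'.2 := by rw [h1, h2, h6]
    exact Prod.ext h6 h7

/-- An injective family with more members than `S` leaves `S`. -/
lemma exists_not_mem {p : ℕ} [Fact p.Prime] {U : Type} (f : ZMod p → U)
    (hf : Function.Injective f) (S : Finset U) (hS : S.card < p) : ∃ m, f m ∉ S := by
  by_contra h
  push Not at h
  have h1 : (univ.image f).card ≤ S.card := Finset.card_le_card fun x hx => by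
    obtain ⟨m, _, rfl⟩ := Finset.mem_image.1 hx
    exact h m
  rw [Finset.card_image_of_injective _ hf, Finset.card_univ, ZMod.card] at h1
  omega

/-- Number of parameters with value in `S`. -/
lemma card_pre_le {p : ℕ} [Fact p.Prime] {U : Type} (f : ZMod p → U) (A : Finset (ZMod p))
    (hf : Set.InjOn f A) (S : Finset U) (h : ∀ m ∈ A, f m ∈ S) : A.card ≤ S.card := by
  rw [← Finset.card_image_of_injOn hf]
  exact Finset.card_le_card fun x hx => by
    obtain ⟨m, hm, rfl⟩ := Finset.mem_image.1 hx
    exact h m hm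

theorem exists_good (Q : ℕ) :
    ∃ (U : Type) (_ : Fintype U) (X : SimpleGraph U), Good X univ Q := by
  obtain ⟨p, hpQ, hp⟩ := Nat.exists_infinite_primes (5 * Q + 10)
  have : Fact p.Prime := ⟨hp⟩
  refine ⟨AffU p, inferInstance, affX p, ?_, ?_, ?_, ?_, ?_⟩
  · rintro (a | a) (b | b) (c | c) h1 h2 h3
    · exact affX_adj_ll _ _ h1
    · exact affX_adj_ll _ _ h1
    · exact affX_adj_ll _ _ h3
    · exact affX_adj_rr _ _ h2
    · exact affX_adj_ll _ _ h2
    · exact affX_adj_rr _ _ h3
    · exact affX_adj_rr _ _ h1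
    · exact affX_adj_rr _ _ h1
  · rintro (a | a) (b | b) (c | c) (d | d) h1 h2 h3 h4
    · exact absurd h1 (affX_adj_ll _ _)
    · exact absurd h1 (affX_adj_ll _ _)
    · exact absurd h1 (affX_adj_ll _ _)
    · exact absurd h1 (affX_adj_ll _ _)
    · exact absurd h3 (affX_adj_ll _ _)
    · rcases aff_c4 (P := a) (P' := c) (l := b) (l' := d) h1 h2 h4 h3 with h | h
      · exact Or.inl (by rw [h])
      · exact Or.inr (by rw [h])
    · exact absurd h2 (affX_adj_rr _ _)
    · exact absurd h2 (affX_adj_rr _ _)
    · exact absurd h2 (affX_adj_ll _ _)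
    · exact absurd h2 (affX_adj_ll _ _)
    · rcases aff_c4 (P := b) (P' := d) (l := a) (l' := c) h1 h4 h2 h3 with h | h
      · exact Or.inr (by rw [h])
      · exact Or.inl (by rw [h])
    · exact absurd h3 (affX_adj_rr _ _)
    · exact absurd h1 (affX_adj_rr _ _)
    · exact absurd h1 (affX_adj_rr _ _)
    · exact absurd h1 (affX_adj_rr _ _)
    · exact absurd h1 (affX_adj_rr _ _)
  · rintro (P | l) -
    · have h1 : (univ.image fun m : ZMod p => (Sum.inr (m, P.2 - m * P.1) : AffU p)).card ≤
          (univ.filter (fun j => (affX p).Adj (Sum.inl P) j)).card := by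
        refine Finset.card_le_card fun x hx => ?_
        obtain ⟨m, _, rfl⟩ := Finset.mem_image.1 hx
        rw [Finset.mem_filter]
        exact ⟨Finset.mem_univ _, by rw [affX_adj_lr]; ring⟩
      rw [Finset.card_image_of_injective _ (fun m m' h => by simpa using (congrArg Prod.fst
        (Sum.inr.inj h))), Finset.card_univ, ZMod.card] at h1
      omega
    · have h1 : (univ.image fun x : ZMod p => (Sum.inl (x, l.1 * x + l.2) : AffU p)).card ≤
          (univ.filter (fun j => (affX p).Adj (Sum.inr l) j)).card := by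
        refine Finset.card_le_card fun x hx => ?_
        obtain ⟨m, _, rfl⟩ := Finset.mem_image.1 hx
        rw [Finset.mem_filter]
        exact ⟨Finset.mem_univ _, by rw [affX_adj_rl]⟩
      rw [Finset.card_image_of_injective _ (fun m m' h => by simpa using (congrArg Prod.fst
        (Sum.inl.inj h))), Finset.card_univ, ZMod.card] at h1
      omega
  · intro S hS T hT hTne hRne
    by_contra hcon
    push Not at hcon
    -- adjacent vertices outside of `S` are on the same side
    have key : ∀ i j, i ∉ S → j ∉ S → (affX p).Adj i j → i ∈ T → j ∈ T := by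
      intro i j _ hj hij hi
      by_contra hjT
      exact hcon i hi j (by simp [hj, hjT]) hij
    have side : ∀ i j, i ∉ S → j ∉ S → (affX p).Adj i j → (i ∈ T ↔ j ∈ T) :=
      fun i j hi hj hij => ⟨key i j hi hj hij, key j i hj hi hij.symm⟩
    -- two points
    have two : ∀ P P' : ZMod p × ZMod p, Sum.inl P ∉ S → Sum.inl P' ∉ S →
        ((Sum.inl P : AffU p) ∈ T ↔ (Sum.inl P' : AffU p) ∈ T) := by
      intro P P' hP hP'
      obtain ⟨m₀, hm₀⟩ := exists_not_mem
        (fun m : ZMod p => (Sum.inr (m, P.2 - m * P.1) : AffU p))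
        (fun m m' h => by simpa using (congrArg Prod.fst (Sum.inr.inj h))) S (by omega)
      set b₀ : ZMod p := P.2 - m₀ * P.1 with hb₀
      have hPl : ((Sum.inl P : AffU p) ∈ T ↔ (Sum.inr (m₀, b₀) : AffU p) ∈ T) :=
        side _ _ hP hm₀ (by rw [affX_adj_lr]; simp only [hb₀]; ring)
      rw [hPl]
      set c : ZMod p := P'.2 - m₀ * P'.1 - b₀ with hc
      by_cases hc0 : c = 0
      · exact side _ _ hm₀ hP' (by
          rw [affX_adj_rl]
          simp only
          linear_combination hc.symm.trans hc0)
      · -- the points of intersection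
        have hex : ∃ m : ZMod p, m ≠ m₀ ∧ (Sum.inr (m, P'.2 - m * P'.1) : AffU p) ∉ S ∧
            (Sum.inl (P'.1 + c / (m₀ - m), m₀ * (P'.1 + c / (m₀ - m)) + b₀) : AffU p) ∉ S := by
          by_contra hno
          push Not at hno
          set A : Finset (ZMod p) := univ.filter
            (fun m => (Sum.inr (m, P'.2 - m * P'.1) : AffU p) ∈ S) with hA
          set B : Finset (ZMod p) := univ.filter (fun m => m ≠ m₀ ∧
            (Sum.inl (P'.1 + c / (m₀ - m), m₀ * (P'.1 + c / (m₀ - m)) + b₀) : AffU p) ∈ S) with hB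
          have hcov : (univ : Finset (ZMod p)) ⊆ {m₀} ∪ (A ∪ B) := by
            intro m _
            rw [Finset.mem_union, Finset.mem_union, Finset.mem_singleton]
            by_cases h1 : m = m₀
            · exact Or.inl h1
            · right
              by_cases h2 : (Sum.inr (m, P'.2 - m * P'.1) : AffU p) ∈ S
              · exact Or.inl (by rw [hA, Finset.mem_filter]; exact ⟨Finset.mem_univ _, h2⟩)
              · exact Or.inr (by
                  rw [hB, Finset.mem_filter]
                  exact ⟨Finset.mem_univ _, h1, hno m h1 h2⟩)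
          have hAc : A.card ≤ S.card := card_pre_le
            (fun m : ZMod p => (Sum.inr (m, P'.2 - m * P'.1) : AffU p)) A
            (fun m _ m' _ h => by simpa using (congrArg Prod.fst (Sum.inr.inj h))) S
            (fun m hm => (Finset.mem_filter.1 hm).2)
          have hBc : B.card ≤ S.card := card_pre_le
            (fun m : ZMod p => (Sum.inl (P'.1 + c / (m₀ - m), m₀ * (P'.1 + c / (m₀ - m)) + b₀) :
              AffU p)) B
            (fun m hm m' hm' h => by
              have hm1 : m₀ - m ≠ 0 := sub_ne_zero.2 (Ne.symm (Finset.mem_filter.1 hm).2.1)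
              have hm2 : m₀ - m' ≠ 0 := sub_ne_zero.2 (Ne.symm (Finset.mem_filter.1 hm').2.1)
              have h1 : P'.1 + c / (m₀ - m) = P'.1 + c / (m₀ - m') :=
                congrArg Prod.fst (Sum.inl.inj h)
              have h2 := add_left_cancel h1
              rw [div_eq_div_iff hm1 hm2] at h2
              have h3 := mul_left_cancel₀ hc0 h2
              linear_combination h3) S
            (fun m hm => (Finset.mem_filter.1 hm).2.2)
          have h1 := Finset.card_le_card hcov
          rw [Finset.card_univ, ZMod.card] at h1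
          have h2 := Finset.card_union_le ({m₀} : Finset (ZMod p)) (A ∪ B)
          have h3 := Finset.card_union_le A B
          rw [Finset.card_singleton] at h2
          omega
        obtain ⟨m, hm, h1, h2⟩ := hex
        have hm1 : m₀ - m ≠ 0 := sub_ne_zero.2 (Ne.symm hm)
        rw [side _ _ hm₀ h2 (by rw [affX_adj_rl])]
        rw [side _ _ h2 h1 (by
          rw [affX_adj_lr]
          simp only
          have h3 : (m₀ - m) * (c / (m₀ - m)) = c := by
            field_simp
          linear_combination h3 + hc)]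
        exact side _ _ h1 hP' (by rw [affX_adj_rl]; ring)
    -- every vertex outside of `S` has a point outside of `S` on the same side
    have pt : ∀ i, i ∉ S → ∃ P : ZMod p × ZMod p, Sum.inl P ∉ S ∧
        (i ∈ T ↔ (Sum.inl P : AffU p) ∈ T) := by
      rintro (P | l) hi
      · exact ⟨P, hi, Iff.rfl⟩
      · obtain ⟨x, hx⟩ := exists_not_mem
          (fun x : ZMod p => (Sum.inl (x, l.1 * x + l.2) : AffU p))
          (fun m m' h => by simpa using (congrArg Prod.fst (Sum.inl.inj h))) S (by omega)
        exact ⟨_, hx, side _ _ hi hx (by rw [affX_adj_rl])⟩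
    obtain ⟨i, hi⟩ := hTne
    obtain ⟨j, hj⟩ := hRne
    have hiS : i ∉ S := by simpa using hT hi
    have hj' : j ∉ S ∧ j ∉ T := by simpa using hj
    have hjS : j ∉ S := hj'.1
    have hjT : j ∉ T := hj'.2
    obtain ⟨P, hP, hP'⟩ := pt i hiS
    obtain ⟨P', hP1, hP2⟩ := pt j hjS
    exact hjT (hP2.2 ((two P P' hP hP1).1 (hP'.1 hi)))
  · exact ⟨Sum.inl (0, 0), Finset.mem_univ _⟩

end Pool.Agent.HomV
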