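import Pool.Agent.HomV.HomX

/-!
# CFI graphs and duality

`cfiV X c`: vertices of the CFI graph of `X` with charge `c`: pairs `(i, x)`, `x : U → ZMod 2`
supported on the neighbours of `i`, with `∑ j, x j = c i`.  `(i, x)` and `(j, y)` are adjacent if
`X.Adj i j` and `x j = y i`.

`hom (F, cfi X c)` is the sum over the homomorphisms `f : F → X` of the number of lifts, i.e. of
solutions `(x_a)_(a : V)` of an affine system over `ZMod 2` whose homogeneous part does not depend
on `c`: this number is the same as for `c = 0` or it is `0`.  If it is `0` for `c`, then by duality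
over a field there are multipliers `t a` (for `∑ j, x_a j = c (f a)`) and `u a b = u b a` (for
`x_a (f b) = x_b (f a)`, `ab` an edge of `F`) with `t a + ∑_(b ~ a, f b = j) u a b = 0` for all
`a` and all neighbours `j` of `f a`, and `∑ a, t a * c (f a) = 1`.  With `y a b = u a b` times the
edge `s(f a, f b)` this is a homological copy of `X` (for `c = Pi.single i₀ 1`; the parity of the
odd vertices is the same in all fibres by `const_of_dl_eq_zero`).

The two graphs for `c = 0` and `c = Pi.single i₀ 1` are not isomorphic: the identity of `X` has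
lifts for `c = 0` and no lift for `c = Pi.single i₀ 1` (sum of all equations), so
`hom (X, ·)` is different.
-/

set_option autoImplicit false

namespace Pool.Agent.HomV

open Finset Classical

variable {U : Type} [Fintype U]

/-- the vertices of the CFI graph of `X` with charge `c` -/
def CfiV (X : SimpleGraph U) (c : U → ZMod 2) : Type :=
  {p : U × (U → ZMod 2) // (∀ j, ¬ X.Adj p.1 j → p.2 j = 0) ∧ ∑ j, p.2 j = c p.1}

noncomputable instance (X : SimpleGraph U) (c : U → ZMod 2) : Fintype (CfiV X c) :=
  Fintype.ofInjective (fun p : CfiV X c => p.1) (fun _ _ h => Subtype.ext h)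

/-- the CFI graph of `X` with charge `c` -/
def cfi (X : SimpleGraph U) (c : U → ZMod 2) : SimpleGraph (CfiV X c) where
  Adj p q := X.Adj p.1.1 q.1.1 ∧ p.1.2 q.1.1 = q.1.2 p.1.1
  symm := ⟨fun _ _ h => ⟨h.1.symm, h.2.symm⟩⟩
  loopless := ⟨fun _ h => h.1.ne rfl⟩

section Lifts

variable {V : Type}

/-- the lifts of `f` -/
private def Sol (X : SimpleGraph U) (F : SimpleGraph V) (f : V → U) (c : U → ZMod 2) :
    Set (V → U → ZMod 2) :=
  {x | (∀ a j, ¬ X.Adj (f a) j → x a j = 0) ∧ (∀ a, ∑ j, x a j = c (f a)) ∧
    ∀ a b, F.Adj a b → x a (f b) = x b (f a)}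

private def liftEquiv (X : SimpleGraph U) (F : SimpleGraph V) (c : U → ZMod 2) :
    (F →g cfi X c) ≃ Σ f : F →g X, Sol X F f c where
  toFun g := ⟨⟨fun a => (g a).1.1, fun {_ _} h => (g.map_rel h).1⟩,
    ⟨fun a => (g a).1.2, fun a => (g a).2.1, fun a => (g a).2.2, fun _ _ h => (g.map_rel h).2⟩⟩
  invFun p := ⟨fun a => ⟨(p.1 a, p.2.1 a), p.2.2.1 a, p.2.2.2.1 a⟩,
    fun {a b} h => ⟨p.1.map_rel h, p.2.2.2.2 a b h⟩⟩
  left_inv _ := rfl
  right_inv _ := rfl

private theorem sol_zero (X : SimpleGraph U) (F : SimpleGraph V) (f : V → U) :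
    (0 : V → U → ZMod 2) ∈ Sol X F f 0 :=
  ⟨fun _ _ _ => rfl, fun a => by simp, fun _ _ _ => rfl⟩

private theorem sol_iff {X : SimpleGraph U} {F : SimpleGraph V} {f : V → U} {c : U → ZMod 2}
    {x₀ : V → U → ZMod 2} (h : x₀ ∈ Sol X F f c) (x : V → U → ZMod 2) :
    x ∈ Sol X F f 0 ↔ x + x₀ ∈ Sol X F f c := by
  obtain ⟨h1, h2, h3⟩ := h
  constructor
  · rintro ⟨k1, k2, k3⟩
    refine ⟨fun a j hj => ?_, fun a => ?_, fun a b hab => ?_⟩
    · rw [Pi.add_apply, Pi.add_apply, k1 a j hj, h1 a j hj, add_zero]
    · simp only [Pi.add_apply, Finset.sum_add_distrib]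
      rw [k2, h2, Pi.zero_apply, zero_add]
    · rw [Pi.add_apply, Pi.add_apply, Pi.add_apply, Pi.add_apply, k3 a b hab, h3 a b hab]
  · rintro ⟨k1, k2, k3⟩
    refine ⟨fun a j hj => ?_, fun a => ?_, fun a b hab => ?_⟩
    · have := k1 a j hj
      rw [Pi.add_apply, Pi.add_apply, h1 a j hj, add_zero] at this
      exact this
    · have := k2 a
      simp only [Pi.add_apply, Finset.sum_add_distrib] at this
      rw [h2] at this
      rw [Pi.zero_apply]
      exact add_eq_right.1 this
    · have := k3 a b hab
      rw [Pi.add_apply, Pi.add_apply, Pi.add_apply, Pi.add_apply, h3 a b hab] at this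
      exact add_right_cancel this

private theorem sol_eq {X : SimpleGraph U} {F : SimpleGraph V} {f : V → U} {c : U → ZMod 2}
    (h : (Sol X F f c).Nonempty) : Nat.card (Sol X F f 0) = Nat.card (Sol X F f c) := by
  obtain ⟨x₀, h⟩ := h
  exact Nat.card_congr (Equiv.subtypeEquiv (Equiv.addRight x₀) (sol_iff h))

private theorem sol_le [Fintype V] {X : SimpleGraph U} {F : SimpleGraph V} {f : V → U}
    {c : U → ZMod 2} : Nat.card (Sol X F f c) ≤ Nat.card (Sol X F f 0) := by
  rcases (Sol X F f c).eq_empty_or_nonempty with h | h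
  · rw [h, Nat.card_eq_zero.2 (Or.inl inferInstance)]
    exact Nat.zero_le _
  · exact (sol_eq h).ge

private theorem card_hom [Fintype V] (X : SimpleGraph U) (F : SimpleGraph V) [Fintype (F →g X)]
    (c : U → ZMod 2) : Nat.card (F →g cfi X c) = ∑ f : F →g X, Nat.card (Sol X F f c) := by
  rw [Nat.card_congr (liftEquiv X F c), Nat.card_sigma]

end Lifts

private theorem sum_symm {ι : Type} [Fintype ι] (g : ι → ι → ZMod 2) (hs : ∀ i j, g i j = g j i)
    (hd : ∀ i, g i i = 0) : ∑ i, ∑ j, g i j = 0 := by
  rw [← Finset.sum_product']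
  refine Finset.sum_involution (fun p _ => (p.2, p.1)) ?_ ?_ ?_ ?_
  · intro p _
    show g p.1 p.2 + g p.2 p.1 = 0
    rw [hs p.2 p.1, CharTwo.add_self_eq_zero]
  · rintro ⟨i, j⟩ _ hne he
    simp only [Prod.mk.injEq] at he
    apply hne
    show g i j = 0
    rw [he.1, hd]
  · intro p _
    simp
  · intro p _
    rfl

private theorem sol_id_empty {X : SimpleGraph U} (i₀ : U) :
    ¬ (Sol X X (fun a => a) (Pi.single i₀ 1)).Nonempty := by
  rintro ⟨x, h1, h2, h3⟩
  have h4 : ∑ i, ∑ j, x i j = 0 := by
    refine sum_symm x (fun i j => ?_) (fun i => h1 i i (X.loopless.irrefl i))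
    by_cases hij : X.Adj i j
    · exact h3 i j hij
    · rw [h1 i j hij, h1 j i (fun h => hij h.symm)]
  have h5 : ∑ i, ∑ j, x i j = 1 := by
    rw [Finset.sum_congr rfl fun i _ => h2 i]
    simp
  rw [h4] at h5
  exact zero_ne_one h5

theorem cfi_not_iso {X : SimpleGraph U} {Q : ℕ} (hG : Good X univ Q) (hQ : 0 < Q) (i₀ : U) :
    IsEmpty (cfi X 0 ≃g cfi X (Pi.single i₀ 1)) := by
  refine ⟨fun φ => ?_⟩
  haveI : Finite (X →g X) := DFunLike.finite _
  letI : Fintype (X →g X) := Fintype.ofFinite _
  have h1 : Nat.card (X →g cfi X 0) = Nat.card (X →g cfi X (Pi.single i₀ 1)) := by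
    refine Nat.card_congr ⟨fun g => φ.toHom.comp g, fun g => φ.symm.toHom.comp g, ?_, ?_⟩
    · intro g
      ext a
      simp
    · intro g
      ext a
      simp
  rw [card_hom, card_hom] at h1
  refine absurd h1 (ne_of_gt ?_)
  refine Finset.sum_lt_sum (fun f _ => sol_le) ⟨SimpleGraph.Hom.id, Finset.mem_univ _, ?_⟩
  have h2 : Nat.card (Sol X X (SimpleGraph.Hom.id : X →g X) (Pi.single i₀ 1)) = 0 := by
    rw [Nat.card_eq_zero]
    left
    rw [Set.isEmpty_coe_sort, ← Set.not_nonempty_iff_eq_empty]
    exact sol_id_empty i₀
  rw [h2, Nat.card_pos_iff]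
  exact ⟨⟨⟨0, sol_zero _ _ _⟩⟩, inferInstance⟩

section Dual

variable {V : Type} [Fintype V]

/-- the target of the linear system -/
private abbrev Tg (U V : Type) := (V → U → ZMod 2) × (V → ZMod 2) × (V → V → ZMod 2)

/-- the linear system -/
private noncomputable def sysA (X : SimpleGraph U) (F : SimpleGraph V) (f : V → U) :
    (V → U → ZMod 2) →ₗ[ZMod 2] Tg U V where
  toFun x := (fun a j => if X.Adj (f a) j then 0 else x a j, fun a => ∑ j, x a j,
    fun a b => if F.Adj a b then x a (f b) + x b (f a) else 0)
  map_add' x y := by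
    refine Prod.ext ?_ (Prod.ext ?_ ?_)
    · funext a j
      show (if X.Adj (f a) j then (0 : ZMod 2) else x a j + y a j) =
        (if X.Adj (f a) j then 0 else x a j) + (if X.Adj (f a) j then 0 else y a j)
      split_ifs <;> simp
    · funext a
      exact Finset.sum_add_distrib
    · funext a b
      show (if F.Adj a b then (x a (f b) + y a (f b)) + (x b (f a) + y b (f a)) else (0 : ZMod 2)) =
        (if F.Adj a b then x a (f b) + x b (f a) else 0) +
          (if F.Adj a b then y a (f b) + y b (f a) else 0)
      split_ifs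
      · ring
      · simp
  map_smul' r x := by
    refine Prod.ext ?_ (Prod.ext ?_ ?_)
    · funext a j
      show (if X.Adj (f a) j then (0 : ZMod 2) else r * x a j) =
        r * (if X.Adj (f a) j then 0 else x a j)
      split_ifs <;> simp
    · funext a
      exact (Finset.mul_sum _ _ _).symm
    · funext a b
      show (if F.Adj a b then r * x a (f b) + r * x b (f a) else (0 : ZMod 2)) =
        r * (if F.Adj a b then x a (f b) + x b (f a) else 0)
      split_ifs
      · ring
      · simp

private theorem mem_range {X : SimpleGraph U} {F : SimpleGraph V} {f : V → U} {c : U → ZMod 2}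
    (h : ((0, fun a => c (f a), 0) : Tg U V) ∈ LinearMap.range (sysA X F f)) :
    (Sol X F f c).Nonempty := by
  obtain ⟨x, hx⟩ := h
  have h1 : (fun a j => if X.Adj (f a) j then (0 : ZMod 2) else x a j) = 0 := congrArg (fun z => z.1) hx
  have h2 : (fun a => ∑ j, x a j) = fun a => c (f a) := congrArg (fun z => z.2.1) hx
  have h3 : (fun a b => if F.Adj a b then x a (f b) + x b (f a) else (0 : ZMod 2)) = 0 :=
    congrArg (fun z => z.2.2) hx
  refine ⟨x, fun a j hj => ?_, fun a => congrFun h2 a, fun a b hab => ?_⟩
  · have := congrFun (congrFun h1 a) j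
    rwa [if_neg hj] at this
  · have := congrFun (congrFun h3 a) b
    simp only [if_pos hab] at this
    exact CharTwo.add_eq_zero.1 this

private theorem exists_homX {X : SimpleGraph U} {Q : ℕ} (hG : Good X univ Q) (hQ : 0 < Q) (i₀ : U)
    (F : SimpleGraph V) (f : F →g X) (h : ¬ (Sol X F f (Pi.single i₀ 1)).Nonempty) :
    Nonempty (HomX X univ F) := by
  set c : U → ZMod 2 := Pi.single i₀ 1 with hc
  set β : Tg U V := (0, fun a => c (f a), 0) with hβ
  have h0 : β ∉ LinearMap.range (sysA X F f) := fun hm => h (mem_range hm)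
  obtain ⟨ψ, hψ1, hψ2⟩ := Submodule.exists_le_ker_of_notMem h0
  have hψA : ∀ x, ψ (sysA X F f x) = 0 := fun x => hψ2 ⟨x, rfl⟩
  set E : V → V → (V → V → ZMod 2) := fun a b => Pi.single a (Pi.single b 1) with hE
  set t : V → ZMod 2 := fun a => ψ (0, Pi.single a 1, 0) with ht
  set u : V → V → ZMod 2 := fun a b => if F.Adj a b then ψ (0, 0, E a b + E b a) else 0 with hu
  have husymm : ∀ a b, u a b = u b a := by
    intro a b
    simp only [hu]
    rw [F.adj_comm a b, add_comm (E a b)]
  -- the value at `β`
  have hval : ∑ a, c (f a) * t a = 1 := by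
    have h1 : β = ∑ a, c (f a) • ((0, Pi.single a 1, 0) : Tg U V) := by
      rw [hβ]
      refine Prod.ext ?_ (Prod.ext ?_ ?_)
      · simp [Prod.fst_sum]
      · funext b
        simp [Prod.fst_sum, Prod.snd_sum, Finset.sum_apply, Pi.single_apply]
      · simp [Prod.snd_sum]
    have h2 : ψ β = ∑ a, c (f a) * t a := by
      rw [h1, map_sum]
      refine Finset.sum_congr rfl fun a _ => ?_
      rw [map_smul, smul_eq_mul]
    rw [← h2]
    have h3 : ∀ z : ZMod 2, z ≠ 0 → z = 1 := by decide
    exact h3 _ hψ1
  -- the equations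
  have heq : ∀ a j, X.Adj (f a) j → ∑ b, (if f b = j then u a b else 0) = t a := by
    intro a j haj
    have h1 := hψA (Pi.single a (Pi.single j 1))
    have h2 : sysA X F f (Pi.single a (Pi.single j 1)) = (0, Pi.single a 1, 0) +
        ∑ b, (if F.Adj a b ∧ f b = j then ((0, 0, E a b + E b a) : Tg U V) else 0) := by
      refine Prod.ext ?_ (Prod.ext ?_ ?_)
      · funext a' j'
        rw [Prod.fst_add, Prod.fst_sum]
        have e1 : ∀ b : V, (if F.Adj a b ∧ f b = j then ((0, 0, E a b + E b a) : Tg U V) else 0).1 = 0 := by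
          intro b
          split_ifs <;> rfl
        rw [Finset.sum_congr rfl fun b _ => e1 b, Finset.sum_const_zero, add_zero]
        show (if X.Adj (f a') j' then (0 : ZMod 2) else (Pi.single a (Pi.single j 1) : V → U → ZMod 2) a' j') = 0
        split_ifs with hh
        · rfl
        · by_cases ha : a' = a
          · subst ha
            rw [Pi.single_eq_same, Pi.single_eq_of_ne]
            rintro rfl
            exact hh haj
          · rw [Pi.single_eq_of_ne ha]
            rfl
      · funext a'
        rw [Prod.snd_add, Prod.fst_add, Prod.snd_sum, Prod.fst_sum]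
        have e1 : ∀ b : V, (if F.Adj a b ∧ f b = j then ((0, 0, E a b + E b a) : Tg U V) else 0).2.1 = 0 := by
          intro b
          split_ifs <;> rfl
        rw [Finset.sum_congr rfl fun b _ => e1 b, Finset.sum_const_zero, add_zero]
        show ∑ j', (Pi.single a (Pi.single j 1) : V → U → ZMod 2) a' j' = (Pi.single a 1 : V → ZMod 2) a'
        by_cases ha : a' = a
        · subst ha
          rw [Pi.single_eq_same, Pi.single_eq_same]
          simp
        · rw [Pi.single_eq_of_ne ha, Pi.single_eq_of_ne ha]
          simp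
      · funext a' b'
        rw [Prod.snd_add, Prod.snd_add, Prod.snd_sum, Prod.snd_sum]
        have e1 : ∀ b : V, (if F.Adj a b ∧ f b = j then ((0, 0, E a b + E b a) : Tg U V) else 0).2.2 =
            (if F.Adj a b ∧ f b = j then E a b + E b a else 0) := by
          intro b
          split_ifs <;> rfl
        rw [Finset.sum_congr rfl fun b _ => e1 b]
        show (if F.Adj a' b' then (Pi.single a (Pi.single j 1) : V → U → ZMod 2) a' (f b') +
          (Pi.single a (Pi.single j 1) : V → U → ZMod 2) b' (f a') else (0 : ZMod 2)) = _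
        rw [zero_add, Finset.sum_apply, Finset.sum_apply]
        have e2 : ∀ b : V, (if F.Adj a b ∧ f b = j then E a b + E b a else 0) a' b' =
            (if b = b' then (if F.Adj a b' ∧ f b' = j ∧ a' = a then (1 : ZMod 2) else 0) else 0) +
            (if b = a' then (if F.Adj a a' ∧ f a' = j ∧ b' = a then (1 : ZMod 2) else 0) else 0) := by
          intro b
          simp only [hE]
          by_cases hb : F.Adj a b ∧ f b = j
          · rw [if_pos hb, Pi.add_apply, Pi.add_apply]
            congr 1
            · by_cases h3 : b = b'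
              · subst h3
                by_cases h4 : a' = a
                · subst h4
                  simp [hb.1, hb.2]
                · simp [h4]
              · rw [if_neg h3]
                by_cases h4 : a' = a
                · subst h4
                  rw [Pi.single_eq_same, Pi.single_eq_of_ne (fun h => h3 h.symm)]
                · rw [Pi.single_eq_of_ne h4]
                  rfl
            · by_cases h3 : b = a'
              · subst h3
                by_cases h4 : b' = a
                · subst h4
                  simp [hb.1, hb.2]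
                · simp [h4]
              · rw [if_neg h3, Pi.single_eq_of_ne (fun h => h3 h.symm)]
                rfl
          · rw [if_neg hb]
            by_cases h3 : b = b'
            · subst h3
              rw [if_pos rfl, if_neg (fun h => hb ⟨h.1, h.2.1⟩)]
              by_cases h4 : b = a'
              · subst h4
                rw [if_pos rfl, if_neg (fun h => hb ⟨h.1, h.2.1⟩)]
                simp
              · rw [if_neg h4]
                simp
            · rw [if_neg h3]
              by_cases h4 : b = a'
              · subst h4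
                rw [if_pos rfl, if_neg (fun h => hb ⟨h.1, h.2.1⟩)]
                simp
              · rw [if_neg h4]
                simp
        rw [Finset.sum_congr rfl fun b _ => e2 b, Finset.sum_add_distrib, Finset.sum_ite_eq',
          Finset.sum_ite_eq', if_pos (Finset.mem_univ _), if_pos (Finset.mem_univ _)]
        have e3 : ∀ x y : V, (Pi.single a (Pi.single j 1) : V → U → ZMod 2) x (f y) =
            if x = a ∧ f y = j then 1 else 0 := by
          intro x y
          by_cases hx : x = a
          · subst hx
            rw [Pi.single_eq_same, Pi.single_apply]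
            simp
          · rw [Pi.single_eq_of_ne hx, if_neg (fun h => hx h.1)]
            rfl
        rw [e3, e3]
        by_cases hab : F.Adj a' b'
        · rw [if_pos hab]
          congr 1
          · refine if_congr ⟨fun h => ⟨by rw [← h.1]; exact hab, h.2, h.1⟩, fun h => ⟨h.2.2, h.2.1⟩⟩ rfl rfl
          · refine if_congr ⟨fun h => ⟨by rw [← h.1]; exact hab.symm, h.2, h.1⟩,
              fun h => ⟨h.2.2, h.2.1⟩⟩ rfl rfl
        · rw [if_neg hab, if_neg, if_neg, add_zero]
          · rintro ⟨h3, -, h4⟩
            rw [← h4] at h3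
            exact hab h3.symm
          · rintro ⟨h3, -, h4⟩
            rw [← h4] at h3
            exact hab h3
    rw [h2, map_add, map_sum] at h1
    have h3 : ∀ b : V, ψ (if F.Adj a b ∧ f b = j then ((0, 0, E a b + E b a) : Tg U V) else 0) =
        if f b = j then u a b else 0 := by
      intro b
      simp only [hu]
      by_cases h3 : F.Adj a b
      · by_cases h4 : f b = j
        · rw [if_pos ⟨h3, h4⟩, if_pos h4, if_pos h3]
        · rw [if_neg (fun h => h4 h.2), if_neg h4, map_zero]
      · rw [if_neg (fun h => h3 h.1), map_zero, if_neg h3]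
        simp
    rw [Finset.sum_congr rfl fun b _ => h3 b] at h1
    exact (CharTwo.add_eq_zero.1 h1).symm
  set y : V → V → Ch U := fun a b => u a b • (Pi.single s(f a, f b) 1 : Ch U) with hy
  have hyapp : ∀ a b e, y a b e = if e = s(f a, f b) then u a b else 0 := by
    intro a b e
    simp only [hy, Pi.smul_apply, Pi.single_apply, smul_eq_mul]
    split_ifs <;> simp
  have hysymm : ∀ a b, y a b = y b a := by
    intro a b
    funext e
    rw [hyapp, hyapp, husymm a b, Sym2.eq_swap]
  have hune : ∀ a b, u a b ≠ 0 → F.Adj a b := by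
    intro a b hne
    by_contra hn
    apply hne
    simp only [hu]
    rw [if_neg hn]
  have heqn : ∀ a, ∑ b, y a b = t a • star X univ (f a) := by
    intro a
    funext e
    rw [Finset.sum_apply, Pi.smul_apply, smul_eq_mul, Finset.sum_congr rfl fun b _ => hyapp a b e]
    by_cases hs : star X univ (f a) e = 0
    · rw [hs, mul_zero]
      refine Finset.sum_eq_zero fun b _ => ?_
      by_contra hne
      have h1 : e = s(f a, f b) := by
        by_contra h1
        exact hne (if_neg h1)
      rw [if_pos h1] at hne
      have h2 := f.map_rel (hune a b hne)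
      refine star_ne.2 ⟨?_, ?_, fun _ _ => Finset.mem_univ _⟩ hs
      · rw [h1]; exact h2
      · rw [h1]; exact Sym2.mem_mk_left _ _
    · have h1 := star_ne.1 hs
      obtain ⟨j, hj⟩ := h1.2.1
      subst hj
      have h2 : X.Adj (f a) j := h1.1
      have h3 : star X univ (f a) s(f a, j) = 1 := by
        have h4 : ∀ z : ZMod 2, z ≠ 0 → z = 1 := by decide
        exact h4 _ hs
      rw [h3, mul_one, ← heq a j h2]
      refine Finset.sum_congr rfl fun b _ => ?_
      refine if_congr ?_ rfl rfl
      rw [Sym2.congr_right, eq_comm]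
  refine ⟨⟨f, t, y, hysymm, ?_, ?_, heqn, ?_⟩⟩
  · intro a b hne
    apply hune
    intro h0'
    apply hne
    funext e
    rw [hyapp, h0']
    simp
  · intro a b e hne
    rw [hyapp] at hne
    have h1 : e = s(f a, f b) := by
      by_contra h1
      exact hne (if_neg h1)
    rw [if_pos h1] at hne
    have h2 := f.map_rel (hune a b hne)
    refine star_ne.2 ⟨?_, ?_, fun _ _ => Finset.mem_univ _⟩
    · rw [h1]; exact h2
    · rw [h1]; exact Sym2.mem_mk_left _ _
  · set r : U → ZMod 2 := fun i => ∑ a ∈ univ.filter (fun a => f a = i), t a with hr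
    have hdl : dl X univ r = 0 := by
      funext e
      have h1 : dl X univ r e = ∑ a, t a * star X univ (f a) e := by
        unfold dl
        simp only [hr, Finset.sum_mul]
        rw [← Finset.sum_fiberwise (s := univ) (g := f) (f := fun a => t a * star X univ (f a) e)]
        refine Finset.sum_congr rfl fun i _ => Finset.sum_congr rfl fun a ha => ?_
        rw [(Finset.mem_filter.1 ha).2]
      have h2 : ∀ a, t a * star X univ (f a) e = ∑ b, y a b e := by
        intro a
        have := congrFun (heqn a) e
        rw [Finset.sum_apply, Pi.smul_apply, smul_eq_mul] at this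
        exact this.symm
      rw [h1, Finset.sum_congr rfl fun a _ => h2 a, Pi.zero_apply]
      refine sum_symm (fun a b => y a b e) (fun a b => by rw [hysymm]) (fun a => ?_)
      rw [hyapp]
      split_ifs
      · by_contra hne
        exact F.loopless.irrefl a (hune a a hne)
      · rfl
    have hr0 : r i₀ = 1 := by
      rw [← hval]
      simp only [hr, hc, Finset.sum_filter]
      refine Finset.sum_congr rfl fun a _ => ?_
      rw [Pi.single_apply]
      split_ifs <;> simp
    intro i _
    have h1 := const_of_dl_eq_zero hG hQ hdl i (Finset.mem_univ _) i₀ (Finset.mem_univ _)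
    rw [hr0] at h1
    exact h1

end Dual

theorem cfi_hom {X : SimpleGraph U} {Q : ℕ} (hG : Good X univ Q) (hQ : 0 < Q) (i₀ : U) {V : Type}
    [Fintype V] (F : SimpleGraph V) (h : IsEmpty (HomX X univ F)) :
    Nat.card (F →g cfi X 0) = Nat.card (F →g cfi X (Pi.single i₀ 1)) := by
  haveI : Finite (F →g X) := DFunLike.finite _
  letI : Fintype (F →g X) := Fintype.ofFinite _
  rw [card_hom, card_hom]
  refine Finset.sum_congr rfl fun f _ => sol_eq ?_
  by_contra hne
  exact not_isEmpty_iff.2 (exists_homX hG hQ i₀ F f hne) h

end Pool.Agent.HomV
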