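import Pool.Agent.HomV.InitB

/-!
# The picture of a nearly embedded graph

Let `E` be a `k`-near embedding of `F` and `H` a homological copy of `X` over `Y` in `F` such that
no apex lies in a fibre over `Y` (`hapex`).  Then all labels at apices are `0`.

For every pair `u`, `v` with `y u v ≠ 0` decide: it is embedded if there is a dart from `u` to `v`
(choose one edge `e(u,v)` of the map), otherwise `u`, `v` lie in a common bag (of a unique
vortex).  The picture (`w = k`, the map `E.M`):
* `kind d = inl (f v)` if `pt d = inl v`, `inr i` if `pt d = inr i`;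
* `lam d = y u v` for the two darts of the chosen edge of an embedded pair, `lam` of the hub edge
  `hub i t` is the sum of the embedded labels at `soc i t`, all other labels are `0`;
* `T d` at ordinary vertices: for every vertex `v` of the surface in no bag with `t v = 1` one dart
  at `v` has `T d = Pi.single (f v) 1`; all other `T d` at ordinary vertices are `0`;
* `T (hub i t) = ∑ t a • Pi.single (f a) 1` over the vertices `a` whose last bag (of vortex `i`) is
  `bag i t`;
* contents: `K (hub i 0) = 0`, `K (fl (hub i t)) = K (hub i t) + lam + dl T`: the sum of the labels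
  of the bag edges between the vertices retired by time `t` and the others and of the hub labels
  of the society vertices met but not retired, so it is covered by the stars of
  `f (bag i t ∩ bag i (t + 1))` (`nuLe_of_cover`), and `0` after the last bag.
* `ord_vor` for the hub edges: `Absb` with `S = 0`: off the star of `f (soc i t)` the content
  before `t` is covered by `bag i (t-1) ∩ bag i t` without `soc i t`, at most `k - 1` stars.
`G2 ≤ 2 k` (`genus`), at most `k` vortices.
-/

set_option autoImplicit false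

namespace Pool.Agent.HomV

open Finset Classical

variable {U : Type} [Fintype U] {V : Type} [Fintype V] {X : SimpleGraph U} {Y : Finset U} {Q k : ℕ}

namespace Init

variable {F : SimpleGraph V} (E : NearEmb k F) (H : HomX X Y F)

/-- the chosen dart at the vertex of `d` -/
noncomputable def rp (d : E.D) : E.D := Quotient.out (Quotient.mk (Setoid.ker E.pt) d)

theorem pt_rp (d : E.D) : E.pt (rp E d) = E.pt d := Quotient.mk_out (s := Setoid.ker E.pt) d

theorem rp_congr {d d' : E.D} (h : E.pt d = E.pt d') : rp E d = rp E d' := by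
  unfold rp
  rw [Quotient.sound (s := Setoid.ker E.pt) h]

/-- the odd vertices absorbed at a dart -/
noncomputable def T (d : E.D) : U → ZMod 2 :=
  match E.pt d with
  | Sum.inl v => if ¬ InBag E v ∧ d = rp E d then Pi.single (H.f v) (H.t v) else 0
  | Sum.inr i => if h : ∃ t, (E.hub i t).1 = d then Th E H i (Classical.choose h) else 0

/-- the contents -/
noncomputable def K (x : E.D × Bool) : Ch U :=
  match E.pt x.1 with
  | Sum.inl _ => 0
  | Sum.inr i => if h : ∃ t, (E.hub i t).1 = x.1 then
      (if E.hub i (Classical.choose h) = x then C E H i (Classical.choose h).val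
        else C E H i ((Classical.choose h).val + 1)) else 0

/-- the kinds -/
noncomputable def kind (d : E.D) : U ⊕ ℕ :=
  match E.pt d with
  | Sum.inl v => Sum.inl (H.f v)
  | Sum.inr i => Sum.inr i.val

theorem kind_inl {d : E.D} {v : V} (h : E.pt d = Sum.inl v) : kind E H d = Sum.inl (H.f v) := by
  unfold kind
  rw [h]

theorem kind_inr {d : E.D} {i : Fin E.r} (h : E.pt d = Sum.inr i) : kind E H d = Sum.inr i.val := by
  unfold kind
  rw [h]

theorem of_kind_inl {d : E.D} {j : U} (h : kind E H d = Sum.inl j) :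
    ∃ v, E.pt d = Sum.inl v ∧ H.f v = j := by
  rcases h1 : E.pt d with v | i
  · rw [kind_inl E H h1] at h
    exact ⟨v, rfl, Sum.inl_injective h⟩
  · rw [kind_inr E H h1] at h
    exact absurd h (by simp)

theorem of_kind_inr {d : E.D} {n : ℕ} (h : kind E H d = Sum.inr n) :
    ∃ i, E.pt d = Sum.inr i ∧ i.val = n := by
  rcases h1 : E.pt d with v | i
  · rw [kind_inl E H h1] at h
    exact absurd h (by simp)
  · rw [kind_inr E H h1] at h
    exact ⟨i, rfl, Sum.inr_injective h⟩

theorem hub_inj {i : Fin E.r} {t t' : Fin (E.len i)} (h : (E.hub i t).1 = (E.hub i t').1) :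
    t = t' := by
  apply E.soc_inj i
  have h1 := E.hub_soc i t
  rw [h, E.hub_soc i t'] at h1
  exact (Sum.inl_injective h1).symm

theorem T_inl {d : E.D} {v : V} (h : E.pt d = Sum.inl v) :
    T E H d = if ¬ InBag E v ∧ d = rp E d then Pi.single (H.f v) (H.t v) else 0 := by
  unfold T
  rw [h]

theorem T_hub (i : Fin E.r) (t : Fin (E.len i)) : T E H (E.hub i t).1 = Th E H i t := by
  unfold T
  rw [E.pt_hub i t]
  have h : ∃ t', (E.hub i t').1 = (E.hub i t).1 := ⟨t, rfl⟩
  simp only
  rw [dif_pos h, hub_inj E (Classical.choose_spec h)]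

theorem K_hub (i : Fin E.r) (t : Fin (E.len i)) : K E H (E.hub i t) = C E H i t.val := by
  unfold K
  rw [E.pt_hub i t]
  have h : ∃ t', (E.hub i t').1 = (E.hub i t).1 := ⟨t, rfl⟩
  simp only
  rw [dif_pos h, hub_inj E (Classical.choose_spec h), if_pos rfl]

theorem K_fl (i : Fin E.r) (t : Fin (E.len i)) :
    K E H (fl (E.hub i t)) = C E H i (t.val + 1) := by
  unfold K
  rw [fl_fst, E.pt_hub i t]
  have h : ∃ t', (E.hub i t').1 = (E.hub i t).1 := ⟨t, rfl⟩
  simp only
  rw [dif_pos h, hub_inj E (Classical.choose_spec h), if_neg (fun h => fl_ne _ h.symm)]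

theorem finRotate_val {n : ℕ} (t : Fin n) :
    (finRotate n t).val = if t.val + 1 < n then t.val + 1 else 0 := by
  cases n with
  | zero => exact t.elim0
  | succ n =>
    rw [coe_finRotate]
    by_cases h : t = Fin.last n
    · rw [if_pos h, if_neg]
      rw [h]
      simp
    · rw [if_neg h, if_pos]
      have h1 : t.val ≠ n := fun h' => h (Fin.ext h')
      have := t.isLt
      omega

theorem C_rot (hapex : ∀ a ∈ E.apex, H.f a ∉ Y) (i : Fin E.r) (t : Fin (E.len i)) :
    C E H i (finRotate _ t).val = C E H i (t.val + 1) := by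
  rw [finRotate_val]
  split_ifs with h
  · rfl
  · rw [C_zero, C_len E H hapex i _ (by omega)]

theorem exists_hub {i : Fin E.r} {x : E.D × Bool} (h : E.pt x.1 = Sum.inr i) :
    ∃ t, x = E.hub i t ∨ x = fl (E.hub i t) := by
  obtain ⟨t, ht⟩ := E.hub_surj i x.1 h
  exact ⟨t, eq_or_eq_fl ht.symm⟩

theorem sum_T_inl (v : V) : ∑ d ∈ (@univ E.D E.fin).filter (fun d => E.pt d = Sum.inl v), T E H d =
    if ¬ InBag E v ∧ ∃ d, E.pt d = Sum.inl v then Pi.single (H.f v) (H.t v) else 0 := by
  let _ := E.fin
  by_cases h : ¬ InBag E v ∧ ∃ d, E.pt d = Sum.inl v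
  · rw [if_pos h]
    obtain ⟨hv, d, hd⟩ := h
    rw [sum_eq_single (rp E d)]
    · have h1 : E.pt (rp E d) = Sum.inl v := (pt_rp E d).trans hd
      rw [T_inl E H h1, if_pos ⟨hv, (rp_congr E (pt_rp E d)).symm⟩]
    · intro d' hd' hne
      rw [mem_filter] at hd'
      rw [T_inl E H hd'.2, if_neg]
      rintro ⟨_, h2⟩
      rw [rp_congr E (hd'.2.trans hd.symm)] at h2
      exact hne h2
    · intro h1
      exact absurd (mem_filter.2 ⟨mem_univ (rp E d), (pt_rp E d).trans hd⟩) h1
  · rw [if_neg h]
    apply sum_eq_zero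
    intro d hd
    rw [mem_filter] at hd
    rw [T_inl E H hd.2, if_neg]
    rintro ⟨hv, _⟩
    exact h ⟨hv, d, hd.2⟩

theorem sum_T_inr (i : Fin E.r) :
    ∑ d ∈ (@univ E.D E.fin).filter (fun d => E.pt d = Sum.inr i), T E H d =
      ∑ v, if ∃ t, v ∈ E.bag i t then Pi.single (H.f v) (H.t v) else 0 := by
  let _ := E.fin
  have h1 : (univ : Finset E.D).filter (fun d => E.pt d = Sum.inr i) =
      (univ : Finset (Fin (E.len i))).image (fun t => (E.hub i t).1) := by
    ext d
    simp only [mem_filter, mem_univ, true_and, mem_image]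
    constructor
    · exact fun h => E.hub_surj i d h
    · rintro ⟨t, rfl⟩
      exact E.pt_hub i t
  rw [h1, sum_image (fun t _ t' _ h => hub_inj E h)]
  simp only [T_hub]
  unfold Th
  simp only [sum_filter]
  rw [sum_comm]
  apply sum_congr rfl
  intro v _
  by_cases h : ∃ t, v ∈ E.bag i t
  · rw [if_pos h]
    obtain ⟨s, hs⟩ := h
    obtain ⟨t, ht, _⟩ := exists_ret E hs
    rw [sum_eq_single t]
    · rw [if_pos ht]
    · intro t' _ hne
      rw [if_neg]
      exact fun h => hne (ret_unique E h ht)
    · exact fun h => absurd (mem_univ t) h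
  · rw [if_neg h]
    apply sum_eq_zero
    intro t _
    rw [if_neg]
    exact fun h' => h ⟨t, h'.1⟩

theorem star_ne_zero (hG : Good X Y Q) (hQ : 0 < Q) {i : U} (hi : i ∈ Y) : star X Y i ≠ 0 := by
  have h1 := hG.deg i hi
  obtain ⟨j, hj⟩ : (Y.filter (fun j => X.Adj i j)).Nonempty := card_pos.1 (by omega)
  rw [mem_filter] at hj
  intro h
  have h2 : star X Y i s(i, j) ≠ 0 := star_ne.2 ⟨hj.2, Sym2.mem_mk_left i j, by
    intro l hl
    rw [Sym2.mem_iff] at hl
    rcases hl with rfl | rfl
    · exact hi
    · exact hj.1⟩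
  rw [h] at h2
  exact h2 rfl

theorem total (hG : Good X Y Q) (hQ : 0 < Q) (hapex : ∀ a ∈ E.apex, H.f a ∉ Y) (j : U)
    (hj : j ∈ Y) : ∑ d ∈ (@univ E.D E.fin), T E H d j = 1 := by
  let _ := E.fin
  have h1 : ∑ d, T E H d = ∑ v, (if InBag E v ∨ ∃ d, E.pt d = Sum.inl v then
      (Pi.single (H.f v) (H.t v) : U → ZMod 2) else 0) := by
    rw [← sum_fiberwise (univ : Finset E.D) E.pt, Fintype.sum_sum_type]
    simp only [sum_T_inl, sum_T_inr]
    rw [sum_comm, ← sum_add_distrib]
    apply sum_congr rfl
    intro v _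
    by_cases hv : InBag E v
    · rw [if_neg (fun h => h.1 hv), zero_add, if_pos (Or.inl hv)]
      obtain ⟨i, t, ht⟩ := hv
      rw [sum_eq_single i]
      · rw [if_pos ⟨t, ht⟩]
      · intro i' _ hne
        rw [if_neg]
        rintro ⟨t', ht'⟩
        exact hne (E.bag_disj i' i t' t v ht' ht)
      · exact fun h => absurd (mem_univ i) h
    · have h2 : ∑ i : Fin E.r, (if ∃ t, v ∈ E.bag i t then
          (Pi.single (H.f v) (H.t v) : U → ZMod 2) else 0) = 0 := by
        apply sum_eq_zero
        intro i _
        rw [if_neg]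
        rintro ⟨t, ht⟩
        exact hv ⟨i, t, ht⟩
      rw [h2, add_zero]
      by_cases hd : ∃ d, E.pt d = Sum.inl v
      · rw [if_pos ⟨hv, hd⟩, if_pos (Or.inr hd)]
      · rw [if_neg (fun h => hd h.2), if_neg]
        rintro (h | h)
        · exact hv h
        · exact hd h
  rw [← Finset.sum_apply, h1, Finset.sum_apply, ← H.total j hj, sum_filter]
  apply sum_congr rfl
  intro v _
  by_cases hv : H.f v = j
  · rw [if_pos hv]
    by_cases h : InBag E v ∨ ∃ d, E.pt d = Sum.inl v
    · rw [if_pos h, hv, Pi.single_eq_same]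
    · rw [if_neg h]
      push Not at h
      have h2 := sum_y E H v
      rw [L_zero E H (by rintro ⟨d, hd⟩; exact h.2 d hd), zero_add, sum_eq_zero] at h2
      · by_contra h3
        have h4 : H.t v ≠ 0 := fun h4 => h3 (by rw [h4]; rfl)
        rcases smul_eq_zero.1 h2.symm with h5 | h5
        · exact h4 h5
        · exact star_ne_zero hG hQ (hv ▸ hj) h5
      · intro b _
        by_contra h3
        obtain ⟨i, t, h4, _⟩ := y'_bag E H hapex h3
        exact h.1 ⟨i, t, h4⟩
  · rw [if_neg hv]
    split_ifs
    · exact Pi.single_eq_of_ne (Ne.symm hv) _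
    · rfl

theorem ord_sum (hapex : ∀ a ∈ E.apex, H.f a ∉ Y) (x : E.D × Bool) (v : V)
    (hx : E.pt x.1 = Sum.inl v) :
    ∑ d ∈ (@univ E.D E.fin).filter (fun d => E.M.SameV x (d, false)),
      (lam E H d + dl X Y (T E H d)) = 0 := by
  let _ := E.fin
  have h1 : (univ : Finset E.D).filter (fun d => E.M.SameV x (d, false)) =
      univ.filter (fun d => E.pt d = Sum.inl v) := by
    ext d
    simp only [mem_filter, mem_univ, true_and]
    have h2 := E.pt_iff x (d, false)
    rw [hx] at h2
    exact ⟨fun h => (h2.2 h).symm, fun h => h2.1 h.symm⟩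
  rw [h1, sum_add_distrib, ← dl_sum, sum_T_inl]
  by_cases hv : InBag E v
  · rw [sum_bag E H hv hx, if_neg (fun h => h.1 hv), dl_zero, add_zero]
  · rw [sum_surf E H hapex hv, if_pos ⟨hv, x.1, hx⟩,
      dl_single _ (H.f v) (fun j hj => Pi.single_eq_of_ne hj _), Pi.single_eq_same]
    exact ch_add_self _

theorem card_even {D : Type} [Fintype D] (M : CMap D) : 2 * (Nat.card D / 2) = Nat.card D := by
  have h1 : ((Fintype.card D : ℕ) : ZMod 2) = 0 := by
    have h2 : ∑ _d : D, (1 : ZMod 2) = 0 :=
      Finset.sum_involution (fun d _ => M.opp d) (fun d _ => by decide)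
        (fun d _ _ => M.opp_ne d) (fun d _ => mem_univ _) (fun d _ => M.opp_opp d)
    simpa using h2
  rw [Nat.card_eq_fintype_card]
  rw [ZMod.natCast_eq_zero_iff] at h1
  omega

/-- the picture -/
noncomputable def pic (hapex : ∀ a ∈ E.apex, H.f a ∉ Y) :
    @Pic U _ X Y k E.D E.fin := by
  let _ := E.fin
  exact
  { E.M with
    kind := kind E H
    lam := lam E H
    K := K E H
    T := T E H
    kind_corner := by
      intro x
      have h := (E.pt_iff x (E.M.corner x)).2 (E.M.sameV_corner x)
      unfold kind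
      rw [h]
    vor_conn := by
      intro x y n hx hy
      obtain ⟨i, hi, hin⟩ := of_kind_inr E H hx
      obtain ⟨j, hj, hjn⟩ := of_kind_inr E H hy
      have hij : i = j := Fin.ext (hin.trans hjn.symm)
      subst hij
      exact (E.pt_iff x y).1 (hi.trans hj.symm)
    lam_opp := lam_opp E H
    lam_supp := by
      intro d
      obtain ⟨v, hv⟩ := lam_star' E H d
      exact hv.supp
    lam_nu := by
      intro d
      obtain ⟨v, hv⟩ := lam_star' E H d
      exact nuLe_one_of_mem (fun e he => hv.mem e he)
    ord_lam := by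
      intro d j hd
      obtain ⟨v, hv, rfl⟩ := of_kind_inl E H hd
      exact lam_star E H hv
    ord_T := by
      intro d j hd l hl
      obtain ⟨v, hv, rfl⟩ := of_kind_inl E H hd
      rw [T_inl E H hv]
      split_ifs
      · exact Pi.single_eq_of_ne hl _
      · rfl
    ord_sum := by
      intro x j hx
      obtain ⟨v, hv, _⟩ := of_kind_inl E H hx
      exact ord_sum E H hapex x v hv
    vor_K := by
      intro x n hx
      obtain ⟨i, hi, _⟩ := of_kind_inr E H hx
      obtain ⟨t, ht | ht⟩ := exists_hub E hi
      · have h1 : E.M.corner x = fl (E.hub i ((finRotate _).symm t)) := by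
          rw [ht]
          have h2 := E.hub_next i ((finRotate _).symm t)
          rw [Equiv.apply_symm_apply] at h2
          rw [← h2, E.M.cc]
        rw [h1, K_fl, ht, K_hub, ← C_rot E H hapex, Equiv.apply_symm_apply]
      · rw [ht, E.hub_next, K_hub, K_fl, C_rot E H hapex]
    vor_eqn := by
      intro d n hd
      obtain ⟨i, hi, _⟩ := of_kind_inr E H hd
      obtain ⟨t, ht⟩ := E.hub_surj i d hi
      have h1 : K E H (d, false) + K E H (d, true) =
          K E H (E.hub i t) + K E H (fl (E.hub i t)) := by
        rcases h2 : E.hub i t with ⟨d', s⟩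
        have h3 : d' = d := by
          rw [h2] at ht
          exact ht
        subst h3
        cases s
        · rfl
        · exact add_comm _ _
      rw [h1, K_hub, K_fl, C_succ, ← add_assoc, ch_add_self, zero_add, ← ht, lam_hub, T_hub]
    vor_nu := by
      intro x n hx
      obtain ⟨i, hi, _⟩ := of_kind_inr E H hx
      obtain ⟨t, ht | ht⟩ := exists_hub E hi
      · rw [ht, K_hub]
        exact C_nu E H hapex i _
      · rw [ht, K_fl]
        exact C_nu E H hapex i _
    vor_supp := by
      intro x n hx
      obtain ⟨i, hi, _⟩ := of_kind_inr E H hx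
      obtain ⟨t, ht | ht⟩ := exists_hub E hi
      · rw [ht, K_hub]
        exact C_supp E H i _
      · rw [ht, K_fl]
        exact C_supp E H i _
    vor_T := by
      intro d n hd
      obtain ⟨i, hi, _⟩ := of_kind_inr E H hd
      obtain ⟨t, ht⟩ := E.hub_surj i d hi
      rw [← ht, T_hub]
      have := Th_sz E H i t
      omega
    ord_vor := by
      intro d j n hd hn
      obtain ⟨v, hv, rfl⟩ := of_kind_inl E H hd
      obtain ⟨i, hi, _⟩ := of_kind_inr E H hn
      right
      obtain ⟨t, ht⟩ := E.hub_surj i _ hi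
      have h1 := E.hub_soc i t
      rw [ht, E.M.opp_opp, hv] at h1
      have h2 : v = E.soc i t := Sum.inl_injective h1
      refine ⟨xor (E.hub i t).2 (E.M.tw d), ?_⟩
      have h3 : E.M.across (d, xor (E.hub i t).2 (E.M.tw d)) = E.hub i t := by
        unfold CMap.across
        refine Prod.ext ht.symm ?_
        show xor (xor (E.hub i t).2 (E.M.tw d)) (E.M.tw d) = (E.hub i t).2
        cases (E.hub i t).2 <;> cases E.M.tw d <;> rfl
      show Absb X Y k (H.f v) (K E H (E.M.across (d, xor (E.hub i t).2 (E.M.tw d))))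
      rw [h3, K_hub, h2]
      exact C_absb E H hapex i t }

end Init

theorem exists_pic (hG : Good X Y Q) (hQ : 0 < Q) {F : SimpleGraph V} (E : NearEmb k F)
    (H : HomX X Y F) (hapex : ∀ a ∈ E.apex, H.f a ∉ Y) :
    ∃ (D : Type) (_ : Fintype D) (M : Pic X Y k D), Cex False (3 * k) M := by
  refine ⟨E.D, E.fin, Init.pic E H hapex, ?_, ?_, fun h => h.elim⟩
  · intro i hi
    exact Init.total E H hG hQ hapex i hi
  · let _ := E.fin
    have h1 : ((Init.pic E H hapex).vnums Set.univ).ncard ≤ k := by
      have h2 : (Init.pic E H hapex).vnums Set.univ ⊆ ((Finset.range E.r : Finset ℕ) : Set ℕ) := by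
        rintro n ⟨d, _, hd⟩
        obtain ⟨i, _, hi⟩ := Init.of_kind_inr E H (show Init.kind E H d = Sum.inr n from hd)
        rw [Finset.mem_coe, Finset.mem_range, ← hi]
        exact i.isLt
      have h3 := Set.ncard_le_ncard h2 (Finset.finite_toSet _)
      rw [Set.ncard_coe_finset, Finset.card_range] at h3
      exact h3.trans E.r_le
    have h4 : E.M.G2 ≤ 2 * k := by
      have h5 := E.genus
      unfold CMap.EulerGenusLE CMap.nE at h5
      have h6 := Init.card_even E.M
      unfold CMap.G2
      omega
    have h7 : (Init.pic E H hapex).toCMap = E.M := rfl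
    rw [h7]
    push_cast
    omega

end Pool.Agent.HomV
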