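import Pool.Agent.HomV.Key
import Pool.Agent.HomV.Cfi
import Pool.Agent.HomV.Sum
import Pool.Agent.HomV.Init
import Pool.Agent.HomV.Aff

/-!
# Homomorphism counts from nearly embeddable graphs do not determine a graph
-/

set_option autoImplicit false

namespace Pool.Agent.HomV

open Finset Classical

/-- no graph of the class contains a homological copy of a good graph -/
theorem no_homX (k : ℕ) : ∃ Q : ℕ, ∀ {U : Type} [Fintype U] (X : SimpleGraph U),
    Good X univ Q → ∀ {V : Type} [Fintype V] (F : SimpleGraph V), InClass k F →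
      IsEmpty (HomX X univ F) := by
  obtain ⟨Q, hQ⟩ := key k (3 * k)
  refine ⟨Q + k + 1, fun {U} _ X hG {V} _ F hF => ?_⟩
  induction hF with
  | near F h =>
    obtain ⟨E⟩ := h
    refine ⟨fun H => ?_⟩
    obtain ⟨H', hf, _⟩ := homX_sdiff H (E.apex.image H.f)
    have hT : (E.apex.image H.f).card ≤ k := card_image_le.trans E.apex_card
    have hG' := hG.sdiff (E.apex.image H.f) hT (by omega)
    obtain ⟨D, _, M, hM⟩ := exists_pic hG' (by omega) E H' (by
      intro a ha
      rw [hf, mem_sdiff]
      exact fun h => h.2 (mem_image_of_mem _ ha))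
    exact hQ X _ (hG'.mono (by omega)) D M hM
  | sum F A B hAB hadj hcard hA hB ihA ihB =>
    refine ⟨fun H => ?_⟩
    rcases homX_torso hG (k := k) (by omega) H A B hAB hadj hcard with h | h
    · exact ihA.false h.some
    · exact ihB.false h.some

theorem main (k : ℕ) : ∃ (W W' : Type) (_ : Fintype W) (_ : Fintype W') (G : SimpleGraph W)
    (H : SimpleGraph W'), IsEmpty (G ≃g H) ∧
      ∀ (V : Type) [Fintype V] (F : SimpleGraph V), InClass k F →
        Nat.card (F →g G) = Nat.card (F →g H) := by
  obtain ⟨Q, hQ⟩ := no_homX k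
  obtain ⟨U, _, X, hG⟩ := exists_good (Q + 1)
  obtain ⟨i₀, _⟩ := hG.ne
  have hG' := hG.mono (Q' := Q) (by omega)
  exact ⟨_, _, inferInstance, inferInstance, cfi X 0, cfi X (Pi.single i₀ 1),
    cfi_not_iso hG (by omega) i₀, fun V _ F hF => cfi_hom hG (by omega) i₀ F (hQ X hG' F hF)⟩

end Pool.Agent.HomV
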