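import Mathlib

/-!
# Chains on a graph: definitions

`X` is a graph on `U`, `Y` a set of live vertices.  A chain is a function `Sym2 U → ZMod 2`.
-/

set_option autoImplicit false

namespace Pool.Agent.HomV

open Finset Classical

variable {U : Type} [Fintype U]

/-- chains mod 2 -/
abbrev Ch (U : Type) := Sym2 U → ZMod 2

/-- the star of `i`: all edges between vertices of `Y` that contain `i` -/
noncomputable def star (X : SimpleGraph U) (Y : Finset U) (i : U) : Ch U :=
  fun e => if e ∈ X.edgeSet ∧ i ∈ e ∧ ∀ j ∈ e, j ∈ Y then 1 else 0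

/-- the cut of `T`: the sum of the stars of the vertices in `T` -/
noncomputable def dl (X : SimpleGraph U) (Y : Finset U) (T : U → ZMod 2) : Ch U :=
  fun e => ∑ i, T i * star X Y i e

/-- the matchings in the support of `K` have at most `m` edges -/
def NuLe (K : Ch U) (m : ℕ) : Prop :=
  ∀ M : Finset (Sym2 U), (∀ e ∈ M, K e ≠ 0) →
    (∀ e ∈ M, ∀ e' ∈ M, e ≠ e' → ∀ i, i ∈ e → i ∉ e') → M.card ≤ m

/-- the matchings in the support of `K` have less than `m` edges -/
def NuLt (K : Ch U) (m : ℕ) : Prop :=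
  ∀ M : Finset (Sym2 U), (∀ e ∈ M, K e ≠ 0) →
    (∀ e ∈ M, ∀ e' ∈ M, e ≠ e' → ∀ i, i ∈ e → i ∉ e') → M.card < m

/-- `K` is supported in the star of `i` -/
def InStar (X : SimpleGraph U) (Y : Finset U) (i : U) (K : Ch U) : Prop :=
  ∀ e, K e ≠ 0 → star X Y i e ≠ 0

/-- `K` is supported on the edges between vertices of `Y` -/
def Supp (X : SimpleGraph U) (Y : Finset U) (K : Ch U) : Prop :=
  ∀ e, K e ≠ 0 → e ∈ X.edgeSet ∧ ∀ j ∈ e, j ∈ Y

/-- `K` has at most one edge -/
def Single (K : Ch U) : Prop := ∃ e, ∀ e', K e' ≠ 0 → e' = e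

/-- delete the edges at `i` -/
noncomputable def cut (i : U) (K : Ch U) : Ch U := fun e => if i ∈ e then 0 else K e

/-- restriction of a chain to the edges between vertices of `Y` -/
noncomputable def resC (Y : Finset U) (K : Ch U) : Ch U := fun e => if ∀ j ∈ e, j ∈ Y then K e else 0

/-- the size of `T` in `Y` -/
noncomputable def sz (Y : Finset U) (T : U → ZMod 2) : ℕ := (Y.filter (fun i => T i ≠ 0)).card

/-- an ordinary vertex of fibre `i` can be absorbed at a corner with content `K`: some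
representative of `K` has matching number less than `w` off the star of `i` -/
def Absb (X : SimpleGraph U) (Y : Finset U) (w : ℕ) (i : U) (K : Ch U) : Prop :=
  ∃ S : U → ZMod 2, sz Y S ≤ 4 * w + 2 ∧ NuLt (cut i (K + dl X Y S)) w

/-- `X` has no triangle and no 4-cycle, all degrees in `Y` are at least `Q`, and `Y` cannot be
disconnected by deleting less than `Q` vertices. -/
structure Good (X : SimpleGraph U) (Y : Finset U) (Q : ℕ) : Prop where
  tri : ∀ a b c, X.Adj a b → X.Adj b c → X.Adj c a → False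
  c4 : ∀ a b c d, X.Adj a b → X.Adj b c → X.Adj c d → X.Adj d a → a = c ∨ b = d
  deg : ∀ i ∈ Y, Q ≤ (Y.filter (fun j => X.Adj i j)).card
  conn : ∀ S : Finset U, S.card < Q → ∀ T : Finset U, T ⊆ Y \ S → T.Nonempty →
    ((Y \ S) \ T).Nonempty → ∃ i ∈ T, ∃ j ∈ (Y \ S) \ T, X.Adj i j
  ne : Y.Nonempty

/-- the degree of `x` in the chain `R` -/
noncomputable def dg (R : Ch U) (x : U) : ℕ := (univ.filter (fun e : Sym2 U => x ∈ e ∧ R e ≠ 0)).card

end Pool.Agent.HomV
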