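import Pool.Agent.HomV.Red

/-!
# R4a: an ordinary vertex at a vortex cannot be absorbed

`exists_potential`: on the cycle of flags of a vertex with `∑ g d = 0` there is a function `K` with
`K ∘ corner = K`, `K (fl y) + K y = g y.1` and a given value at one flag; all values differ from
the given one by a sum of values of `g`.

`R4a`: `x` at a vortex, `x₀ = across x` at an ordinary vertex `a` of fibre `i`, `R = K x + dl S`,
`sz Y S ≤ 4 * w + 2`, `NuLt (cut i R) w` (so `NuLe R w`): give `a` the kind of `x` with the contents of `exists_potential` for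
`g d = lam d + dl (T d)` and the value `R` at `x₀` (they differ from `R` by chains in the star of
`i`: `nuLe_of_cut`), gauge at the corner of `x` by `S` (`K x = K (corner x) = R`, add `S` to `T` of
both darts; small by `rigid'`), switch at `corner x₀`, `x` (`fac x = corner x₀`).  The result is a
counterexample with `corner x₀ = x = across x₀`, contradiction to `R3`.
(`ord_vor` at the edges from `a` to ordinary vertices: `R2` and `single_of_inStar`.)
-/

set_option autoImplicit false

namespace Pool.Agent.HomV

open Finset Classical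

variable {U : Type} [Fintype U] {X : SimpleGraph U} {Y : Finset U} {w : ℕ} {D : Type} [Fintype D]
  {Q N : ℕ} {β : Prop}

/-! ### walking around a vertex -/

namespace AbsAux

omit [Fintype D] in
theorem succ' (M : CMap D) (x : D × Bool) (s : ℕ) :
    (M.rot ^ (s + 1)) x = M.corner (fl ((M.rot ^ s) x)) := by
  rw [pow_succ', Equiv.Perm.mul_apply]
  rfl

omit [Fintype D] in
theorem add' (M : CMap D) (x : D × Bool) (s t : ℕ) :
    (M.rot ^ s) ((M.rot ^ t) x) = (M.rot ^ (s + t)) x := by
  rw [pow_add, Equiv.Perm.mul_apply]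

omit [Fintype D] in
theorem cancel' (M : CMap D) {x : D × Bool} {s t : ℕ}
    (h : (M.rot ^ (s + t)) x = (M.rot ^ t) x) : (M.rot ^ s) x = x := by
  rw [add_comm, ← add'] at h
  exact (M.rot ^ t).injective h

omit [Fintype D] in
theorem ne_fl' (M : CMap D) (x : D × Bool) (s : ℕ) : (M.rot ^ s) x ≠ fl x := by
  have := M.rot_pow_ne_fl s x
  rwa [zpow_natCast] at this

omit [Fintype D] in
theorem ne_corner' (M : CMap D) (x : D × Bool) (s : ℕ) : (M.rot ^ s) x ≠ M.corner x := by
  have := M.rot_pow_ne_corner s x
  rwa [zpow_natCast] at this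

omit [Fintype D] in
theorem iter' (M : CMap D) (x : D × Bool) (s : ℕ) :
    (⇑M.rot)^[s] x = (M.rot ^ s) x := by
  rw [Equiv.Perm.iterate_eq_pow]

/-- the number of darts of the vertex of `x` -/
noncomputable def dgr (M : CMap D) (x : D × Bool) : ℕ := Function.minimalPeriod M.rot x

theorem dgr_pos (M : CMap D) (x : D × Bool) : 0 < dgr M x := by
  have h1 : (M.rot ^ orderOf M.rot) x = x := by
    rw [pow_orderOf_eq_one]
    rfl
  have h2 : Function.IsPeriodicPt M.rot (orderOf M.rot) x := by
    unfold Function.IsPeriodicPt Function.IsFixedPt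
    rw [iter', h1]
  exact h2.minimalPeriod_pos (orderOf_pos M.rot)

omit [Fintype D] in
theorem pow_dgr (M : CMap D) (x : D × Bool) : (M.rot ^ dgr M x) x = x := by
  rw [← iter']
  exact Function.iterate_minimalPeriod

omit [Fintype D] in
theorem pow_ne' (M : CMap D) {x : D × Bool} {s : ℕ} (h0 : 0 < s) (h1 : s < dgr M x) :
    (M.rot ^ s) x ≠ x := by
  intro h
  rw [← iter'] at h
  exact Function.not_isPeriodicPt_of_pos_of_lt_minimalPeriod h0.ne' h1 h

omit [Fintype D] in
theorem fst_ne' (M : CMap D) (x : D × Bool) (s : ℕ) (h : ((M.rot ^ s) x) ≠ x) :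
    ((M.rot ^ s) x).1 ≠ x.1 := by
  intro h1
  rcases eq_or_eq_fl h1 with h2 | h2
  · exact h h2
  · exact ne_fl' M x s h2

/-- the darts of the vertex of `x` are visited exactly once -/
theorem sum_vtx {A : Type} [AddCommMonoid A] (M : CMap D) (x : D × Bool) (g : D → A) :
    ∑ d ∈ univ.filter (fun d => M.SameV x (d, false)), g d =
      ∑ s ∈ range (dgr M x), g ((M.rot ^ s) x).1 := by
  symm
  apply Finset.sum_nbij (fun s => ((M.rot ^ s) x).1)
  · intro s _
    rw [mem_filter]
    refine ⟨mem_univ _, ?_⟩
    have h1 : M.SameV x ((M.rot ^ s) x) := (M.sameV_iff _ _).2 ⟨s, Or.inl rfl⟩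
    rcases eq_or_eq_fl (x := (M.rot ^ s) x) (y := (((M.rot ^ s) x).1, false)) rfl with h2 | h2
    · rw [h2]
      exact h1
    · rw [h2]
      exact h1.trans _ _ _ (M.sameV_fl _)
  · have key : ∀ s t : ℕ, s ≤ t → t < dgr M x → ((M.rot ^ s) x).1 = ((M.rot ^ t) x).1 → s = t := by
      intro s t hst ht h1
      obtain ⟨k, rfl⟩ := Nat.exists_eq_add_of_le' hst
      rw [← add'] at h1
      by_contra hne
      refine fst_ne' M ((M.rot ^ s) x) k ?_ h1.symm
      rw [add']
      intro h2
      exact pow_ne' M (by omega) (by omega) (cancel' M h2)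
    intro s hs t ht h1
    rw [mem_coe, mem_range] at hs ht
    rcases le_total s t with h2 | h2
    · exact key s t h2 ht h1
    · exact (key t s h2 hs h1.symm).symm
  · intro d hd
    rw [mem_coe, mem_filter] at hd
    obtain ⟨n, hn⟩ := (M.sameV_iff _ _).1 hd.2
    have hpos := dgr_pos M x
    have key : ∃ m : ℕ, ((M.rot ^ m) x).1 = d := by
      rcases hn with hn | hn
      · exact ⟨n, by rw [hn]⟩
      · refine ⟨n + (dgr M x - 1), ?_⟩
        have h1 : M.rot ((M.rot ^ (n + (dgr M x - 1))) x) = M.rot (fl (d, false)) := by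
          have h2 : M.rot ((M.rot ^ (n + (dgr M x - 1))) x) =
              (M.rot ^ (n + (dgr M x - 1) + 1)) x := by
            rw [pow_succ', Equiv.Perm.mul_apply]
          rw [h2, show n + (dgr M x - 1) + 1 = n + dgr M x by omega, ← add', pow_dgr, hn,
            M.rot_apply, fl_fl]
        rw [M.rot.injective h1]
        rfl
    obtain ⟨m, hm⟩ := key
    refine ⟨m % dgr M x, ?_, ?_⟩
    · rw [mem_coe, mem_range]
      exact Nat.mod_lt _ hpos
    · change ((M.rot ^ (m % dgr M x)) x).1 = d
      rw [← hm, ← iter', ← iter']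
      congr 1
      exact Function.iterate_mod_minimalPeriod_eq
  · intro s _
    rfl

theorem sum_per (M : CMap D) (x : D × Bool) (g : D → Ch U)
    (hsum : ∑ d ∈ univ.filter (fun d => M.SameV x (d, false)), g d = 0) :
    ∀ j : ℕ, (M.rot ^ j) x = x → ∑ t ∈ range j, g ((M.rot ^ t) x).1 = 0 := by
  intro j
  induction j using Nat.strong_induction_on with
  | _ j ih =>
    intro hj
    rcases Nat.eq_zero_or_pos j with rfl | h0
    · simp
    · have h1 : dgr M x ≤ j := by
        by_contra h2
        exact pow_ne' M h0 (by omega) hj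
      have hpos := dgr_pos M x
      obtain ⟨k, rfl⟩ := Nat.exists_eq_add_of_le h1
      have h3 : (M.rot ^ k) x = x := by
        have h4 : (M.rot ^ (k + dgr M x)) x = (M.rot ^ dgr M x) x := by
          rw [add_comm k, hj, pow_dgr]
        exact cancel' M h4
      rw [Finset.sum_range_add, ← sum_vtx, hsum, zero_add]
      have h4 : ∀ t, (M.rot ^ (dgr M x + t)) x = (M.rot ^ t) x := by
        intro t
        rw [add_comm, ← add', pow_dgr]
      simp only [h4]
      exact ih k (by omega) h3

/-- the potential along the walk -/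
noncomputable def pot (M : CMap D) (x : D × Bool) (g : D → Ch U) (R : Ch U) (n : ℕ) : Ch U :=
  R + ∑ t ∈ range n, g ((M.rot ^ t) x).1

omit [Fintype D] in
theorem pot_zero (M : CMap D) (x : D × Bool) (g : D → Ch U) (R : Ch U) : pot M x g R 0 = R := by
  simp [pot]

omit [Fintype D] in
theorem pot_succ (M : CMap D) (x : D × Bool) (g : D → Ch U) (R : Ch U) (n : ℕ) :
    pot M x g R (n + 1) = pot M x g R n + g ((M.rot ^ n) x).1 := by
  unfold pot
  rw [Finset.sum_range_succ, add_assoc]

theorem pot_eq (M : CMap D) (x : D × Bool) (g : D → Ch U) (R : Ch U)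
    (hsum : ∑ d ∈ univ.filter (fun d => M.SameV x (d, false)), g d = 0) {n m : ℕ}
    (h : (M.rot ^ n) x = (M.rot ^ m) x) : pot M x g R n = pot M x g R m := by
  have key : ∀ n m : ℕ, n ≤ m → (M.rot ^ n) x = (M.rot ^ m) x →
      pot M x g R n = pot M x g R m := by
    intro n m hnm h
    obtain ⟨j, rfl⟩ := Nat.exists_eq_add_of_le' hnm
    have hj : (M.rot ^ j) x = x := cancel' M h.symm
    unfold pot
    rw [Finset.sum_range_add, sum_per M x g hsum j hj, zero_add]
    have h4 : ∀ t, (M.rot ^ (j + t)) x = (M.rot ^ t) x := by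
      intro t
      rw [add_comm, ← add', hj]
    simp only [h4]
  rcases le_total n m with h1 | h1
  · exact key n m h1 h
  · exact (key m n h1 h.symm).symm

end AbsAux

open AbsAux in
theorem exists_potential (M : CMap D) (x : D × Bool) (g : D → Ch U) (R : Ch U)
    (hsum : ∑ d ∈ univ.filter (fun d => M.SameV x (d, false)), g d = 0) (P : Ch U → Prop)
    (hP : P R) (hPg : ∀ d, M.SameV x (d, false) → ∀ L, P L → P (L + g d)) :
    ∃ K : D × Bool → Ch U, K x = R ∧ ∀ y, M.SameV x y →
      K (M.corner y) = K y ∧ K (fl y) + K y = g y.1 ∧ P (K y) := by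
  let K : D × Bool → Ch U := fun y =>
    if h : ∃ n : ℕ, (M.rot ^ n) x = y ∨ (M.rot ^ n) x = M.corner y then pot M x g R h.choose else 0
  have hK : ∀ (n : ℕ) (y : D × Bool), (M.rot ^ n) x = y ∨ (M.rot ^ n) x = M.corner y →
      K y = pot M x g R n := by
    intro n y hn
    have hex : ∃ n : ℕ, (M.rot ^ n) x = y ∨ (M.rot ^ n) x = M.corner y := ⟨n, hn⟩
    have h1 : K y = pot M x g R hex.choose := dif_pos hex
    rw [h1]
    refine pot_eq M x g R hsum ?_
    have h2 := hex.choose_spec
    generalize hex.choose = m at h2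
    have key : ∀ (a b : ℕ) (u : D × Bool), (M.rot ^ a) x = u → (M.rot ^ b) x ≠ M.corner u := by
      intro a b u ha hb
      rcases le_total a b with h3 | h3
      · obtain ⟨j, rfl⟩ := Nat.exists_eq_add_of_le' h3
        rw [← add', ha] at hb
        exact ne_corner' M u j hb
      · obtain ⟨j, rfl⟩ := Nat.exists_eq_add_of_le' h3
        rw [← add', hb] at ha
        refine ne_corner' M (M.corner u) j ?_
        rw [ha, M.cc]
    rcases hn with hn | hn <;> rcases h2 with h2 | h2
    · rw [hn, h2]
    · exact absurd h2 (key n m y hn)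
    · exact absurd hn (key m n y h2)
    · rw [hn, h2]
  have hPn : ∀ n, P (pot M x g R n) := by
    intro n
    induction n with
    | zero => rw [pot_zero]; exact hP
    | succ n ih =>
      rw [pot_succ]
      refine hPg _ ?_ _ ih
      have h1 : M.SameV x ((M.rot ^ n) x) := (M.sameV_iff _ _).2 ⟨n, Or.inl rfl⟩
      exact M.sameV_false.2 h1
  refine ⟨K, ?_, ?_⟩
  · rw [hK 0 x (Or.inl rfl), pot_zero]
  · intro y hy
    obtain ⟨n, hn⟩ := (M.sameV_iff _ _).1 hy
    have hy1 : K y = pot M x g R n := hK n y hn
    have hy2 : K (M.corner y) = pot M x g R n := by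
      refine hK n _ ?_
      rw [M.cc]
      exact hn.symm
    refine ⟨by rw [hy1, hy2], ?_, by rw [hy1]; exact hPn n⟩
    rcases hn with hn | hn
    · have h1 : K (fl y) = pot M x g R (n + 1) := by
        refine hK (n + 1) _ (Or.inr ?_)
        rw [succ', hn]
      rw [h1, hy1, pot_succ, hn, add_right_comm, ch_add_self, zero_add]
    · -- `y = corner (rot ^ n x)`, so `fl y` is reached one step before
      have hpos := dgr_pos M x
      have h2 : (M.rot ^ (n + (dgr M x - 1))) x = fl y := by
        have h3 : M.rot ((M.rot ^ (n + (dgr M x - 1))) x) = M.rot (fl y) := by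
          have h4 : M.rot ((M.rot ^ (n + (dgr M x - 1))) x) =
              (M.rot ^ (n + (dgr M x - 1) + 1)) x := by
            rw [pow_succ', Equiv.Perm.mul_apply]
          rw [h4, show n + (dgr M x - 1) + 1 = n + dgr M x by omega, ← add', pow_dgr, hn,
            M.rot_apply, fl_fl]
        exact M.rot.injective h3
      have h5 : K (fl y) = pot M x g R (n + (dgr M x - 1)) := hK _ _ (Or.inl h2)
      have h6 : K y = pot M x g R (n + (dgr M x - 1) + 1) := by
        refine hK _ _ (Or.inr ?_)
        rw [succ', h2, fl_fl]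
      rw [h5, h6, pot_succ, h2, ← add_assoc, ch_add_self, zero_add]
      rfl

theorem R4a {M : Pic X Y w D} (h : MinM Q β N M) {x : D × Bool} {n : ℕ} {i : U}
    (hx : M.kind x.1 = Sum.inr n) (ho : M.kind (M.opp x.1) = Sum.inl i) :
    ¬ Absb X Y w i (M.K x) := by
  rintro ⟨S, hS, hlt⟩
  set R : Ch U := M.K x + dl X Y S with hR
  have hRnu : NuLe R w := nuLe_of_cut hlt
  -- the gauge at the corner of `x`
  set M₁ := M.gauge h.good h.big x S n hx (by omega) hRnu with hM₁
  have hC₁ : Cex β N M₁ := M.gauge_cex h.good h.big x S n hx (by omega) hRnu h.cex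
  have hmap₁ : M₁.toCMap = M.toCMap := rfl
  have hkind₁ : M₁.kind = M.kind := rfl
  have hlam₁ : M₁.lam = M.lam := rfl
  have hxK₁ : M₁.K x = R := by
    rw [hM₁, Pic.gauge_K, if_pos rfl, if_neg (M.corner_ne x).symm, add_zero]
  -- the ordinary vertex
  have ha₀ : M.kind (M.across x).1 = Sum.inl i := ho
  have hak : ∀ y, M.SameV (M.across x) y → M.kind y.1 = Sum.inl i := by
    intro y hy
    rw [← M.kind_sameV hy]; exact ha₀
  have hna : ∀ y m, M.kind y.1 = Sum.inr m → ¬ M.SameV (M.across x) y := by
    intro y m hy h1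
    rw [hak y h1] at hy
    cases hy
  obtain ⟨K', hK'0, hK'⟩ := exists_potential M.toCMap (M.across x)
    (fun d => M.lam d + dl X Y (M.T d)) R (M.ord_sum _ i ha₀)
    (fun L => cut i L = cut i R ∧ Supp X Y L) ⟨rfl, (M.vor_supp x n hx).add (dl_supp S)⟩ (by
      intro d hd L hL
      have hkd : M.kind d = Sum.inl i := hak (d, false) hd
      have hin : InStar X Y i (M.lam d + dl X Y (M.T d)) := by
        refine (M.ord_lam d i hkd).add ?_
        rw [dl_single (M.T d) i (M.ord_T d i hkd)]
        intro e he h0
        apply he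
        rw [Pi.smul_apply, h0, smul_zero]
      refine ⟨?_, hL.2.add hin.supp⟩
      rw [← hL.1]
      funext e
      unfold cut
      by_cases hi : i ∈ e
      · rw [if_pos hi, if_pos hi]
      · rw [if_neg hi, if_neg hi, Pi.add_apply]
        have : (M.lam d + dl X Y (M.T d)) e = 0 := by
          by_contra h0
          exact hi (hin.mem e h0)
        rw [this, add_zero])
  have hKnu : ∀ y, M.SameV (M.across x) y → NuLe (K' y) w := by
    intro y hy
    refine nuLe_of_cut (i := i) ?_
    rw [(hK' y hy).2.2.1]
    exact hlt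
  -- the merged picture
  have hpq : ¬ M.SameV (M.corner (M.across x)) x := by
    intro h1
    exact hna x n hx ((M.sameV_corner _).trans _ _ _ h1)
  have hSp : ∀ y, M.SameV (M.corner (M.across x)) y ↔ M.SameV (M.across x) y := by
    intro y
    exact ⟨fun h1 => (M.sameV_corner _).trans _ _ _ h1,
      fun h1 => (M.sameV_corner _).symm.trans _ _ _ h1⟩
  have hSx : ∀ y, M.SameV x y ↔ M.kind y.1 = Sum.inr n := by
    intro y
    exact ⟨fun h1 => by rw [← M.kind_sameV h1]; exact hx, fun h1 => M.vor_conn x y n hx h1⟩
  have hflag : ∀ (y z : D × Bool), z.1 = y.1 → (M.SameV (M.across x) z ↔ M.SameV (M.across x) y) := by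
    intro y z hz
    rcases eq_or_eq_fl hz with h1 | h1
    · rw [h1]
    · rw [h1]; exact M.sameV_fl_right
  have hTa : ∀ d, M.SameV (M.across x) (d, false) → M₁.T d = M.T d := by
    intro d hd
    have h1 : M.kind d = Sum.inl i := hak (d, false) hd
    have h2 : d ≠ x.1 := by
      intro h3; rw [h3, hx] at h1; cases h1
    have h3 : d ≠ (M.corner x).1 := by
      intro h4; rw [h4, M.kind_corner, hx] at h1; cases h1
    rw [hM₁, Pic.gauge_T, if_neg h2, if_neg h3, add_zero, add_zero]
  let kd : D → U ⊕ ℕ := fun d => if M.SameV (M.across x) (d, false) then Sum.inr n else M.kind d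
  let K2 : D × Bool → Ch U := fun y => if M.SameV (M.across x) y then K' y else M₁.K y
  have hkd : ∀ y : D × Bool, kd y.1 = if M.SameV (M.across x) y then Sum.inr n else M.kind y.1 := by
    intro y
    show (if M.SameV (M.across x) (y.1, false) then Sum.inr n else M.kind y.1) = _
    rw [if_congr (hflag y (y.1, false) rfl) rfl rfl]
  have hkl : ∀ (y : D × Bool) j, kd y.1 = Sum.inl j →
      M.kind y.1 = Sum.inl j ∧ ¬ M.SameV (M.across x) y := by
    intro y j hy
    rw [hkd] at hy
    split_ifs at hy with h1
    exact ⟨hy, h1⟩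
  have hkr : ∀ (y : D × Bool) m, kd y.1 = Sum.inr m →
      (M.SameV (M.across x) y ∧ m = n) ∨ (¬ M.SameV (M.across x) y ∧ M.kind y.1 = Sum.inr m) := by
    intro y m hy
    rw [hkd] at hy
    split_ifs at hy with h1
    · exact Or.inl ⟨h1, (Sum.inr_injective hy).symm⟩
    · exact Or.inr ⟨h1, hy⟩
  -- the merged class
  have hcls : ∀ y, (M.SameV (M.corner (M.across x)) y ∨ M.SameV x y) ↔ kd y.1 = Sum.inr n := by
    intro y
    rw [hSp, hSx, hkd]
    constructor
    · rintro (h1 | h1)
      · rw [if_pos h1]
      · split_ifs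
        · rfl
        · exact h1
    · intro h1
      split_ifs at h1 with h2
      · exact Or.inl h2
      · exact Or.inr h1
  have hK2p : K2 (M.corner (M.across x)) = R := by
    show (if _ then _ else _) = R
    rw [if_pos (M.sameV_corner _), (hK' _ (Relation.EqvGen.refl _)).1, hK'0]
  have hK2q : K2 x = R := by
    show (if _ then _ else _) = R
    rw [if_neg (hna x n hx), hxK₁]
  have hswap : ∀ y, K2 (Equiv.swap (M.corner (M.across x)) x y) = K2 y := by
    intro y
    by_cases h1 : y = M.corner (M.across x)
    · rw [h1, Equiv.swap_apply_left, hK2p, hK2q]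
    · by_cases h2 : y = x
      · rw [h2, Equiv.swap_apply_right, hK2p, hK2q]
      · rw [Equiv.swap_apply_of_ne_of_ne h1 h2]
  have hcorK : ∀ y m, kd y.1 = Sum.inr m → K2 (M.corner y) = K2 y := by
    intro y m hy
    show (if _ then _ else _) = (if _ then _ else _)
    rcases hkr y m hy with ⟨h1, _⟩ | ⟨h1, h2⟩
    · have h3 : M.SameV (M.across x) (M.corner y) := h1.trans _ _ _ (M.sameV_corner y)
      rw [if_pos h3, if_pos h1]
      exact (hK' y h1).1
    · have h3 : ¬ M.SameV (M.across x) (M.corner y) := fun h4 =>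
        h1 (h4.trans _ _ _ (M.sameV_corner y).symm)
      rw [if_neg h3, if_neg h1]
      exact M₁.vor_K y m h2
  have hkdswap : ∀ y, kd (Equiv.swap (M.corner (M.across x)) x y).1 = kd y.1 := by
    have hp : kd (M.corner (M.across x)).1 = Sum.inr n := (hcls _).1 (Or.inl (Relation.EqvGen.refl _))
    have hq : kd x.1 = Sum.inr n := (hcls _).1 (Or.inr (Relation.EqvGen.refl _))
    intro y
    by_cases h1 : y = M.corner (M.across x)
    · rw [h1, Equiv.swap_apply_left, hp, hq]
    · by_cases h2 : y = x
      · rw [h2, Equiv.swap_apply_right, hp, hq]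
      · rw [Equiv.swap_apply_of_ne_of_ne h1 h2]
  have hkdcor : ∀ y, kd (M.corner y).1 = kd y.1 := by
    intro y
    rw [hkd, hkd, M.kind_corner]
    have : M.SameV (M.across x) (M.corner y) ↔ M.SameV (M.across x) y :=
      ⟨fun h1 => h1.trans _ _ _ (M.sameV_corner y).symm,
        fun h1 => h1.trans _ _ _ (M.sameV_corner y)⟩
    rw [if_congr this rfl rfl]
  let M' : Pic X Y w D :=
    { toCMap := M.toCMap.switch (M.corner (M.across x)) x
      kind := kd
      lam := M.lam
      K := K2
      T := M₁.T
      kind_corner := by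
        intro y
        rw [CMap.switch_corner, hkdswap, hkdcor, hkdswap]
      vor_conn := by
        intro y z m hy hz
        rw [M.toCMap.sameV_merge hpq]
        by_cases hm : m = n
        · subst hm
          exact Or.inr ⟨(hcls y).2 hy, (hcls z).2 hz⟩
        · rcases hkr y m hy with ⟨_, h2⟩ | ⟨_, h1⟩
          · exact absurd h2 hm
          · rcases hkr z m hz with ⟨_, h2⟩ | ⟨_, h2⟩
            · exact absurd h2 hm
            · exact Or.inl (M.vor_conn y z m h1 h2)
      lam_opp := M.lam_opp
      lam_supp := M.lam_supp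
      lam_nu := M.lam_nu
      ord_lam := fun d j hd => M.ord_lam d j (hkl (d, false) j hd).1
      ord_T := fun d j hd => M₁.ord_T d j (hkl (d, false) j hd).1
      ord_sum := by
        intro y j hy
        have h1 : ¬ (M.SameV (M.corner (M.across x)) y ∨ M.SameV x y) := by
          rw [hcls, hy]
          intro h2
          cases h2
        rw [not_or] at h1
        exact (M.vsum_switch h1.1 h1.2 _).trans (M₁.ord_sum y j (hkl y j hy).1)
      vor_K := by
        intro y m hy
        rw [CMap.switch_corner, hswap, hcorK _ m (by rw [hkdswap]; exact hy), hswap]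
      vor_eqn := by
        intro d m hd
        show K2 (d, false) + K2 (d, true) = _
        have hft : M.SameV (M.across x) (d, true) ↔ M.SameV (M.across x) (d, false) :=
          hflag (d, false) (d, true) rfl
        show (if M.SameV (M.across x) (d, false) then K' (d, false) else M₁.K (d, false)) +
          (if M.SameV (M.across x) (d, true) then K' (d, true) else M₁.K (d, true)) = _
        rcases hkr (d, false) m hd with ⟨h1, _⟩ | ⟨h1, h2⟩
        · rw [if_pos h1, if_pos (hft.2 h1), hTa d h1]
          have := (hK' (d, true) (hft.2 h1)).2.1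
          exact this
        · rw [if_neg h1, if_neg (fun h3 => h1 (hft.1 h3))]
          exact M₁.vor_eqn d m h2
      vor_nu := by
        intro y m hy
        show NuLe (if _ then _ else _) w
        rcases hkr y m hy with ⟨h1, _⟩ | ⟨h1, h2⟩
        · rw [if_pos h1]; exact hKnu y h1
        · rw [if_neg h1]; exact M₁.vor_nu y m h2
      vor_supp := by
        intro y m hy
        show Supp X Y (if _ then _ else _)
        rcases hkr y m hy with ⟨h1, _⟩ | ⟨h1, h2⟩
        · rw [if_pos h1]; exact (hK' y h1).2.2.2
        · rw [if_neg h1]; exact M₁.vor_supp y m h2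
      vor_T := by
        intro d m hd
        rcases hkr (d, false) m hd with ⟨h1, _⟩ | ⟨h1, h2⟩
        · rw [hTa d h1]
          have h3 : sz Y (M.T d) ≤ 1 := by
            unfold sz
            refine (Finset.card_le_card (t := {i}) ?_).trans (by simp)
            intro j hj
            rw [mem_filter] at hj
            rw [mem_singleton]
            by_contra hji
            exact hj.2 (M.ord_T d i (hak (d, false) h1) j hji)
          omega
        · exact M₁.vor_T d m h2
      ord_vor := by
        intro d j m hd hd'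
        obtain ⟨h1, h2⟩ := hkl (d, false) j hd
        rcases hkr (M.opp d, false) m hd' with ⟨h3, _⟩ | ⟨h3, h4⟩
        · left
          have h5 : M.kind (M.opp d) = Sum.inl i := hak _ h3
          have hji : j ≠ i := by
            intro hji
            subst hji
            exact R2 h h1 h5
          refine single_of_inStar hji (M.ord_lam d j h1) ?_
          rw [← M.lam_opp]
          exact M.ord_lam _ i h5
        · rcases M₁.ord_vor d j m h1 h4 with h5 | ⟨s, h5⟩
          · exact Or.inl h5
          · refine Or.inr ⟨s, ?_⟩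
            show Absb X Y w j (if M.SameV (M.across x) (M.across (d, s)) then _ else _)
            have h6 : ¬ M.SameV (M.across x) (M.across (d, s)) := by
              rw [hflag (M.opp d, false) (M.across (d, s)) rfl]
              exact h3
            rw [if_neg h6]
            exact h5 }
  have hC : Cex β N M' := by
    refine ⟨hC₁.1, ?_, ?_⟩
    · have h1 : M'.G2 ≤ M.G2 := by
        show (M.toCMap.switch (M.corner (M.across x)) x).G2 ≤ M.G2
        rw [CMap.switch_comm]
        refine M.toCMap.G2_switch_fac _ _ 1 ?_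
        rw [pow_one]
        rfl
      have h2 : M'.vnums Set.univ ⊆ M.vnums Set.univ := by
        rintro m ⟨d, _, hd⟩
        rcases hkr (d, false) m hd with ⟨_, h2⟩ | ⟨_, h2⟩
        · exact ⟨x.1, trivial, by rw [h2]; exact hx⟩
        · exact ⟨d, trivial, h2⟩
      have hfin : (M.vnums Set.univ).Finite := by
        refine Set.Finite.subset ((Set.finite_range M.kind).preimage
          (Sum.inr_injective.injOn (s := Sum.inr ⁻¹' Set.range M.kind))) ?_
        rintro m ⟨d, _, hd⟩
        exact ⟨d, hd⟩
      have h3 := Set.ncard_le_ncard h2 hfin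
      have h4 := h.cex.2.1
      have h5 : ((M'.vnums Set.univ).ncard : ℤ) ≤ ((M.vnums Set.univ).ncard : ℤ) := by
        exact_mod_cast h3
      linarith
    · intro hβ d j k hd hd'
      exact h.cex.2.2 hβ d j k (hkl (d, false) j hd).1 (hkl (M.opp d, false) k hd').1
  refine R3 (h.of_cex hC) (M.across x) ?_
  show (M.toCMap.switch (M.corner (M.across x)) x).corner (M.across x) = M.across (M.across x)
  have h' : x ≠ M.corner (M.corner (M.across x)) := by
    rw [M.cc]
    exact (M.across_ne x).symm
  have h1 := CMap.switch_corner_cp (M := M.toCMap) h'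
  rw [M.cc] at h1
  rw [h1, M.across_across]

/-- the labels at ordinary vertices are single edges of the star -/
theorem exists_single {M : Pic X Y w D} (h : MinM Q β N M) {d : D} {i : U}
    (hd : M.kind d = Sum.inl i) : ∃ e, star X Y i e ≠ 0 ∧ M.lam d = Pi.single e 1 := by
  have hs : Single (M.lam d) := by
    rcases hk : M.kind (M.opp d) with j | n
    · have hij : i ≠ j := by
        intro hij
        rw [← hij] at hk
        exact R2 h hd hk
      refine single_of_inStar hij (M.ord_lam d i hd) ?_
      rw [← M.lam_opp]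
      exact M.ord_lam _ j hk
    · rcases M.ord_vor d i n hd hk with h1 | ⟨s, h1⟩
      · exact h1
      · exfalso
        refine R4a h (x := M.across (d, s)) (n := n) (i := i) hk ?_ h1
        show M.kind (M.opp (M.opp d)) = Sum.inl i
        rw [M.opp_opp]
        exact hd
  obtain ⟨e, he⟩ := hs
  have h0 := R0 h d
  have h1 : M.lam d e ≠ 0 := by
    intro h2
    apply h0
    funext e'
    by_contra h3
    have h4 := he e' h3
    rw [h4] at h3
    exact h3 h2
  refine ⟨e, M.ord_lam d i hd e h1, ?_⟩
  funext e'
  by_cases h2 : e' = e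
  · rw [h2, Pi.single_eq_same]
    have key : ∀ a : ZMod 2, a ≠ 0 → a = 1 := by decide
    exact key _ h1
  · rw [Pi.single_eq_of_ne h2]
    by_contra h3
    exact h2 (he e' h3)

/-- the fibres of ordinary darts are live -/
theorem ord_mem {M : Pic X Y w D} (h : MinM Q β N M) {d : D} {i : U} (hd : M.kind d = Sum.inl i) :
    i ∈ Y := by
  obtain ⟨e, he, _⟩ := exists_single h hd
  rw [star_ne] at he
  exact he.2.2 i he.2.1

/-- there are no ordinary vertices of degree one -/
theorem corner_fst_ne {M : Pic X Y w D} (h : MinM Q β N M) {x : D × Bool} (hx : M.Ord x) :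
    (M.corner x).1 ≠ x.1 := by
  intro h1
  obtain ⟨i, hi⟩ := hx
  have h2 : M.corner x = fl x := by
    rcases eq_or_eq_fl h1 with h3 | h3
    · exact absurd h3 (M.corner_ne x)
    · exact h3
  have h2' : M.corner (fl x) = x := by rw [← h2, M.cc]
  have hV : ∀ y, M.SameV x y → y.1 = x.1 := by
    intro y hy
    have := (M.toCMap.sameV_set (P := {x.1}) (by
      intro f hf
      rw [Set.mem_singleton_iff] at hf ⊢
      rcases eq_or_eq_fl hf with h3 | h3
      · rw [h3, h2]; rfl
      · rw [h3, h2']) hy).1 rfl
    exact this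
  have h3 := M.ord_sum x i hi
  have h4 : (univ.filter fun d => M.SameV x (d, false)) = {x.1} := by
    ext d
    rw [mem_filter, mem_singleton]
    constructor
    · rintro ⟨_, h5⟩
      exact hV _ h5
    · rintro rfl
      exact ⟨mem_univ _, M.toCMap.sameV_false.2 (Relation.EqvGen.refl _)⟩
  rw [h4, Finset.sum_singleton] at h3
  have h5 := ch_eq_of_add h3
  rw [add_zero] at h5
  obtain ⟨e, he, hl⟩ := exists_single h hi
  have hb := h.big
  refine star_ne_single h.good (by omega) (ord_mem h hi) ⟨e, ?_⟩
  intro e' he'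
  by_contra hne
  rw [dl_single (M.T x.1) i (M.ord_T x.1 i hi), hl] at h5
  have h6 := congrFun h5 e'
  have h7 := congrFun h5 e
  rw [Pi.smul_apply, Pi.single_eq_of_ne hne, smul_eq_mul] at h6
  rw [Pi.smul_apply, Pi.single_eq_same, smul_eq_mul] at h7
  rcases mul_eq_zero.1 h6 with h8 | h8
  · rw [h8, zero_mul] at h7
    exact zero_ne_one h7
  · exact he' h8

end Pool.Agent.HomV
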