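import Pool.Agent.HomV.SwDef
import Pool.Agent.Hhelper81.Genus2

/-!
# Bridge to the library on flag maps (`Pool.Agent.QuotCard`)
-/

set_option autoImplicit false

namespace Pool.Agent.QuotCard

variable {Φ : Type*}

lemma eqv_iff_eqvGen {r : Φ → Φ → Prop} {x y : Φ} : eqv r x y ↔ Relation.EqvGen r x y :=
  ⟨fun h => Quot.eqvGen_exact h, fun h => Quot.eqvGen_sound h⟩

/-- never `(θ τ)^n x = τ x` -/
lemma iter_ne_right {θ τ : Φ → Φ} (hθ : FInv θ) (hτ : FInv τ) (n : ℕ) (x : Φ) :
    (fun x => θ (τ x))^[n] x ≠ τ x := by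
  induction n using Nat.strong_induction_on generalizing x with
  | _ n ih =>
    intro h
    match n with
    | 0 => exact hτ.ne x h.symm
    | 1 => exact hθ.ne _ h
    | n + 2 =>
      rw [Function.iterate_succ_apply'] at h
      have h1 : (fun x => θ (τ x))^[n + 1] x = τ (θ (τ x)) := by
        rw [← hτ.inv ((fun x => θ (τ x))^[n + 1] x)]
        congr 1
        rw [← hθ.inv (τ ((fun x => θ (τ x))^[n + 1] x))]
        congr 1
      rw [Function.iterate_succ_apply] at h1
      exact ih n (by omega) _ h1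

/-- never `(θ τ)^n x = θ x` -/
lemma iter_ne_left {θ τ : Φ → Φ} (hθ : FInv θ) (hτ : FInv τ) (n : ℕ) (x : Φ) :
    (fun x => θ (τ x))^[n] x ≠ θ x := by
  intro h
  match n with
  | 0 => exact hθ.ne x h.symm
  | n + 1 =>
    rw [Function.iterate_succ_apply'] at h
    have h1 : τ ((fun x => θ (τ x))^[n] x) = x := hθ.inj h
    exact iter_ne_right hθ hτ n x (by rw [← h1, hτ.inv, h1])

/-- if `q = (θ τ)^n p`, then `p` is joined to `θ q` in the base graph of the switch -/
theorem base_of_iter {θ τ : Φ → Φ} (hθ : FInv θ) (hτ : FInv τ) {p q : Φ} (hpq : q ≠ p) {n : ℕ}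
    (hn : (fun x => θ (τ x))^[n] p = q) : eqv (base θ (fr τ) p q) p (θ q) := by
  classical
  have hex : ∃ n, (fun x => θ (τ x))^[n] p = q := ⟨n, hn⟩
  set N := Nat.find hex with hN
  have hNq : (fun x => θ (τ x))^[N] p = q := Nat.find_spec hex
  have hmin : ∀ m, m < N → (fun x => θ (τ x))^[m] p ≠ q := fun m hm => Nat.find_min hex hm
  have hNpos : 0 < N := by
    rcases Nat.eq_zero_or_pos N with h | h
    · rw [h] at hNq; exact absurd hNq.symm hpq
    · exact h
  obtain ⟨K, hK⟩ : ∃ K, N = K + 1 := ⟨N - 1, by omega⟩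
  have hout : ∀ i, i < K → ¬ four θ p q (τ ((fun x => θ (τ x))^[i] p)) := by
    intro i hi h
    rcases h with h | h | h | h
    · refine iter_ne_right hθ hτ i p ?_
      rw [← hτ.inv ((fun x => θ (τ x))^[i] p), h]
    · have h1 : (fun x => θ (τ x))^[i + 1] p = p := by
        rw [Function.iterate_succ_apply']
        change θ (τ ((fun x => θ (τ x))^[i] p)) = p
        rw [h, hθ.inv]
      refine hmin (N - (i + 1)) (by omega) ?_
      have h2 : (fun x => θ (τ x))^[N - (i + 1) + (i + 1)] p = q := by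
        rw [show N - (i + 1) + (i + 1) = N by omega]; exact hNq
      rw [Function.iterate_add_apply, h1] at h2
      exact h2
    · refine iter_ne_right hθ hτ (N - i) ((fun x => θ (τ x))^[i] p) ?_
      rw [← Function.iterate_add_apply, show N - i + i = N by omega, hNq, h]
    · refine hmin (i + 1) (by omega) ?_
      rw [Function.iterate_succ_apply']
      change θ (τ ((fun x => θ (τ x))^[i] p)) = q
      rw [h, hθ.inv]
  have hconn : ∀ i, i ≤ K → eqv (base θ (fr τ) p q) p ((fun x => θ (τ x))^[i] p) := by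
    intro i
    induction i with
    | zero => intro _; exact eqv_refl _ _
    | succ i ih =>
      intro hi
      have h1 := ih (by omega)
      have h2 : eqv (base θ (fr τ) p q) ((fun x => θ (τ x))^[i] p)
          (τ ((fun x => θ (τ x))^[i] p)) := eqv_of (Or.inl rfl)
      have h3 : eqv (base θ (fr τ) p q) (τ ((fun x => θ (τ x))^[i] p))
          ((fun x => θ (τ x))^[i + 1] p) := by
        refine eqv_of (Or.inr ⟨?_, hout i (by omega)⟩)
        rw [Function.iterate_succ_apply']
      exact eqv_trans h1 (eqv_trans h2 h3)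
  refine eqv_trans (hconn K le_rfl) (eqv_of (Or.inl ?_))
  change τ ((fun x => θ (τ x))^[K] p) = θ q
  rw [hK, Function.iterate_succ_apply'] at hNq
  rw [← hNq]
  change _ = θ (θ (τ ((fun x => θ (τ x))^[K] p)))
  rw [hθ.inv]

theorem split_of_iter [Finite Φ] {θ τ : Φ → Φ} (hθ : FInv θ) (hτ : FInv τ) {p q : Φ}
    (hpq : q ≠ p) {n : ℕ} (hn : (fun x => θ (τ x))^[n] p = q) :
    ncl (relF (sw θ p q) (fr τ)) = ncl (relF θ (fr τ)) + 1 := by
  have h' : q ≠ θ p := fun e => iter_ne_left hθ hτ n p (hn.trans e)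
  have e0 := base_of_iter hθ hτ hpq hn
  rcases pairing hθ hτ hpq h' with e1 | e1 | e1
  · rename_i e2 e3
    exact absurd (eqv_trans e0 (eqv_symm e2)) e3
  · rename_i e2 e3
    exact absurd (eqv_trans e0 (eqv_symm e2)) e3
  · rename_i e2 e3
    exact split_count hθ h' e1 e2 e3

end Pool.Agent.QuotCard

namespace Pool.Agent.HomV

open Finset Classical Pool.Agent.QuotCard

variable {D : Type}

namespace CMap

variable (M : CMap D)

/-- the flag map of a combinatorial map -/
def toF : FMap (D × Bool) where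
  a0 := M.across
  a1 := M.corner
  a2 := fl
  h0 := ⟨M.across_across, M.across_ne⟩
  h1 := ⟨M.corner_corner, M.corner_ne⟩
  h2 := ⟨fl_fl, fl_ne⟩

lemma toF_edge4 : M.toF.Edge4 where
  comm x := M.across_fl x
  ne x h := M.opp_ne x.1 (congrArg Prod.fst h)

lemma sameV_iff_eqv {x y : D × Bool} : M.SameV x y ↔ eqv (relF M.corner (fr fl)) x y := by
  refine (eqv_iff_eqvGen (r := M.VRel)).symm.trans ?_
  constructor
  · refine eqv_mono ?_
    rintro u v (rfl | rfl)
    · exact eqv_of (Or.inl rfl)
    · exact eqv_of (Or.inr rfl)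
  · refine eqv_mono ?_
    rintro u v (rfl | h)
    · exact eqv_of (Or.inl rfl)
    · exact eqv_of (Or.inr h.symm)

lemma sameF_iff_eqv {x y : D × Bool} : M.SameF x y ↔ eqv (relF M.corner (fr M.across)) x y := by
  refine (eqv_iff_eqvGen (r := M.FRel)).symm.trans ?_
  constructor
  · refine eqv_mono ?_
    rintro u v (rfl | rfl)
    · exact eqv_of (Or.inl rfl)
    · exact eqv_of (Or.inr rfl)
  · refine eqv_mono ?_
    rintro u v (rfl | h)
    · exact eqv_of (Or.inl rfl)
    · exact eqv_of (Or.inr h.symm)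

lemma sameC_iff_eqv {x y : D × Bool} :
    M.SameC x y ↔ eqv (relF M.corner (rel2 M.across fl)) x y := by
  refine (eqv_iff_eqvGen (r := M.CRel)).symm.trans ?_
  constructor
  · refine eqv_mono ?_
    rintro u v (rfl | rfl | rfl)
    · exact eqv_of (Or.inl rfl)
    · exact eqv_of (Or.inr (Or.inl rfl))
    · exact eqv_of (Or.inr (Or.inr rfl))
  · refine eqv_mono ?_
    rintro u v (rfl | h | h)
    · exact eqv_of (Or.inl rfl)
    · exact eqv_of (Or.inr (Or.inl h.symm))
    · exact eqv_of (Or.inr (Or.inr h.symm))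

lemma toF_V : M.toF.V = M.nV :=
  (ncl_of_eqv_iff (fun x y => by rw [eqv_iff_eqvGen]; exact M.sameV_iff_eqv)).symm

lemma toF_F : M.toF.F = M.nF :=
  (ncl_of_eqv_iff (fun x y => by rw [eqv_iff_eqvGen]; exact M.sameF_iff_eqv)).symm

lemma toF_C : M.toF.C = M.nC :=
  (ncl_of_eqv_iff (fun x y => by rw [eqv_iff_eqvGen]; exact M.sameC_iff_eqv)).symm

lemma two_toF_E [Finite D] : 2 * M.toF.E = Nat.card D := by
  have h := M.toF_edge4.four_E
  rw [Nat.card_prod, Nat.card_eq_fintype_card (α := Bool), Fintype.card_bool] at h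
  omega

lemma G2_eq [Finite D] : M.G2 = 2 * M.toF.g := by
  have h := M.two_toF_E
  unfold G2 FMap.g
  rw [M.toF_V, M.toF_F, M.toF_C]
  push_cast [← h]
  ring

lemma swap_inst (p q : D × Bool) (i j : DecidableEq (D × Bool)) :
    @Equiv.swap _ i p q = @Equiv.swap _ j p q := by
  rw [Subsingleton.elim i j]

lemma switch_corner_sw (p q x : D × Bool) : (M.switch p q).corner x = sw M.corner p q x := by
  rw [switch_corner]
  unfold sw
  rw [swap_inst p q _ (fun a b => Classical.propDecidable (a = b))]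

lemma switch_corner_fun (p q : D × Bool) : (M.switch p q).corner = sw M.corner p q :=
  funext (M.switch_corner_sw p q)

lemma toF_switch (p q : D × Bool) : (M.switch p q).toF = M.toF.switch p q := by
  unfold toF FMap.switch
  congr 1
  exact M.switch_corner_fun p q

lemma rot_pow (n : ℕ) (x : D × Bool) :
    (M.rot ^ n) x = (fun x => M.corner (fl x))^[n] x := by
  rw [← Equiv.Perm.iterate_eq_pow]
  rfl

lemma fac_pow (n : ℕ) (x : D × Bool) :
    (M.fac ^ n) x = (fun x => M.corner (M.across x))^[n] x := by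
  rw [← Equiv.Perm.iterate_eq_pow]
  rfl

lemma switch_self (p : D × Bool) : M.switch p p = M := by
  have : ∀ x, (M.switch p p).corner x = M.corner x := by
    intro x
    rw [switch_corner, Equiv.swap_self]
    rfl
  cases M
  simp only [switch] at this ⊢
  congr
  funext x
  exact this x

end CMap

end Pool.Agent.HomV
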