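import Pool.Agent.HomV.ChDef

/-!
# Chains: basic facts
-/

set_option autoImplicit false

namespace Pool.Agent.HomV

open Finset Classical

variable {U : Type} [Fintype U] {X : SimpleGraph U} {Y : Finset U} {Q : ℕ}

theorem star_add (i : U) (a b : ZMod 2) : (a + b) • star X Y i = a • star X Y i + b • star X Y i :=
  add_smul a b _

theorem ch_add_self (K : Ch U) : K + K = 0 := by
  funext e
  exact CharTwo.add_self_eq_zero (K e)

theorem dl_add (S T : U → ZMod 2) : dl X Y (S + T) = dl X Y S + dl X Y T := by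
  funext e
  simp only [dl, Pi.add_apply, add_mul, Finset.sum_add_distrib]

theorem dl_zero : dl X Y 0 = 0 := by
  funext e
  simp [dl]

theorem dl_sum {ι : Type} (s : Finset ι) (T : ι → U → ZMod 2) :
    dl X Y (∑ a ∈ s, T a) = ∑ a ∈ s, dl X Y (T a) := by
  induction s using Finset.induction_on with
  | empty => simp [dl_zero]
  | insert a s ha ih => rw [Finset.sum_insert ha, Finset.sum_insert ha, dl_add, ih]

/-- the cut of `T` at the edge `ij` -/
theorem dl_mk (T : U → ZMod 2) (i j : U) :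
    dl X Y T s(i, j) = if X.Adj i j ∧ i ∈ Y ∧ j ∈ Y then T i + T j else 0 := by
  unfold dl star
  by_cases h : X.Adj i j ∧ i ∈ Y ∧ j ∈ Y
  · rw [if_pos h]
    have hne : i ≠ j := h.1.ne
    have h1 : ∀ k : U, (T k * if s(i, j) ∈ X.edgeSet ∧ k ∈ s(i, j) ∧ ∀ j_1 ∈ s(i, j), j_1 ∈ Y
        then (1 : ZMod 2) else 0) = if k ∈ ({i, j} : Finset U) then T k else 0 := by
      intro k
      have h2 : (s(i, j) ∈ X.edgeSet ∧ k ∈ s(i, j) ∧ ∀ j_1 ∈ s(i, j), j_1 ∈ Y) ↔
          k ∈ ({i, j} : Finset U) := by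
        rw [SimpleGraph.mem_edgeSet, Sym2.mem_iff, Finset.mem_insert, Finset.mem_singleton]
        constructor
        · exact fun h => h.2.1
        · intro hk
          refine ⟨h.1, hk, ?_⟩
          intro l hl
          rw [Sym2.mem_iff] at hl
          rcases hl with rfl | rfl
          · exact h.2.1
          · exact h.2.2
      by_cases h3 : k ∈ ({i, j} : Finset U)
      · rw [if_pos (h2.mpr h3), if_pos h3, mul_one]
      · rw [if_neg (fun h => h3 (h2.mp h)), if_neg h3, mul_zero]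
    rw [Finset.sum_congr rfl fun k _ => h1 k, Finset.sum_ite_mem, Finset.univ_inter,
      Finset.sum_pair hne]
  · rw [if_neg h]
    refine Finset.sum_eq_zero fun k _ => ?_
    rw [if_neg, mul_zero]
    rintro ⟨h1, h2, h3⟩
    exact h ⟨(SimpleGraph.mem_edgeSet _).mp h1, h3 i (Sym2.mem_mk_left i j),
      h3 j (Sym2.mem_mk_right i j)⟩

/-- every edge has two ends -/
theorem dl_one : dl X Y (fun _ => 1) = 0 := by
  funext e
  induction e using Sym2.ind with
  | _ i j =>
    rw [dl_mk]
    split_ifs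
    · rfl
    · rfl

/-- the cut of a single vertex -/
theorem dl_single (T : U → ZMod 2) (i : U) (h : ∀ j, j ≠ i → T j = 0) :
    dl X Y T = T i • star X Y i := by
  funext e
  unfold dl
  rw [Finset.sum_eq_single i]
  · rfl
  · intro j _ hj
    rw [h j hj, zero_mul]
  · intro h; exact absurd (Finset.mem_univ i) h

theorem star_ne {i : U} {e : Sym2 U} : star X Y i e ≠ 0 ↔
    e ∈ X.edgeSet ∧ i ∈ e ∧ ∀ j ∈ e, j ∈ Y := by
  unfold star
  split_ifs with h
  · simp [h]
    intro j hj
    exact h.2.2 j hj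
  · simp only [ne_eq, not_true_eq_false, false_iff]
    exact h

theorem dl_supp (T : U → ZMod 2) : Supp X Y (dl X Y T) := by
  intro e
  induction e using Sym2.ind with
  | _ i j =>
    intro he
    rw [dl_mk] at he
    split_ifs at he with h
    · refine ⟨(SimpleGraph.mem_edgeSet _).mpr h.1, ?_⟩
      intro l hl
      rw [Sym2.mem_iff] at hl
      rcases hl with rfl | rfl
      · exact h.2.1
      · exact h.2.2
    · exact absurd rfl he

/-- `dl T` depends only on `T` on `Y` -/
theorem dl_congr {S T : U → ZMod 2} (h : ∀ i ∈ Y, S i = T i) : dl X Y S = dl X Y T := by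
  funext e
  unfold dl
  refine Finset.sum_congr rfl fun i _ => ?_
  by_cases hi : i ∈ Y
  · rw [h i hi]
  · have h1 : star X Y i e = 0 := by
      by_contra h2
      have h3 := star_ne.mp h2
      exact hi (h3.2.2 i h3.2.1)
    rw [h1, mul_zero, mul_zero]

theorem InStar.supp {i : U} {K : Ch U} (h : InStar X Y i K) : Supp X Y K := by
  intro e he
  have h1 := star_ne.mp (h e he)
  exact ⟨h1.1, h1.2.2⟩

theorem InStar.mem {i : U} {K : Ch U} (h : InStar X Y i K) (e : Sym2 U) (he : K e ≠ 0) : i ∈ e :=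
  (star_ne.mp (h e he)).2.1

private theorem add_ne {K L : Ch U} {e : Sym2 U} (h : (K + L) e ≠ 0) : K e ≠ 0 ∨ L e ≠ 0 := by
  by_contra h1
  push Not at h1
  apply h
  rw [Pi.add_apply, h1.1, h1.2, add_zero]

theorem InStar.add {i : U} {K L : Ch U} (h : InStar X Y i K) (h' : InStar X Y i L) :
    InStar X Y i (K + L) := by
  intro e he
  rcases add_ne he with h1 | h1
  · exact h e h1
  · exact h' e h1

/-- two different stars have at most one common edge -/
theorem single_of_inStar {i j : U} (hij : i ≠ j) {K : Ch U} (h : InStar X Y i K)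
    (h' : InStar X Y j K) : Single K := by
  refine ⟨s(i, j), fun e he => ?_⟩
  exact (Sym2.mem_and_mem_iff hij).mp ⟨h.mem e he, h'.mem e he⟩

theorem Supp.add {K L : Ch U} (h : Supp X Y K) (h' : Supp X Y L) : Supp X Y (K + L) := by
  intro e he
  rcases add_ne he with h1 | h1
  · exact h e h1
  · exact h' e h1

theorem NuLe.mono {K L : Ch U} {m n : ℕ} (h : NuLe K m) (hL : ∀ e, L e ≠ 0 → K e ≠ 0)
    (hmn : m ≤ n) : NuLe L n := by
  intro M h1 h2
  exact (h M (fun e he => hL e (h1 e he)) h2).trans hmn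

theorem NuLt.mono {K L : Ch U} {m : ℕ} (h : NuLt K m) (hL : ∀ e, L e ≠ 0 → K e ≠ 0) : NuLt L m := by
  intro M h1 h2
  exact h M (fun e he => hL e (h1 e he)) h2

theorem NuLt.nuLe {K : Ch U} {m : ℕ} (h : NuLt K m) : NuLe K m := by
  intro M h1 h2
  exact (h M h1 h2).le

theorem NuLe.add {K L : Ch U} {m n : ℕ} (h : NuLe K m) (h' : NuLe L n) : NuLe (K + L) (m + n) := by
  intro M h1 h2
  have h3 := h (M.filter (fun e => K e ≠ 0)) (fun e he => (Finset.mem_filter.mp he).2)
    (fun e he e' he' => h2 e (Finset.mem_filter.mp he).1 e' (Finset.mem_filter.mp he').1)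
  have h4 := h' (M.filter (fun e => ¬ K e ≠ 0)) (fun e he => by
      have h5 := Finset.mem_filter.mp he
      rcases add_ne (h1 e h5.1) with h6 | h6
      · exact absurd h6 h5.2
      · exact h6)
    (fun e he e' he' => h2 e (Finset.mem_filter.mp he).1 e' (Finset.mem_filter.mp he').1)
  have h5 := Finset.card_filter_add_card_filter_not (s := M) (fun e => K e ≠ 0)
  omega

theorem nuLe_one_of_mem {i : U} {K : Ch U} (h : ∀ e, K e ≠ 0 → i ∈ e) : NuLe K 1 := by
  intro M h1 h2
  rw [Finset.card_le_one]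
  intro e he e' he'
  by_contra h3
  exact h2 e he e' he' h3 i (h e (h1 e he)) (h e' (h1 e' he'))

theorem nuLe_one_of_single {K : Ch U} (h : Single K) : NuLe K 1 := by
  obtain ⟨e, h⟩ := h
  intro M h1 _
  rw [Finset.card_le_one]
  intro a ha b hb
  rw [h a (h1 a ha), h b (h1 b hb)]

/-- a chain which is small off the star of `i` -/
theorem nuLe_of_cut {i : U} {K : Ch U} {m : ℕ} (h : NuLt (cut i K) m) : NuLe K m := by
  intro M h1 h2
  have h3 := h (M.filter (fun e => ¬ i ∈ e)) (fun e he => by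
      have h4 := Finset.mem_filter.mp he
      unfold cut
      rw [if_neg h4.2]
      exact h1 e h4.1)
    (fun e he e' he' => h2 e (Finset.mem_filter.mp he).1 e' (Finset.mem_filter.mp he').1)
  have h4 : (M.filter (fun e => i ∈ e)).card ≤ 1 := by
    rw [Finset.card_le_one]
    intro e he e' he'
    rw [Finset.mem_filter] at he he'
    by_contra h3
    exact h2 e he.1 e' he'.1 h3 i he.2 he'.2
  have h5 := Finset.card_filter_add_card_filter_not (s := M) (fun e => i ∈ e)
  omega

/-- a chain covered by a set of vertices -/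
theorem nuLe_of_cover {K : Ch U} (S : Finset U) (h : ∀ e, K e ≠ 0 → ∃ i ∈ S, i ∈ e) :
    NuLe K S.card := by
  intro M h1 h2
  have hM : M ⊆ S.biUnion (fun i => M.filter (fun e => i ∈ e)) := by
    intro e he
    obtain ⟨i, hi, hie⟩ := h e (h1 e he)
    exact Finset.mem_biUnion.mpr ⟨i, hi, Finset.mem_filter.mpr ⟨he, hie⟩⟩
  refine (Finset.card_le_card hM).trans (Finset.card_biUnion_le.trans ?_)
  refine (Finset.sum_le_card_nsmul S _ 1 fun i _ => ?_).trans (by simp)
  rw [Finset.card_le_one]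
  intro e he e' he'
  rw [Finset.mem_filter] at he he'
  by_contra h3
  exact h2 e he.1 e' he'.1 h3 i he.2 he'.2

/-- the vertices of a set of edges -/
noncomputable def vts (M : Finset (Sym2 U)) : Finset U := univ.filter (fun i => ∃ e ∈ M, i ∈ e)

theorem mem_vts {M : Finset (Sym2 U)} {i : U} : i ∈ vts M ↔ ∃ e ∈ M, i ∈ e := by
  simp [vts]

theorem card_vts_le (M : Finset (Sym2 U)) : (vts M).card ≤ 2 * M.card := by
  have h1 : vts M ⊆ M.biUnion (fun e => univ.filter (fun i => i ∈ e)) := by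
    intro i hi
    obtain ⟨e, he, h⟩ := mem_vts.mp hi
    exact Finset.mem_biUnion.mpr ⟨e, he, Finset.mem_filter.mpr ⟨Finset.mem_univ _, h⟩⟩
  have h2 : ∀ e ∈ M, (univ.filter (fun i => i ∈ e)).card ≤ 2 := by
    intro e _
    induction e using Sym2.ind with
    | _ a b =>
      refine (Finset.card_le_card (t := {a, b}) ?_).trans Finset.card_le_two
      intro i hi
      have h3 := (Finset.mem_filter.mp hi).2
      rw [Sym2.mem_iff] at h3
      rw [Finset.mem_insert, Finset.mem_singleton]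
      exact h3
  refine (Finset.card_le_card h1).trans (Finset.card_biUnion_le.trans ?_)
  refine (Finset.sum_le_sum h2).trans ?_
  rw [Finset.sum_const, smul_eq_mul, mul_comm]

/-- the vertices of a maximal matching are a cover -/
theorem NuLe.cover {K : Ch U} {m : ℕ} (hK : Supp X Y K) (h : NuLe K m) :
    ∃ S : Finset U, S.card ≤ 2 * m ∧ ∀ e, K e ≠ 0 → ∃ i ∈ S, i ∈ e := by
  let P : Finset (Sym2 U) → Prop := fun M => (∀ e ∈ M, K e ≠ 0) ∧
    (∀ e ∈ M, ∀ e' ∈ M, e ≠ e' → ∀ i, i ∈ e → i ∉ e')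
  obtain ⟨M, hM, hmax⟩ := Finset.exists_max_image ((univ : Finset (Finset (Sym2 U))).filter P)
    Finset.card ⟨∅, by simp [P]⟩
  have hM' := (Finset.mem_filter.mp hM).2
  refine ⟨vts M, (card_vts_le M).trans (Nat.mul_le_mul_left 2 (h M hM'.1 hM'.2)), ?_⟩
  intro e he
  by_contra hcon
  push Not at hcon
  have hdis : ∀ e' ∈ M, ∀ i, i ∈ e → i ∉ e' := by
    intro e' he' i hi hi'
    exact hcon i (mem_vts.mpr ⟨e', he', hi'⟩) hi
  have heM : e ∉ M := by
    intro heM
    induction e using Sym2.ind with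
    | _ a b => exact hdis _ heM a (Sym2.mem_mk_left a b) (Sym2.mem_mk_left a b)
  have hP : P (insert e M) := by
    constructor
    · intro e' he'
      rcases Finset.mem_insert.mp he' with rfl | h1
      · exact he
      · exact hM'.1 e' h1
    · intro e₁ h₁ e₂ h₂ hne i hi
      rcases Finset.mem_insert.mp h₁ with h₃ | h₃
      · rw [h₃] at hi
        rcases Finset.mem_insert.mp h₂ with h₄ | h₄
        · exact absurd (h₃.trans h₄.symm) hne
        · exact hdis e₂ h₄ i hi
      · rcases Finset.mem_insert.mp h₂ with h₄ | h₄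
        · intro hi'
          rw [h₄] at hi'
          exact hdis e₁ h₃ i hi' hi
        · exact hM'.2 e₁ h₃ e₂ h₄ hne i hi
  have h1 := hmax (insert e M) (Finset.mem_filter.mpr ⟨Finset.mem_univ _, hP⟩)
  rw [Finset.card_insert_of_notMem heM] at h1
  omega

theorem sz_add_le (S T : U → ZMod 2) : sz Y (S + T) ≤ sz Y S + sz Y T := by
  unfold sz
  refine (Finset.card_le_card ?_).trans (Finset.card_union_le _ _)
  intro i hi
  rw [Finset.mem_filter] at hi
  rw [Finset.mem_union, Finset.mem_filter, Finset.mem_filter]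
  by_contra h
  push Not at h
  apply hi.2
  rw [Pi.add_apply, h.1 hi.1, h.2 hi.1, add_zero]

theorem sz_zero : sz Y 0 = 0 := by
  simp [sz]

private theorem z2_add_ne {a b : ZMod 2} (ha : a ≠ 0) (hb : b = 0) : a + b ≠ 0 := by
  rw [hb, add_zero]; exact ha

private theorem z2_cases (a : ZMod 2) : a = 0 ∨ a = 1 := by
  revert a; decide

/-- RIGID: a cut with small matching number is small or co-small. -/
theorem rigid (hG : Good X Y Q) {m : ℕ} (hm : 2 * m < Q) {T : U → ZMod 2} (h : NuLe (dl X Y T) m) :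
    sz Y T ≤ 2 * m ∨ sz Y ((fun _ => 1) + T) ≤ 2 * m := by
  obtain ⟨S, hS, hcov⟩ := h.cover (dl_supp T)
  by_cases h1 : ((Y \ S).filter (fun i => T i ≠ 0)).Nonempty
  · right
    by_cases h2 : ((Y \ S) \ (Y \ S).filter (fun i => T i ≠ 0)).Nonempty
    · exfalso
      obtain ⟨i, hi, j, hj, hij⟩ := hG.conn S (by omega) _ (Finset.filter_subset _ _) h1 h2
      rw [Finset.mem_filter, Finset.mem_sdiff] at hi
      rw [Finset.mem_sdiff, Finset.mem_filter, Finset.mem_sdiff] at hj
      have hTj : T j = 0 := by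
        by_contra h3
        exact hj.2 ⟨hj.1, h3⟩
      obtain ⟨k, hk, hk'⟩ := hcov s(i, j) (by
        rw [dl_mk, if_pos ⟨hij, hi.1.1, hj.1.1⟩]
        exact z2_add_ne hi.2 hTj)
      rw [Sym2.mem_iff] at hk'
      rcases hk' with rfl | rfl
      · exact hi.1.2 hk
      · exact hj.1.2 hk
    · refine (Finset.card_le_card ?_).trans hS
      intro i hi
      rw [Finset.mem_filter] at hi
      by_contra hiS
      apply h2
      refine ⟨i, ?_⟩
      rw [Finset.mem_sdiff, Finset.mem_sdiff, Finset.mem_filter]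
      refine ⟨⟨hi.1, hiS⟩, fun h3 => ?_⟩
      apply hi.2
      rcases z2_cases (T i) with h4 | h4
      · exact absurd h4 h3.2
      · rw [Pi.add_apply, h4]; rfl
  · left
    refine (Finset.card_le_card ?_).trans hS
    intro i hi
    rw [Finset.mem_filter] at hi
    by_contra hiS
    apply h1
    exact ⟨i, Finset.mem_filter.mpr ⟨Finset.mem_sdiff.mpr ⟨hi.1, hiS⟩, hi.2⟩⟩

theorem Good.card_lt (hG : Good X Y Q) : Q < Y.card := by
  obtain ⟨i, hi⟩ := hG.ne
  have h1 := hG.deg i hi
  have h2 : Y.filter (fun j => X.Adj i j) ⊆ Y.erase i := by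
    intro j hj
    rw [Finset.mem_filter] at hj
    rw [Finset.mem_erase]
    exact ⟨hj.2.ne', hj.1⟩
  have h3 := Finset.card_le_card h2
  rw [Finset.card_erase_of_mem hi] at h3
  have h4 : 0 < Y.card := Finset.card_pos.mpr ⟨i, hi⟩
  omega

theorem card_le_sz_add (T : U → ZMod 2) : Y.card ≤ sz Y T + sz Y ((fun _ => 1) + T) := by
  unfold sz
  refine (Finset.card_le_card ?_).trans (Finset.card_union_le _ _)
  intro i hi
  rw [Finset.mem_union, Finset.mem_filter, Finset.mem_filter]
  rcases z2_cases (T i) with h | h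
  · right
    refine ⟨hi, ?_⟩
    rw [Pi.add_apply, h]
    decide
  · left
    refine ⟨hi, ?_⟩
    rw [h]
    decide

/-- RIGID, the form for sets which are a priori not too large. -/
theorem rigid' (hG : Good X Y Q) {m b : ℕ} (hm : 2 * m + b < Q) {T : U → ZMod 2}
    (h : NuLe (dl X Y T) m) (hb : sz Y T ≤ b) : sz Y T ≤ 2 * m := by
  rcases rigid hG (by omega) h with h1 | h1
  · exact h1
  · have h2 := card_le_sz_add (Y := Y) T
    have h3 := hG.card_lt
    omega

/-- a function without cut is constant on `Y` -/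
theorem const_of_dl_eq_zero (hG : Good X Y Q) (hQ : 0 < Q) {T : U → ZMod 2} (h : dl X Y T = 0) :
    ∀ i ∈ Y, ∀ j ∈ Y, T i = T j := by
  have key : ∀ i ∈ Y, ∀ j ∈ Y, T i ≠ 0 → T j = 0 → False := by
    intro i hi j hj h1 h2
    obtain ⟨a, ha, b, hb, hab⟩ := hG.conn ∅ (by simpa using hQ) ((Y \ ∅).filter (fun i => T i ≠ 0))
      (Finset.filter_subset _ _) ⟨i, by simp [hi, h1]⟩ ⟨j, by simp [hj, h2]⟩
    rw [Finset.mem_filter, Finset.mem_sdiff] at ha
    rw [Finset.mem_sdiff, Finset.mem_filter, Finset.mem_sdiff] at hb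
    have hTb : T b = 0 := by
      by_contra h3
      exact hb.2 ⟨hb.1, h3⟩
    have h4 := dl_mk (X := X) (Y := Y) T a b
    rw [if_pos ⟨hab, ha.1.1, hb.1.1⟩, h] at h4
    exact z2_add_ne ha.2 hTb h4.symm
  intro i hi j hj
  rcases z2_cases (T i) with h1 | h1 <;> rcases z2_cases (T j) with h2 | h2
  · rw [h1, h2]
  · exact (key j hj i hi (by rw [h2]; decide) h1).elim
  · exact (key i hi j hj (by rw [h1]; decide) h2).elim
  · rw [h1, h2]

/-- small sets with the same cut are equal on `Y` -/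
theorem eq_of_dl_eq_zero (hG : Good X Y Q) {T : U → ZMod 2} (h : dl X Y T = 0) (hb : sz Y T < Q)
    (hQ : 0 < Q) : ∀ i ∈ Y, T i = 0 := by
  intro i hi
  by_contra h1
  have h2 : Y.filter (fun j => T j ≠ 0) = Y := by
    refine Finset.filter_true_of_mem fun j hj => ?_
    rw [const_of_dl_eq_zero hG hQ h j hj i hi]
    exact h1
  unfold sz at hb
  rw [h2] at hb
  have h3 := hG.card_lt
  omega

theorem star_ne_single (hG : Good X Y Q) (hQ : 2 ≤ Q) {i : U} (hi : i ∈ Y) :
    ¬ Single (star X Y i) := by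
  rintro ⟨e, he⟩
  have h1 : 1 < (Y.filter (fun j => X.Adj i j)).card := lt_of_lt_of_le (by omega) (hG.deg i hi)
  obtain ⟨a, ha, b, hb, hab⟩ := Finset.one_lt_card.mp h1
  rw [Finset.mem_filter] at ha hb
  have key : ∀ a ∈ Y, X.Adj i a → s(i, a) = e := by
    intro a ha ha'
    apply he
    rw [star_ne]
    refine ⟨(SimpleGraph.mem_edgeSet _).mpr ha', Sym2.mem_mk_left i a, ?_⟩
    intro l hl
    rw [Sym2.mem_iff] at hl
    rcases hl with rfl | rfl
    · exact hi
    · exact ha
  have h2 : s(i, a) = s(i, b) := (key a ha.1 ha.2).trans (key b hb.1 hb.2).symm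
  exact hab (Sym2.congr_right.mp h2)

theorem Good.sdiff (hG : Good X Y Q) (T : Finset U) {c : ℕ} (hT : T.card ≤ c) (hc : c < Q) :
    Good X (Y \ T) (Q - c) := by
  refine ⟨hG.tri, hG.c4, ?_, ?_, ?_⟩
  · intro i hi
    rw [Finset.mem_sdiff] at hi
    have h1 := hG.deg i hi.1
    have h2 : Y.filter (fun j => X.Adj i j) ⊆ (Y \ T).filter (fun j => X.Adj i j) ∪ T := by
      intro j hj
      rw [Finset.mem_filter] at hj
      rw [Finset.mem_union, Finset.mem_filter, Finset.mem_sdiff]
      by_cases h : j ∈ T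
      · exact Or.inr h
      · exact Or.inl ⟨⟨hj.1, h⟩, hj.2⟩
    have h3 := (Finset.card_le_card h2).trans (Finset.card_union_le _ _)
    omega
  · intro S hS R hR h1 h2
    have h3 : (Y \ T) \ S = Y \ (T ∪ S) := by
      ext i
      simp only [Finset.mem_sdiff, Finset.mem_union]
      tauto
    rw [h3] at hR h2 ⊢
    exact hG.conn (T ∪ S) (lt_of_le_of_lt (Finset.card_union_le _ _) (by omega)) R hR h1 h2
  · have h1 := hG.card_lt
    have h2 := Finset.le_card_sdiff T Y
    apply Finset.card_pos.mp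
    omega

theorem Good.mono (hG : Good X Y Q) {Q' : ℕ} (h : Q' ≤ Q) : Good X Y Q' :=
  ⟨hG.tri, hG.c4, fun i hi => h.trans (hG.deg i hi), fun S hS => hG.conn S (hS.trans_le h), hG.ne⟩

theorem star_sdiff (T : Finset U) (i : U) : star X (Y \ T) i = resC (Y \ T) (star X Y i) := by
  funext e
  simp only [star, resC]
  by_cases h : ∀ j ∈ e, j ∈ Y \ T
  · rw [if_pos h]
    by_cases h1 : e ∈ X.edgeSet ∧ i ∈ e
    · rw [if_pos ⟨h1.1, h1.2, h⟩, if_pos ⟨h1.1, h1.2, fun j hj => (Finset.mem_sdiff.mp (h j hj)).1⟩]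
    · rw [if_neg (fun h2 => h1 ⟨h2.1, h2.2.1⟩), if_neg (fun h2 => h1 ⟨h2.1, h2.2.1⟩)]
  · rw [if_neg h, if_neg (fun h2 => h h2.2.2)]

theorem dl_sdiff (T : Finset U) (S : U → ZMod 2) :
    dl X (Y \ T) S = resC (Y \ T) (dl X Y S) := by
  funext e
  have h1 : ∀ i, star X (Y \ T) i e = resC (Y \ T) (star X Y i) e := fun i => by rw [star_sdiff]
  unfold dl
  rw [Finset.sum_congr rfl fun i _ => by rw [h1 i]]
  unfold resC
  by_cases h : ∀ j ∈ e, j ∈ Y \ T
  · simp only [if_pos h]
  · simp only [if_neg h, mul_zero, Finset.sum_const_zero]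

theorem resC_add (Z : Finset U) (K L : Ch U) : resC Z (K + L) = resC Z K + resC Z L := by
  funext e
  rw [Pi.add_apply]
  unfold resC
  split_ifs
  · rfl
  · rw [add_zero]

theorem resC_ne (Z : Finset U) (K : Ch U) (e : Sym2 U) (h : resC Z K e ≠ 0) : K e ≠ 0 := by
  unfold resC at h
  split_ifs at h
  · exact h
  · exact absurd rfl h

theorem resC_mem (Z : Finset U) (K : Ch U) (e : Sym2 U) (h : resC Z K e ≠ 0) : ∀ j ∈ e, j ∈ Z := by
  unfold resC at h
  split_ifs at h with h1
  · exact h1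
  · exact absurd rfl h

theorem inStar_sdiff (T : Finset U) {i : U} {K : Ch U} (h : InStar X Y i K) :
    InStar X (Y \ T) i (resC (Y \ T) K) := by
  intro e he
  have h1 := star_ne.mp (h e (resC_ne _ _ _ he))
  exact star_ne.mpr ⟨h1.1, h1.2.1, resC_mem _ _ _ he⟩

theorem supp_resC (T : Finset U) {K : Ch U} (h : Supp X Y K) :
    Supp X (Y \ T) (resC (Y \ T) K) := by
  intro e he
  exact ⟨(h e (resC_ne _ _ _ he)).1, resC_mem _ _ _ he⟩

theorem sz_mono {Z : Finset U} (h : Z ⊆ Y) (T : U → ZMod 2) : sz Z T ≤ sz Y T :=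
  Finset.card_le_card (Finset.filter_subset_filter _ h)

end Pool.Agent.HomV
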