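import Pool.Agent.HomV.ChA

/-!
# Contents: normal representatives, exchange of two labels, the labels a full memory can read

Constants: `A = 4 * w + 2`, `200 * (w + 1) ≤ Q`.  Two chains `K`, `K + dl X Y S` with `sz Y S ≤ A`
and matching number at most `w` are equivalent.

NORMAL: every `K` with `NuLe K w` has an equivalent `R` with `2 * dg R x ≤ dg (star x) x` for all
`x ∈ Y` (switch a vertex of larger degree: the matching number does not grow, the number of edges
drops; the set `S` changes by one vertex at a time and stays small by `rigid`).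

OPT: if `2 * dg R x ≤ deg x + 4` for all `x`, `sz Y S ≤ 3 * A` and `NuLe (R + dl X Y S) w`, then
`NuLe R w`: every `s ∈ S` has many edges in `R + dl X Y S` to vertices outside of `S`, so that
`nu (R + dl X Y S) ≥ |S| + nu (R - S) ≥ nu R`.

ADJ: a matching contains at most one of two edges with a common vertex.
-/

set_option autoImplicit false

namespace Pool.Agent.HomV

open Finset Classical

variable {U : Type} [Fintype U] {X : SimpleGraph U} {Y : Finset U} {Q w : ℕ}

/-- normal chains -/
def Nrm (X : SimpleGraph U) (Y : Finset U) (c : ℕ) (R : Ch U) : Prop :=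
  ∀ x ∈ Y, 2 * dg R x ≤ (Y.filter (fun j => X.Adj x j)).card + c

/-- the edges of `M` are pairwise disjoint -/
private def Mat (M : Finset (Sym2 U)) : Prop :=
  ∀ e ∈ M, ∀ e' ∈ M, e ≠ e' → ∀ i, i ∈ e → i ∉ e'

private theorem Mat.mono {M N : Finset (Sym2 U)} (h : Mat N) (hMN : M ⊆ N) : Mat M :=
  fun e he e' he' => h e (hMN he) e' (hMN he')

private theorem z2c (a : ZMod 2) : a = 0 ∨ a = 1 := by
  revert a; decide

private theorem z2n {a : ZMod 2} (h : a ≠ 0) : a = 1 := (z2c a).resolve_left h

/-- add an edge to a matching -/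
private theorem Mat.insert {M : Finset (Sym2 U)} (h : Mat M) {e : Sym2 U}
    (he : ∀ i, i ∈ e → i ∉ vts M) : Mat (insert e M) ∧ e ∉ M := by
  have hdis : ∀ e' ∈ M, ∀ i, i ∈ e → i ∉ e' := by
    intro e' he' i hi hi'
    exact he i hi (mem_vts.mpr ⟨e', he', hi'⟩)
  constructor
  · intro e₁ h₁ e₂ h₂ hne i hi
    rcases Finset.mem_insert.mp h₁ with h₃ | h₃
    · rw [h₃] at hi
      rcases Finset.mem_insert.mp h₂ with h₄ | h₄
      · exact absurd (h₃.trans h₄.symm) hne
      · exact hdis e₂ h₄ i hi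
    · rcases Finset.mem_insert.mp h₂ with h₄ | h₄
      · intro hi'
        rw [h₄] at hi'
        exact hdis e₁ h₃ i hi' hi
      · exact h e₁ h₃ e₂ h₄ hne i hi
  · intro heM
    induction e using Sym2.ind with
    | _ a b => exact hdis _ heM a (Sym2.mem_mk_left a b) (Sym2.mem_mk_left a b)

/-- the number of the `R`-edges at `x` inside `Y` -/
private theorem dg_eq {R : Ch U} (hs : Supp X Y R) (x : U) (hx : x ∈ Y) :
    dg R x = ((Y.filter (fun j => X.Adj x j)).filter (fun j => R s(x, j) ≠ 0)).card := by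
  unfold dg
  symm
  refine Finset.card_bij (fun j _ => s(x, j)) ?_ ?_ ?_
  · intro j hj
    rw [Finset.mem_filter, Finset.mem_filter] at hj
    exact Finset.mem_filter.mpr ⟨Finset.mem_univ _, Sym2.mem_mk_left x j, hj.2⟩
  · intro a _ b _ h
    exact Sym2.congr_right.mp h
  · intro e he
    obtain ⟨-, hxe, hRe⟩ := Finset.mem_filter.mp he
    obtain ⟨j, rfl⟩ := Sym2.mem_iff_exists.mp hxe
    have h1 := hs _ hRe
    refine ⟨j, ?_, rfl⟩
    rw [Finset.mem_filter, Finset.mem_filter]
    exact ⟨⟨h1.2 j (Sym2.mem_mk_right x j), (SimpleGraph.mem_edgeSet _).mp h1.1⟩, hRe⟩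

private theorem filter_split {α : Type} (A B : Finset α) (p : α → Prop) :
    A.card ≤ ((A.filter p) \ B).card + (A.filter (fun a => ¬ p a)).card + B.card := by
  have h1 := Finset.card_filter_add_card_filter_not (s := A) p
  have h2 := Finset.le_card_sdiff B (A.filter p)
  omega

/-- a neighbour outside of a small set along which `R` is zero -/
private theorem exists_nb {R : Ch U} (hG : Good X Y Q) (hs : Supp X Y R) {x : U} (hx : x ∈ Y)
    (B : Finset U) {c : ℕ} (h1 : 2 * dg R x ≤ (Y.filter (fun j => X.Adj x j)).card + c)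
    (h2 : c + 2 * B.card < Q) : ∃ j ∈ Y, X.Adj x j ∧ j ∉ B ∧ R s(x, j) = 0 := by
  have h3 : (Y.filter (fun j => X.Adj x j)).card ≤
      (((Y.filter (fun j => X.Adj x j)).filter (fun j => R s(x, j) = 0)) \ B).card + dg R x +
        B.card := by
    rw [dg_eq hs x hx]
    convert filter_split (Y.filter (fun j => X.Adj x j)) B (fun j => R s(x, j) = 0)
  have h5 := hG.deg x hx
  have h6 : 0 < (((Y.filter (fun j => X.Adj x j)).filter (fun j => R s(x, j) = 0)) \ B).card := by
    omega
  obtain ⟨j, hj⟩ := Finset.card_pos.mp h6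
  rw [Finset.mem_sdiff, Finset.mem_filter, Finset.mem_filter] at hj
  exact ⟨j, hj.1.1.1, hj.1.1.2, hj.2, hj.1.2⟩

/-- a neighbour outside of a small set along which `R` is not zero -/
private theorem exists_nb' {R : Ch U} (hs : Supp X Y R) {x : U} (hx : x ∈ Y)
    (B : Finset U) (h1 : B.card < dg R x) : ∃ j ∈ Y, X.Adj x j ∧ j ∉ B ∧ R s(x, j) ≠ 0 := by
  rw [dg_eq hs x hx] at h1
  have h2 := Finset.le_card_sdiff B ((Y.filter (fun j => X.Adj x j)).filter
    (fun j => R s(x, j) ≠ 0))
  have h3 : 0 < (((Y.filter (fun j => X.Adj x j)).filter (fun j => R s(x, j) ≠ 0)) \ B).card := by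
    omega
  obtain ⟨j, hj⟩ := Finset.card_pos.mp h3
  rw [Finset.mem_sdiff, Finset.mem_filter, Finset.mem_filter] at hj
  exact ⟨j, hj.1.1.1, hj.1.1.2, hj.2, hj.1.2⟩

/-- one switch at a vertex of large degree -/
private theorem switch_step (hG : Good X Y Q) (hQ : 4 * w < Q) {R : Ch U} (hs : Supp X Y R)
    (hR : NuLe R w) {x : U} (hx : x ∈ Y)
    (hd : (Y.filter (fun j => X.Adj x j)).card < 2 * dg R x) :
    NuLe (R + star X Y x) w ∧
      (univ.filter (fun e => (R + star X Y x) e ≠ 0)).card < (univ.filter (fun e => R e ≠ 0)).card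
      := by
  have hdeg := hG.deg x hx
  constructor
  · apply nuLe_of_cut (i := x)
    intro M h1 h2
    have h3 : ∀ e ∈ M, x ∉ e ∧ R e ≠ 0 := by
      intro e he
      have h4 := h1 e he
      unfold cut at h4
      split_ifs at h4 with h5
      · exact absurd rfl h4
      · refine ⟨h5, ?_⟩
        have h6 : star X Y x e = 0 := by
          by_contra h7
          exact h5 (star_ne.mp h7).2.1
        rw [Pi.add_apply, h6, add_zero] at h4
        exact h4
    have hMw := hR M (fun e he => (h3 e he).2) h2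
    have h4 := card_vts_le M
    obtain ⟨j, hj, hxj, hjM, hRj⟩ := exists_nb' hs hx (vts M) (by omega)
    have hxM : x ∉ vts M := by
      intro h
      obtain ⟨e, he, hxe⟩ := mem_vts.mp h
      exact (h3 e he).1 hxe
    obtain ⟨h5, h6⟩ := Mat.insert (M := M) (e := s(x, j)) h2 (by
      intro i hi
      rw [Sym2.mem_iff] at hi
      rcases hi with rfl | rfl
      · exact hxM
      · exact hjM)
    have h7 := hR (Insert.insert s(x, j) M) (by
      intro e he
      rcases Finset.mem_insert.mp he with rfl | he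
      · exact hRj
      · exact (h3 e he).2) h5
    rw [Finset.card_insert_of_notMem h6] at h7
    omega
  · have h1 : (univ.filter (fun e => R e ≠ 0)).card =
        dg R x + (univ.filter (fun e : Sym2 U => x ∉ e ∧ R e ≠ 0)).card := by
      unfold dg
      rw [← Finset.card_filter_add_card_filter_not (s := univ.filter (fun e => R e ≠ 0))
        (fun e => x ∈ e), Finset.filter_filter, Finset.filter_filter]
      congr 2 <;> (ext e; simp only [Finset.mem_filter]; tauto)
    have h2 : (univ.filter (fun e => (R + star X Y x) e ≠ 0)).card =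
        dg (R + star X Y x) x + (univ.filter (fun e : Sym2 U => x ∉ e ∧ R e ≠ 0)).card := by
      unfold dg
      rw [← Finset.card_filter_add_card_filter_not
        (s := univ.filter (fun e => (R + star X Y x) e ≠ 0)) (fun e => x ∈ e),
        Finset.filter_filter, Finset.filter_filter]
      congr 2
      · ext e; simp only [Finset.mem_filter]; tauto
      · ext e
        simp only [Finset.mem_filter, Finset.mem_univ, true_and]
        constructor
        · rintro ⟨h3, h4⟩
          refine ⟨h4, ?_⟩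
          have h6 : star X Y x e = 0 := by
            by_contra h7
            exact h4 (star_ne.mp h7).2.1
          rw [Pi.add_apply, h6, add_zero] at h3
          exact h3
        · rintro ⟨h4, h3⟩
          refine ⟨?_, h4⟩
          have h6 : star X Y x e = 0 := by
            by_contra h7
            exact h4 (star_ne.mp h7).2.1
          rw [Pi.add_apply, h6, add_zero]
          exact h3
    have hs' : Supp X Y (R + star X Y x) := by
      refine hs.add ?_
      exact InStar.supp (i := x) (fun e he => he)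
    have h3 : dg R x + dg (R + star X Y x) x = (Y.filter (fun j => X.Adj x j)).card := by
      rw [dg_eq hs x hx, dg_eq hs' x hx,
        ← Finset.card_filter_add_card_filter_not (s := Y.filter (fun j => X.Adj x j))
        (fun j => R s(x, j) ≠ 0)]
      congr 2
      refine Finset.filter_congr fun j hj => ?_
      rw [Finset.mem_filter] at hj
      have h4 : star X Y x s(x, j) = 1 := by
        apply z2n
        rw [star_ne]
        refine ⟨(SimpleGraph.mem_edgeSet _).mpr hj.2, Sym2.mem_mk_left x j, ?_⟩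
        intro l hl
        rw [Sym2.mem_iff] at hl
        rcases hl with rfl | rfl
        · exact hx
        · exact hj.1
      rw [Pi.add_apply, h4]
      rcases z2c (R s(x, j)) with h5 | h5 <;> rw [h5] <;> decide
    omega

theorem exists_normal (hG : Good X Y Q) (hQ : 200 * (w + 1) ≤ Q) {K : Ch U} (hs : Supp X Y K)
    (hK : NuLe K w) :
    ∃ S : U → ZMod 2, sz Y S ≤ 4 * w + 2 ∧ NuLe (K + dl X Y S) w ∧ Nrm X Y 0 (K + dl X Y S) := by
  let P : (U → ZMod 2) → Prop := fun S => sz Y S ≤ 4 * w + 2 ∧ NuLe (K + dl X Y S) w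
  obtain ⟨S, hS, hmin⟩ := Finset.exists_min_image ((univ : Finset (U → ZMod 2)).filter P)
    (fun S => (univ.filter (fun e => (K + dl X Y S) e ≠ 0)).card)
    ⟨0, by
      refine Finset.mem_filter.mpr ⟨Finset.mem_univ _, ?_, ?_⟩
      · rw [sz_zero]; exact Nat.zero_le _
      · rw [dl_zero, add_zero]; exact hK⟩
  have hS' : P S := (Finset.mem_filter.mp hS).2
  refine ⟨S, hS'.1, hS'.2, ?_⟩
  intro x hx
  by_contra hcon
  have hd : (Y.filter (fun j => X.Adj x j)).card < 2 * dg (K + dl X Y S) x := by omega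
  have hs' : Supp X Y (K + dl X Y S) := hs.add (dl_supp S)
  obtain ⟨h1, h2⟩ := switch_step hG (by omega) hs' hS'.2 hx hd
  have h3 : K + dl X Y S + star X Y x = K + dl X Y (S + Pi.single x 1) := by
    rw [dl_add, dl_single (Pi.single x 1) x (fun j hj => Pi.single_eq_of_ne hj 1),
      Pi.single_eq_same, one_smul, add_assoc]
  rw [h3] at h1 h2
  have h4 : sz Y (S + Pi.single x 1) ≤ (4 * w + 2) + 1 := by
    refine (sz_add_le _ _).trans (Nat.add_le_add hS'.1 ?_)
    unfold sz
    rw [Finset.card_le_one]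
    have h5 : ∀ a ∈ Y.filter (fun i => (Pi.single x 1 : U → ZMod 2) i ≠ 0), a = x := by
      intro a ha
      by_contra h6
      exact (Finset.mem_filter.mp ha).2 (Pi.single_eq_of_ne h6 1)
    intro a ha b hb
    rw [h5 a ha, h5 b hb]
  have h5 : dl X Y (S + Pi.single x 1) = K + (K + dl X Y (S + Pi.single x 1)) := by
    rw [← add_assoc, ch_add_self, zero_add]
  have h6 : NuLe (dl X Y (S + Pi.single x 1)) (w + w) := by
    rw [h5]; exact hK.add h1
  have h7 := rigid' hG (by omega) h6 h4
  have h8 := hmin (S + Pi.single x 1) (Finset.mem_filter.mpr ⟨Finset.mem_univ _, by omega, h1⟩)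
  omega

private theorem exists_sub {α : Type} (M : Finset α) {n : ℕ} (h : n ≤ M.card) :
    ∃ N ⊆ M, N.card = n := Finset.exists_subset_card_eq h

/-- match the vertices of `S` one after the other -/
private theorem greedy {R : Ch U} (hG : Good X Y Q) (hs : Supp X Y R) (Z : Finset U)
    (hZY : Z ⊆ Y) {c n : ℕ}
    (hR : ∀ x ∈ Z, 2 * dg R x ≤ (Y.filter (fun j => X.Adj x j)).card + c) (M : Finset (Sym2 U))
    (hM : Mat M) (hMZ : ∀ x ∈ Z, x ∉ vts M) (hn : M.card ≤ n)
    (hQ : c + 2 * (2 * n + 3 * Z.card) < Q) :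
    ∀ W ⊆ Z, ∃ N : Finset (Sym2 U), Mat (M ∪ N) ∧ Disjoint M N ∧ N.card = W.card ∧
      (∀ x ∈ Z, x ∈ vts (M ∪ N) → x ∈ W) ∧
      ∀ e ∈ N, R e = 0 ∧ ∃ x ∈ W, ∃ j ∈ Y, j ∉ Z ∧ X.Adj x j ∧ e = s(x, j) := by
  intro W
  induction W using Finset.induction_on with
  | empty =>
    intro _
    refine ⟨∅, by simpa using hM, by simp, by simp, ?_, by simp⟩
    intro x hx hx'
    rw [Finset.union_empty] at hx'
    exact absurd hx' (hMZ x hx)
  | insert x W hxW ih =>
    intro hW
    obtain ⟨N, h1, h2, h3, h4, h5⟩ := ih (fun a ha => hW (Finset.mem_insert_of_mem ha))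
    have hxZ : x ∈ Z := hW (Finset.mem_insert_self x W)
    have hWZ : W.card ≤ Z.card := Finset.card_le_card
      (fun a ha => hW (Finset.mem_insert_of_mem ha))
    have h6 := card_vts_le (M ∪ N)
    have h7 := Finset.card_union_le M N
    have h8 := Finset.card_union_le (vts (M ∪ N)) Z
    obtain ⟨j, hjY, hxj, hjB, hRj⟩ := exists_nb hG hs (hZY hxZ) (vts (M ∪ N) ∪ Z) (hR x hxZ)
      (by omega)
    rw [Finset.mem_union] at hjB
    push Not at hjB
    have hx' : x ∉ vts (M ∪ N) := fun h => hxW (h4 x hxZ h)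
    obtain ⟨h9, h10⟩ := Mat.insert h1 (e := s(x, j)) (by
      intro i hi
      rw [Sym2.mem_iff] at hi
      rcases hi with rfl | rfl
      · exact hx'
      · exact hjB.1)
    rw [Finset.mem_union] at h10
    push Not at h10
    refine ⟨Insert.insert s(x, j) N, ?_, ?_, ?_, ?_, ?_⟩
    · rw [Finset.union_insert]; exact h9
    · rw [Finset.disjoint_insert_right]; exact ⟨h10.1, h2⟩
    · rw [Finset.card_insert_of_notMem h10.2, Finset.card_insert_of_notMem hxW, h3]
    · intro y hy hy'
      rw [Finset.union_insert] at hy'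
      obtain ⟨e, he, hye⟩ := mem_vts.mp hy'
      rcases Finset.mem_insert.mp he with rfl | he
      · rw [Sym2.mem_iff] at hye
        rcases hye with rfl | rfl
        · exact Finset.mem_insert_self _ _
        · exact absurd hy hjB.2
      · exact Finset.mem_insert_of_mem (h4 y hy (mem_vts.mpr ⟨e, he, hye⟩))
    · intro e he
      rcases Finset.mem_insert.mp he with rfl | he
      · exact ⟨hRj, x, Finset.mem_insert_self _ _, j, hjY, hjB.2, hxj, rfl⟩
      · obtain ⟨h11, a, ha, b, hb, h12⟩ := h5 e he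
        exact ⟨h11, a, Finset.mem_insert_of_mem ha, b, hb, h12⟩

theorem nuLe_of_normal (hG : Good X Y Q) (hQ : 200 * (w + 1) ≤ Q) {R : Ch U} (hs : Supp X Y R)
    (hR : Nrm X Y 4 R) {S : U → ZMod 2} (hS : sz Y S ≤ 3 * (4 * w + 2))
    (h : NuLe (R + dl X Y S) w) : NuLe R w := by
  intro M₁ h1 h2
  by_contra hcon
  push Not at hcon
  obtain ⟨M, hMM, hMc⟩ := exists_sub M₁ (n := w + 1) hcon
  have hM1 : ∀ e ∈ M, R e ≠ 0 := fun e he => h1 e (hMM he)
  have hM2 : Mat M := Mat.mono (N := M₁) h2 hMM
  set Z := Y.filter (fun i => S i ≠ 0) with hZ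
  have hZc : Z.card ≤ 3 * (4 * w + 2) := hS
  have hZY : Z ⊆ Y := Finset.filter_subset _ _
  let M0 := M.filter (fun e => ∀ i ∈ Z, i ∉ e)
  have hM0 : Mat M0 := hM2.mono (Finset.filter_subset _ _)
  have hM0c : M0.card ≤ w + 1 := by
    rw [← hMc]; exact Finset.card_le_card (Finset.filter_subset _ _)
  have hM0Z : ∀ x ∈ Z, x ∉ vts M0 := by
    intro x hx hx'
    obtain ⟨e, he, hxe⟩ := mem_vts.mp hx'
    exact (Finset.mem_filter.mp he).2 x hx hxe
  obtain ⟨N, hN1, hN2, hN3, -, hN5⟩ := greedy hG hs Z hZY (c := 4) (n := w + 1)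
    (fun x hx => hR x (hZY hx)) M0 hM0 hM0Z hM0c (by omega) Z (Finset.Subset.refl _)
  -- the edges of `M` which meet `Z`
  have h3 : (M.filter (fun e => ¬ ∀ i ∈ Z, i ∉ e)).card ≤ Z.card := by
    refine nuLe_of_cover (K := fun e => if ∃ i ∈ Z, i ∈ e then (1 : ZMod 2) else 0) Z ?_ _ ?_ ?_
    · intro e he
      by_contra h4
      rw [if_neg h4] at he
      exact he rfl
    · intro e he
      have h4 := (Finset.mem_filter.mp he).2
      push Not at h4
      change (if ∃ i ∈ Z, i ∈ e then (1 : ZMod 2) else 0) ≠ 0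
      rw [if_pos h4]
      decide
    · intro e he e' he'
      exact hM2 e (Finset.mem_filter.mp he).1 e' (Finset.mem_filter.mp he').1
  have h4 := Finset.card_filter_add_card_filter_not (s := M) (fun e => ∀ i ∈ Z, i ∉ e)
  have h5 : (M0 ∪ N).card = M0.card + N.card := Finset.card_union_of_disjoint hN2
  have h6 := h (M0 ∪ N) (by
    intro e he
    rcases Finset.mem_union.mp he with he | he
    · obtain ⟨he1, he2⟩ := Finset.mem_filter.mp he
      have h7 : dl X Y S e = 0 := by
        induction e using Sym2.ind with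
        | _ a b =>
          rw [dl_mk]
          split_ifs with h8
          · have h9 : S a = 0 := by
              by_contra h10
              exact he2 a (Finset.mem_filter.mpr ⟨h8.2.1, h10⟩) (Sym2.mem_mk_left a b)
            have h10 : S b = 0 := by
              by_contra h10
              exact he2 b (Finset.mem_filter.mpr ⟨h8.2.2, h10⟩) (Sym2.mem_mk_right a b)
            rw [h9, h10, add_zero]
          · rfl
      rw [Pi.add_apply, h7, add_zero]
      exact hM1 e he1
    · obtain ⟨h7, x, hx, j, hj, hjZ, hxj, rfl⟩ := hN5 e he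
      obtain ⟨hx1, hx2⟩ := Finset.mem_filter.mp hx
      rw [Pi.add_apply, h7, zero_add, dl_mk, if_pos ⟨hxj, hx1, hj⟩]
      have h8 : S j = 0 := by
        by_contra h10
        exact hjZ (Finset.mem_filter.mpr ⟨hj, h10⟩)
      rw [h8, add_zero]
      exact hx2) hN1
  have h7 : M0.card + (M.filter (fun e => ¬ ∀ i ∈ Z, i ∉ e)).card = M.card := h4
  omega

/-- Absorbability does not depend on the representative. -/
theorem Absb.gauge (hG : Good X Y Q) (hQ : 200 * (w + 1) ≤ Q) {i : U} {K : Ch U}
    (h : Absb X Y w i K) {S : U → ZMod 2} (hS : sz Y S ≤ 3 * (4 * w + 2))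
    (hK : NuLe (K + dl X Y S) w) : Absb X Y w i (K + dl X Y S) := by
  obtain ⟨S₀, hS₀, h₀⟩ := h
  refine ⟨S + S₀, ?_, ?_⟩
  · have h1 : dl X Y (S + S₀) = (K + dl X Y S) + (K + dl X Y S₀) := by
      rw [dl_add, add_add_add_comm, ch_add_self, zero_add]
    have h2 : NuLe (dl X Y (S + S₀)) (w + w) := by
      rw [h1]; exact hK.add (nuLe_of_cut h₀)
    have h3 := rigid' hG (b := 4 * (4 * w + 2)) (by omega) h2
      ((sz_add_le _ _).trans (by omega))
    omega
  · have h1 : K + dl X Y S + dl X Y (S + S₀) = K + dl X Y S₀ := by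
      rw [dl_add, add_assoc, ← add_assoc (dl X Y S), ch_add_self, zero_add]
    rw [h1]
    exact h₀

/-- ADJ -/
theorem nuLe_adj {R : Ch U} {e f : Sym2 U} {i : U} (he : i ∈ e) (hf : i ∈ f) (hef : e ≠ f) {m : ℕ}
    (h0 : NuLe R m) (h1 : NuLe (R + Pi.single e 1) m)
    (h2 : NuLe (R + Pi.single e 1 + Pi.single f 1) m) : NuLe (R + Pi.single f 1) m := by
  intro M h3 h4
  by_cases hfM : f ∈ M
  · have heM : e ∉ M := fun heM => h4 e heM f hfM hef i he hf
    refine h2 M ?_ h4
    intro g hg
    have hge : g ≠ e := fun h => heM (h ▸ hg)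
    have h5 := h3 g hg
    rw [Pi.add_apply] at h5
    rw [Pi.add_apply, Pi.add_apply, Pi.single_eq_of_ne hge, add_zero]
    exact h5
  · refine h0 M ?_ h4
    intro g hg
    have hgf : g ≠ f := fun h => hfM (h ▸ hg)
    have h5 := h3 g hg
    rw [Pi.add_apply, Pi.single_eq_of_ne hgf, add_zero] at h5
    exact h5

private theorem dg_add_single_le (R : Ch U) (e : Sym2 U) (x : U) :
    dg (R + Pi.single e 1) x ≤ dg R x + 1 := by
  unfold dg
  refine (Finset.card_le_card (t := insert e (univ.filter (fun e : Sym2 U => x ∈ e ∧ R e ≠ 0)))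
    ?_).trans (Finset.card_insert_le _ _)
  intro g hg
  obtain ⟨-, h1, h2⟩ := Finset.mem_filter.mp hg
  rw [Finset.mem_insert]
  by_cases hge : g = e
  · exact Or.inl hge
  · right
    rw [Pi.add_apply, Pi.single_eq_of_ne hge, add_zero] at h2
    exact Finset.mem_filter.mpr ⟨Finset.mem_univ _, h1, h2⟩

private theorem Nrm.single {c : ℕ} {R : Ch U} (h : Nrm X Y c R) (e : Sym2 U) :
    Nrm X Y (c + 2) (R + Pi.single e 1) := by
  intro x hx
  have h1 := h x hx
  have h2 := dg_add_single_le R e x
  omega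

private theorem Nrm.mono {c d : ℕ} {R : Ch U} (h : Nrm X Y c R) (hcd : c ≤ d) : Nrm X Y d R := by
  intro x hx
  have h1 := h x hx
  omega

private theorem supp_single {i : U} {e : Sym2 U} (he : star X Y i e ≠ 0) :
    Supp X Y (Pi.single e 1 : Ch U) := by
  intro g hg
  have h1 : g = e := by
    by_contra h
    exact hg (Pi.single_eq_of_ne h 1)
  rw [h1]
  have h2 := star_ne.mp he
  exact ⟨h2.1, h2.2.2⟩

private theorem nuLe_single (e : Sym2 U) : NuLe (Pi.single e 1 : Ch U) 1 := by
  apply nuLe_one_of_single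
  refine ⟨e, fun g hg => ?_⟩
  by_contra h
  exact hg (Pi.single_eq_of_ne h 1)

/-- The exchange of two labels `e`, `f` with a common vertex: `K₀`, `K₁ ~ K₀ + e`,
`K₂ ~ K₁ + f` are local, then so is `K₀ + f`. -/
theorem exchange (hG : Good X Y Q) (hQ : 200 * (w + 1) ≤ Q) {K₀ K₁ K₂ : Ch U} {e f : Sym2 U} {i : U}
    (he : star X Y i e ≠ 0) (hf : star X Y i f ≠ 0) (hef : e ≠ f) {T₁ T₂ : U → ZMod 2}
    (s₀ : Supp X Y K₀) (h₀ : NuLe K₀ w) (h₁ : NuLe K₁ w) (h₂ : NuLe K₂ w)
    (hT₁ : sz Y T₁ ≤ 4 * w + 2) (hT₂ : sz Y T₂ ≤ 4 * w + 2)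
    (e₁ : K₀ + K₁ = Pi.single e 1 + dl X Y T₁) (e₂ : K₁ + K₂ = Pi.single f 1 + dl X Y T₂) :
    ∃ (K₁' : Ch U) (T₁' T₂' : U → ZMod 2), NuLe K₁' w ∧ Supp X Y K₁' ∧ sz Y T₁' ≤ 4 * w + 2 ∧
      sz Y T₂' ≤ 4 * w + 2 ∧ T₁' + T₂' = T₁ + T₂ ∧ K₀ + K₁' = Pi.single f 1 + dl X Y T₁' ∧
      K₁' + K₂ = Pi.single e 1 + dl X Y T₂' := by
  obtain ⟨S, hS, hR1, hR2⟩ := exists_normal hG hQ s₀ h₀
  set R := K₀ + dl X Y S with hRdef
  have hRs : Supp X Y R := s₀.add (dl_supp S)
  have cc : ∀ K L : Ch U, K + L + L = K := fun K L => by rw [add_assoc, ch_add_self, add_zero]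
  have hK1 : K₁ = K₀ + (Pi.single e 1 + dl X Y T₁) := by
    rw [← e₁, ← add_assoc, ch_add_self, zero_add]
  have hK2 : K₂ = K₁ + (Pi.single f 1 + dl X Y T₂) := by
    rw [← e₂, ← add_assoc, ch_add_self, zero_add]
  have hA : NuLe (R + Pi.single e 1) w := by
    refine nuLe_of_normal hG hQ (hRs.add (supp_single he)) ((hR2.single e).mono (by omega))
      (S := T₁ + S) ((sz_add_le _ _).trans (by omega)) ?_
    have h3 : R + Pi.single e 1 + dl X Y (T₁ + S) = K₁ := by
      rw [hRdef, dl_add, hK1]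
      have h4 := ch_add_self (dl X Y S)
      calc K₀ + dl X Y S + Pi.single e 1 + (dl X Y T₁ + dl X Y S)
          = K₀ + (Pi.single e 1 + dl X Y T₁) + (dl X Y S + dl X Y S) := by abel
        _ = K₀ + (Pi.single e 1 + dl X Y T₁) := by rw [h4, add_zero]
    rw [h3]
    exact h₁
  have hB : NuLe (R + Pi.single e 1 + Pi.single f 1) w := by
    refine nuLe_of_normal hG hQ ((hRs.add (supp_single he)).add (supp_single hf))
      (((hR2.single e).single f).mono (by omega))
      (S := T₁ + T₂ + S) (((sz_add_le _ _).trans (Nat.add_le_add_right (sz_add_le _ _) _)).trans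
        (by omega)) ?_
    have h3 : R + Pi.single e 1 + Pi.single f 1 + dl X Y (T₁ + T₂ + S) = K₂ := by
      rw [hRdef, dl_add, dl_add, hK2, hK1]
      have h4 := ch_add_self (dl X Y S)
      calc K₀ + dl X Y S + Pi.single e 1 + Pi.single f 1 + (dl X Y T₁ + dl X Y T₂ + dl X Y S)
          = K₀ + (Pi.single e 1 + dl X Y T₁) + (Pi.single f 1 + dl X Y T₂) +
            (dl X Y S + dl X Y S) := by abel
        _ = K₀ + (Pi.single e 1 + dl X Y T₁) + (Pi.single f 1 + dl X Y T₂) := by
            rw [h4, add_zero]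
    rw [h3]
    exact h₂
  have hi1 : i ∈ e := (star_ne.mp he).2.1
  have hi2 : i ∈ f := (star_ne.mp hf).2.1
  have hC : NuLe (R + Pi.single f 1) w := nuLe_adj hi1 hi2 hef hR1 hA hB
  have e3 : K₀ + (R + Pi.single f 1) = Pi.single f 1 + dl X Y S := by
    rw [hRdef]
    calc K₀ + (K₀ + dl X Y S + Pi.single f 1)
        = (K₀ + K₀) + (Pi.single f 1 + dl X Y S) := by abel
      _ = Pi.single f 1 + dl X Y S := by rw [ch_add_self, zero_add]
  have e4 : R + Pi.single f 1 + K₂ = Pi.single e 1 + dl X Y (S + (T₁ + T₂)) := by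
    rw [hRdef, hK2, hK1, dl_add, dl_add]
    calc K₀ + dl X Y S + Pi.single f 1 + (K₀ + (Pi.single e 1 + dl X Y T₁) +
          (Pi.single f 1 + dl X Y T₂))
        = (K₀ + K₀) + (Pi.single f 1 + Pi.single f 1) +
          (Pi.single e 1 + (dl X Y S + (dl X Y T₁ + dl X Y T₂))) := by abel
      _ = Pi.single e 1 + (dl X Y S + (dl X Y T₁ + dl X Y T₂)) := by
          rw [ch_add_self, ch_add_self, zero_add, zero_add]
  refine ⟨R + Pi.single f 1, S, S + (T₁ + T₂), hC, hRs.add (supp_single hf), hS, ?_, ?_, e3, e4⟩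
  · have h3 : dl X Y (S + (T₁ + T₂)) = (R + Pi.single f 1) + K₂ + Pi.single e 1 := by
      rw [e4]
      calc dl X Y (S + (T₁ + T₂)) = dl X Y (S + (T₁ + T₂)) + (Pi.single e 1 + Pi.single e 1) := by
            rw [ch_add_self, add_zero]
        _ = Pi.single e 1 + dl X Y (S + (T₁ + T₂)) + Pi.single e 1 := by abel
    have h4 : NuLe (dl X Y (S + (T₁ + T₂))) (w + w + 1) := by
      rw [h3]
      exact (hC.add h₂).add (nuLe_single e)
    have h5 := rigid' hG (b := 3 * (4 * w + 2)) (by omega) h4
      ((sz_add_le _ _).trans ((Nat.add_le_add_left (sz_add_le _ _) _).trans (by omega)))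
    omega
  · have h3 : S + S = 0 := by
      funext j
      exact CharTwo.add_self_eq_zero (S j)
    rw [← add_assoc, h3, zero_add]

/-- GSET: a full memory can read at most `2 w` labels of the star of `i`.  The set `G` depends only
on the content `K₀` before the letter.  (`hfull` for the normal representative is enough: take the
vertices of a matching with `w` edges of its restriction to the complement of the star.) -/
theorem exists_gset (hG : Good X Y Q) (hQ : 200 * (w + 1) ≤ Q) {K₀ : Ch U} (s₀ : Supp X Y K₀)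
    (h₀ : NuLe K₀ w) (i : U) (hfull : ¬ Absb X Y w i K₀) :
    ∃ G : Finset (Sym2 U), G.card ≤ 2 * w ∧ ∀ (e : Sym2 U) (K₁ : Ch U) (T : U → ZMod 2),
      star X Y i e ≠ 0 → NuLe K₁ w → sz Y T ≤ 4 * w + 2 →
      K₀ + K₁ = Pi.single e 1 + dl X Y T → e ∈ G := by
  obtain ⟨S, hS, hR1, hR2⟩ := exists_normal hG hQ s₀ h₀
  set R := K₀ + dl X Y S with hRdef
  have hRs : Supp X Y R := s₀.add (dl_supp S)
  have h1 : ¬ NuLt (cut i R) w := fun h => hfull ⟨S, hS, h⟩
  unfold NuLt at h1
  push Not at h1
  obtain ⟨M, hM1, hM2, hM3⟩ := h1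
  have hM4 : ∀ e ∈ M, i ∉ e ∧ R e ≠ 0 := by
    intro e he
    have h4 := hM1 e he
    unfold cut at h4
    split_ifs at h4 with h5
    · exact absurd rfl h4
    · exact ⟨h5, h4⟩
  have hMw : M.card ≤ w := hR1 M (fun e he => (hM4 e he).2) hM2
  refine ⟨(vts M).image (fun j => s(i, j)), ?_, ?_⟩
  · exact Finset.card_image_le.trans ((card_vts_le M).trans (by omega))
  · intro e K₁ T he hK₁ hT heq
    have hA : NuLe (R + Pi.single e 1) w := by
      refine nuLe_of_normal hG hQ (hRs.add (supp_single he)) ((hR2.single e).mono (by omega))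
        (S := T + S) ((sz_add_le _ _).trans (by omega)) ?_
      have hK1 : K₁ = K₀ + (Pi.single e 1 + dl X Y T) := by
        rw [← heq, ← add_assoc, ch_add_self, zero_add]
      have h3 : R + Pi.single e 1 + dl X Y (T + S) = K₁ := by
        rw [hRdef, dl_add, hK1]
        calc K₀ + dl X Y S + Pi.single e 1 + (dl X Y T + dl X Y S)
            = K₀ + (Pi.single e 1 + dl X Y T) + (dl X Y S + dl X Y S) := by abel
          _ = K₀ + (Pi.single e 1 + dl X Y T) := by rw [ch_add_self, add_zero]
      rw [h3]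
      exact hK₁
    have he' := star_ne.mp he
    obtain ⟨j, rfl⟩ := Sym2.mem_iff_exists.mp he'.2.1
    rw [Finset.mem_image]
    by_contra hcon
    push Not at hcon
    have hjM : j ∉ vts M := fun h => hcon j h rfl
    have hiM : i ∉ vts M := by
      intro h
      obtain ⟨e, he, hxe⟩ := mem_vts.mp h
      exact (hM4 e he).1 hxe
    obtain ⟨h5, h6⟩ := Mat.insert (M := M) (e := s(i, j)) hM2 (by
      intro l hl
      rw [Sym2.mem_iff] at hl
      rcases hl with rfl | rfl
      · exact hiM
      · exact hjM)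
    have hMne : ∀ e ∈ M, e ≠ s(i, j) := fun e he h => h6 (h ▸ he)
    by_cases hRe : R s(i, j) = 0
    · have h7 := hA (Insert.insert s(i, j) M) (by
        intro g hg
        rcases Finset.mem_insert.mp hg with rfl | hg
        · rw [Pi.add_apply, hRe, Pi.single_eq_same, zero_add]
          decide
        · rw [Pi.add_apply, Pi.single_eq_of_ne (hMne g hg), add_zero]
          exact (hM4 g hg).2) h5
      rw [Finset.card_insert_of_notMem h6] at h7
      omega
    · have h7 := hR1 (Insert.insert s(i, j) M) (by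
        intro g hg
        rcases Finset.mem_insert.mp hg with rfl | hg
        · exact hRe
        · exact (hM4 g hg).2) h5
      rw [Finset.card_insert_of_notMem h6] at h7
      omega

end Pool.Agent.HomV
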