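import Pool.Agent.HomV.SwDef

/-!
# Vertices and faces as cycles of permutations

`corner`, `fl` (or `corner`, `across`) are fixed point free involutions; the orbits of the group
generated by them are the vertices (faces).  The permutation `rot = corner ∘ fl` (`fac = corner ∘
across`) has exactly two cycles on each of them, which are exchanged by `corner` and by `fl`
(`across`).  Key fact: if `a`, `c` are involutions without fixed points and `φ = c ∘ a`, then never
`φ ^ n x = a x` or `φ ^ n x = c x`: for `n = 2 m`, `φ ^ n x = a x` gives `y = a y` for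
`y = φ ^ m x`, because `a φ⁻¹ = φ a`; the other cases are similar.
-/

set_option autoImplicit false

namespace Pool.Agent.HomV

open Finset Classical

/-- number of cycles of a permutation (fixed points included) -/
noncomputable def cyc {α : Type} (f : Equiv.Perm α) : ℕ :=
  Nat.card (Quotient (Equiv.Perm.SameCycle.setoid f))

section invol

variable {α : Type} {c a : Equiv.Perm α}

/-- Two fixed point free involutions. -/
structure Inv2 (c a : Equiv.Perm α) : Prop where
  cc : ∀ x, c (c x) = x
  aa : ∀ x, a (a x) = x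
  c_ne : ∀ x, c x ≠ x
  a_ne : ∀ x, a x ≠ x

/-- The links of two involutions. -/
def Lnk (c a : Equiv.Perm α) (x y : α) : Prop := y = c x ∨ y = a x

namespace Inv2

variable (h : Inv2 c a)
include h

theorem inv_c : c⁻¹ = c := by
  ext x
  rw [Equiv.Perm.inv_eq_iff_eq, h.cc]

theorem inv_a : a⁻¹ = a := by
  ext x
  rw [Equiv.Perm.inv_eq_iff_eq, h.aa]

theorem inv_ca : (c * a)⁻¹ = a * c := by
  rw [mul_inv_rev, h.inv_c, h.inv_a]

theorem a_zpow (n : ℤ) (x : α) : a (((c * a) ^ n) x) = ((c * a) ^ (-n)) (a x) := by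
  have h1 : a * (c * a) * a⁻¹ = (c * a)⁻¹ := by
    rw [h.inv_ca, ← mul_assoc, mul_assoc, mul_inv_cancel, mul_one]
  have h2 : a * (c * a) ^ n * a⁻¹ = (c * a) ^ (-n) := by
    rw [← conj_zpow, h1, inv_zpow, zpow_neg]
  rw [← h2]
  simp

theorem c_zpow (n : ℤ) (x : α) : c (((c * a) ^ n) x) = ((c * a) ^ (-n)) (c x) := by
  have h1 : c * (c * a) * c⁻¹ = (c * a)⁻¹ := by
    rw [h.inv_ca, h.inv_c, ← mul_assoc]
    have : c * c = 1 := by
      ext y
      simp [h.cc]
    rw [this, one_mul]
  have h2 : c * (c * a) ^ n * c⁻¹ = (c * a) ^ (-n) := by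
    rw [← conj_zpow, h1, inv_zpow, zpow_neg]
  rw [← h2]
  simp

theorem zpow_ne_a (n : ℤ) (x : α) : ((c * a) ^ n) x ≠ a x := by
  intro hx
  obtain ⟨m, hm⟩ := Int.even_or_odd' n
  rcases hm with hm | hm
  · refine h.a_ne (((c * a) ^ m) x) ?_
    rw [h.a_zpow, ← hx, ← Equiv.Perm.mul_apply, ← zpow_add]
    congr 2
    omega
  · refine h.c_ne (a (((c * a) ^ m) x)) ?_
    have h1 : c (a (((c * a) ^ m) x)) = ((c * a) ^ (m + 1)) x := by
      rw [add_comm, zpow_add, zpow_one, Equiv.Perm.mul_apply, Equiv.Perm.mul_apply]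
    rw [h1, h.a_zpow, ← hx, ← Equiv.Perm.mul_apply, ← zpow_add]
    congr 2
    omega

theorem zpow_ne_c (n : ℤ) (x : α) : ((c * a) ^ n) x ≠ c x := by
  intro hx
  refine h.zpow_ne_a (n - 1) x ?_
  have h1 : (c * a) (a x) = c x := by rw [Equiv.Perm.mul_apply, h.aa]
  rw [sub_eq_neg_add, zpow_add, zpow_neg, zpow_one, Equiv.Perm.mul_apply, hx,
    Equiv.Perm.inv_eq_iff_eq, h1]

theorem sameCycle_c {x y : α} (hxy : (c * a).SameCycle x y) : (c * a).SameCycle (c x) (c y) := by
  obtain ⟨n, hn⟩ := hxy
  exact ⟨-n, by rw [← h.c_zpow, hn]⟩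

theorem sameCycle_c_iff {x y : α} : (c * a).SameCycle (c x) (c y) ↔ (c * a).SameCycle x y :=
  ⟨fun hxy => by simpa [h.cc] using h.sameCycle_c hxy, h.sameCycle_c⟩

theorem sameCycle_a {x y : α} (hxy : (c * a).SameCycle x y) : (c * a).SameCycle (a x) (a y) := by
  obtain ⟨n, hn⟩ := hxy
  exact ⟨-n, by rw [← h.a_zpow, hn]⟩

theorem not_sameCycle_c (x : α) : ¬ (c * a).SameCycle x (c x) := fun ⟨n, hn⟩ => h.zpow_ne_c n x hn

theorem not_sameCycle_a (x : α) : ¬ (c * a).SameCycle x (a x) := fun ⟨n, hn⟩ => h.zpow_ne_a n x hn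

/-- `a x` and `c x` are in the same cycle. -/
theorem sameCycle_a_c (x : α) : (c * a).SameCycle (a x) (c x) :=
  ⟨1, by rw [zpow_one, Equiv.Perm.mul_apply, h.aa]⟩

theorem eqvGen_iff (x y : α) :
    Relation.EqvGen (Lnk c a) x y ↔ (c * a).SameCycle x y ∨ (c * a).SameCycle x (c y) := by
  constructor
  · intro hxy
    induction hxy with
    | rel x y hxy =>
      rcases hxy with rfl | rfl
      · right; rw [h.cc]
      · right
        have := h.sameCycle_c (h.sameCycle_a_c x)
        rw [h.cc] at this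
        exact this.symm
    | refl x => left; exact Equiv.Perm.SameCycle.refl _ _
    | symm x y _ ih =>
      rcases ih with ih | ih
      · left; exact ih.symm
      · right
        have := h.sameCycle_c ih
        rw [h.cc] at this
        exact this.symm
    | trans x y z _ _ h1 h2 =>
      rcases h1 with h1 | h1 <;> rcases h2 with h2 | h2
      · left; exact h1.trans h2
      · right; exact h1.trans h2
      · right; exact h1.trans (h.sameCycle_c h2)
      · left
        have := h.sameCycle_c h2
        rw [h.cc] at this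
        exact h1.trans this
  · have key : ∀ (n : ℕ) (x : α), Relation.EqvGen (Lnk c a) x (((c * a) ^ n) x) := by
      intro n
      induction n with
      | zero => intro x; exact Relation.EqvGen.refl _
      | succ n ih =>
        intro x
        refine (ih x).trans _ _ _ ?_
        rw [pow_succ', Equiv.Perm.mul_apply, Equiv.Perm.mul_apply]
        refine (Relation.EqvGen.rel _ (a (((c * a) ^ n) x)) (Or.inr rfl)).trans _ _ _ ?_
        exact Relation.EqvGen.rel _ _ (Or.inl rfl)
    have key2 : ∀ (n : ℤ) (x : α), Relation.EqvGen (Lnk c a) x (((c * a) ^ n) x) := by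
      intro n x
      rcases Int.eq_nat_or_neg n with ⟨m, hm | hm⟩
      · rw [hm, zpow_natCast]
        exact key m x
      · have := (key m (((c * a) ^ n) x)).symm
        rw [← zpow_natCast, ← Equiv.Perm.mul_apply, ← zpow_add, hm] at this
        simpa [hm] using this
    rintro (⟨n, hn⟩ | ⟨n, hn⟩)
    · rw [← hn]; exact key2 n x
    · have h1 := key2 n x
      rw [hn] at h1
      exact h1.trans _ _ _ (Relation.EqvGen.rel _ _ (Or.inl (h.cc y).symm))

theorem cyc_eq [Finite α] : cyc (c * a) = 2 * Nat.card (Quot (Lnk c a)) := by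
  have : Fintype α := Fintype.ofFinite α
  have hQ : Finite (Quotient (Equiv.Perm.SameCycle.setoid (c * a))) := inferInstance
  have hL : Finite (Quot (Lnk c a)) := inferInstance
  have : Fintype (Quotient (Equiv.Perm.SameCycle.setoid (c * a))) := Fintype.ofFinite _
  have : Fintype (Quot (Lnk c a)) := Fintype.ofFinite _
  unfold cyc
  rw [Nat.card_eq_fintype_card, Nat.card_eq_fintype_card]
  -- the projection
  let π : Quotient (Equiv.Perm.SameCycle.setoid (c * a)) → Quot (Lnk c a) :=
    Quotient.lift (fun x => Quot.mk _ x) (by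
      intro x y hxy
      exact Quot.eqvGen_sound ((h.eqvGen_iff x y).2 (Or.inl hxy)))
  have hfib : ∀ v : Quot (Lnk c a), (univ.filter fun q => π q = v).card = 2 := by
    intro v
    obtain ⟨x, rfl⟩ := Quot.exists_rep v
    have h1 : (univ.filter fun q => π q = Quot.mk _ x) =
        {Quotient.mk (Equiv.Perm.SameCycle.setoid (c * a)) x,
          Quotient.mk (Equiv.Perm.SameCycle.setoid (c * a)) (c x)} := by
      ext q
      obtain ⟨y, rfl⟩ := Quotient.exists_rep q
      simp only [mem_filter, mem_univ, true_and, mem_insert, mem_singleton]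
      have h2 : π (Quotient.mk _ y) = Quot.mk _ y := rfl
      rw [h2]
      constructor
      · intro hy
        rcases (h.eqvGen_iff y x).1 (Quot.eqvGen_exact hy) with h3 | h3
        · left; exact Quotient.sound h3
        · right; exact Quotient.sound h3
      · intro hy
        refine Quot.eqvGen_sound ((h.eqvGen_iff y x).2 ?_)
        rcases hy with hy | hy
        · left; exact Quotient.exact hy
        · right; exact Quotient.exact hy
    rw [h1, Finset.card_pair]
    intro heq
    exact h.not_sameCycle_c x (Quotient.exact heq)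
  rw [← Finset.card_univ, Finset.card_eq_sum_card_fiberwise (f := π) (t := univ)
    (fun _ _ => mem_univ _), Finset.sum_congr rfl fun v _ => hfib v, Finset.sum_const,
    Finset.card_univ, smul_eq_mul, mul_comm]

end Inv2

end invol

variable {D : Type}

namespace CMap

variable (M : CMap D)

/-- `corner` as a permutation -/
def cP : Equiv.Perm (D × Bool) where
  toFun := M.corner
  invFun := M.corner
  left_inv := M.cc
  right_inv := M.cc

/-- `fl` as a permutation -/
def fP : Equiv.Perm (D × Bool) where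
  toFun := fl
  invFun := fl
  left_inv := fl_fl
  right_inv := fl_fl

/-- `across` as a permutation -/
def aP : Equiv.Perm (D × Bool) where
  toFun := M.across
  invFun := M.across
  left_inv := M.across_across
  right_inv := M.across_across

@[simp] theorem cP_apply (x : D × Bool) : M.cP x = M.corner x := rfl

@[simp] theorem fP_apply (x : D × Bool) : fP x = fl x := rfl

@[simp] theorem aP_apply (x : D × Bool) : M.aP x = M.across x := rfl

theorem rot_eq : M.rot = M.cP * fP := by
  ext x <;> rfl

theorem fac_eq : M.fac = M.cP * M.aP := by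
  ext x <;> rfl

theorem inv2_rot : Inv2 M.cP (fP (D := D)) := ⟨M.cc, fl_fl, M.corner_ne, fl_ne⟩

theorem inv2_fac : Inv2 M.cP M.aP := ⟨M.cc, M.across_across, M.corner_ne, M.across_ne⟩

theorem VRel_eq : M.VRel = Lnk M.cP fP := rfl

theorem FRel_eq : M.FRel = Lnk M.cP M.aP := rfl

theorem rot_pow_ne_fl (n : ℤ) (x : D × Bool) : (M.rot ^ n) x ≠ fl x := by
  rw [rot_eq]
  exact M.inv2_rot.zpow_ne_a n x

theorem rot_pow_ne_corner (n : ℤ) (x : D × Bool) : (M.rot ^ n) x ≠ M.corner x := by
  rw [rot_eq]
  exact M.inv2_rot.zpow_ne_c n x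

theorem fac_pow_ne_across (n : ℤ) (x : D × Bool) : (M.fac ^ n) x ≠ M.across x := by
  rw [fac_eq]
  exact M.inv2_fac.zpow_ne_a n x

theorem fac_pow_ne_corner (n : ℤ) (x : D × Bool) : (M.fac ^ n) x ≠ M.corner x := by
  rw [fac_eq]
  exact M.inv2_fac.zpow_ne_c n x

theorem sameV_iff' (x y : D × Bool) :
    M.SameV x y ↔ M.rot.SameCycle x y ∨ M.rot.SameCycle x (M.corner y) := by
  rw [rot_eq]
  exact M.inv2_rot.eqvGen_iff x y

theorem sameF_iff' (x y : D × Bool) :
    M.SameF x y ↔ M.fac.SameCycle x y ∨ M.fac.SameCycle x (M.corner y) := by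
  rw [fac_eq]
  exact M.inv2_fac.eqvGen_iff x y

theorem exists_pow_iff {α : Type} [Finite α] (f : Equiv.Perm α) (x y : α) :
    (∃ n : ℕ, (f ^ n) x = y) ↔ f.SameCycle x y :=
  ⟨fun ⟨n, hn⟩ => ⟨n, by rw [zpow_natCast, hn]⟩, fun h => h.exists_nat_pow_eq⟩

theorem sameV_iff [Finite D] (x y : D × Bool) :
    M.SameV x y ↔ ∃ n : ℕ, (M.rot ^ n) x = y ∨ (M.rot ^ n) x = M.corner y := by
  rw [exists_or, exists_pow_iff, exists_pow_iff, sameV_iff']

theorem sameF_iff [Finite D] (x y : D × Bool) :
    M.SameF x y ↔ ∃ n : ℕ, (M.fac ^ n) x = y ∨ (M.fac ^ n) x = M.corner y := by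
  rw [exists_or, exists_pow_iff, exists_pow_iff, sameF_iff']

theorem cyc_rot [Finite D] : cyc M.rot = 2 * M.nV := by
  rw [rot_eq, M.inv2_rot.cyc_eq]
  rfl

theorem cyc_fac [Finite D] : cyc M.fac = 2 * M.nF := by
  rw [fac_eq, M.inv2_fac.cyc_eq]
  rfl

end CMap

end Pool.Agent.HomV
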