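import Pool.Agent.HomV.Cyc

/-!
# The number of cycles of `swap p q * f`

If `p`, `q` are in the same cycle of `f`, then `swap p q * f` has one cycle more, otherwise one
cycle less.  Proof: modulo the identification of `p` and `q` the two permutations have the same
orbits (`card_quot_link`); if `p`, `q` are in different cycles of `f` they are in one cycle of
`swap p q * f`, and conversely.
-/

set_option autoImplicit false

namespace Pool.Agent.HomV

open Finset Classical

theorem eqvGen_mono {α : Type} {r s : α → α → Prop} (h : ∀ x y, r x y → s x y) {x y : α}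
    (hxy : Relation.EqvGen r x y) : Relation.EqvGen s x y := by
  induction hxy with
  | rel x y hxy => exact Relation.EqvGen.rel _ _ (h x y hxy)
  | refl x => exact Relation.EqvGen.refl _
  | symm x y _ ih => exact ih.symm
  | trans x y z _ _ h1 h2 => exact h1.trans _ _ _ h2

theorem pow_succ_apply {α : Type} (f : Equiv.Perm α) (n : ℕ) (x : α) :
    (f ^ (n + 1)) x = f ((f ^ n) x) := by
  rw [pow_succ', Equiv.Perm.mul_apply]

/-- The relation `r` with one more link. -/
def Add {α : Type} (r : α → α → Prop) (p q : α) (x y : α) : Prop := r x y ∨ (x = p ∧ y = q)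

theorem quot_add_of {α : Type} (r : α → α → Prop) {p q : α} (h : Relation.EqvGen r p q) :
    Nat.card (Quot (Add r p q)) = Nat.card (Quot r) := by
  refine Nat.card_congr ⟨Quot.lift (fun x => Quot.mk _ x) ?_, Quot.lift (fun x => Quot.mk _ x) ?_,
    ?_, ?_⟩
  · rintro x y (hxy | ⟨rfl, rfl⟩)
    · exact Quot.sound hxy
    · exact Quot.eqvGen_sound h
  · intro x y hxy
    exact Quot.sound (Or.inl hxy)
  · intro u
    obtain ⟨x, rfl⟩ := Quot.exists_rep u
    rfl
  · intro u
    obtain ⟨x, rfl⟩ := Quot.exists_rep u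
    rfl

theorem quot_add_of_not {α : Type} [Finite α] (r : α → α → Prop) {p q : α}
    (h : ¬ Relation.EqvGen r p q) : Nat.card (Quot (Add r p q)) + 1 = Nat.card (Quot r) := by
  have h0 : (Quot.mk r p) ≠ Quot.mk r q := fun h' => h (Quot.eqvGen_exact h')
  have e : Quot (Add r p q) ≃ {u : Quot r // u ≠ Quot.mk r q} := by
    refine ⟨Quot.lift (fun x => if hx : Quot.mk r x = Quot.mk r q then ⟨Quot.mk r p, h0⟩
      else ⟨Quot.mk r x, hx⟩) ?_, fun u => Quot.lift (fun x => Quot.mk _ x) ?_ u.1, ?_, ?_⟩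
    · rintro x y (hxy | ⟨rfl, rfl⟩)
      · have : Quot.mk r x = Quot.mk r y := Quot.sound hxy
        simp only [this]
      · simp only [h0, dite_false, dite_true]
    · intro x y hxy
      exact Quot.sound (Or.inl hxy)
    · intro u
      obtain ⟨x, rfl⟩ := Quot.exists_rep u
      simp only
      split_ifs with hx
      · have h1 : Quot.mk (Add r p q) p = Quot.mk _ q := Quot.sound (Or.inr ⟨rfl, rfl⟩)
        have h2 : Relation.EqvGen r x q := Quot.eqvGen_exact hx
        have h3 : Relation.EqvGen (Add r p q) x q :=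
          eqvGen_mono (fun a b hab => Or.inl hab) h2
        exact h1.trans (Quot.eqvGen_sound h3).symm
      · rfl
    · rintro ⟨u, hu⟩
      obtain ⟨x, rfl⟩ := Quot.exists_rep u
      simp only [hu, dite_false]
  rw [Nat.card_congr e]
  have : Fintype (Quot r) := Fintype.ofFinite _
  rw [Nat.card_eq_fintype_card, Nat.card_eq_fintype_card, Fintype.card_subtype_compl,
    Fintype.card_subtype_eq]
  have : 0 < Fintype.card (Quot r) := Fintype.card_pos_iff.2 ⟨Quot.mk r q⟩
  omega

variable {α : Type} [Finite α]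

/-- The cycles as classes of links. -/
theorem cyc_eq_quot (f : Equiv.Perm α) : cyc f = Nat.card (Quot fun x y => y = f x) := by
  unfold cyc
  refine Nat.card_congr ⟨Quotient.lift (fun x => Quot.mk _ x) ?_, Quot.lift (fun x =>
    Quotient.mk _ x) ?_, ?_, ?_⟩
  · intro x y hxy
    obtain ⟨n, rfl⟩ := (CMap.exists_pow_iff f x y).2 hxy
    clear hxy
    induction n with
    | zero => rfl
    | succ n ih =>
      rw [ih, pow_succ', Equiv.Perm.mul_apply]
      exact Quot.sound rfl
  · rintro x y rfl
    exact Quotient.sound ⟨1, by simp⟩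
  · intro u
    obtain ⟨x, rfl⟩ := Quotient.exists_rep u
    rfl
  · intro u
    obtain ⟨x, rfl⟩ := Quot.exists_rep u
    rfl

theorem eqvGen_link_iff (f : Equiv.Perm α) (x y : α) :
    Relation.EqvGen (fun x y => y = f x) x y ↔ f.SameCycle x y := by
  constructor
  · intro h
    induction h with
    | rel x y h => exact ⟨1, by simp [h]⟩
    | refl x => exact Equiv.Perm.SameCycle.refl _ _
    | symm x y _ ih => exact ih.symm
    | trans x y z _ _ h1 h2 => exact h1.trans h2
  · intro h
    obtain ⟨n, rfl⟩ := (CMap.exists_pow_iff f x y).2 h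
    clear h
    induction n with
    | zero => exact Relation.EqvGen.refl _
    | succ n ih =>
      rw [pow_succ', Equiv.Perm.mul_apply]
      exact ih.trans _ _ _ (Relation.EqvGen.rel _ _ rfl)

omit [Finite α] in
theorem swap_mul_swap_mul (f : Equiv.Perm α) (p q : α) :
    Equiv.swap p q * (Equiv.swap p q * f) = f := by
  rw [← mul_assoc, Equiv.swap_mul_self, one_mul]

omit [Finite α] in
/-- The links of `f` are links of `swap p q * f` modulo `p ~ q`. -/
theorem eqvGen_add_swap (f : Equiv.Perm α) (p q x y : α)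
    (h : Relation.EqvGen (Add (fun x y => y = f x) p q) x y) :
    Relation.EqvGen (Add (fun x y => y = (Equiv.swap p q * f) x) p q) x y := by
  have hpq : Relation.EqvGen (Add (fun x y => y = (Equiv.swap p q * f) x) p q) p q :=
    Relation.EqvGen.rel _ _ (Or.inr ⟨rfl, rfl⟩)
  induction h with
  | rel x y h =>
    rcases h with h | ⟨rfl, rfl⟩
    · have h1 : Relation.EqvGen (Add (fun x y => y = (Equiv.swap p q * f) x) p q) x
          ((Equiv.swap p q * f) x) := Relation.EqvGen.rel _ _ (Or.inl rfl)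
      rw [Equiv.Perm.mul_apply, ← h] at h1
      by_cases hp : y = p
      · subst hp
        rw [Equiv.swap_apply_left] at h1
        exact h1.trans _ _ _ hpq.symm
      · by_cases hq : y = q
        · subst hq
          rw [Equiv.swap_apply_right] at h1
          exact h1.trans _ _ _ hpq
        · rwa [Equiv.swap_apply_of_ne_of_ne hp hq] at h1
    · exact hpq
  | refl x => exact Relation.EqvGen.refl _
  | symm x y _ ih => exact ih.symm
  | trans x y z _ _ h1 h2 => exact h1.trans _ _ _ h2

omit [Finite α] in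
theorem card_add_swap (f : Equiv.Perm α) (p q : α) :
    Nat.card (Quot (Add (fun x y => y = f x) p q)) =
      Nat.card (Quot (Add (fun x y => y = (Equiv.swap p q * f) x) p q)) := by
  refine Nat.card_congr ⟨Quot.lift (fun x => Quot.mk _ x) ?_, Quot.lift (fun x => Quot.mk _ x) ?_,
    ?_, ?_⟩
  · intro x y hxy
    exact Quot.eqvGen_sound (eqvGen_add_swap f p q x y (Relation.EqvGen.rel _ _ hxy))
  · intro x y hxy
    have := eqvGen_add_swap (Equiv.swap p q * f) p q x y (Relation.EqvGen.rel _ _ hxy)
    rw [swap_mul_swap_mul] at this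
    exact Quot.eqvGen_sound this
  · intro u
    obtain ⟨x, rfl⟩ := Quot.exists_rep u
    rfl
  · intro u
    obtain ⟨x, rfl⟩ := Quot.exists_rep u
    rfl

omit [Finite α] in
/-- before the orbit of `p` returns to `p` or `q`, the permutations agree -/
theorem pow_swap_mul (f : Equiv.Perm α) {p q : α} {n : ℕ}
    (h : ∀ i, 0 < i → i ≤ n → (f ^ i) p ≠ p ∧ (f ^ i) p ≠ q) :
    ((Equiv.swap p q * f) ^ n) p = (f ^ n) p := by
  induction n with
  | zero => rfl
  | succ n ih =>
    rw [pow_succ_apply, ih fun i hi hin => h i hi (by omega), Equiv.Perm.mul_apply,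
      ← pow_succ_apply]
    exact Equiv.swap_apply_of_ne_of_ne (h (n + 1) (by omega) le_rfl).1 (h (n + 1) (by omega) le_rfl).2

theorem sameCycle_swap_mul_self (f : Equiv.Perm α) {p q : α} (h : ¬ f.SameCycle p q) :
    (Equiv.swap p q * f).SameCycle p q := by
  have hex : ∃ n, 0 < n ∧ (f ^ n) p = p := ⟨orderOf f, orderOf_pos f, by rw [pow_orderOf_eq_one]; rfl⟩
  have hn := Nat.find_spec hex
  have hmin := fun m => Nat.find_min hex (m := m)
  set n := Nat.find hex with hndef
  have hq : ∀ i, (f ^ i) p ≠ q := fun i hi => h ((CMap.exists_pow_iff f p q).1 ⟨i, hi⟩)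
  obtain ⟨m, hm⟩ : ∃ m, n = m + 1 := ⟨n - 1, by omega⟩
  refine (CMap.exists_pow_iff _ p q).1 ⟨n, ?_⟩
  have h1 := pow_swap_mul f (p := p) (q := q) (n := m) (fun i hi him =>
    ⟨fun h' => hmin i (by omega) ⟨hi, h'⟩, hq i⟩)
  rw [hm, pow_succ_apply, h1, Equiv.Perm.mul_apply, ← pow_succ_apply, ← hm, hn.2,
    Equiv.swap_apply_left]

theorem not_sameCycle_swap_mul (f : Equiv.Perm α) {p q : α} (hpq : p ≠ q)
    (h : f.SameCycle p q) : ¬ (Equiv.swap p q * f).SameCycle p q := by
  have hex : ∃ n, 0 < n ∧ (f ^ n) p = q := by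
    obtain ⟨n, hn⟩ := (CMap.exists_pow_iff f p q).2 h
    refine ⟨n, Nat.pos_of_ne_zero ?_, hn⟩
    rintro rfl
    exact hpq hn
  have hn := Nat.find_spec hex
  have hmin := fun m => Nat.find_min hex (m := m)
  set n := Nat.find hex with hndef
  obtain ⟨m, hm⟩ : ∃ m, n = m + 1 := ⟨n - 1, by omega⟩
  have hp : ∀ i, 0 < i → i < n → (f ^ i) p ≠ p := by
    intro i hi hin hip
    refine hmin (n - i) (by omega) ⟨by omega, ?_⟩
    have h1 : (f ^ (n - i)) ((f ^ i) p) = q := by
      rw [← Equiv.Perm.mul_apply, ← pow_add]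
      rw [show n - i + i = n by omega]
      exact hn.2
    rwa [hip] at h1
  have h1 : ∀ j, j < n → ((Equiv.swap p q * f) ^ j) p = (f ^ j) p := fun j hj =>
    pow_swap_mul f fun i hi hij =>
      ⟨hp i hi (by omega), fun h' => hmin i (by omega) ⟨hi, h'⟩⟩
  have h2 : ((Equiv.swap p q * f) ^ n) p = p := by
    rw [hm, pow_succ_apply, h1 m (by omega), Equiv.Perm.mul_apply, ← pow_succ_apply, ← hm, hn.2,
      Equiv.swap_apply_right]
  have h3 : ∀ k, ∃ j, j < n ∧ ((Equiv.swap p q * f) ^ k) p = (f ^ j) p := by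
    intro k
    induction k with
    | zero => exact ⟨0, by omega, rfl⟩
    | succ k ih =>
      obtain ⟨j, hj, hjk⟩ := ih
      rw [← h1 j hj] at hjk
      by_cases hjn : j + 1 < n
      · refine ⟨j + 1, hjn, ?_⟩
        rw [← h1 _ hjn, pow_succ_apply, hjk, ← pow_succ_apply]
      · refine ⟨0, by omega, ?_⟩
        have : j + 1 = n := by omega
        rw [pow_succ_apply, hjk, ← pow_succ_apply, this, h2]
        rfl
  intro hc
  obtain ⟨k, hk⟩ := (CMap.exists_pow_iff _ p q).2 hc
  obtain ⟨j, hj, hjk⟩ := h3 k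
  rw [hk] at hjk
  rcases Nat.eq_zero_or_pos j with rfl | hj0
  · exact hpq hjk.symm
  · exact hmin j hj ⟨hj0, hjk.symm⟩

theorem cyc_swap_mul_of_sameCycle (f : Equiv.Perm α) {p q : α} (hpq : p ≠ q)
    (h : f.SameCycle p q) : cyc (Equiv.swap p q * f) = cyc f + 1 := by
  have h1 := quot_add_of (fun x y => y = f x) ((eqvGen_link_iff f p q).2 h)
  have h2 := quot_add_of_not (fun x y => y = (Equiv.swap p q * f) x)
    (fun h' => not_sameCycle_swap_mul f hpq h ((eqvGen_link_iff _ p q).1 h'))
  rw [cyc_eq_quot, cyc_eq_quot, ← h2, ← card_add_swap, h1]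

theorem cyc_swap_mul_of_not_sameCycle (f : Equiv.Perm α) {p q : α} (h : ¬ f.SameCycle p q) :
    cyc (Equiv.swap p q * f) + 1 = cyc f := by
  have h1 := quot_add_of_not (fun x y => y = f x) (fun h' => h ((eqvGen_link_iff f p q).1 h'))
  have h2 := quot_add_of (fun x y => y = (Equiv.swap p q * f) x)
    ((eqvGen_link_iff _ p q).2 (sameCycle_swap_mul_self f h))
  rw [cyc_eq_quot, cyc_eq_quot, ← h1, ← h2, card_add_swap f]

theorem sameCycle_swap_mul_of_not (f : Equiv.Perm α) {p q : α} (h : ¬ f.SameCycle p q) {x y : α}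
    (hxy : f.SameCycle x y) : (Equiv.swap p q * f).SameCycle x y := by
  have h0 := sameCycle_swap_mul_self f h
  have h1 : Relation.EqvGen (Add (fun x y => y = f x) p q) x y :=
    eqvGen_mono (fun a b hab => Or.inl hab) ((eqvGen_link_iff f x y).2 hxy)
  have h2 := eqvGen_add_swap f p q x y h1
  clear h1 hxy
  induction h2 with
  | rel x y h =>
    rcases h with h | ⟨rfl, rfl⟩
    · exact ⟨1, by simp [h]⟩
    · exact h0
  | refl x => exact Equiv.Perm.SameCycle.refl _ _
  | symm x y _ ih => exact ih.symm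
  | trans x y z _ _ h1 h2 => exact h1.trans h2

/-- cycles of `f` that contain neither `p` nor `q` are not changed -/
theorem sameCycle_swap_mul_iff (f : Equiv.Perm α) {p q x : α} (hp : ¬ f.SameCycle p x)
    (hq : ¬ f.SameCycle q x) (y : α) : (Equiv.swap p q * f).SameCycle x y ↔ f.SameCycle x y := by
  have h1 : ∀ n : ℕ, ((Equiv.swap p q * f) ^ n) x = (f ^ n) x := by
    intro n
    induction n with
    | zero => rfl
    | succ n ih =>
      rw [pow_succ_apply, ih, Equiv.Perm.mul_apply, ← pow_succ_apply]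
      refine Equiv.swap_apply_of_ne_of_ne ?_ ?_
      · intro h
        exact hp ((CMap.exists_pow_iff f x p).1 ⟨n + 1, h⟩).symm
      · intro h
        exact hq ((CMap.exists_pow_iff f x q).1 ⟨n + 1, h⟩).symm
  rw [← CMap.exists_pow_iff, ← CMap.exists_pow_iff]
  simp only [h1]

end Pool.Agent.HomV
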