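import Pool.Agent.HomV.Ops2

/-!
# R0: a minimal counterexample has no edge with label `0`

`detach`: a dart `d` with label `0` can be made a vertex of its own, without parity.
* `d` alone (`corner (d, false) = (d, true)`): nothing to do; `T d = 0` on `Y` follows from
  `ord_sum` (`star X Y i ≠ 0` for `i ∈ Y`) or from `vor_eqn`, `vor_K`, `eq_of_dl_eq_zero`.
* `d` ordinary: move `T d` to another dart of the vertex (`T' d = 0`, `T' d₁ = T d₁ + T d`), then
  switch at `p = corner (d, false)`, `q = (d, true)`; here `rot q = p` (`G2_switch_rot`); the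
  vertex falls into `{d}` and the rest.
* `d` at a vortex: gauge at the corner of `q = (d, true)`: add `dl (T d)` to `K` at `q` and
  `corner q` (so that `K q = K (d, false)`), add `T d` to `T` of the dart of `corner q` (small by
  `rigid'`) and to `T d`; then the same switch; finally `d` becomes an ordinary vertex (fibre any
  `i₀ ∈ Y`) with `T d = 0`.  The rest of the vortex stays connected.
`R0`: detach `d` and `opp d`, then `no_junk` for `{d, opp d}`.

`delete_edges`: put `lam = 0` on `Z`, this is again a counterexample, contradiction to `R0`.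
-/

set_option autoImplicit false

namespace Pool.Agent.HomV

open Finset Classical

variable {U : Type} [Fintype U] {X : SimpleGraph U} {Y : Finset U} {w : ℕ} {D : Type} [Fintype D]
  {Q N : ℕ} {β : Prop}

/-- a dart which is alone at its vertex -/
def CMap.Alone {D : Type} (M : CMap D) (d : D) : Prop := M.corner (d, false) = (d, true)

namespace CMap

variable {D : Type} (M : CMap D)

theorem Alone.true {M : CMap D} {d : D} (h : M.Alone d) : M.corner (d, true) = (d, false) := by
  unfold Alone at h
  rw [← h, M.cc]

theorem Alone.corner {M : CMap D} {d : D} (h : M.Alone d) (s : Bool) :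
    M.corner (d, s) = (d, !s) := by
  cases s
  · exact h
  · exact h.true

theorem Alone.sameV {M : CMap D} {d : D} (h : M.Alone d) {s : Bool} {x : D × Bool}
    (hx : M.SameV (d, s) x) : x.1 = d := by
  have := (M.sameV_set (P := {d}) (by
    rintro ⟨e, t⟩ he
    rw [Set.mem_singleton_iff] at he ⊢
    simp only at he
    subst he
    rw [h.corner]) hx).1 rfl
  exact this

theorem alone_ne_corner {d d' : D} (h : d' ≠ d) (hd' : M.Alone d') (s : Bool) :
    (M.corner (d, s)).1 ≠ d' := by
  intro h1
  have h2 : M.corner (d, s) = (d', (M.corner (d, s)).2) := by rw [← h1]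
  have h3 := congrArg M.corner h2
  rw [M.cc, hd'.corner] at h3
  exact h (congrArg Prod.fst h3).symm

theorem corner_fst_ne_of_not_alone {d : D} (h : ¬ M.Alone d) (s : Bool) :
    (M.corner (d, s)).1 ≠ d := by
  intro h1
  rcases eq_or_eq_fl (x := (d, s)) (y := M.corner (d, s)) h1 with h2 | h2
  · exact M.corner_ne _ h2
  · apply h
    cases s
    · exact h2
    · unfold Alone
      have := congrArg M.corner h2
      rw [M.cc] at this
      exact this.symm

theorem switch_alone (d : D) :
    (M.switch (d, true) (M.corner (d, false))).Alone d := by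
  have h2 : M.corner (d, false) ≠ M.corner (d, true) := fun h => by
    have := congrArg Prod.snd (M.corner_inj h)
    cases this
  have := CMap.switch_corner_cq (M := M) (p := (d, true)) (q := M.corner (d, false)) h2
  rw [M.cc] at this
  exact this

theorem switch_alone_other {d d' : D} (h : d' ≠ d) (hd' : M.Alone d') :
    (M.switch (d, true) (M.corner (d, false))).Alone d' := by
  unfold Alone
  rw [M.switch_corner_of_ne]
  · exact hd'
  · intro h1; exact h (congrArg Prod.fst h1)
  · intro h1; exact M.alone_ne_corner h hd' false (congrArg Prod.fst h1).symm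
  · intro h1; exact M.alone_ne_corner h hd' true (congrArg Prod.fst h1).symm
  · rw [M.cc]; intro h1; exact h (congrArg Prod.fst h1)

theorem G2_switch_alone [Finite D] (d : D) :
    (M.switch (d, true) (M.corner (d, false))).G2 ≤ M.G2 := by
  refine M.G2_switch_rot (d, true) (M.corner (d, false)) 1 ?_
  rw [pow_one]
  rfl

end CMap

/-- detach a dart without label and without odd vertices -/
theorem detach₀ (hG : Good X Y Q) (M : Pic X Y w D) (hM : Cex β N M) (d : D)
    (hd : M.lam d = 0) (hT : M.T d = 0) :
    ∃ M' : Pic X Y w D, Cex β N M' ∧ M'.opp = M.opp ∧ M'.lam = M.lam ∧ M'.Alone d ∧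
      M'.T = M.T ∧ ∀ d', d' ≠ d → M.Alone d' → M'.Alone d' := by
  have hSV : M.SameV (d, true) (M.corner (d, false)) :=
    (M.sameV_fl (d, false)).symm.trans _ _ _ (M.sameV_corner _)
  rcases hk : M.kind d with i | n
  · have hsum : Pic.vsum (M.toCMap.switch (d, true) (M.corner (d, false)))
        (fun d => M.lam d + dl X Y (M.T d)) (d, true) = 0 := by
      refine Finset.sum_eq_zero fun e he => ?_
      rw [mem_filter] at he
      have h1 : e = d := (M.toCMap.switch_alone d).sameV he.2
      rw [h1, hd, hT, dl_zero, add_zero]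
    refine ⟨M.split (d, true) (M.corner (d, false)) i hk hSV hsum,
      M.split_cex _ _ i hk hSV hsum (M.toCMap.G2_switch_alone d) hM, rfl, rfl,
      M.toCMap.switch_alone d, rfl, fun d' h h' => M.toCMap.switch_alone_other h h'⟩
  · obtain ⟨i₀, _⟩ := hG.ne
    have hk' : M.kind (M.corner (d, false)).1 = Sum.inr n := by rw [M.kind_corner]; exact hk
    have hK : M.K (M.corner (d, false)) = M.K (d, true) := by
      rw [M.vor_K (d, false) n hk]
      have := M.vor_eqn d n hk
      rw [hd, hT, dl_zero, add_zero] at this
      rw [ch_eq_of_add this, add_zero]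
    have hP : ∀ x : D × Bool, x.1 ∈ ({d} : Set D) →
        ((M.toCMap.switch (M.corner (d, false)) (d, true)).corner x).1 ∈ ({d} : Set D) := by
      rintro ⟨e, t⟩ he
      rw [Set.mem_singleton_iff] at he ⊢
      simp only at he
      subst he
      rw [CMap.switch_comm, (M.toCMap.switch_alone e).corner]
    have hlam : ∀ e ∈ ({d} : Set D), M.opp e ∉ ({d} : Set D) → M.lam e = 0 := by
      intro e he _
      rw [Set.mem_singleton_iff] at he
      rw [he, hd]
    have hg : (M.toCMap.switch (M.corner (d, false)) (d, true)).G2 ≤ M.G2 := by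
      rw [CMap.switch_comm]
      exact M.toCMap.G2_switch_alone d
    refine ⟨M.toOrd (M.corner (d, false)) (d, true) n hk' hSV.symm hK {d} rfl hP hlam i₀,
      M.toOrd_cex _ _ n hk' hSV.symm hK {d} rfl hP hlam i₀ hg ?_ hM, rfl, ?_, ?_, ?_, ?_⟩
    · intro i _
      refine Finset.sum_eq_zero fun e he => ?_
      rw [mem_filter] at he
      have h1 : e = d := he.2
      rw [h1, hT]
      rfl
    · funext e
      rw [Pic.toOrd_lam]
      split_ifs with h
      · have h1 : e = d := h
        rw [h1, hd]
      · rfl
    · have : (M.toCMap.switch (M.corner (d, false)) (d, true)).Alone d := by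
        rw [CMap.switch_comm]
        exact M.toCMap.switch_alone d
      exact this
    · funext e
      rw [Pic.toOrd_T]
      split_ifs with h
      · have h1 : e = d := h
        rw [h1, hT]
      · rfl
    · intro d' h h'
      have : (M.toCMap.switch (M.corner (d, false)) (d, true)).Alone d' := by
        rw [CMap.switch_comm]
        exact M.toCMap.switch_alone_other h h'
      exact this

theorem detach (hG : Good X Y Q) (hQ : 200 * (w + 1) ≤ Q) (M : Pic X Y w D) (hM : Cex β N M) (d : D)
    (hd : M.lam d = 0) :
    ∃ M' : Pic X Y w D, Cex β N M' ∧ M'.opp = M.opp ∧ M'.lam = M.lam ∧ M'.Alone d ∧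
      (∀ i ∈ Y, M'.T d i = 0) ∧
      ∀ d', d' ≠ d → M.Alone d' → (∀ i ∈ Y, M.T d' i = 0) →
        M'.Alone d' ∧ ∀ i ∈ Y, M'.T d' i = 0 := by
  by_cases ha : M.Alone d
  · refine ⟨M, hM, rfl, rfl, ha, ?_, fun d' _ h1 h2 => ⟨h1, h2⟩⟩
    have key : dl X Y (M.T d) = 0 ∧ sz Y (M.T d) ≤ 4 * w + 2 := by
      rcases hk : M.kind d with i | n
      · constructor
        · have h1 := M.ord_sum (d, false) i hk
          have h2 : (univ.filter fun e => M.SameV (d, false) (e, false)) = {d} := by
            ext e
            simp only [mem_filter, mem_univ, true_and, mem_singleton]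
            constructor
            · intro h; exact ha.sameV h
            · rintro rfl; exact Relation.EqvGen.refl _
          rw [h2, Finset.sum_singleton, hd, zero_add] at h1
          exact h1
        · have : sz Y (M.T d) ≤ 1 := by
            unfold sz
            rw [Finset.card_le_one]
            intro a ha' b hb
            rw [mem_filter] at ha' hb
            have h1 : a = i := by
              by_contra h; exact ha'.2 (M.ord_T d i hk a h)
            have h2 : b = i := by
              by_contra h; exact hb.2 (M.ord_T d i hk b h)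
            rw [h1, h2]
          omega
      · refine ⟨?_, M.vor_T d n hk⟩
        have h1 := M.vor_eqn d n hk
        have h2 := M.vor_K (d, false) n hk
        rw [ha.corner] at h2
        have h3 : M.K (d, true) = M.K (d, false) := h2
        rw [h3, ch_add_self, hd, zero_add] at h1
        exact h1.symm
    exact eq_of_dl_eq_zero hG key.1 (by omega) (by omega)
  · have hne := M.toCMap.corner_fst_ne_of_not_alone ha
    rcases hk : M.kind d with i | n
    · have hSV : M.SameV (d, false) ((M.corner (d, false)).1, false) :=
        (M.toCMap.sameV_false).2 (M.sameV_corner _)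
      obtain ⟨M₁, hM₁, hmap, hkind, hlam, hK, hT⟩ := M.exists_move hk hSV hM
      have hT0 : M₁.T d = 0 := by
        rw [hT, if_pos rfl, if_neg (hne false).symm, add_zero, tt_add_self]
      obtain ⟨M₂, hM₂, ho₂, hl₂, hA₂, hT₂, hA₂'⟩ :=
        detach₀ hG M₁ hM₁ d (by rw [hlam, hd]) hT0
      refine ⟨M₂, hM₂, by rw [ho₂, hmap], by rw [hl₂, hlam], hA₂, ?_, ?_⟩
      · intro j _
        rw [hT₂, hT0]
        rfl
      · intro d' h1 h2 h3
        refine ⟨hA₂' d' h1 (by rw [hmap]; exact h2), ?_⟩
        intro j hj
        rw [hT₂, hT, if_neg h1, if_neg (M.toCMap.alone_ne_corner h1 h2 false).symm, add_zero,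
          add_zero]
        exact h3 j hj
    · have hS : sz Y (M.T d) ≤ 2 * (4 * w + 2) := by
        have := M.vor_T d n hk
        omega
      have he : M.K (d, true) + dl X Y (M.T d) = M.K (d, false) := by
        have h1 := M.vor_eqn d n hk
        rw [hd, zero_add] at h1
        have h2 := ch_eq_of_add h1
        rw [h2, add_assoc, ch_add_self, add_zero]
      have hK : NuLe (M.K (d, true) + dl X Y (M.T d)) w := by
        rw [he]; exact M.vor_nu (d, false) n hk
      set M₁ := M.gauge hG hQ (d, true) (M.T d) n hk hS hK with hM₁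
      have hC₁ : Cex β N M₁ := M.gauge_cex hG hQ (d, true) (M.T d) n hk hS hK hM
      have hT : ∀ e, M₁.T e = M.T e + (if e = d then M.T d else 0) +
          (if e = (M.corner (d, true)).1 then M.T d else 0) := fun e => rfl
      have hT0 : M₁.T d = 0 := by
        rw [hT, if_pos rfl, if_neg (hne true).symm, add_zero, tt_add_self]
      obtain ⟨M₂, hM₂, ho₂, hl₂, hA₂, hT₂, hA₂'⟩ := detach₀ hG M₁ hC₁ d hd hT0
      refine ⟨M₂, hM₂, ho₂, hl₂, hA₂, ?_, ?_⟩
      · intro j _
        rw [hT₂, hT0]
        rfl
      · intro d' h1 h2 h3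
        refine ⟨hA₂' d' h1 h2, ?_⟩
        intro j hj
        rw [hT₂, hT, if_neg h1, if_neg (M.toCMap.alone_ne_corner h1 h2 true).symm, add_zero,
          add_zero]
        exact h3 j hj

omit [Fintype D] in
theorem exists_pair (d e : D) : ∃ S : Set D, ∀ x, x ∈ S ↔ x = d ∨ x = e := ⟨{d, e}, fun _ => Iff.rfl⟩

theorem R0 {M : Pic X Y w D} (h : MinM Q β N M) (d : D) : M.lam d ≠ 0 := by
  intro hd
  obtain ⟨M₁, hM₁, ho₁, hl₁, hA₁, hT₁, _⟩ := detach h.good h.big M h.cex d hd
  obtain ⟨M₂, hM₂, ho₂, _, hA₂, hT₂, h₂⟩ :=
    detach h.good h.big M₁ hM₁ (M.opp d) (by rw [hl₁, M.lam_opp, hd])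
  obtain ⟨hB, hTB⟩ := h₂ d (M.opp_ne d).symm hA₁ hT₁
  obtain ⟨i₀, hi₀⟩ := h.good.ne
  obtain ⟨S, hS⟩ := exists_pair d (M.opp d)
  refine h.no_junk hM₂ S ⟨?_, ?_⟩ ⟨d, (hS d).2 (Or.inl rfl)⟩ hi₀ ?_
  · intro e he
    rw [hS] at he ⊢
    rcases he with rfl | rfl
    · right; rw [ho₂, ho₁]
    · left; rw [ho₂, ho₁, M.opp_opp]
  · rintro ⟨e, s⟩ he
    rw [hS] at he ⊢
    rcases he with he | he
    · simp only at he
      subst he
      rw [hB.corner]
      exact Or.inl rfl
    · simp only at he
      subst he
      rw [hA₂.corner]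
      exact Or.inr rfl
  · refine Finset.sum_eq_zero fun e he => ?_
    rw [mem_filter, hS] at he
    rcases he.2 with rfl | rfl
    · exact hTB _ hi₀
    · exact hT₂ _ hi₀

/-- Edges whose labels cancel at every (ordinary) vertex can be deleted. -/
theorem delete_edges {M : Pic X Y w D} (h : MinM Q β N M) (Z : Set D)
    (hopp : ∀ d ∈ Z, M.opp d ∈ Z) (hord : ∀ d ∈ Z, ∃ i, M.kind d = Sum.inl i)
    (hsum : ∀ x : D × Bool, M.Ord x →
      ∑ d ∈ univ.filter (fun d => M.SameV x (d, false) ∧ d ∈ Z), M.lam d = 0) : Z = ∅ := by
  have hnot : ∀ {d n}, M.kind d = Sum.inr n → d ∉ Z := by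
    intro d n hd h1
    obtain ⟨i, hi⟩ := hord d h1
    rw [hi] at hd
    cases hd
  let M' : Pic X Y w D :=
    { toCMap := M.toCMap
      kind := M.kind
      lam := fun d => if d ∈ Z then 0 else M.lam d
      K := M.K
      T := M.T
      kind_corner := M.kind_corner
      vor_conn := M.vor_conn
      lam_opp := by
        intro d
        by_cases h1 : d ∈ Z
        · rw [if_pos h1, if_pos (hopp d h1)]
        · have h2 : M.opp d ∉ Z := fun h2 => h1 (by
            have := hopp _ h2
            rwa [M.opp_opp] at this)
          rw [if_neg h1, if_neg h2, M.lam_opp]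
      lam_supp := by
        intro d
        split_ifs
        · exact supp_zero
        · exact M.lam_supp d
      lam_nu := by
        intro d
        split_ifs
        · exact nuLe_zero 1
        · exact M.lam_nu d
      ord_lam := by
        intro d i hd
        split_ifs
        · exact inStar_zero i
        · exact M.ord_lam d i hd
      ord_T := M.ord_T
      ord_sum := by
        intro x i hx
        have h1 := M.ord_sum x i hx
        have h2 := hsum x ⟨i, hx⟩
        rw [Finset.sum_add_distrib] at h1 ⊢
        refine Eq.trans ?_ h1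
        congr 1
        rw [← Finset.sum_filter_add_sum_filter_not (univ.filter fun d => M.SameV x (d, false))
          (fun d => d ∈ Z) M.lam, Finset.filter_filter, h2, zero_add,
          Finset.sum_filter (p := fun d => d ∉ Z)]
        refine Finset.sum_congr rfl fun d _ => ?_
        by_cases h3 : d ∈ Z
        · rw [if_pos h3, if_neg (not_not.2 h3)]
        · rw [if_neg h3, if_pos h3]
      vor_K := M.vor_K
      vor_eqn := by
        intro d n hd
        rw [if_neg (hnot hd)]
        exact M.vor_eqn d n hd
      vor_nu := M.vor_nu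
      vor_supp := M.vor_supp
      vor_T := M.vor_T
      ord_vor := by
        intro d i n hd hd'
        by_cases h1 : d ∈ Z
        · rw [if_pos h1]; exact Or.inl (single_zero i)
        · rw [if_neg h1]; exact M.ord_vor d i n hd hd' }
  have hC : Cex β N M' := by
    refine ⟨h.cex.1, h.cex.2.1, ?_⟩
    intro hβ d i j hd hd'
    show (if d ∈ Z then 0 else M.lam d) = 0
    split_ifs
    · rfl
    · exact h.cex.2.2 hβ d i j hd hd'
  rw [Set.eq_empty_iff_forall_notMem]
  intro d hd
  exact R0 (h.of_cex hC) d (if_pos hd)

end Pool.Agent.HomV
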