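import Pool.Agent.HomV.Loc

/-!
# Faces of minimal counterexamples

`fac x = corner (across x)` walks around a face, `L x` is its length (number of corners).  Weights
of the corners: a corner at a vortex has weight `2`, an ordinary corner weight `1`, but weight `2`
if it is the corner of a digon.  Every face has weight at least `4`:
* no vortex corner: then the fibres of the corners form a closed walk in `X` without backtracking
  (`exists_single`, `R1`, `R2`, `corner_fst_ne`: consecutive labels are different edges of `X`, each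
  label joins the fibres of its ends), so `L x ≥ 5` by `Good.tri`, `Good.c4`;
* one vortex corner: `L x = 1` is excluded by `R3`, `L x = 2` is a digon, weight `2 + 2`;
  `L x = 3`: weight `2 + 1 + 1`, and for both ordinary corners `y` exactly one of `across y`,
  `across (corner y)` is ordinary;
* at least two vortex corners: clear; weight `4` only if there are no ordinary corners.
If the weight is more than `4`, the number of ordinary corners is at most `5 * (weight - 4)`.
-/

set_option autoImplicit false

namespace Pool.Agent.HomV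

open Finset Classical

variable {U : Type} [Fintype U] {X : SimpleGraph U} {Y : Finset U} {w : ℕ} {D : Type} [Fintype D]
  {Q N : ℕ} {β : Prop}

/-- sum of `g` over the cycle of `x` -/
noncomputable def cs {α : Type} (f : Equiv.Perm α) (g : α → ℕ) (x : α) : ℕ :=
  ∑ s ∈ range (Function.minimalPeriod f x), g ((f ^ s) x)

/-- the weight of a corner -/
noncomputable def Pic.wt (M : Pic X Y w D) (x : D × Bool) : ℕ :=
  if M.Ord x then (if M.Digon x then 2 else 1) else 2

/-- `1` for ordinary flags -/
noncomputable def Pic.oi (M : Pic X Y w D) (x : D × Bool) : ℕ := if M.Ord x then 1 else 0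

private theorem wt_ge (M : Pic X Y w D) (x : D × Bool) : 1 ≤ M.wt x := by
  unfold Pic.wt
  split_ifs <;> norm_num

private theorem wt_not_ord {M : Pic X Y w D} {x : D × Bool} (hx : ¬ M.Ord x) : M.wt x = 2 := by
  unfold Pic.wt
  rw [if_neg hx]

private theorem oi_le (M : Pic X Y w D) (x : D × Bool) : M.oi x ≤ M.wt x := by
  unfold Pic.oi
  split_ifs
  · exact wt_ge M x
  · exact Nat.zero_le _

private theorem vor_of_not_ord {M : Pic X Y w D} {x : D × Bool} (hx : ¬ M.Ord x) : M.Vor x := by
  unfold Pic.Ord at hx
  unfold Pic.Vor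
  rcases hk : M.kind x.1 with i | n
  · exact absurd ⟨i, hk⟩ hx
  · exact ⟨n, rfl⟩

private theorem kind_fac (M : Pic X Y w D) (x : D × Bool) :
    M.kind (M.fac x).1 = M.kind (M.opp x.1) := by
  rw [CMap.fac_apply, M.kind_corner, CMap.across_fst]

private theorem corner_fac (M : Pic X Y w D) (x : D × Bool) : M.corner (M.fac x) = M.across x := by
  rw [CMap.fac_apply, M.cc]

private theorem ord_across {M : Pic X Y w D} {x : D × Bool} : M.Ord (M.across x) ↔ M.Ord (M.fac x) := by
  unfold Pic.Ord
  rw [kind_fac, CMap.across_fst]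

private theorem ord_corner {M : Pic X Y w D} {x : D × Bool} : M.Ord (M.corner x) ↔ M.Ord x := by
  unfold Pic.Ord
  rw [M.kind_corner]

private theorem mem_of_star {i : U} {e : Sym2 U} (h : star X Y i e ≠ 0) : e ∈ X.edgeSet ∧ i ∈ e := by
  unfold star at h
  by_contra hc
  apply h
  rw [if_neg]
  rintro ⟨h1, h2, -⟩
  exact hc ⟨h1, h2⟩

private theorem single_inj {e e' : Sym2 U} (h : (Pi.single e 1 : Ch U) = Pi.single e' 1) : e = e' := by
  by_contra hc
  have h1 := congrFun h e
  rw [Pi.single_eq_same, Pi.single_eq_of_ne hc] at h1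
  exact one_ne_zero h1

private theorem face_step {M : Pic X Y w D} (h : MinM Q β N M) {x : D × Bool} {i j : U}
    (hi : M.kind x.1 = Sum.inl i) (hj : M.kind (M.fac x).1 = Sum.inl j) :
    X.Adj i j ∧ M.lam x.1 = Pi.single s(i, j) 1 := by
  rw [kind_fac] at hj
  obtain ⟨e, he, hl⟩ := exists_single h hi
  obtain ⟨e', he', hl'⟩ := exists_single h hj
  rw [M.lam_opp, hl] at hl'
  have hee := single_inj hl'
  subst hee
  obtain ⟨h1, h2⟩ := mem_of_star he
  obtain ⟨-, h3⟩ := mem_of_star he'
  have hij : i ≠ j := by
    rintro rfl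
    exact R2 h hi hj
  have h4 : e = s(i, j) := ((Sym2.mem_and_mem_iff hij).1 ⟨h2, h3⟩)
  subst h4
  exact ⟨h1, hl⟩

private theorem face_nb {M : Pic X Y w D} (h : MinM Q β N M) {x : D × Bool} {i j k : U}
    (hi : M.kind x.1 = Sum.inl i) (hj : M.kind (M.fac x).1 = Sum.inl j)
    (hk : M.kind (M.fac (M.fac x)).1 = Sum.inl k) : i ≠ k := by
  rintro rfl
  have ho : M.Ord (M.fac x) := ⟨j, hj⟩
  have h1 := R1 h ho (corner_fst_ne h ho)
  apply h1
  rw [corner_fac, CMap.across_fst, M.lam_opp, (face_step h hi hj).2, (face_step h hj hk).2,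
    Sym2.eq_swap]

/-- a face with ordinary corners only has length at least five -/
private theorem ord_five {M : Pic X Y w D} (h : MinM Q β N M) {x : D × Bool} {L : ℕ} (hL : 0 < L)
    (hx : (M.fac ^ L) x = x) (ho : ∀ s < L, M.Ord ((M.fac ^ s) x)) : 5 ≤ L := by
  by_contra hc
  have hL5 : L < 5 := by omega
  interval_cases L
  · obtain ⟨i, hi⟩ := ho 0 (by norm_num)
    rw [pow_zero, Equiv.Perm.one_apply] at hi
    rw [pow_one] at hx
    exact (face_step h hi (by rw [hx]; exact hi)).1.ne rfl
  · obtain ⟨i, hi⟩ := ho 0 (by norm_num)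
    obtain ⟨j, hj⟩ := ho 1 (by norm_num)
    simp only [pow_succ, pow_zero, one_mul, Equiv.Perm.mul_apply, Equiv.Perm.one_apply] at hi hj hx
    exact face_nb h hi hj (by rw [hx]; exact hi) rfl
  · obtain ⟨i, hi⟩ := ho 0 (by norm_num)
    obtain ⟨j, hj⟩ := ho 1 (by norm_num)
    obtain ⟨k, hk⟩ := ho 2 (by norm_num)
    simp only [pow_succ, pow_zero, one_mul, Equiv.Perm.mul_apply, Equiv.Perm.one_apply] at hi hj hk hx
    exact h.good.tri i j k (face_step h hi hj).1 (face_step h hj hk).1
      (face_step h hk (by rw [hx]; exact hi)).1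
  · obtain ⟨i, hi⟩ := ho 0 (by norm_num)
    obtain ⟨j, hj⟩ := ho 1 (by norm_num)
    obtain ⟨k, hk⟩ := ho 2 (by norm_num)
    obtain ⟨l, hl⟩ := ho 3 (by norm_num)
    simp only [pow_succ, pow_zero, one_mul, Equiv.Perm.mul_apply, Equiv.Perm.one_apply] at hi hj hk hl hx
    rcases h.good.c4 i j k l (face_step h hi hj).1 (face_step h hj hk).1 (face_step h hk hl).1
      (face_step h hl (by rw [hx]; exact hi)).1 with e | e
    · exact face_nb h hi hj hk e
    · exact face_nb h hj hk hl e

private theorem per_pos (M : Pic X Y w D) (x : D × Bool) : 0 < Function.minimalPeriod M.fac x :=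
  Function.minimalPeriod_pos_of_mem_periodicPts (M.fac.injective.mem_periodicPts x)

private theorem per_eq (M : Pic X Y w D) (x : D × Bool) :
    (M.fac ^ Function.minimalPeriod M.fac x) x = x := by
  rw [← Equiv.Perm.iterate_eq_pow]
  exact Function.isPeriodicPt_minimalPeriod _ _

private theorem per_ne_one {M : Pic X Y w D} (h : MinM Q β N M) (x : D × Bool) :
    Function.minimalPeriod M.fac x ≠ 1 := by
  intro h1
  have h2 := per_eq M x
  rw [h1, pow_one] at h2
  apply R3 h x
  rw [CMap.fac_apply] at h2
  exact (M.toCMap.corner_eq_iff.1 h2).symm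

/-- a face of length two with an ordinary and a vortex corner -/
private theorem digon_two {M : Pic X Y w D} {x : D × Bool} (hx : M.fac (M.fac x) = x) (ho : M.Ord x)
    (hv : ¬ M.Ord (M.fac x)) : M.Digon x := by
  refine ⟨ho, vor_of_not_ord (fun hc => hv (ord_across.1 hc)), ?_⟩
  have h1 : M.across (M.fac x) = M.corner x := by
    rw [CMap.fac_apply M.toCMap (M.fac x)] at hx
    exact M.toCMap.corner_eq_iff.1 hx
  rw [← h1, M.across_across, CMap.fac_apply]

private theorem wt_digon {M : Pic X Y w D} {x : D × Bool} (hx : M.Digon x) : M.wt x = 2 := by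
  unfold Pic.wt
  rw [if_pos hx.1, if_pos hx]

private theorem wt_ord {M : Pic X Y w D} {x : D × Bool} (hx : M.Ord x) (hd : ¬ M.Digon x) :
    M.wt x = 1 := by
  unfold Pic.wt
  rw [if_pos hx, if_neg hd]

private theorem cs_ge (M : Pic X Y w D) (x : D × Bool) :
    Function.minimalPeriod M.fac x ≤ cs M.fac M.wt x := by
  unfold cs
  calc Function.minimalPeriod M.fac x = ∑ s ∈ range (Function.minimalPeriod M.fac x), 1 := by simp
    _ ≤ _ := Finset.sum_le_sum fun s _ => wt_ge M _

theorem face_ge {M : Pic X Y w D} (h : MinM Q β N M) (x : D × Bool) : 4 ≤ cs M.fac M.wt x := by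
  by_contra hc
  have h0 := per_pos M x
  have h1 := per_ne_one h x
  have h2 := cs_ge M x
  have h3 := per_eq M x
  have hL : Function.minimalPeriod M.fac x = 2 ∨ Function.minimalPeriod M.fac x = 3 := by omega
  unfold cs at hc
  have key : ¬ ∀ s < Function.minimalPeriod M.fac x, M.Ord ((M.fac ^ s) x) := by
    intro ha
    have := ord_five h h0 h3 ha
    omega
  rcases hL with hL | hL
  · rw [hL] at hc key h3
    rw [Finset.sum_range_succ, Finset.sum_range_one] at hc
    simp only [pow_succ, pow_zero, one_mul, Equiv.Perm.mul_apply, Equiv.Perm.one_apply] at hc h3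
    by_cases o0 : M.Ord x
    · by_cases o1 : M.Ord (M.fac x)
      · apply key
        intro s hs
        interval_cases s
        · simpa using o0
        · simpa using o1
      · rw [wt_digon (digon_two h3 o0 o1), wt_not_ord o1] at hc
        omega
    · by_cases o1 : M.Ord (M.fac x)
      · rw [wt_not_ord o0, wt_digon (digon_two (by rw [h3]) o1 (by rw [h3]; exact o0))] at hc
        omega
      · rw [wt_not_ord o0, wt_not_ord o1] at hc
        omega
  · rw [hL] at hc key h3
    rw [Finset.sum_range_succ, Finset.sum_range_succ, Finset.sum_range_one] at hc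
    simp only [pow_succ, pow_zero, one_mul, Equiv.Perm.mul_apply, Equiv.Perm.one_apply] at hc h3
    have w0 := wt_ge M x
    have w1 := wt_ge M (M.fac x)
    have w2 := wt_ge M (M.fac (M.fac x))
    apply key
    intro s hs
    by_contra ho
    interval_cases s
    · rw [pow_zero, Equiv.Perm.one_apply] at ho
      have := wt_not_ord ho
      omega
    · rw [pow_one] at ho
      have := wt_not_ord ho
      omega
    · rw [pow_two, Equiv.Perm.mul_apply] at ho
      have := wt_not_ord ho
      omega

theorem face_xor {M : Pic X Y w D} (h : MinM Q β N M) {x : D × Bool} (hx : M.Ord x)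
    (hnd : ¬ M.Digon x) (h4 : cs M.fac M.wt x = 4) :
    Xor' (M.Ord (M.across x)) (M.Ord (M.across (M.corner x))) := by
  have h0 := per_pos M x
  have h1 := per_ne_one h x
  have h2 := cs_ge M x
  have h3 := per_eq M x
  have key : ¬ ∀ s < Function.minimalPeriod M.fac x, M.Ord ((M.fac ^ s) x) := by
    intro ha
    have := ord_five h h0 h3 ha
    omega
  have hL : Function.minimalPeriod M.fac x = 2 ∨ Function.minimalPeriod M.fac x = 3 ∨
      Function.minimalPeriod M.fac x = 4 := by omega
  unfold cs at h4
  rcases hL with hL | hL | hL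
  · exfalso
    rw [hL] at key h3
    simp only [pow_succ, pow_zero, one_mul, Equiv.Perm.mul_apply, Equiv.Perm.one_apply] at h3
    by_cases o1 : M.Ord (M.fac x)
    · apply key
      intro s hs
      interval_cases s
      · simpa using hx
      · simpa using o1
    · exact hnd (digon_two h3 hx o1)
  · rw [hL] at h4 key h3
    rw [Finset.sum_range_succ, Finset.sum_range_succ, Finset.sum_range_one] at h4
    simp only [pow_succ, pow_zero, one_mul, Equiv.Perm.mul_apply, Equiv.Perm.one_apply] at h4 h3
    have w0 := wt_ord hx hnd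
    have e1 : M.across (M.corner x) = M.fac (M.fac x) := by
      rw [CMap.fac_apply M.toCMap (M.fac (M.fac x))] at h3
      rw [← M.toCMap.corner_eq_iff.1 h3, M.across_across]
    rw [ord_across, e1]
    by_cases o1 : M.Ord (M.fac x)
    · left
      refine ⟨o1, fun o2 => key ?_⟩
      intro s hs
      interval_cases s
      · simpa using hx
      · simpa using o1
      · rw [pow_two, Equiv.Perm.mul_apply]
        exact o2
    · right
      refine ⟨?_, o1⟩
      by_contra o2
      rw [w0, wt_not_ord o1, wt_not_ord o2] at h4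
      omega
  · exfalso
    rw [hL] at h4 key h3
    rw [Finset.sum_range_succ, Finset.sum_range_succ, Finset.sum_range_succ, Finset.sum_range_one] at h4
    have w0 := wt_ge M ((M.fac ^ 0) x)
    have w1 := wt_ge M ((M.fac ^ 1) x)
    have w2 := wt_ge M ((M.fac ^ 2) x)
    have w3 := wt_ge M ((M.fac ^ 3) x)
    apply key
    intro s hs
    by_contra ho
    have := wt_not_ord ho
    interval_cases s <;> omega

theorem face_count {M : Pic X Y w D} (h : MinM Q β N M) {x : D × Bool}
    (h4 : 4 < cs M.fac M.wt x) : cs M.fac M.oi x + 20 ≤ 5 * cs M.fac M.wt x := by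
  have h1 : cs M.fac M.oi x ≤ cs M.fac M.wt x := by
    unfold cs
    exact Finset.sum_le_sum fun s _ => oi_le M _
  omega

end Pool.Agent.HomV
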