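import Pool.Agent.HomV.Loc

/-!
# Good vertices

Let the ordinary vertex of `x` have exactly `4` non-digon corners, and let exactly one of the two
darts of every non-digon corner lead to an ordinary vertex.  The vertex is even (`vert_ge_odd`).
A dart that leads to an ordinary vertex is at no digon corner, so both its corners are non-digons,
and different such darts have different corners: there are exactly two of them, `y₁` and `y₂`.
If another dart of the vertex had the label of `y₁`, it would be in one of the two runs between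
`y₁` and `y₂`, and one of the two arcs between it and `y₁` would contain only one non-digon corner
(`arc`).  As the vertex is even, `y₂` has the label of `y₁`.
-/

set_option autoImplicit false

namespace Pool.Agent.HomV

open Finset Classical

variable {U : Type} [Fintype U] {X : SimpleGraph U} {Y : Finset U} {w : ℕ} {D : Type} [Fintype D]
  {Q N : ℕ} {β : Prop}

private theorem GoodV_per {n : ℕ} (f : ℕ → ℕ) (hf : ∀ s, f (s + n) = f s) (k : ℕ) :
    ∑ s ∈ range n, f (s + k) = ∑ s ∈ range n, f s := by
  induction k with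
  | zero => rfl
  | succ k ih =>
    rw [← ih]
    have h4 := Finset.sum_range_succ (fun s => f (s + k)) n
    have h5 := Finset.sum_range_succ' (fun s => f (s + k)) n
    have h6 : ∑ s ∈ range n, f (s + (k + 1)) = ∑ s ∈ range n, f (s + 1 + k) := by
      apply Finset.sum_congr rfl
      intro s _
      rw [show s + 1 + k = s + (k + 1) by omega]
    have h7 := hf k
    rw [h6]
    rw [h4, zero_add, add_comm n k, h7] at h5
    omega

omit [Fintype D] in
private theorem GoodV_succ (M : CMap D) (x : D × Bool) (s : ℕ) :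
    (M.rot ^ (s + 1)) x = M.corner (fl ((M.rot ^ s) x)) := by
  rw [pow_succ', Equiv.Perm.mul_apply]
  rfl

omit [Fintype D] in
private theorem GoodV_add (M : CMap D) (x : D × Bool) (s t : ℕ) :
    (M.rot ^ s) ((M.rot ^ t) x) = (M.rot ^ (s + t)) x := by
  rw [pow_add, Equiv.Perm.mul_apply]

omit [Fintype D] in
private theorem GoodV_cancel (M : CMap D) {x : D × Bool} {s t : ℕ}
    (h : (M.rot ^ (s + t)) x = (M.rot ^ t) x) : (M.rot ^ s) x = x := by
  rw [add_comm, ← GoodV_add] at h
  exact (M.rot ^ t).injective h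

omit [Fintype D] in
private theorem GoodV_iter (M : CMap D) (x : D × Bool) (s : ℕ) :
    (⇑M.rot)^[s] x = (M.rot ^ s) x := by
  rw [Equiv.Perm.iterate_eq_pow]

omit [Fintype D] in
private theorem GoodV_periodic (M : CMap D) (x : D × Bool) :
    Function.IsPeriodicPt M.rot (orderOf M.rot) x := by
  have h1 : (M.rot ^ orderOf M.rot) x = x := by
    rw [pow_orderOf_eq_one]
    rfl
  unfold Function.IsPeriodicPt Function.IsFixedPt
  rw [GoodV_iter, h1]

private theorem GoodV_deg_pos (M : CMap D) (x : D × Bool) : 0 < M.deg x :=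
  (GoodV_periodic M x).minimalPeriod_pos (orderOf_pos M.rot)

private theorem GoodV_deg_rot (M : CMap D) (x : D × Bool) (k : ℕ) :
    M.deg ((M.rot ^ k) x) = M.deg x := by
  unfold CMap.deg
  rw [← GoodV_iter]
  exact Function.minimalPeriod_apply_iterate ⟨_, orderOf_pos M.rot, GoodV_periodic M x⟩ k

omit [Fintype D] in
private theorem GoodV_pow_deg (M : CMap D) (x : D × Bool) : (M.rot ^ M.deg x) x = x := by
  rw [← GoodV_iter]
  exact Function.iterate_minimalPeriod

omit [Fintype D] in
private theorem GoodV_pow_ne (M : CMap D) {x : D × Bool} {s : ℕ} (h0 : 0 < s)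
    (h1 : s < M.deg x) : (M.rot ^ s) x ≠ x := by
  intro h
  rw [← GoodV_iter] at h
  exact Function.not_isPeriodicPt_of_pos_of_lt_minimalPeriod h0.ne' h1 h

private theorem GoodV_sameV_rot (M : CMap D) (x : D × Bool) (s : ℕ) :
    M.SameV x ((M.rot ^ s) x) := (M.sameV_iff _ _).2 ⟨s, Or.inl rfl⟩

/-- the number of the darts of the corner of `rot ^ (s + 1) x` that lead to ordinary vertices -/
private theorem GoodV_nd (M : Pic X Y w D) {x : D × Bool}
    (hxor : ∀ y, M.SameV x y → ¬ M.Digon y →
      Xor' (M.Ord (M.across y)) (M.Ord (M.across (M.corner y)))) (s : ℕ) :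
    M.nd ((M.rot ^ (s + 1)) x) = (if M.Ord (M.across ((M.rot ^ s) x)) then 1 else 0) +
      (if M.Ord (M.across ((M.rot ^ (s + 1)) x)) then 1 else 0) := by
  have hno : ∀ y, M.Vor y → ¬ M.Ord y := by
    rintro y ⟨n, hn⟩ ⟨i, hi⟩
    rw [hn] at hi
    cases hi
  have hc : M.corner ((M.rot ^ (s + 1)) x) = fl ((M.rot ^ s) x) := by
    rw [GoodV_succ, M.cc]
  unfold Pic.nd
  by_cases hd : M.Digon ((M.rot ^ (s + 1)) x)
  · rw [if_pos hd, if_neg (hno _ hd.2.1), if_neg]
    have h1 := (digon_corner M _).2 hd
    rw [hc] at h1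
    exact hno (M.across (fl ((M.rot ^ s) x))) h1.2.1
  · have h1 := hxor _ (GoodV_sameV_rot M.toCMap x (s + 1)) hd
    rw [hc] at h1
    change Xor' _ (M.Ord (M.across ((M.rot ^ s) x))) at h1
    rw [if_neg hd]
    rcases h1 with ⟨h2, h3⟩ | ⟨h2, h3⟩
    · rw [if_neg h3, if_pos h2]
    · rw [if_pos h2, if_neg h3]

private theorem GoodV_root {M : Pic X Y w D} (h : MinM Q β N M) {x : D × Bool} (hx : M.Ord x)
    (hax : M.Ord (M.across x))
    (h4 : ∑ s ∈ range (M.deg x), M.nd ((M.rot ^ s) x) = 4)
    (hxor : ∀ y, M.SameV x y → ¬ M.Digon y →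
      Xor' (M.Ord (M.across y)) (M.Ord (M.across (M.corner y))))
    (P : Ch U → Prop) :
    ∑ d ∈ univ.filter (fun d => M.SameV x (d, false) ∧
      (∃ j, M.kind (M.opp d) = Sum.inl j) ∧ P (M.lam d)), M.lam d = 0 := by
  set n := M.deg x with hn
  have hpos : 0 < n := GoodV_deg_pos M.toCMap x
  set α : ℕ → ℕ := fun s => if M.Ord (M.across ((M.rot ^ s) x)) then 1 else 0 with hα
  have hnd : ∀ s, M.nd ((M.rot ^ (s + 1)) x) = α s + α (s + 1) := fun s => GoodV_nd M hxor s
  have hperx : ∀ s, (M.rot ^ (s + n)) x = (M.rot ^ s) x := by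
    intro s
    rw [← GoodV_add, hn, GoodV_pow_deg]
  have hαper : ∀ s, α (s + n) = α s := by
    intro s
    simp only [hα]
    rw [hperx]
  have hα0 : α 0 = 1 := by
    simp only [hα]
    rw [pow_zero, Equiv.Perm.one_apply, if_pos hax]
  have hα1 : ∀ s, α s ≤ 1 := by
    intro s
    simp only [hα]
    split_ifs <;> omega
  have h1 : ∑ s ∈ range n, α s = 2 := by
    have h2 := GoodV_per (n := n) (fun s => M.nd ((M.rot ^ s) x)) (fun s => by rw [hperx]) 1
    have h3 := GoodV_per (n := n) α hαper 1
    rw [h4, Finset.sum_congr rfl (fun s _ => hnd s), Finset.sum_add_distrib, h3] at h2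
    omega
  -- the other dart to an ordinary vertex
  obtain ⟨m, hm⟩ : ∃ m, n = m + 1 := ⟨n - 1, by omega⟩
  have h2 : ∑ s ∈ range m, α (s + 1) = 1 := by
    rw [hm, Finset.sum_range_succ', hα0] at h1
    omega
  obtain ⟨b, hb0, hbn, hb1, hb⟩ : ∃ b, 0 < b ∧ b < n ∧ α b = 1 ∧
      ∀ s, 0 < s → s < n → s ≠ b → α s = 0 := by
    obtain ⟨b, hb, hb'⟩ : ∃ b ∈ range m, α (b + 1) ≠ 0 := by
      by_contra hcon
      push Not at hcon
      rw [Finset.sum_eq_zero hcon] at h2
      omega
    rw [mem_range] at hb
    refine ⟨b + 1, by omega, by omega, ?_, ?_⟩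
    · have := hα1 (b + 1)
      omega
    · intro s hs hs' hsb
      obtain ⟨s, rfl⟩ : ∃ r, s = r + 1 := ⟨s - 1, by omega⟩
      by_contra h3
      have h5 : α (b + 1) + α (s + 1) ≤ ∑ s ∈ range m, α (s + 1) := by
        have h6 : ({b, s} : Finset ℕ) ⊆ range m := by
          intro r hr
          rw [mem_insert, mem_singleton] at hr
          rw [mem_range]
          omega
        have h7 := Finset.sum_le_sum_of_subset (f := fun s => α (s + 1)) h6
        rw [Finset.sum_pair (by omega)] at h7
        exact h7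
      omega
  -- the labels
  have heven : ∑ d ∈ univ.filter (fun d => M.SameV x (d, false)), M.lam d = 0 := by
    by_contra hodd
    have h3 := vert_ge_odd h hx hodd
    rw [← hn, h4] at h3
    omega
  have hlab : M.lam x.1 = M.lam ((M.rot ^ b) x).1 := by
    by_contra hne
    have hrec : ∃ t, 0 < t ∧ t < n ∧ M.lam ((M.rot ^ t) x).1 = M.lam x.1 := by
      obtain ⟨i, hi⟩ := hx
      obtain ⟨e, he1, he2⟩ := exists_single h hi
      have hodd := heven
      rw [M.sum_vertex x M.lam] at hodd
      have h1 := congrFun hodd e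
      rw [Finset.sum_apply] at h1
      have h2 : ∃ t, 0 < t ∧ t < M.deg x ∧ M.lam ((M.rot ^ t) x).1 e ≠ 0 := by
        by_contra hcon
        push Not at hcon
        rw [Finset.sum_eq_single 0] at h1
        · rw [pow_zero, Equiv.Perm.one_apply, he2, Pi.single_eq_same, Pi.zero_apply] at h1
          exact absurd h1 (by decide)
        · intro t ht ht'
          rw [mem_range] at ht
          exact hcon t (by omega) ht
        · intro h3
          exact absurd (mem_range.2 hpos) h3
      obtain ⟨t, ht, ht', h3⟩ := h2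
      obtain ⟨j, hj⟩ := Pic.ord_rot M ⟨i, hi⟩ t
      obtain ⟨e', -, he'⟩ := exists_single h hj
      have h4 : e = e' := by
        by_contra hne
        rw [he'] at h3
        exact h3 (Pi.single_eq_of_ne hne 1)
      exact ⟨t, ht, ht', by rw [he2, he', h4]⟩
    obtain ⟨t, ht, ht', hlt⟩ := hrec
    have htb : t ≠ b := by
      rintro rfl
      exact hne hlt.symm
    rcases Nat.lt_or_gt_of_ne htb with htb' | htb'
    · have h3 := arc h hx ht (fun s hs hs' => GoodV_pow_ne M.toCMap hs (by omega)) hlt.symm
      rw [Finset.sum_congr rfl (fun s _ => hnd s), Finset.sum_add_distrib,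
        Finset.sum_eq_single 0] at h3
      · have h5 : ∑ s ∈ range t, α (s + 1) = 0 := by
          apply Finset.sum_eq_zero
          intro s hs
          rw [mem_range] at hs
          exact hb _ (by omega) (by omega) (by omega)
        omega
      · intro s hs hs'
        rw [mem_range] at hs
        exact hb _ (by omega) (by omega) (by omega)
      · intro h5
        exact absurd (mem_range.2 ht) h5
    · have h3 := arc h (x := (M.rot ^ t) x) (Pic.ord_rot M hx t) (t := n - t) (by omega)
        (by
          intro s hs hs' h3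
          rw [GoodV_add] at h3
          exact GoodV_pow_ne M.toCMap hs (by omega) (GoodV_cancel M.toCMap h3))
        (by rw [GoodV_add, show n - t + t = n by omega, hn, GoodV_pow_deg, hlt])
      have h5 : ∑ s ∈ range (n - t), M.nd ((M.rot ^ (s + 1)) ((M.rot ^ t) x)) =
          ∑ s ∈ range (n - t), α (s + t) + ∑ s ∈ range (n - t), α (s + t + 1) := by
        rw [← Finset.sum_add_distrib]
        apply Finset.sum_congr rfl
        intro s _
        rw [GoodV_add, show s + 1 + t = s + t + 1 by omega, hnd]
      have h6 : ∑ s ∈ range (n - t), α (s + t) = 0 := by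
        apply Finset.sum_eq_zero
        intro s hs
        rw [mem_range] at hs
        exact hb _ (by omega) (by omega) (by omega)
      have h7 : ∑ s ∈ range (n - t), α (s + t + 1) = α (n - t - 1 + t + 1) := by
        apply Finset.sum_eq_single
        · intro s hs hs'
          rw [mem_range] at hs
          exact hb _ (by omega) (by omega) (by omega)
        · intro h8
          exact absurd (mem_range.2 (by omega)) h8
      have h8 := hα1 (n - t - 1 + t + 1)
      omega
  -- the sum
  have h5 : univ.filter (fun d => M.SameV x (d, false) ∧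
      (∃ j, M.kind (M.opp d) = Sum.inl j) ∧ P (M.lam d)) =
      (univ.filter (fun d => M.SameV x (d, false))).filter
        (fun d => (∃ j, M.kind (M.opp d) = Sum.inl j) ∧ P (M.lam d)) := by
    rw [Finset.filter_filter]
  rw [h5, Finset.sum_filter, M.sum_vertex x (fun d =>
    if (∃ j, M.kind (M.opp d) = Sum.inl j) ∧ P (M.lam d) then M.lam d else 0)]
  rw [← hn, Finset.sum_eq_add 0 b hb0.ne]
  · rw [pow_zero, Equiv.Perm.one_apply]
    have h6 : ∃ j, M.kind (M.opp x.1) = Sum.inl j := hax
    have h7 : ∃ j, M.kind (M.opp ((M.rot ^ b) x).1) = Sum.inl j := by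
      by_contra hcon
      have h8 : ¬ M.Ord (M.across ((M.rot ^ b) x)) := hcon
      simp only [hα] at hb1
      rw [if_neg h8] at hb1
      omega
    simp only [h6, h7, true_and, ← hlab]
    split_ifs
    · exact ch_add_self _
    · exact add_zero _
  · intro s hs hs'
    rw [mem_range] at hs
    have h6 := hb s (by omega) hs hs'.2
    rw [if_neg]
    rintro ⟨h7, -⟩
    have h8 : M.Ord (M.across ((M.rot ^ s) x)) := h7
    simp only [hα] at h6
    rw [if_pos h8] at h6
    omega
  · intro h6
    exact absurd (mem_range.2 hpos) h6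
  · intro h6
    exact absurd (mem_range.2 hbn) h6

theorem good_vertex {M : Pic X Y w D} (h : MinM Q β N M) {x : D × Bool} (hx : M.Ord x)
    (h4 : ∑ s ∈ range (M.deg x), M.nd ((M.rot ^ s) x) = 4)
    (hxor : ∀ y, M.SameV x y → ¬ M.Digon y →
      Xor' (M.Ord (M.across y)) (M.Ord (M.across (M.corner y))))
    (P : Ch U → Prop) :
    ∑ d ∈ univ.filter (fun d => M.SameV x (d, false) ∧
      (∃ j, M.kind (M.opp d) = Sum.inl j) ∧ P (M.lam d)), M.lam d = 0 := by
  have hperx : ∀ s, (M.rot ^ (s + M.deg x)) x = (M.rot ^ s) x := by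
    intro s
    rw [← GoodV_add, GoodV_pow_deg]
  have hper : ∀ k, ∑ s ∈ range (M.deg x), M.nd ((M.rot ^ (s + k)) x) = 4 := by
    intro k
    rw [← h4]
    exact GoodV_per (fun s => M.nd ((M.rot ^ s) x)) (fun s => by rw [hperx]) k
  obtain ⟨k, hk⟩ : ∃ k, M.Ord (M.across ((M.rot ^ k) x)) := by
    by_contra hcon
    push Not at hcon
    have h1 := hper 1
    rw [Finset.sum_eq_zero] at h1
    · omega
    · intro s _
      rw [GoodV_nd M hxor, if_neg (hcon s), if_neg (hcon (s + 1)), add_zero]
  have hs := GoodV_sameV_rot M.toCMap x k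
  have h1 := GoodV_root h (x := (M.rot ^ k) x) (Pic.ord_rot M hx k) hk
    (by
      rw [GoodV_deg_rot, ← hper k]
      apply Finset.sum_congr rfl
      intro s _
      rw [GoodV_add])
    (fun y hy hd => hxor y (hs.trans _ _ _ hy) hd) P
  rw [← h1]
  apply Finset.sum_congr _ (fun _ _ => rfl)
  apply Finset.filter_congr
  intro d _
  have h2 : M.SameV x (d, false) ↔ M.SameV ((M.rot ^ k) x) (d, false) :=
    ⟨fun h3 => hs.symm.trans _ _ _ h3, fun h3 => hs.trans _ _ _ h3⟩
  rw [h2]

end Pool.Agent.HomV
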