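import Pool.Agent.HomV.Face
import Pool.Agent.HomV.GoodV

/-!
# Gauss-Bonnet

`sum_cs`: a sum over all flags is the sum over the cycles of a permutation of `cs`.

Let `O` be the number of ordinary flags, `W` the number of the other flags, `Z` the number of
ordinary digon flags, `v` the number of vortices.  Then `∑ wt = O + Z + 2 W`,
`∑ nd` over the ordinary flags `= O - Z`, `O + W = 2 |D|`, `cyc fac = 2 nF` (`cyc_fac`) and the
number of cycles of `rot` on ordinary flags is `2 nV - 2 v` (`cyc_rot`, `vor_conn`: each vortex is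
one vertex, i.e. two cycles).  Hence
`∑_(cycles of fac) (cs wt - 4) + ∑_(ordinary cycles of rot) (cs nd - 4)
  = O + Z + 2 W + O - Z - 8 nF - 8 nV + 8 v = 4 |D| - 8 nF - 8 nV + 8 v = 4 G2 - 16 nC + 8 v
  ≤ 8 (G2 + v) ≤ 8 N`  (`G2_nonneg`).
All terms are nonnegative (`face_ge`, `vert_ge`).  `T` = fibres of the ordinary flags `x` with
`cs wt x > 4` for `fac` (at most `5 * 8 N` by `face_count`) or with `cs nd x > 4` for `rot`
(at most `8 N`).
-/

set_option autoImplicit false

namespace Pool.Agent.HomV

open Finset Classical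

variable {U : Type} [Fintype U] {X : SimpleGraph U} {Y : Finset U} {w : ℕ} {D : Type} [Fintype D]
  {Q N : ℕ} {β : Prop}

theorem cs_eq {α : Type} [Fintype α] (f : Equiv.Perm α) (g : α → ℕ) (x : α) :
    cs f g x = ∑ z ∈ univ.filter (fun z => f.SameCycle x z), g z := by
  unfold cs
  refine Finset.sum_bij (fun s _ => (f ^ s) x) ?_ ?_ ?_ ?_
  · intro s _
    simp only [mem_filter, mem_univ, true_and]
    exact ⟨s, by rw [zpow_natCast]⟩
  · intro s hs t ht hst
    simp only [mem_range] at hs ht
    have h := Function.iterate_injOn_Iio_minimalPeriod (f := f) (x := x)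
    refine h hs ht ?_
    simp only [Equiv.Perm.iterate_eq_pow]
    exact hst
  · intro z hz
    simp only [mem_filter, mem_univ, true_and] at hz
    obtain ⟨n, rfl⟩ := (CMap.exists_pow_iff f x z).2 hz
    refine ⟨n % Function.minimalPeriod f x, ?_, ?_⟩
    · rw [mem_range]
      refine Nat.mod_lt _ (Function.minimalPeriod_pos_of_mem_periodicPts ?_)
      exact ⟨orderOf f, orderOf_pos f, by
        rw [Function.IsPeriodicPt, Equiv.Perm.iterate_eq_pow, pow_orderOf_eq_one]
        exact Function.IsFixedPt.eq rfl⟩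
    · have := Function.iterate_mod_minimalPeriod_eq (f := f) (x := x) (n := n)
      rw [Equiv.Perm.iterate_eq_pow, Equiv.Perm.iterate_eq_pow] at this
      exact this
  · intro s _
    rfl

theorem cs_congr {α : Type} [Finite α] (f : Equiv.Perm α) (g : α → ℕ) {x y : α}
    (h : f.SameCycle x y) : cs f g x = cs f g y := by
  have : Fintype α := Fintype.ofFinite α
  rw [cs_eq, cs_eq]
  refine Finset.sum_congr ?_ fun _ _ => rfl
  ext z
  simp only [mem_filter, mem_univ, true_and]
  exact ⟨fun h' => h.symm.trans h', fun h' => h.trans h'⟩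

theorem sum_cs {α : Type} [Fintype α] (f : Equiv.Perm α) (g : α → ℕ) :
    ∑ x, g x = ∑ c : Quotient (Equiv.Perm.SameCycle.setoid f), cs f g c.out := by
  rw [← Finset.sum_fiberwise (s := univ)
    (g := fun x => Quotient.mk (Equiv.Perm.SameCycle.setoid f) x)]
  refine Finset.sum_congr rfl fun c _ => ?_
  rw [cs_eq]
  refine Finset.sum_congr ?_ fun _ _ => rfl
  ext z
  simp only [mem_filter, mem_univ, true_and]
  constructor
  · rintro rfl
    have := Quotient.mk_out (s := Equiv.Perm.SameCycle.setoid f) z
    exact this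
  · intro h
    have h2 : Quotient.mk (Equiv.Perm.SameCycle.setoid f) c.out = c := Quotient.out_eq c
    rw [← h2]
    exact Quotient.sound (Equiv.Perm.SameCycle.symm h)

private lemma kind_sameV' (M : Pic X Y w D) {x y : D × Bool} (h : M.SameV x y) :
    M.kind x.1 = M.kind y.1 := by
  induction h with
  | rel x y h =>
    rcases h with rfl | rfl
    · exact (M.kind_corner x).symm
    · rfl
  | refl x => rfl
  | symm x y _ ih => exact ih.symm
  | trans x y z _ _ h1 h2 => exact h1.trans h2

private lemma kind_rot_cycle (M : Pic X Y w D) {x y : D × Bool} (h : M.rot.SameCycle x y) :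
    M.kind x.1 = M.kind y.1 := kind_sameV' M ((M.sameV_iff' x y).2 (Or.inl h))

private lemma ord_of_kind {M : Pic X Y w D} {x y : D × Bool} (h : M.kind x.1 = M.kind y.1) :
    M.Ord x ↔ M.Ord y := by
  unfold Pic.Ord
  rw [h]

private lemma ord_cycle (M : Pic X Y w D) {x y : D × Bool} (h : M.rot.SameCycle x y) :
    M.Ord x ↔ M.Ord y := ord_of_kind (kind_rot_cycle M h)

private lemma sum_ord_cs (M : Pic X Y w D) (g : D × Bool → ℕ) :
    ∑ x ∈ univ.filter (fun x => M.Ord x), g x =
      ∑ c ∈ univ.filter (fun c : Quotient (Equiv.Perm.SameCycle.setoid M.rot) => M.Ord c.out),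
        cs M.rot g c.out := by
  rw [Finset.sum_filter, sum_cs M.rot (fun x => if M.Ord x then g x else 0), Finset.sum_filter]
  refine Finset.sum_congr rfl fun c _ => ?_
  rw [cs_eq]
  split_ifs with hc
  · rw [cs_eq]
    refine Finset.sum_congr rfl fun z hz => ?_
    simp only [mem_filter, mem_univ, true_and] at hz
    rw [if_pos ((ord_cycle M hz).1 hc)]
  · refine Finset.sum_eq_zero fun z hz => ?_
    simp only [mem_filter, mem_univ, true_and] at hz
    rw [if_neg fun h => hc ((ord_cycle M hz).2 h)]

/-- a vortex has at most two cycles -/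
private lemma card_vor (M : Pic X Y w D) :
    (univ.filter (fun c : Quotient (Equiv.Perm.SameCycle.setoid M.rot) => ¬ M.Ord c.out)).card ≤
      2 * (M.vnums Set.univ).ncard := by
  have hfin : (M.vnums Set.univ).Finite := by
    refine Set.Finite.subset ((Set.finite_range M.kind).preimage
      (Sum.inr_injective.injOn (s := Sum.inr ⁻¹' Set.range M.kind))) ?_
    rintro n ⟨d, _, hd⟩
    exact ⟨d, hd⟩
  rw [Set.ncard_eq_toFinset_card _ hfin, mul_comm]
  have hk : ∀ x : D × Bool, ¬ M.Ord x → ∃ n, M.kind x.1 = Sum.inr n := by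
    intro x hx
    rcases hk : M.kind x.1 with i | n
    · exact absurd ⟨i, hk⟩ hx
    · exact ⟨n, rfl⟩
  let F : Quotient (Equiv.Perm.SameCycle.setoid M.rot) → ℕ := fun c =>
    Sum.elim (fun _ => 0) id (M.kind c.out.1)
  rw [mul_comm]
  refine Finset.card_le_mul_card_image_of_maps_to (f := F) ?_ 2 ?_
  · intro c hc
    simp only [mem_coe, mem_filter, mem_univ, true_and] at hc
    obtain ⟨n, hn⟩ := hk _ hc
    simp only [Set.Finite.mem_toFinset, F, hn, Sum.elim_inr, id]
    exact ⟨_, Set.mem_univ _, hn⟩
  · intro n _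
    rcases (filter (fun c => F c = n) (univ.filter (fun c : Quotient
      (Equiv.Perm.SameCycle.setoid M.rot) => ¬ M.Ord c.out))).eq_empty_or_nonempty with h0 | ⟨c, hc⟩
    · rw [h0]; simp
    · simp only [mem_filter, mem_univ, true_and] at hc
      obtain ⟨m, hm⟩ := hk _ hc.1
      have hmn : m = n := by
        have := hc.2
        simp only [F, hm, Sum.elim_inr, id] at this
        exact this
      subst hmn
      refine (Finset.card_le_card (t := {Quotient.mk _ c.out, Quotient.mk _ (M.corner c.out)}) ?_).trans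
        Finset.card_le_two
      intro c' hc'
      simp only [mem_filter, mem_univ, true_and] at hc'
      obtain ⟨m', hm'⟩ := hk _ hc'.1
      have hmn' : m' = m := by
        have := hc'.2
        simp only [F, hm', Sum.elim_inr, id] at this
        exact this
      subst hmn'
      have h1 := M.vor_conn c'.out c.out m' hm' hm
      rw [mem_insert, mem_singleton]
      rcases (M.sameV_iff' _ _).1 h1 with h2 | h2
      · left
        rw [← Quotient.out_eq c']
        exact Quotient.sound h2
      · right
        rw [← Quotient.out_eq c']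
        exact Quotient.sound h2

/-- the main counting statement -/
theorem gauss_bonnet {M : Pic X Y w D} (h : MinM Q β N M) :
    (∑ c : Quotient (Equiv.Perm.SameCycle.setoid M.fac), (cs M.fac M.wt c.out - 4)) +
      (∑ c ∈ univ.filter (fun c : Quotient (Equiv.Perm.SameCycle.setoid M.rot) => M.Ord c.out),
        (cs M.rot M.nd c.out - 4)) ≤ 8 * N := by
  -- faces
  have hF : (∑ c : Quotient (Equiv.Perm.SameCycle.setoid M.fac), (cs M.fac M.wt c.out - 4)) +
      4 * (2 * M.nF) = ∑ x, M.wt x := by
    rw [sum_cs M.fac, ← M.cyc_fac, cyc, Nat.card_eq_fintype_card, ← Finset.card_univ, mul_comm 4,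
      ← smul_eq_mul, ← Finset.sum_const, ← Finset.sum_add_distrib]
    refine Finset.sum_congr rfl fun c _ => ?_
    have := face_ge h c.out
    omega
  -- vertices
  have hV : (∑ c ∈ univ.filter (fun c : Quotient (Equiv.Perm.SameCycle.setoid M.rot) => M.Ord c.out),
        (cs M.rot M.nd c.out - 4)) + 4 * (univ.filter (fun c : Quotient
          (Equiv.Perm.SameCycle.setoid M.rot) => M.Ord c.out)).card =
      ∑ x ∈ univ.filter (fun x => M.Ord x), M.nd x := by
    rw [sum_ord_cs, mul_comm 4, ← smul_eq_mul, ← Finset.sum_const, ← Finset.sum_add_distrib]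
    refine Finset.sum_congr rfl fun c hc => ?_
    simp only [mem_filter, mem_univ, true_and] at hc
    have h4 : 4 ≤ cs M.rot M.nd c.out := vert_ge h hc
    omega
  have hcyc : (univ.filter (fun c : Quotient (Equiv.Perm.SameCycle.setoid M.rot) =>
      M.Ord c.out)).card + (univ.filter (fun c : Quotient (Equiv.Perm.SameCycle.setoid M.rot) =>
      ¬ M.Ord c.out)).card = 2 * M.nV := by
    rw [Finset.card_filter_add_card_filter_not, ← M.cyc_rot, cyc, Nat.card_eq_fintype_card,
      Finset.card_univ]
  have hvor := card_vor M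
  -- the sum over the flags
  have hsum : ∑ x, M.wt x + ∑ x ∈ univ.filter (fun x => M.Ord x), M.nd x =
      4 * Fintype.card D := by
    rw [Finset.sum_filter, ← Finset.sum_add_distrib]
    have : ∀ x ∈ (univ : Finset (D × Bool)), M.wt x + (if M.Ord x then M.nd x else 0) = 2 := by
      intro x _
      unfold Pic.wt Pic.nd
      by_cases h1 : M.Ord x
      · by_cases h2 : M.Digon x
        · simp [h1, h2]
        · simp [h1, h2]
      · simp [h1]
    rw [Finset.sum_congr rfl this, Finset.sum_const, Finset.card_univ, Fintype.card_prod,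
      Fintype.card_bool, smul_eq_mul]
    ring
  have hG := M.G2_nonneg
  have hN := h.cex.2.1
  unfold CMap.G2 at hG hN
  rw [Nat.card_eq_fintype_card] at hG hN
  set A := (∑ c : Quotient (Equiv.Perm.SameCycle.setoid M.fac), (cs M.fac M.wt c.out - 4))
  set B := (∑ c ∈ univ.filter (fun c : Quotient (Equiv.Perm.SameCycle.setoid M.rot) =>
    M.Ord c.out), (cs M.rot M.nd c.out - 4))
  omega

private lemma bad_faces {M : Pic X Y w D} (h : MinM Q β N M) :
    (univ.filter fun x : D × Bool => M.Ord x ∧ 4 < cs M.fac M.wt x).card ≤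
      5 * ∑ c : Quotient (Equiv.Perm.SameCycle.setoid M.fac), (cs M.fac M.wt c.out - 4) := by
  rw [Finset.card_eq_sum_ones, Finset.sum_filter, sum_cs M.fac, Finset.mul_sum]
  refine Finset.sum_le_sum fun c _ => ?_
  rw [cs_eq]
  by_cases hc : 4 < cs M.fac M.wt c.out
  · have h1 := face_count h hc
    have h3 : cs M.fac M.oi c.out ≤ 5 * (cs M.fac M.wt c.out - 4) := by omega
    refine le_trans ?_ h3
    rw [cs_eq M.fac M.oi]
    refine Finset.sum_le_sum fun z _ => ?_
    unfold Pic.oi
    by_cases hz : M.Ord z
    · simp only [hz, true_and, if_true]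
      split_ifs <;> simp
    · simp [hz]
  · rw [Finset.sum_eq_zero]
    · exact Nat.zero_le _
    · intro z hz
      simp only [mem_filter, mem_univ, true_and] at hz
      rw [if_neg]
      rintro ⟨_, h3⟩
      rw [← cs_congr M.fac M.wt hz] at h3
      exact hc h3

/-- All ordinary vertices are good, except those in at most `48 * N` fibres. -/
theorem bad_fibres {M : Pic X Y w D} (h : MinM Q β N M) :
    ∃ T : Finset U, T.card ≤ 48 * N ∧ ∀ (x : D × Bool) (i : U), M.kind x.1 = Sum.inl i → i ∉ T →
      ∑ s ∈ range (M.deg x), M.nd ((M.rot ^ s) x) = 4 ∧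
      ∀ y, M.SameV x y → ¬ M.Digon y →
        Xor' (M.Ord (M.across y)) (M.Ord (M.across (M.corner y))) := by
  rcases isEmpty_or_nonempty U with hU | ⟨⟨u₀⟩⟩
  · refine ⟨∅, by simp, fun x i => (hU.false i).elim⟩
  let fib : D × Bool → U := fun x => Sum.elim id (fun _ => u₀) (M.kind x.1)
  have hfib : ∀ (x : D × Bool) (i : U), M.kind x.1 = Sum.inl i → fib x = i := by
    intro x i hx
    simp [fib, hx]
  have hgb := gauss_bonnet h
  set A := (∑ c : Quotient (Equiv.Perm.SameCycle.setoid M.fac), (cs M.fac M.wt c.out - 4))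
  set B := (∑ c ∈ univ.filter (fun c : Quotient (Equiv.Perm.SameCycle.setoid M.rot) =>
    M.Ord c.out), (cs M.rot M.nd c.out - 4)) with hB
  let B1 := univ.filter fun x : D × Bool => M.Ord x ∧ 4 < cs M.fac M.wt x
  let B2 := univ.filter fun c : Quotient (Equiv.Perm.SameCycle.setoid M.rot) =>
    M.Ord c.out ∧ 4 < cs M.rot M.nd c.out
  refine ⟨B1.image fib ∪ B2.image (fun c => fib c.out), ?_, ?_⟩
  · have h1 : B1.card ≤ 5 * A := bad_faces h
    have h2 : B2.card ≤ B := by
      rw [hB, Finset.card_eq_sum_ones, Finset.sum_filter, Finset.sum_filter]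
      refine Finset.sum_le_sum fun c _ => ?_
      by_cases h3 : M.Ord c.out
      · by_cases h4 : 4 < cs M.rot M.nd c.out
        · rw [if_pos ⟨h3, h4⟩, if_pos h3]
          omega
        · rw [if_neg fun h => h4 h.2]
          exact Nat.zero_le _
      · rw [if_neg fun h => h3 h.1]
        exact Nat.zero_le _
    have h3 := Finset.card_union_le (B1.image fib) (B2.image (fun c => fib c.out))
    have h4 : (B1.image fib).card ≤ B1.card := Finset.card_image_le
    have h5 : (B2.image (fun c => fib c.out)).card ≤ B2.card := Finset.card_image_le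
    omega
  · intro x i hx hi
    rw [mem_union, not_or] at hi
    refine ⟨?_, ?_⟩
    · have h1 := vert_ge h (x := x) ⟨i, hx⟩
      by_contra hne
      refine hi.2 (Finset.mem_image.2 ⟨Quotient.mk (Equiv.Perm.SameCycle.setoid M.rot) x, ?_, ?_⟩)
      · have h2 : M.rot.SameCycle (Quotient.mk (Equiv.Perm.SameCycle.setoid M.rot) x).out x :=
          Quotient.mk_out (s := Equiv.Perm.SameCycle.setoid M.rot) x
        simp only [B2, mem_filter, mem_univ, true_and]
        refine ⟨(ord_cycle M h2).2 ⟨i, hx⟩, ?_⟩
        rw [cs_congr M.rot M.nd h2]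
        exact lt_of_le_of_ne h1 (Ne.symm hne)
      · have h2 : M.rot.SameCycle (Quotient.mk (Equiv.Perm.SameCycle.setoid M.rot) x).out x :=
          Quotient.mk_out (s := Equiv.Perm.SameCycle.setoid M.rot) x
        exact hfib _ _ ((kind_rot_cycle M h2).trans hx)
    · intro y hy hnd
      have hky : M.kind y.1 = Sum.inl i := (kind_sameV' M hy).symm.trans hx
      refine face_xor h ⟨i, hky⟩ hnd (le_antisymm ?_ (face_ge h y))
      by_contra hlt
      refine hi.1 (Finset.mem_image.2 ⟨y, ?_, hfib _ _ hky⟩)
      simp only [B1, mem_filter, mem_univ, true_and]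
      exact ⟨⟨i, hky⟩, by omega⟩

end Pool.Agent.HomV
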