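import Pool.Agent.HomV.SwG

/-!
# The genus is nonnegative and additive

`G2_nonneg`: detach all darts one by one (switch at `corner (d, true)... `, i.e. make
`corner (d, false) = (d, true)`): each of these switches creates a vertex or does nothing, so the
genus does not grow (`G2_switch_rot`); at the end every dart is a vertex, every edge is a component
with one face, and `G2 = 0`.
-/

set_option autoImplicit false

namespace Pool.Agent.HomV

open Finset Classical

/-- classes of a relation without links between two parts -/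
theorem card_quot_sum {α β γ : Type} [Finite β] [Finite γ] (e : β ⊕ γ ≃ α) {r : α → α → Prop}
    {s : β → β → Prop} {t : γ → γ → Prop} (hs : ∀ x y, r (e (Sum.inl x)) (e (Sum.inl y)) ↔ s x y)
    (ht : ∀ x y, r (e (Sum.inr x)) (e (Sum.inr y)) ↔ t x y)
    (h1 : ∀ x y, ¬ r (e (Sum.inl x)) (e (Sum.inr y)))
    (h2 : ∀ x y, ¬ r (e (Sum.inr x)) (e (Sum.inl y))) :
    Nat.card (Quot r) = Nat.card (Quot s) + Nat.card (Quot t) := by
  rw [← Nat.card_sum]
  symm
  refine Nat.card_congr ⟨Sum.elim (Quot.lift (fun x => Quot.mk r (e (Sum.inl x))) ?_)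
    (Quot.lift (fun x => Quot.mk r (e (Sum.inr x))) ?_),
    Quot.lift (fun x => Sum.map (Quot.mk s) (Quot.mk t) (e.symm x)) ?_, ?_, ?_⟩
  · intro x y hxy
    exact Quot.sound ((hs x y).2 hxy)
  · intro x y hxy
    exact Quot.sound ((ht x y).2 hxy)
  · intro x y hxy
    obtain ⟨x, rfl⟩ := e.surjective x
    obtain ⟨y, rfl⟩ := e.surjective y
    simp only [Equiv.symm_apply_apply]
    rcases x with x | x <;> rcases y with y | y
    · simp only [Sum.map_inl]
      rw [Quot.sound ((hs x y).1 hxy)]
    · exact absurd hxy (h1 x y)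
    · exact absurd hxy (h2 x y)
    · simp only [Sum.map_inr]
      rw [Quot.sound ((ht x y).1 hxy)]
  · rintro (u | u)
    · obtain ⟨x, rfl⟩ := Quot.exists_rep u
      simp
    · obtain ⟨x, rfl⟩ := Quot.exists_rep u
      simp
  · intro u
    obtain ⟨x, rfl⟩ := Quot.exists_rep u
    obtain ⟨x, rfl⟩ := e.surjective x
    rcases x with x | x <;> simp

variable {D : Type}

namespace CMap

variable (M : CMap D)

/-- a map all of whose vertices are single darts -/
theorem G2_nonneg_of [Finite D] (h : ∀ x, M.corner x = fl x) : 0 ≤ M.G2 := by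
  have : Fintype D := Fintype.ofFinite D
  have hV : M.nV = Nat.card D := by
    refine Nat.card_congr ⟨Quot.lift (fun x => x.1) ?_, fun d => Quot.mk _ (d, false), ?_, ?_⟩
    · rintro x y (rfl | rfl)
      · rw [h]; rfl
      · rfl
    · intro u
      obtain ⟨⟨d, s⟩, rfl⟩ := Quot.exists_rep u
      cases s
      · rfl
      · exact Quot.sound (Or.inr rfl)
    · intro d
      rfl
  have hF : M.nF = M.nC := by
    refine Nat.card_congr ⟨Quot.lift (fun x => Quot.mk _ x) ?_, Quot.lift (fun x => Quot.mk _ x) ?_,
      ?_, ?_⟩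
    · rintro x y (rfl | rfl)
      · exact Quot.sound (Or.inl rfl)
      · exact Quot.sound (Or.inr (Or.inl rfl))
    · rintro x y (rfl | rfl | rfl)
      · exact Quot.sound (Or.inl rfl)
      · exact Quot.sound (Or.inr rfl)
      · exact Quot.sound (Or.inl (h x).symm)
    · intro u
      obtain ⟨x, rfl⟩ := Quot.exists_rep u
      rfl
    · intro u
      obtain ⟨x, rfl⟩ := Quot.exists_rep u
      rfl
  have hC : Nat.card D ≤ 2 * M.nC := by
    have : Fintype (Quot M.CRel) := Fintype.ofFinite _
    unfold nC
    rw [Nat.card_eq_fintype_card, Nat.card_eq_fintype_card, ← Finset.card_univ, ← Finset.card_univ]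
    -- the edge is an invariant
    have hinv : ∀ x y, M.SameC x y → ({x.1, M.opp x.1} : Finset D) = {y.1, M.opp y.1} := by
      intro x y hxy
      induction hxy with
      | rel x y hxy =>
        rcases hxy with rfl | rfl | rfl
        · rw [h]; rfl
        · rw [across_fst, M.opp_opp, Finset.pair_comm]
        · rfl
      | refl x => rfl
      | symm x y _ ih => exact ih.symm
      | trans x y z _ _ h1 h2 => exact h1.trans h2
    refine Finset.card_le_mul_card_image_of_maps_to (f := fun d => Quot.mk M.CRel (d, false))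
      (fun _ _ => mem_univ _) 2 ?_
    intro u _
    rcases (univ.filter fun d => Quot.mk M.CRel (d, false) = u).eq_empty_or_nonempty with h0 | ⟨d, hd⟩
    · rw [h0]; simp
    · refine (Finset.card_le_card (t := {d, M.opp d}) ?_).trans (Finset.card_le_two)
      intro d' hd'
      simp only [mem_filter, mem_univ, true_and] at hd hd'
      have h1 := hinv _ _ (Quot.eqvGen_exact (hd'.trans hd.symm))
      simp only at h1
      rw [← h1]
      exact mem_insert_self _ _
  unfold G2
  rw [hV, hF]
  omega

theorem G2_nonneg [Finite D] : 0 ≤ M.G2 := by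
  have : Fintype D := Fintype.ofFinite D
  induction hN : (univ.filter fun x : D × Bool => M.corner x ≠ fl x).card using
    Nat.strong_induction_on generalizing M with
  | _ N ih =>
    by_cases h : ∀ x, M.corner x = fl x
    · exact M.G2_nonneg_of h
    · push Not at h
      obtain ⟨x, hx⟩ := h
      -- switch at `x` and `corner (fl x)`
      have h1 : (M.rot ^ 1) x = M.corner (fl x) := rfl
      have h2 := M.G2_switch_rot x (M.corner (fl x)) 1 h1
      refine le_trans (ih _ ?_ (M.switch x (M.corner (fl x))) rfl) h2
      rw [← hN]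
      have hne : M.corner (fl x) ≠ M.corner x := fun h' => fl_ne x (M.corner_inj h')
      refine Finset.card_lt_card ⟨?_, ?_⟩
      · intro y hy
        simp only [mem_filter, mem_univ, true_and] at hy ⊢
        intro hy'
        refine hy ?_
        by_cases e1 : y = x
        · subst e1; exact absurd hy' hx
        · by_cases e2 : y = M.corner (fl x)
          · subst e2
            rw [M.cc] at hy'
            exfalso
            apply hx
            have := congrArg fl hy'
            rw [fl_fl, fl_fl] at this
            have h3 := congrArg M.corner this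
            rwa [M.cc] at h3
          · by_cases e3 : y = M.corner x
            · subst e3
              rw [M.cc] at hy'
              exfalso
              apply hx
              rw [← fl_fl (M.corner x), ← hy']
            · by_cases e4 : y = M.corner (M.corner (fl x))
              · rw [M.cc] at e4
                subst e4
                exfalso
                rw [fl_fl] at hy'
                apply hx
                have h3 := congrArg M.corner hy'
                rw [M.cc] at h3
                exact h3.symm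
              · rw [M.switch_corner_of_ne e1 e2 e3 e4, hy']
      · intro hsub
        have hxm : x ∈ univ.filter fun x : D × Bool => M.corner x ≠ fl x := by simp [hx]
        have := hsub hxm
        simp only [mem_filter, mem_univ, true_and] at this
        apply this
        rw [switch_corner_p hne, M.cc]

/-- the splitting of the flags -/
noncomputable def splitEquiv (S : Set D) : ((S × Bool) ⊕ ((Sᶜ : Set D) × Bool)) ≃ D × Bool where
  toFun := Sum.elim (fun x => ((x.1 : D), x.2)) (fun x => ((x.1 : D), x.2))
  invFun x := if h : x.1 ∈ S then Sum.inl (⟨x.1, h⟩, x.2) else Sum.inr (⟨x.1, h⟩, x.2)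
  left_inv := by
    rintro (⟨⟨d, hd⟩, s⟩ | ⟨⟨d, hd⟩, s⟩)
    · simp [hd]
    · have : d ∉ S := hd
      simp [this]
  right_inv := by
    rintro ⟨d, s⟩
    by_cases h : d ∈ S <;> simp [h]

theorem restrict_corner_val (S : Set D) (h : M.Closed S) (x : S × Bool) :
    ((((M.restrict S h).corner x).1 : D), ((M.restrict S h).corner x).2) =
      M.corner ((x.1 : D), x.2) := rfl

theorem restrict_across_val (S : Set D) (h : M.Closed S) (x : S × Bool) :
    ((((M.restrict S h).across x).1 : D), ((M.restrict S h).across x).2) =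
      M.across ((x.1 : D), x.2) := rfl

theorem flag_ext {S : Set D} {x y : S × Bool} (h : ((x.1 : D), x.2) = ((y.1 : D), y.2)) : x = y :=
  Prod.ext (Subtype.ext (Prod.ext_iff.1 h).1) (Prod.ext_iff.1 h).2

theorem restrict_VRel (S : Set D) (h : M.Closed S) (x y : S × Bool) :
    M.VRel ((x.1 : D), x.2) ((y.1 : D), y.2) ↔ (M.restrict S h).VRel x y := by
  unfold VRel
  refine or_congr ⟨fun h' => flag_ext ?_, fun h' => ?_⟩ ⟨fun h' => flag_ext ?_, fun h' => ?_⟩
  · rw [h', restrict_corner_val]
  · rw [h', restrict_corner_val]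
  · rw [h']; rfl
  · rw [h']; rfl

theorem restrict_FRel (S : Set D) (h : M.Closed S) (x y : S × Bool) :
    M.FRel ((x.1 : D), x.2) ((y.1 : D), y.2) ↔ (M.restrict S h).FRel x y := by
  unfold FRel
  refine or_congr ⟨fun h' => flag_ext ?_, fun h' => ?_⟩ ⟨fun h' => flag_ext ?_, fun h' => ?_⟩
  · rw [h', restrict_corner_val]
  · rw [h', restrict_corner_val]
  · rw [h', restrict_across_val]
  · rw [h', restrict_across_val]

theorem restrict_CRel (S : Set D) (h : M.Closed S) (x y : S × Bool) :
    M.CRel ((x.1 : D), x.2) ((y.1 : D), y.2) ↔ (M.restrict S h).CRel x y := by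
  unfold CRel
  refine or_congr ⟨fun h' => flag_ext ?_, fun h' => ?_⟩
    (or_congr ⟨fun h' => flag_ext ?_, fun h' => ?_⟩ ⟨fun h' => flag_ext ?_, fun h' => ?_⟩)
  · rw [h', restrict_corner_val]
  · rw [h', restrict_corner_val]
  · rw [h', restrict_across_val]
  · rw [h', restrict_across_val]
  · rw [h']; rfl
  · rw [h']; rfl

/-- a closed set is closed under the links -/
theorem Closed.CRel {S : Set D} (h : M.Closed S) {x y : D × Bool} (hxy : M.CRel x y)
    (hx : x.1 ∈ S) : y.1 ∈ S := by
  rcases hxy with rfl | rfl | rfl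
  · exact h.2 x hx
  · exact h.1 _ hx
  · exact hx

theorem Closed.sameC_iff {S : Set D} (h : M.Closed S) {x y : D × Bool} (hxy : M.SameC x y) :
    x.1 ∈ S ↔ y.1 ∈ S := by
  induction hxy with
  | rel x y hxy =>
    refine ⟨Closed.CRel M h hxy, fun hy => ?_⟩
    by_contra hx
    exact Closed.CRel M h.compl hxy hx hy
  | refl x => exact Iff.rfl
  | symm x y _ ih => exact ih.symm
  | trans x y z _ _ h1 h2 => exact h1.trans h2

theorem G2_restrict [Finite D] (S : Set D) (h : M.Closed S) :
    (M.restrict S h).G2 + (M.restrict Sᶜ h.compl).G2 = M.G2 := by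
  have hc1 : ∀ (x : S × Bool) (y : (Sᶜ : Set D) × Bool),
      ¬ M.CRel ((x.1 : D), x.2) ((y.1 : D), y.2) := fun x y hxy =>
    y.1.2 (Closed.CRel M h hxy x.1.2)
  have hc2 : ∀ (x : (Sᶜ : Set D) × Bool) (y : S × Bool),
      ¬ M.CRel ((x.1 : D), x.2) ((y.1 : D), y.2) := fun x y hxy =>
    (Closed.CRel M h.compl hxy x.1.2) y.1.2
  have hVC : ∀ x y, M.VRel x y → M.CRel x y := by
    rintro x y (h | h)
    · exact Or.inl h
    · exact Or.inr (Or.inr h)
  have hFC : ∀ x y, M.FRel x y → M.CRel x y := by
    rintro x y (h | h)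
    · exact Or.inl h
    · exact Or.inr (Or.inl h)
  have hV : M.nV = (M.restrict S h).nV + (M.restrict Sᶜ h.compl).nV :=
    card_quot_sum (splitEquiv S) (M.restrict_VRel S h) (M.restrict_VRel Sᶜ h.compl)
      (fun x y hxy => hc1 x y (hVC _ _ hxy)) (fun x y hxy => hc2 x y (hVC _ _ hxy))
  have hF : M.nF = (M.restrict S h).nF + (M.restrict Sᶜ h.compl).nF :=
    card_quot_sum (splitEquiv S) (M.restrict_FRel S h) (M.restrict_FRel Sᶜ h.compl)
      (fun x y hxy => hc1 x y (hFC _ _ hxy)) (fun x y hxy => hc2 x y (hFC _ _ hxy))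
  have hC : M.nC = (M.restrict S h).nC + (M.restrict Sᶜ h.compl).nC :=
    card_quot_sum (splitEquiv S) (M.restrict_CRel S h) (M.restrict_CRel Sᶜ h.compl) hc1 hc2
  have hD : Nat.card D = Nat.card S + Nat.card (Sᶜ : Set D) := by
    rw [← Nat.card_sum]
    exact Nat.card_congr (Equiv.Set.sumCompl S).symm
  unfold G2
  rw [hV, hF, hC, hD]
  push_cast
  ring

theorem restrict_sameV (S : Set D) (h : M.Closed S) (x y : S × Bool) :
    (M.restrict S h).SameV x y ↔ M.SameV ((x.1 : D), x.2) ((y.1 : D), y.2) := by
  constructor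
  · intro hxy
    induction hxy with
    | rel x y hxy => exact Relation.EqvGen.rel _ _ ((M.restrict_VRel S h x y).2 hxy)
    | refl x => exact Relation.EqvGen.refl _
    | symm x y _ ih => exact ih.symm
    | trans x y z _ _ h1 h2 => exact h1.trans _ _ _ h2
  · intro hxy
    have key : ∀ x y : D × Bool, M.SameV x y → ∀ (hx : x.1 ∈ S) (hy : y.1 ∈ S),
        (M.restrict S h).SameV (⟨x.1, hx⟩, x.2) (⟨y.1, hy⟩, y.2) := by
      intro x y hxy
      induction hxy with
      | rel x y hxy =>
        intro hx hy
        exact Relation.EqvGen.rel _ _ ((M.restrict_VRel S h _ _).1 hxy)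
      | refl x => intro _ _; exact Relation.EqvGen.refl _
      | symm x y _ ih => exact fun hy hx => (ih hx hy).symm
      | trans x y z hxy hyz h1 h2 =>
        intro hx hz
        have hy : y.1 ∈ S := (Closed.sameC_iff M h (M.sameV_sameC hxy)).1 hx
        exact (h1 hx hy).trans _ _ _ (h2 hy hz)
    exact key _ _ hxy x.1.2 y.1.2

/-- a vertex that meets a closed set is inside -/
theorem Closed.sameV {S : Set D} (h : M.Closed S) {x y : D × Bool} (hxy : M.SameV x y)
    (hx : x.1 ∈ S) : y.1 ∈ S :=
  (Closed.sameC_iff M h (M.sameV_sameC hxy)).1 hx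

theorem Closed.sameC {S : Set D} (h : M.Closed S) {x y : D × Bool} (hxy : M.SameC x y)
    (hx : x.1 ∈ S) : y.1 ∈ S :=
  (Closed.sameC_iff M h hxy).1 hx

theorem mem_component {x y : D × Bool} : M.SameC x y ↔ M.SameC x (y.1, false) := by
  obtain ⟨d, s⟩ := y
  cases s
  · exact Iff.rfl
  · exact ⟨fun h => h.trans _ _ _ (M.sameC_fl (d, true)),
      fun h => h.trans _ _ _ (M.sameC_fl (d, false))⟩

/-- the component of a flag -/
theorem closed_component (x : D × Bool) : M.Closed {d | M.SameC x (d, false)} := by
  refine ⟨fun d hd => ?_, fun y hy => ?_⟩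
  · have h1 : M.SameC x (M.across (d, false)) := Relation.EqvGen.trans _ _ _ hd (M.sameC_across _)
    exact (M.mem_component).1 h1
  · have h1 : M.SameC x y := (M.mem_component).2 hy
    exact (M.mem_component).1 (h1.trans _ _ _ (M.sameC_corner y))

end CMap

end Pool.Agent.HomV
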