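import Pool.Agent.HomV.ChB
import Pool.Agent.HomV.Gen

/-!
# Pictures: definitions

A `w`-picture over `Y`: a combinatorial map whose vertices are ordinary vertices (with a fibre
`i : U`) or vortices (with a number).  Every edge has a label `lam` (a chain).  At an ordinary
vertex of fibre `i` the labels are supported in the star of `i`, `T d` is `0` or `{i}`, and the sum
of `lam d + dl (T d)` over the darts of the vertex is `0`.  At a vortex every corner has a content
`K` with matching number at most `w`, which changes by `lam d + dl (T d)` along the dart `d`, `T d`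
small.
-/

set_option autoImplicit false

namespace Pool.Agent.HomV

open Finset Classical

variable {U : Type} [Fintype U]

structure Pic (X : SimpleGraph U) (Y : Finset U) (w : ℕ) (D : Type) [Fintype D] extends
    CMap D where
  /-- `inl i`: ordinary vertex of fibre `i`; `inr n`: the vortex number `n` -/
  kind : D → U ⊕ ℕ
  /-- the label of an edge -/
  lam : D → Ch U
  /-- the content of a vortex at a corner (flag) -/
  K : D × Bool → Ch U
  /-- the odd vertices absorbed at a dart -/
  T : D → U → ZMod 2
  kind_corner : ∀ x, kind (corner x).1 = kind x.1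
  /-- a vortex is one vertex -/
  vor_conn : ∀ x y n, kind x.1 = Sum.inr n → kind y.1 = Sum.inr n → toCMap.SameV x y
  lam_opp : ∀ d, lam (opp d) = lam d
  lam_supp : ∀ d, Supp X Y (lam d)
  lam_nu : ∀ d, NuLe (lam d) 1
  ord_lam : ∀ d i, kind d = Sum.inl i → InStar X Y i (lam d)
  ord_T : ∀ d i, kind d = Sum.inl i → ∀ j, j ≠ i → T d j = 0
  ord_sum : ∀ x i, kind x.1 = Sum.inl i →
    ∑ d ∈ univ.filter (fun d => toCMap.SameV x (d, false)), (lam d + dl X Y (T d)) = 0
  vor_K : ∀ x n, kind x.1 = Sum.inr n → K (corner x) = K x
  vor_eqn : ∀ d n, kind d = Sum.inr n → K (d, false) + K (d, true) = lam d + dl X Y (T d)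
  vor_nu : ∀ x n, kind x.1 = Sum.inr n → NuLe (K x) w
  vor_supp : ∀ x n, kind x.1 = Sum.inr n → Supp X Y (K x)
  vor_T : ∀ d n, kind d = Sum.inr n → sz Y (T d) ≤ 4 * w + 2
  /-- the edges from ordinary vertices to vortices have one label, or the ordinary vertex can be
  absorbed by the vortex -/
  ord_vor : ∀ d i n, kind d = Sum.inl i → kind (opp d) = Sum.inr n →
    Single (lam d) ∨ ∃ s, Absb X Y w i (K (toCMap.across (d, s)))

variable {X : SimpleGraph U} {Y : Finset U} {w : ℕ} {D : Type} [Fintype D]

namespace Pic

variable (M : Pic X Y w D)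

/-- the numbers of the vortices that meet a set of darts -/
def vnums (S : Set D) : Set ℕ := {n | ∃ d ∈ S, M.kind d = Sum.inr n}

/-- ordinary flags -/
def Ord (x : D × Bool) : Prop := ∃ i, M.kind x.1 = Sum.inl i

/-- flags at vortices -/
def Vor (x : D × Bool) : Prop := ∃ n, M.kind x.1 = Sum.inr n

/-- a digon: a face with one corner at an ordinary vertex and one at a vortex -/
def Digon (x : D × Bool) : Prop :=
  M.Ord x ∧ M.Vor (M.across x) ∧ M.corner (M.across x) = M.across (M.corner x)

/-- `1` if the corner of the flag `x` is not the corner of a digon -/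
noncomputable def nd (x : D × Bool) : ℕ := if M.Digon x then 0 else 1

end Pic

/-- A counterexample: the total parity is `1`, `G2 + number of vortices ≤ N`, and, if `β`, there
is no label on the edges between ordinary vertices. -/
def Cex (β : Prop) (N : ℕ) (M : Pic X Y w D) : Prop :=
  (∀ i ∈ Y, ∑ d, M.T d i = 1) ∧ M.G2 + ((M.vnums Set.univ).ncard : ℤ) ≤ N ∧
    (β → ∀ d i j, M.kind d = Sum.inl i → M.kind (M.opp d) = Sum.inl j → M.lam d = 0)

/-- A counterexample with the minimal number of darts. -/
structure MinM (Q : ℕ) (β : Prop) (N : ℕ) (M : Pic X Y w D) : Prop where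
  good : Good X Y Q
  big : 200 * (w + 1) ≤ Q
  cex : Cex β N M
  min : ∀ (D' : Type) (_ : Fintype D') (M' : Pic X Y w D'),
    Fintype.card D' < Fintype.card D → ¬ Cex β N M'

/-- the same minimality for another counterexample on the same set of darts -/
theorem MinM.of_cex {Q : ℕ} {β : Prop} {N : ℕ} {M : Pic X Y w D} (h : MinM Q β N M)
    {M' : Pic X Y w D} (h' : Cex β N M') : MinM Q β N M' := ⟨h.good, h.big, h', h.min⟩

end Pool.Agent.HomV
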