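import Pool.Agent.HomV.HomX
import Pool.Agent.HomV.PicDef

/-!
# The picture of a nearly embedded graph: labels

The labels `lam` of the darts for a homological copy `H` of `X` in a nearly embedded graph.
-/

set_option autoImplicit false

namespace Pool.Agent.HomV

open Finset Classical

variable {U : Type} [Fintype U] {V : Type} [Fintype V] {X : SimpleGraph U} {Y : Finset U} {Q k : ℕ}

namespace Init

variable {F : SimpleGraph V} (E : NearEmb k F) (H : HomX X Y F)

/-- the pair is embedded -/
def Emb (u v : V) : Prop := ∃ d, E.pt d = Sum.inl u ∧ E.pt (E.M.opp d) = Sum.inl v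

theorem emb_symm {u v : V} (h : Emb E u v) : Emb E v u := by
  obtain ⟨d, h1, h2⟩ := h
  exact ⟨E.M.opp d, h2, by rw [E.M.opp_opp]; exact h1⟩

/-- the sum of the embedded labels at `v` -/
noncomputable def L (v : V) : Ch U := ∑ b, if Emb E v b then H.y v b else 0

theorem sum_ne {ι : Type} {s : Finset ι} {g : ι → Ch U} {e : Sym2 U} (h : (∑ b ∈ s, g b) e ≠ 0) :
    ∃ b ∈ s, g b e ≠ 0 := by
  rw [Finset.sum_apply] at h
  exact Finset.exists_ne_zero_of_sum_ne_zero h

theorem L_star (v : V) : InStar X Y (H.f v) (L E H v) := by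
  intro e he
  obtain ⟨b, _, hb⟩ := sum_ne he
  split_ifs at hb with h
  · exact H.y_star v b e hb
  · exact absurd rfl hb

theorem y_star' (u v : V) : InStar X Y (H.f v) (H.y u v) := by
  rw [H.y_symm]; exact H.y_star v u

theorem y_self (v : V) : H.y v v = 0 := by
  by_contra h
  exact (H.y_adj v v h).ne rfl

/-- the ends of the edge of a dart -/
def key (d : E.D) : Sym2 (V ⊕ Fin E.r) := s(E.pt d, E.pt (E.M.opp d))

/-- the chosen dart with these ends -/
noncomputable def rep (d : E.D) : E.D := Quotient.out (Quotient.mk (Setoid.ker (key E)) d)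

theorem key_rep (d : E.D) : key E (rep E d) = key E d :=
  Quotient.mk_out (s := Setoid.ker (key E)) d

theorem rep_congr {d d' : E.D} (h : key E d = key E d') : rep E d = rep E d' := by
  unfold rep
  rw [Quotient.sound (s := Setoid.ker (key E)) h]

theorem key_opp (d : E.D) : key E (E.M.opp d) = key E d := by
  unfold key
  rw [E.M.opp_opp, Sym2.eq_swap]

/-- the edge is chosen -/
def Chs (d : E.D) : Prop := d = rep E d ∨ E.M.opp d = rep E d

theorem chs_opp (d : E.D) : Chs E (E.M.opp d) ↔ Chs E d := by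
  unfold Chs
  rw [E.M.opp_opp, rep_congr E (key_opp E d)]
  exact or_comm

theorem exists_chs {u v : V} (h : Emb E u v) :
    ∃ d, E.pt d = Sum.inl u ∧ E.pt (E.M.opp d) = Sum.inl v ∧ Chs E d := by
  obtain ⟨d, h1, h2⟩ := h
  have hk := key_rep E d
  have hr : rep E (rep E d) = rep E d := rep_congr E hk
  unfold key at hk
  rw [h1, h2, Sym2.eq_iff] at hk
  rcases hk with hk | hk
  · exact ⟨rep E d, hk.1, hk.2, Or.inl hr.symm⟩
  · refine ⟨E.M.opp (rep E d), hk.2, by rw [E.M.opp_opp]; exact hk.1, ?_⟩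
    rw [chs_opp]
    exact Or.inl hr.symm

theorem chs_unique {u v : V} (huv : u ≠ v) {d d' : E.D} (h1 : E.pt d = Sum.inl u)
    (h2 : E.pt (E.M.opp d) = Sum.inl v) (h3 : Chs E d) (h1' : E.pt d' = Sum.inl u)
    (h2' : E.pt (E.M.opp d') = Sum.inl v) (h3' : Chs E d') : d = d' := by
  have hr : rep E d = rep E d' := rep_congr E (by unfold key; rw [h1, h2, h1', h2'])
  unfold Chs at h3 h3'
  rw [← hr] at h3'
  rcases h3 with h3 | h3 <;> rcases h3' with h3' | h3'
  · rw [h3, h3']
  · exfalso
    rw [← h3] at h3'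
    rw [h3', h1] at h2'
    exact huv (Sum.inl_injective h2')
  · exfalso
    rw [← h3'] at h3
    rw [h3, h1'] at h2
    exact huv (Sum.inl_injective h2)
  · have : E.M.opp d = E.M.opp d' := by rw [h3, h3']
    rw [← E.M.opp_opp d, this, E.M.opp_opp]

/-- the labels of the darts -/
noncomputable def lam (d : E.D) : Ch U :=
  match E.pt d, E.pt (E.M.opp d) with
  | Sum.inl u, Sum.inl v => if Chs E d then H.y u v else 0
  | Sum.inl u, Sum.inr _ => L E H u
  | Sum.inr _, Sum.inl v => L E H v
  | Sum.inr _, Sum.inr _ => 0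

theorem lam_ll {d : E.D} {u v : V} (h1 : E.pt d = Sum.inl u) (h2 : E.pt (E.M.opp d) = Sum.inl v) :
    lam E H d = if Chs E d then H.y u v else 0 := by
  unfold lam
  rw [h1, h2]

theorem lam_lr {d : E.D} {u : V} {i : Fin E.r} (h1 : E.pt d = Sum.inl u)
    (h2 : E.pt (E.M.opp d) = Sum.inr i) : lam E H d = L E H u := by
  unfold lam
  rw [h1, h2]

theorem lam_rl {d : E.D} {v : V} {i : Fin E.r} (h1 : E.pt d = Sum.inr i)
    (h2 : E.pt (E.M.opp d) = Sum.inl v) : lam E H d = L E H v := by
  unfold lam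
  rw [h1, h2]

theorem lam_rr {d : E.D} {i j : Fin E.r} (h1 : E.pt d = Sum.inr i)
    (h2 : E.pt (E.M.opp d) = Sum.inr j) : lam E H d = 0 := by
  unfold lam
  rw [h1, h2]

theorem lam_opp (d : E.D) : lam E H (E.M.opp d) = lam E H d := by
  have ho := E.M.opp_opp d
  rcases h1 : E.pt d with u | i <;> rcases h2 : E.pt (E.M.opp d) with v | j
  · rw [lam_ll E H h1 h2, lam_ll E H h2 (by rw [ho]; exact h1)]
    simp only [chs_opp]
    rw [H.y_symm]
  · rw [lam_lr E H h1 h2, lam_rl E H h2 (by rw [ho]; exact h1)]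
  · rw [lam_rl E H h1 h2, lam_lr E H h2 (by rw [ho]; exact h1)]
  · rw [lam_rr E H h1 h2, lam_rr E H h2 (by rw [ho]; exact h1)]

theorem lam_star {d : E.D} {u : V} (h1 : E.pt d = Sum.inl u) :
    InStar X Y (H.f u) (lam E H d) := by
  rcases h2 : E.pt (E.M.opp d) with v | j
  · rw [lam_ll E H h1 h2]
    split_ifs
    · exact H.y_star u v
    · exact fun e he => absurd rfl he
  · rw [lam_lr E H h1 h2]
    exact L_star E H u

theorem pt_opp_hub {d : E.D} {i : Fin E.r} (h : E.pt d = Sum.inr i) :
    ∃ t, (E.hub i t).1 = d ∧ E.pt (E.M.opp d) = Sum.inl (E.soc i t) := by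
  obtain ⟨t, ht⟩ := E.hub_surj i d h
  exact ⟨t, ht, by rw [← ht]; exact E.hub_soc i t⟩

theorem lam_hub (i : Fin E.r) (t : Fin (E.len i)) :
    lam E H (E.hub i t).1 = L E H (E.soc i t) := lam_rl E H (E.pt_hub i t) (E.hub_soc i t)

theorem lam_star' (d : E.D) : ∃ v, InStar X Y (H.f v) (lam E H d) := by
  rcases h1 : E.pt d with u | i
  · exact ⟨u, lam_star E H h1⟩
  · obtain ⟨t, ht, h2⟩ := pt_opp_hub E h1
    refine ⟨E.soc i t, ?_⟩
    rw [← lam_opp]
    exact lam_star E H h2

/-- `v` lies in a bag -/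
def InBag (v : V) : Prop := ∃ i t, v ∈ E.bag i t

/-- the sum of the labels of the darts at `v` to vertices of the graph -/
theorem sum_ll (v : V) : ∑ d ∈ (@univ E.D E.fin).filter (fun d => E.pt d = Sum.inl v ∧
    ∃ b, E.pt (E.M.opp d) = Sum.inl b), lam E H d = L E H v := by
  let _ := E.fin
  have h1 : (univ : Finset E.D).filter (fun d => E.pt d = Sum.inl v ∧
      ∃ b, E.pt (E.M.opp d) = Sum.inl b) =
      (univ : Finset V).biUnion (fun b => univ.filter (fun d => E.pt d = Sum.inl v ∧
        E.pt (E.M.opp d) = Sum.inl b)) := by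
    ext d
    simp only [mem_filter, mem_univ, true_and, mem_biUnion]
    constructor
    · rintro ⟨h, b, hb⟩
      exact ⟨b, h, hb⟩
    · rintro ⟨b, h, hb⟩
      exact ⟨h, b, hb⟩
  have h2 : ∀ b, ∑ d ∈ univ.filter (fun d => E.pt d = Sum.inl v ∧
      E.pt (E.M.opp d) = Sum.inl b), lam E H d = if Emb E v b then H.y v b else 0 := by
    intro b
    have h3 : ∀ d ∈ univ.filter (fun d => E.pt d = Sum.inl v ∧
        E.pt (E.M.opp d) = Sum.inl b), lam E H d = if Chs E d then H.y v b else 0 := by
      intro d hd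
      rw [mem_filter] at hd
      exact lam_ll E H hd.2.1 hd.2.2
    rw [sum_congr rfl h3]
    by_cases hvb : v = b
    · subst hvb
      rw [y_self]
      simp
    · by_cases he : Emb E v b
      · obtain ⟨d₀, hd1, hd2, hd3⟩ := exists_chs E he
        rw [sum_eq_single d₀]
        · rw [if_pos hd3, if_pos he]
        · intro d hd hne
          rw [mem_filter] at hd
          rw [if_neg]
          intro hc
          exact hne (chs_unique E hvb hd.2.1 hd.2.2 hc hd1 hd2 hd3)
        · intro h
          exact absurd (mem_filter.2 ⟨mem_univ _, hd1, hd2⟩) h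
      · rw [if_neg he]
        apply sum_eq_zero
        intro d hd
        rw [mem_filter] at hd
        exact absurd ⟨d, hd.2⟩ he
  rw [h1, sum_biUnion]
  · unfold L
    exact sum_congr rfl (fun b _ => h2 b)
  · intro b _ b' _ hbb
    simp only [Function.onFun]
    rw [Finset.disjoint_left]
    intro d hd hd'
    rw [mem_filter] at hd hd'
    apply hbb
    have := hd.2.2.symm.trans hd'.2.2
    exact Sum.inl_injective this

/-- the sum of the labels of the darts at a vertex of a bag is `0` -/
theorem sum_bag {v : V} (hv : InBag E v) {d₀ : E.D} (hd₀ : E.pt d₀ = Sum.inl v) :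
    ∑ d ∈ (@univ E.D E.fin).filter (fun d => E.pt d = Sum.inl v), lam E H d = 0 := by
  let _ := E.fin
  obtain ⟨i, t, hv⟩ := hv
  obtain ⟨s, hs⟩ := E.emb_soc d₀ i t v hd₀ hv
  rw [← sum_filter_add_sum_filter_not _ (fun d => ∃ b, E.pt (E.M.opp d) = Sum.inl b),
    filter_filter, filter_filter, sum_ll]
  have h1 : (univ : Finset E.D).filter (fun d => E.pt d = Sum.inl v ∧
      ¬ ∃ b, E.pt (E.M.opp d) = Sum.inl b) = {E.M.opp (E.hub i s).1} := by
    ext d
    simp only [mem_filter, mem_univ, true_and, mem_singleton]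
    constructor
    · rintro ⟨h1, h2⟩
      rcases h3 : E.pt (E.M.opp d) with b | j
      · exact absurd ⟨b, h3⟩ h2
      · obtain ⟨t', ht', h4⟩ := pt_opp_hub E h3
        rw [E.M.opp_opp, h1] at h4
        have h5 := Sum.inl_injective h4
        have h6 : j = i := E.bag_disj j i t' t v (by rw [h5]; exact E.soc_mem j t') hv
        subst h6
        have h7 : t' = s := E.soc_inj j (by rw [← h5, hs])
        rw [← h7, ht', E.M.opp_opp]
    · rintro rfl
      refine ⟨by rw [E.hub_soc, hs], ?_⟩
      rw [E.M.opp_opp, E.pt_hub]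
      rintro ⟨b, hb⟩
      exact absurd hb (by simp)
  rw [h1, sum_singleton, lam_opp, lam_hub, hs]
  exact ch_add_self _

theorem L_zero {v : V} (hv : ¬ ∃ d, E.pt d = Sum.inl v) : L E H v = 0 := by
  unfold L
  apply sum_eq_zero
  intro b _
  rw [if_neg]
  rintro ⟨d, hd, _⟩
  exact hv ⟨d, hd⟩

/-- labels of pairs that are not embedded -/
noncomputable def y' (u v : V) : Ch U := if Emb E u v then 0 else H.y u v

theorem y'_symm (u v : V) : y' E H u v = y' E H v u := by
  unfold y'
  rw [H.y_symm]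
  by_cases h : Emb E u v
  · rw [if_pos h, if_pos (emb_symm E h)]
  · rw [if_neg h, if_neg (fun h' => h (emb_symm E h'))]

theorem y'_self (v : V) : y' E H v v = 0 := by
  unfold y'
  rw [y_self, ite_self]

theorem y'_star (u v : V) : InStar X Y (H.f v) (y' E H u v) := by
  unfold y'
  split_ifs
  · exact fun e he => absurd rfl he
  · exact y_star' H u v

theorem sum_y (v : V) : L E H v + ∑ b, y' E H v b = H.t v • star X Y (H.f v) := by
  rw [← H.eqn v]
  unfold L y'
  rw [← sum_add_distrib]
  apply sum_congr rfl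
  intro b _
  split_ifs <;> simp

theorem star_zero {i : U} (hi : i ∉ Y) : star X Y i = 0 := by
  funext e
  by_contra h
  have := star_ne.1 h
  exact hi (this.2.2 i this.2.1)

theorem y_apex (hapex : ∀ a ∈ E.apex, H.f a ∉ Y) {u v : V} (hv : v ∈ E.apex) : H.y u v = 0 := by
  funext e
  by_contra h
  have := y_star' H u v e h
  rw [star_zero (hapex v hv)] at this
  exact this rfl

/-- labels that are not embedded are in bags -/
theorem y'_bag (hapex : ∀ a ∈ E.apex, H.f a ∉ Y) {u v : V} (h : y' E H u v ≠ 0) :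
    ∃ i t, u ∈ E.bag i t ∧ v ∈ E.bag i t := by
  unfold y' at h
  split_ifs at h with he
  · exact absurd rfl h
  · have hu : u ∉ E.apex := by
      intro hu
      rw [H.y_symm, y_apex E H hapex hu] at h
      exact h rfl
    have hv : v ∉ E.apex := fun hv => h (y_apex E H hapex hv)
    rcases E.adj u v (H.y_adj u v h) hu hv with h1 | h1
    · exact absurd h1 he
    · exact h1

/-- the sum at a vertex in no bag -/
theorem sum_no_bag (hapex : ∀ a ∈ E.apex, H.f a ∉ Y) {v : V} (hv : ¬ InBag E v) :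
    L E H v = H.t v • star X Y (H.f v) := by
  rw [← sum_y E H v, sum_eq_zero, add_zero]
  intro b _
  by_contra h
  obtain ⟨i, t, h1, _⟩ := y'_bag E H hapex h
  exact hv ⟨i, t, h1⟩

theorem sum_surf (hapex : ∀ a ∈ E.apex, H.f a ∉ Y) {v : V} (hv : ¬ InBag E v) :
    ∑ d ∈ (@univ E.D E.fin).filter (fun d => E.pt d = Sum.inl v), lam E H d =
      H.t v • star X Y (H.f v) := by
  let _ := E.fin
  rw [← sum_no_bag E H hapex hv, ← sum_ll E H v]
  apply sum_congr _ (fun _ _ => rfl)
  ext d
  simp only [mem_filter, mem_univ, true_and]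
  constructor
  · intro h
    refine ⟨h, ?_⟩
    rcases h3 : E.pt (E.M.opp d) with b | j
    · exact ⟨b, rfl⟩
    · obtain ⟨t', ht', h4⟩ := pt_opp_hub E h3
      rw [E.M.opp_opp, h] at h4
      exact absurd ⟨j, t', by rw [Sum.inl_injective h4]; exact E.soc_mem j t'⟩ hv
  · exact fun h => h.1

end Init

end Pool.Agent.HomV
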