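import Pool.Agent.HomV.InitA

/-!
# The picture of a nearly embedded graph: contents

`C i n` is the content of the vortex `i` after its first `n` society vertices.
-/

set_option autoImplicit false

namespace Pool.Agent.HomV

open Finset Classical

variable {U : Type} [Fintype U] {V : Type} [Fintype V] {X : SimpleGraph U} {Y : Finset U} {Q k : ℕ}

namespace Init

variable {F : SimpleGraph V} (E : NearEmb k F) (H : HomX X Y F)

/-- `t` is the last bag of `v` -/
def Ret (i : Fin E.r) (t : Fin (E.len i)) (v : V) : Prop :=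
  v ∈ E.bag i t ∧ ∀ s, t < s → v ∉ E.bag i s

theorem ret_unique {i : Fin E.r} {t t' : Fin (E.len i)} {v : V} (h : Ret E i t v)
    (h' : Ret E i t' v) : t = t' := by
  rcases lt_trichotomy t t' with h1 | h1 | h1
  · exact absurd h'.1 (h.2 _ h1)
  · exact h1
  · exact absurd h.1 (h'.2 _ h1)

theorem exists_ret {i : Fin E.r} {s : Fin (E.len i)} {v : V} (h : v ∈ E.bag i s) :
    ∃ t : Fin (E.len i), Ret E i t v ∧ s ≤ t := by
  obtain ⟨t, ht, hmax⟩ := Finset.exists_max_image
    ((univ : Finset (Fin (E.len i))).filter (fun t => v ∈ E.bag i t)) (fun t => t)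
    ⟨s, mem_filter.2 ⟨mem_univ s, h⟩⟩
  refine ⟨t, ⟨(mem_filter.1 ht).2, fun s' hs' hv => ?_⟩, hmax s (mem_filter.2 ⟨mem_univ s, h⟩)⟩
  exact absurd hs' (not_lt.2 (hmax s' (mem_filter.2 ⟨mem_univ s', hv⟩)))

/-- the content of the vortex `i` after its first `n` society vertices -/
noncomputable def C (i : Fin E.r) (n : ℕ) : Ch U :=
  ∑ s ∈ univ.filter (fun s : Fin (E.len i) => s.val < n), L E H (E.soc i s) +
  ∑ v ∈ univ.filter (fun v => ∃ t : Fin (E.len i), t.val < n ∧ Ret E i t v),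
    H.t v • star X Y (H.f v)

/-- the odd vertices absorbed at `hub i t` -/
noncomputable def Th (i : Fin E.r) (t : Fin (E.len i)) : U → ZMod 2 :=
  ∑ v ∈ univ.filter (fun v => Ret E i t v), Pi.single (H.f v) (H.t v)

theorem C_zero (i : Fin E.r) : C E H i 0 = 0 := by
  unfold C
  simp

theorem dl_Th (i : Fin E.r) (t : Fin (E.len i)) :
    dl X Y (Th E H i t) = ∑ v ∈ univ.filter (fun v => Ret E i t v), H.t v • star X Y (H.f v) := by
  unfold Th
  rw [dl_sum]
  apply sum_congr rfl
  intro v _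
  rw [dl_single _ (H.f v) (fun j hj => Pi.single_eq_of_ne hj _), Pi.single_eq_same]

theorem C_succ (i : Fin E.r) (t : Fin (E.len i)) :
    C E H i (t.val + 1) = C E H i t.val + (L E H (E.soc i t) + dl X Y (Th E H i t)) := by
  rw [dl_Th]
  unfold C
  have h1 : univ.filter (fun s : Fin (E.len i) => s.val < t.val + 1) =
      insert t (univ.filter (fun s : Fin (E.len i) => s.val < t.val)) := by
    ext s
    simp only [mem_filter, mem_univ, true_and, mem_insert]
    rw [Fin.ext_iff]
    omega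
  have h2 : univ.filter (fun v => ∃ s : Fin (E.len i), s.val < t.val + 1 ∧ Ret E i s v) =
      univ.filter (fun v => ∃ s : Fin (E.len i), s.val < t.val ∧ Ret E i s v) ∪
        univ.filter (fun v => Ret E i t v) := by
    ext v
    simp only [mem_filter, mem_univ, true_and, mem_union]
    constructor
    · rintro ⟨s, hs, hv⟩
      by_cases hst : s.val < t.val
      · exact Or.inl ⟨s, hst, hv⟩
      · have : s = t := Fin.ext (by omega)
        exact Or.inr (this ▸ hv)
    · rintro (⟨s, hs, hv⟩ | hv)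
      · exact ⟨s, by omega, hv⟩
      · exact ⟨t, by omega, hv⟩
  rw [h1, h2, sum_insert (by simp), sum_union]
  · abel
  · rw [Finset.disjoint_left]
    intro v hv hv'
    rw [mem_filter] at hv hv'
    obtain ⟨_, s, hs, hv⟩ := hv
    have := ret_unique E hv hv'.2
    rw [this] at hs
    exact absurd hs (lt_irrefl _)

theorem C_supp (i : Fin E.r) (n : ℕ) : Supp X Y (C E H i n) := by
  unfold C
  intro e he
  have h : (∑ s ∈ univ.filter (fun s : Fin (E.len i) => s.val < n), L E H (E.soc i s)) e ≠ 0 ∨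
      (∑ v ∈ univ.filter (fun v => ∃ t : Fin (E.len i), t.val < n ∧ Ret E i t v),
        H.t v • star X Y (H.f v)) e ≠ 0 := by
    by_contra h
    push Not at h
    apply he
    rw [Pi.add_apply, h.1, h.2, add_zero]
  rcases h with h | h
  · obtain ⟨s, _, h⟩ := sum_ne h
    exact (L_star E H _).supp e h
  · obtain ⟨v, _, h⟩ := sum_ne h
    have h' : star X Y (H.f v) e ≠ 0 := by
      intro h'
      apply h
      rw [Pi.smul_apply, h', smul_zero]
    have := star_ne.1 h'
    exact ⟨this.1, this.2.2⟩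

/-- a symmetric sum is `0` -/
theorem sum_symm (R : Finset V) (z : V → V → Ch U) (hs : ∀ a b, z a b = z b a)
    (h0 : ∀ a, z a a = 0) : ∑ a ∈ R, ∑ b ∈ R, z a b = 0 := by
  induction R using Finset.induction_on with
  | empty => simp
  | insert a R ha ih =>
    rw [sum_insert ha]
    have h1 : ∀ b ∈ R, ∑ c ∈ insert a R, z b c = z b a + ∑ c ∈ R, z b c := by
      intro b _
      rw [sum_insert ha]
    rw [sum_congr rfl h1, sum_add_distrib, ih, sum_insert ha, h0, zero_add, add_zero]
    have h2 : ∑ b ∈ R, z b a = ∑ b ∈ R, z a b := sum_congr rfl (fun b _ => hs b a)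
    rw [h2]
    exact ch_add_self _

/-- the sum of the labels that leave the retired vertices -/
theorem C_eq (i : Fin E.r) (n : ℕ) (R S : Finset V)
    (hR : R = univ.filter (fun v => ∃ t : Fin (E.len i), t.val < n ∧ Ret E i t v))
    (hS : S = (univ.filter (fun s : Fin (E.len i) => s.val < n)).image (E.soc i)) :
    C E H i n = ∑ v ∈ S \ R, L E H v + ∑ v ∈ R, ∑ b ∈ univ \ R, y' E H v b := by
  have h1 : ∑ s ∈ univ.filter (fun s : Fin (E.len i) => s.val < n), L E H (E.soc i s) =
      ∑ v ∈ S, L E H v := by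
    rw [hS, sum_image]
    intro s _ s' _ h
    exact E.soc_inj i h
  have h2 : ∑ v ∈ R, H.t v • star X Y (H.f v) =
      ∑ v ∈ R, L E H v + ∑ v ∈ R, ∑ b ∈ univ \ R, y' E H v b := by
    have h3 : ∀ v ∈ R, H.t v • star X Y (H.f v) =
        L E H v + (∑ b ∈ univ \ R, y' E H v b + ∑ b ∈ R, y' E H v b) := by
      intro v _
      rw [sum_sdiff (subset_univ R), sum_y]
    rw [sum_congr rfl h3, sum_add_distrib, sum_add_distrib,
      sum_symm R _ (y'_symm E H) (y'_self E H), add_zero]
  have h4 : ∑ v ∈ R, L E H v = ∑ v ∈ S ∩ R, L E H v := by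
    rw [inter_comm]
    symm
    apply sum_subset inter_subset_left
    intro v hv hv'
    apply L_zero
    rintro ⟨d, hd⟩
    rw [hR, mem_filter] at hv
    obtain ⟨_, t, ht, hv⟩ := hv
    obtain ⟨s, hs⟩ := E.emb_soc d i t v hd hv.1
    apply hv'
    have hst : s ≤ t := by
      by_contra hst
      push Not at hst
      exact hv.2 s hst (by rw [← hs]; exact E.soc_mem i s)
    rw [mem_inter, hR, hS, mem_filter, mem_image]
    refine ⟨⟨mem_univ _, t, ht, hv⟩, s, mem_filter.2 ⟨mem_univ _, ?_⟩, hs⟩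
    have : s.val ≤ t.val := hst
    omega
  unfold C
  have h5 : ∑ v ∈ S, L E H v = ∑ v ∈ S \ R, L E H v + ∑ v ∈ S ∩ R, L E H v := by
    rw [← sum_union, sdiff_union_inter]
    rw [Finset.disjoint_left]
    intro v hv hv'
    exact (mem_sdiff.1 hv).2 (mem_inter.1 hv').2
  rw [h1, ← hR, h2, h4, h5, add_assoc, ← add_assoc (∑ v ∈ S ∩ R, L E H v), ch_add_self, zero_add]

/-- the content is covered by the stars of the vertices that lie in bags on both sides -/
theorem C_cover (hapex : ∀ a ∈ E.apex, H.f a ∉ Y) (i : Fin E.r) (n : ℕ) (e : Sym2 U)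
    (he : C E H i n e ≠ 0) : ∃ b, (∃ s : Fin (E.len i), s.val < n ∧ b ∈ E.bag i s) ∧
      (∃ s : Fin (E.len i), n ≤ s.val ∧ b ∈ E.bag i s) ∧ H.f b ∈ e := by
  rw [C_eq E H i n _ _ rfl rfl, Pi.add_apply] at he
  have key : ∀ b, (∃ s : Fin (E.len i), s.val < n ∧ b ∈ E.bag i s) →
      (¬ ∃ t : Fin (E.len i), t.val < n ∧ Ret E i t b) →
      ∃ s : Fin (E.len i), n ≤ s.val ∧ b ∈ E.bag i s := by
    rintro b ⟨s, hs, hb⟩ hn
    obtain ⟨t, ht, _⟩ := exists_ret E hb
    refine ⟨t, ?_, ht.1⟩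
    by_contra h
    exact hn ⟨t, by omega, ht⟩
  by_cases h : (∑ v ∈ (univ.filter (fun s : Fin (E.len i) => s.val < n)).image (E.soc i) \
      univ.filter (fun v => ∃ t : Fin (E.len i), t.val < n ∧ Ret E i t v), L E H v) e ≠ 0
  · obtain ⟨v, hv, hve⟩ := sum_ne h
    rw [mem_sdiff, mem_image, mem_filter] at hv
    obtain ⟨⟨s, hs, rfl⟩, hv2⟩ := hv
    have h1 : ∃ s' : Fin (E.len i), s'.val < n ∧ E.soc i s ∈ E.bag i s' :=
      ⟨s, (mem_filter.1 hs).2, E.soc_mem i s⟩
    refine ⟨E.soc i s, h1, key _ h1 (fun hx => hv2 ⟨mem_univ _, hx⟩), ?_⟩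
    exact (L_star E H _).mem e hve
  · push Not at h
    rw [h, zero_add] at he
    obtain ⟨v, hv, hve⟩ := sum_ne he
    obtain ⟨b, hb, hbe⟩ := sum_ne hve
    rw [mem_filter] at hv
    rw [mem_sdiff, mem_filter] at hb
    obtain ⟨_, t, ht, hv⟩ := hv
    obtain ⟨j, s, hvs, hbs⟩ := y'_bag E H hapex (u := v) (v := b) (fun h0 => hbe (by rw [h0]; rfl))
    have hj : j = i := E.bag_disj j i s t v hvs hv.1
    subst hj
    have hst : s ≤ t := by
      by_contra hst
      push Not at hst
      exact hv.2 s hst hvs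
    have h1 : ∃ s' : Fin (E.len j), s'.val < n ∧ b ∈ E.bag j s' :=
      ⟨s, by have : s.val ≤ t.val := hst
             omega, hbs⟩
    exact ⟨b, h1, key _ h1 (fun hx => hb.2 ⟨mem_univ _, hx⟩), (y'_star E H v b).mem e hbe⟩

theorem C_len (hapex : ∀ a ∈ E.apex, H.f a ∉ Y) (i : Fin E.r) (n : ℕ) (hn : E.len i ≤ n) :
    C E H i n = 0 := by
  funext e
  by_contra h
  obtain ⟨b, _, ⟨s, hs, _⟩, _⟩ := C_cover E H hapex i n e h
  have := s.isLt
  omega

/-- the content before `t` is covered by the stars of the bag `t` -/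
theorem C_bag (hapex : ∀ a ∈ E.apex, H.f a ∉ Y) (i : Fin E.r) (t : Fin (E.len i)) (e : Sym2 U)
    (he : C E H i t.val e ≠ 0) : ∃ b ∈ E.bag i t, H.f b ∈ e ∧
      ∃ s : Fin (E.len i), s.val + 1 = t.val ∧ b ∈ E.bag i s := by
  obtain ⟨b, ⟨s, hs, hb⟩, ⟨s', hs', hb'⟩, hbe⟩ := C_cover E H hapex i t.val e he
  have h1 : s ≤ t := by
    show s.val ≤ t.val
    omega
  refine ⟨b, E.bag_conv i b s t s' h1 hs' hb hb', hbe, ?_⟩
  have hlt := t.isLt
  refine ⟨⟨t.val - 1, by omega⟩, ?_, ?_⟩
  · show t.val - 1 + 1 = t.val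
    omega
  · apply E.bag_conv i b s _ s' _ _ hb hb'
    · show s.val ≤ t.val - 1
      omega
    · show t.val - 1 ≤ s'.val
      omega

theorem C_nu (hapex : ∀ a ∈ E.apex, H.f a ∉ Y) (i : Fin E.r) (n : ℕ) : NuLe (C E H i n) k := by
  by_cases hn : n < E.len i
  · have h := nuLe_of_cover (K := C E H i n) ((E.bag i ⟨n, hn⟩).image H.f) (by
      intro e he
      obtain ⟨b, hb, hbe, _⟩ := C_bag E H hapex i ⟨n, hn⟩ e he
      exact ⟨H.f b, mem_image_of_mem _ hb, hbe⟩)
    intro M h1 h2
    exact (h M h1 h2).trans (card_image_le.trans (E.bag_card i _))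
  · rw [C_len E H hapex i n (by omega)]
    intro M h1 _
    rw [Finset.eq_empty_of_forall_notMem (fun e he => h1 e he rfl)]
    simp

/-- the society vertex can be absorbed -/
theorem C_absb (hapex : ∀ a ∈ E.apex, H.f a ∉ Y) (i : Fin E.r) (t : Fin (E.len i)) :
    Absb X Y k (H.f (E.soc i t)) (C E H i t.val) := by
  refine ⟨0, by rw [sz_zero]; exact Nat.zero_le _, ?_⟩
  rw [dl_zero, add_zero]
  have hk : 0 < (E.bag i t).card := card_pos.2 ⟨_, E.soc_mem i t⟩
  have h := nuLe_of_cover (K := cut (H.f (E.soc i t)) (C E H i t.val))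
    (((E.bag i t).erase (E.soc i t)).image H.f) (by
      intro e he
      unfold cut at he
      split_ifs at he with h0
      · exact absurd rfl he
      · obtain ⟨b, hb, hbe, _⟩ := C_bag E H hapex i t e he
        refine ⟨H.f b, mem_image_of_mem _ (mem_erase.2 ⟨?_, hb⟩), hbe⟩
        rintro rfl
        exact h0 hbe)
  intro M h1 h2
  have h3 := h M h1 h2
  have h4 : (((E.bag i t).erase (E.soc i t)).image H.f).card ≤ ((E.bag i t).erase (E.soc i t)).card :=
    card_image_le
  rw [card_erase_of_mem (E.soc_mem i t)] at h4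
  have h5 := E.bag_card i t
  omega

theorem Th_sz (i : Fin E.r) (t : Fin (E.len i)) : sz Y (Th E H i t) ≤ k := by
  unfold sz
  refine le_trans (card_le_card (t := (E.bag i t).image H.f) ?_)
    (card_image_le.trans (E.bag_card i t))
  · intro j hj
    rw [mem_filter] at hj
    unfold Th at hj
    obtain ⟨v, hv, hvj⟩ : ∃ v ∈ univ.filter (fun v => Ret E i t v),
        (Pi.single (H.f v) (H.t v) : U → ZMod 2) j ≠ 0 := by
      have := hj.2
      rw [Finset.sum_apply] at this
      exact Finset.exists_ne_zero_of_sum_ne_zero this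
    rw [mem_image]
    refine ⟨v, (mem_filter.1 hv).2.1, ?_⟩
    by_contra h
    exact hvj (Pi.single_eq_of_ne (Ne.symm h) _)

end Init

end Pool.Agent.HomV
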