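import Pool.Agent.HomV.HomX
import Pool.Agent.HomV.PicDef

/-!
# The picture of a nearly embedded graph: the contents of the vortices

`esum u`: the sum of the labels of the embedded edges at `u`.  `cont i s`: content of the vortex
`i` before the bag `s`: the sum of the stars of the odd vertices all of whose bags are before `s`
and of `esum (soc i t)`, `t < s`.  It is covered by the stars of the fibres of the vertices of
`bag i s` (`cont_cover`), and `0` for `s = 0` and `s = len i`.
-/

set_option autoImplicit false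

namespace Pool.Agent.HomV

open Finset Classical

/-- in characteristic 2 a symmetric sum without diagonal vanishes -/
theorem sum_symm_zero {ι : Type} {U : Type} (s : Finset ι) (g : ι → ι → Ch U)
    (hs : ∀ a b, g a b = g b a) (h0 : ∀ a, g a a = 0) : ∑ a ∈ s, ∑ b ∈ s, g a b = 0 := by
  rw [← Finset.sum_product']
  refine Finset.sum_involution (fun p _ => (p.2, p.1)) ?_ ?_ ?_ ?_
  · intro p _
    rw [hs p.2 p.1]
    funext e
    exact CharTwo.add_self_eq_zero _
  · intro p _ hp h
    apply hp
    have : p.2 = p.1 := congrArg Prod.fst h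
    rw [this, h0]
  · intro p hp
    rw [mem_product] at hp ⊢
    exact ⟨hp.2, hp.1⟩
  · intro p _
    rfl

theorem finRotate_val {m : ℕ} (t : Fin m) :
    (finRotate m t).val = if t.val + 1 = m then 0 else t.val + 1 := by
  rcases m with _ | n
  · exact t.elim0
  · rw [finRotate_apply, Fin.val_add_one]
    by_cases h : t = Fin.last n
    · subst h
      simp
    · rw [if_neg h, if_neg]
      intro h'
      apply h
      ext
      simp only [Fin.val_last]
      omega

variable {U : Type} [Fintype U] {V : Type} [Fintype V] {X : SimpleGraph U} {Y : Finset U} {Q k : ℕ}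
  {F : SimpleGraph V} (E : NearEmb k F) (H : HomX X Y F)

/-- there is an embedded edge from `u` to `v` -/
def NearEmb.emb (u v : V) : Prop := ∃ d, E.pt d = Sum.inl u ∧ E.pt (E.M.opp d) = Sum.inl v

theorem NearEmb.emb_symm {u v : V} (h : E.emb u v) : E.emb v u := by
  obtain ⟨d, h1, h2⟩ := h
  exact ⟨E.M.opp d, h2, by rw [E.M.opp_opp]; exact h1⟩

theorem NearEmb.emb_comm (u v : V) : E.emb u v ↔ E.emb v u := ⟨E.emb_symm, E.emb_symm⟩

/-- the label of an edge which is not embedded -/
noncomputable def yb (u v : V) : Ch U := if E.emb u v then 0 else H.y u v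

/-- the sum of the embedded labels -/
noncomputable def esum (u : V) : Ch U := ∑ v, if E.emb u v then H.y u v else 0

theorem esum_add (u : V) : ∑ v, yb E H u v + esum E H u = H.t u • star X Y (H.f u) := by
  unfold esum yb
  rw [← H.eqn u, ← Finset.sum_add_distrib]
  refine Finset.sum_congr rfl fun v _ => ?_
  split_ifs
  · rw [zero_add]
  · rw [add_zero]

theorem inStar_sum {ι : Type} (s : Finset ι) (g : ι → Ch U) (i : U)
    (h : ∀ a ∈ s, InStar X Y i (g a)) : InStar X Y i (∑ a ∈ s, g a) := by
  intro e he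
  rw [Finset.sum_apply] at he
  obtain ⟨a, ha, h1⟩ := Finset.exists_ne_zero_of_sum_ne_zero he
  exact h a ha e h1

theorem esum_star (u : V) : InStar X Y (H.f u) (esum E H u) := by
  refine inStar_sum _ _ _ fun v _ => ?_
  split_ifs
  · exact H.y_star u v
  · exact fun e he => absurd rfl he

theorem esum_ne {u : V} (h : esum E H u ≠ 0) : ∃ d, E.pt d = Sum.inl u := by
  obtain ⟨v, _, hv⟩ := Finset.exists_ne_zero_of_sum_ne_zero h
  split_ifs at hv with h1
  · obtain ⟨d, hd, _⟩ := h1
    exact ⟨d, hd⟩
  · exact absurd rfl hv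

theorem yb_symm (u v : V) : yb E H u v = yb E H v u := by
  unfold yb
  rw [H.y_symm u v]
  by_cases h : E.emb u v
  · rw [if_pos h, if_pos (E.emb_symm h)]
  · rw [if_neg h, if_neg fun h' => h (E.emb_symm h')]

theorem y_self (u : V) : H.y u u = 0 := by
  by_contra h
  exact F.loopless.irrefl u (H.y_adj u u h)

theorem yb_self (u : V) : yb E H u u = 0 := by
  unfold yb
  rw [y_self]
  split_ifs <;> rfl

/-- all bags of `a` (in vortex `i`) are before `s` -/
def Ret (i : Fin E.r) (a : V) (s : ℕ) : Prop :=
  (∃ t, a ∈ E.bag i t) ∧ ∀ t, a ∈ E.bag i t → t.val < s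

/-- the last bag of `a` is `t` -/
def LastAt (i : Fin E.r) (a : V) (t : Fin (E.len i)) : Prop :=
  a ∈ E.bag i t ∧ ∀ t', a ∈ E.bag i t' → t' ≤ t

/-- content of the vortex `i` before the bag `s` -/
noncomputable def cont (i : Fin E.r) (s : ℕ) : Ch U :=
  ∑ a ∈ univ.filter (fun a => Ret E i a s), H.t a • star X Y (H.f a) +
    ∑ t ∈ univ.filter (fun t : Fin (E.len i) => t.val < s), esum E H (E.soc i t)

theorem cont_zero (i : Fin E.r) : cont E H i 0 = 0 := by
  unfold cont
  rw [Finset.sum_eq_zero, Finset.sum_eq_zero, add_zero]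
  · intro t ht
    simp at ht
  · intro a ha
    simp only [mem_filter, mem_univ, true_and] at ha
    obtain ⟨⟨t, ht⟩, h⟩ := ha
    exact absurd (h t ht) (Nat.not_lt_zero _)

theorem cont_succ (i : Fin E.r) (t : Fin (E.len i)) :
    cont E H i t + cont E H i (t + 1) = esum E H (E.soc i t) +
      ∑ a ∈ univ.filter (fun a => LastAt E i a t), H.t a • star X Y (H.f a) := by
  have h1 : ∑ a ∈ univ.filter (fun a => Ret E i a (t + 1)), H.t a • star X Y (H.f a) =
      ∑ a ∈ univ.filter (fun a => Ret E i a t), H.t a • star X Y (H.f a) +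
      ∑ a ∈ univ.filter (fun a => LastAt E i a t), H.t a • star X Y (H.f a) := by
    rw [← Finset.sum_union]
    · refine Finset.sum_congr ?_ fun _ _ => rfl
      ext a
      simp only [mem_filter, mem_univ, true_and, mem_union]
      constructor
      · rintro ⟨h1, h2⟩
        by_cases h3 : a ∈ E.bag i t
        · right
          exact ⟨h3, fun t' ht' => by have := h2 t' ht'; exact Nat.lt_succ_iff.1 this⟩
        · left
          refine ⟨h1, fun t' ht' => ?_⟩
          have h4 := h2 t' ht'
          have h5 : t' ≠ t := by rintro rfl; exact h3 ht'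
          have h6 : t'.val ≠ t.val := fun h => h5 (Fin.ext h)
          omega
      · rintro (⟨h1, h2⟩ | ⟨h1, h2⟩)
        · exact ⟨h1, fun t' ht' => (h2 t' ht').trans (Nat.lt_succ_self _)⟩
        · exact ⟨⟨t, h1⟩, fun t' ht' => Nat.lt_succ_of_le (h2 t' ht')⟩
    · rw [Finset.disjoint_left]
      intro a ha hb
      simp only [mem_filter, mem_univ, true_and] at ha hb
      exact absurd (ha.2 t hb.1) (lt_irrefl _)
  have h2 : ∑ t' ∈ univ.filter (fun t' : Fin (E.len i) => t'.val < t + 1), esum E H (E.soc i t') =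
      ∑ t' ∈ univ.filter (fun t' : Fin (E.len i) => t'.val < t), esum E H (E.soc i t') +
      esum E H (E.soc i t) := by
    have : univ.filter (fun t' : Fin (E.len i) => t'.val < t + 1) =
        insert t (univ.filter (fun t' : Fin (E.len i) => t'.val < t)) := by
      ext t'
      simp only [mem_filter, mem_univ, true_and, mem_insert]
      rw [Nat.lt_succ_iff_lt_or_eq, Fin.ext_iff]
      tauto
    rw [this, Finset.sum_insert (by simp), add_comm]
  unfold cont
  rw [h1, h2]
  have h3 : ∀ a b c d : Ch U, a + b + (a + c + (b + d)) = d + c := by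
    intro a b c d
    have : a + b + (a + c + (b + d)) = (a + a) + (b + b) + (d + c) := by ring
    rw [this, ch_add_self, ch_add_self, zero_add, zero_add]
  exact h3 _ _ _ _

/-- the end of a label is not an apex -/
theorem not_apex (hapex : ∀ a ∈ E.apex, H.f a ∉ Y) {u v : V} {e : Sym2 U} (h : H.y u v e ≠ 0) :
    v ∉ E.apex := by
  intro hv
  rw [H.y_symm] at h
  have h1 := star_ne.1 (H.y_star v u e h)
  exact hapex v hv (h1.2.2 _ h1.2.1)

/-- the labels of the edges which are not embedded are in the bags -/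
theorem yb_bag (hapex : ∀ a ∈ E.apex, H.f a ∉ Y) {u v : V} {e : Sym2 U}
    (h : yb E H u v e ≠ 0) : ∃ i t, u ∈ E.bag i t ∧ v ∈ E.bag i t := by
  unfold yb at h
  split_ifs at h with h1
  · exact absurd rfl h
  · have h2 : F.Adj u v := H.y_adj u v (fun h' => h (by rw [h']; rfl))
    have hu : u ∉ E.apex := not_apex E H hapex (u := v) (v := u) (e := e) (by rwa [H.y_symm])
    have hv : v ∉ E.apex := not_apex E H hapex h
    rcases E.adj u v h2 hu hv with h3 | h3
    · exact absurd h3 h1
    · exact h3

/-- The content before the bag `s` is covered by the stars of the vertices of the bag. -/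
theorem cont_cover (hapex : ∀ a ∈ E.apex, H.f a ∉ Y) (i : Fin E.r) (s : ℕ) (e : Sym2 U)
    (h : cont E H i s e ≠ 0) :
    ∃ hs : s < E.len i, ∃ b ∈ E.bag i ⟨s, hs⟩, H.f b ∈ e := by
  -- the retired vertices
  have h1 : cont E H i s = ∑ a ∈ univ.filter (fun a => Ret E i a s),
      ∑ b ∈ univ.filter (fun b => ¬ Ret E i b s), yb E H a b +
      ∑ t ∈ univ.filter (fun t : Fin (E.len i) => t.val < s ∧ ¬ Ret E i (E.soc i t) s),
        esum E H (E.soc i t) := by
    unfold cont
    have e1 : ∑ a ∈ univ.filter (fun a => Ret E i a s), H.t a • star X Y (H.f a) =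
        ∑ a ∈ univ.filter (fun a => Ret E i a s), ∑ b ∈ univ.filter (fun b => ¬ Ret E i b s),
          yb E H a b + ∑ a ∈ univ.filter (fun a => Ret E i a s), esum E H a := by
      have e2 : ∑ a ∈ univ.filter (fun a => Ret E i a s), H.t a • star X Y (H.f a) =
          ∑ a ∈ univ.filter (fun a => Ret E i a s), ∑ b, yb E H a b +
            ∑ a ∈ univ.filter (fun a => Ret E i a s), esum E H a := by
        rw [← Finset.sum_add_distrib]
        exact Finset.sum_congr rfl fun a _ => (esum_add E H a).symm
      have e3 : ∑ a ∈ univ.filter (fun a => Ret E i a s), ∑ b, yb E H a b =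
          ∑ a ∈ univ.filter (fun a => Ret E i a s),
            ∑ b ∈ univ.filter (fun b => Ret E i b s), yb E H a b +
          ∑ a ∈ univ.filter (fun a => Ret E i a s),
            ∑ b ∈ univ.filter (fun b => ¬ Ret E i b s), yb E H a b := by
        rw [← Finset.sum_add_distrib]
        exact Finset.sum_congr rfl fun a _ =>
          (Finset.sum_filter_add_sum_filter_not univ (fun b => Ret E i b s) _).symm
      rw [e2, e3, sum_symm_zero _ _ (yb_symm E H) (yb_self E H), zero_add]
    have e4 : ∑ a ∈ univ.filter (fun a => Ret E i a s), esum E H a =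
        ∑ t ∈ univ.filter (fun t : Fin (E.len i) => t.val < s ∧ Ret E i (E.soc i t) s),
          esum E H (E.soc i t) := by
      symm
      refine Finset.sum_bij_ne_zero (fun t _ _ => E.soc i t) ?_ ?_ ?_ ?_
      · intro t ht _
        simp only [mem_filter, mem_univ, true_and] at ht ⊢
        exact ht.2
      · intro t _ _ t' _ _ htt
        exact E.soc_inj i htt
      · intro a ha hne
        simp only [mem_filter, mem_univ, true_and] at ha
        obtain ⟨d, hd⟩ := esum_ne E H hne
        obtain ⟨t₀, ht₀⟩ := ha.1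
        obtain ⟨t, ht⟩ := E.emb_soc d i t₀ a hd ht₀
        refine ⟨t, ?_, by rwa [ht], ht⟩
        simp only [mem_filter, mem_univ, true_and]
        rw [ht]
        refine ⟨ha.2 t ?_, ha⟩
        rw [← ht]
        exact E.soc_mem i t
      · intro t _ _
        rfl
    have e5 : ∑ t ∈ univ.filter (fun t : Fin (E.len i) => t.val < s), esum E H (E.soc i t) =
        ∑ t ∈ univ.filter (fun t : Fin (E.len i) => t.val < s ∧ Ret E i (E.soc i t) s),
          esum E H (E.soc i t) +
        ∑ t ∈ univ.filter (fun t : Fin (E.len i) => t.val < s ∧ ¬ Ret E i (E.soc i t) s),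
          esum E H (E.soc i t) := by
      rw [← Finset.sum_filter_add_sum_filter_not (univ.filter (fun t : Fin (E.len i) => t.val < s))
        (fun t => Ret E i (E.soc i t) s), Finset.filter_filter, Finset.filter_filter]
    rw [e1, e4, e5]
    have e6 : ∀ a b c : Ch U, a + b + (b + c) = a + c := by
      intro a b c
      have : a + b + (b + c) = (b + b) + (a + c) := by ring
      rw [this, ch_add_self, zero_add]
    exact e6 _ _ _
  -- vertices which are not retired
  have hnr : ∀ (b : V) (t : Fin (E.len i)), b ∈ E.bag i t → t.val < s → ¬ Ret E i b s →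
      ∃ hs : s < E.len i, b ∈ E.bag i ⟨s, hs⟩ := by
    intro b t hb hts hret
    have h2 : ∃ t', b ∈ E.bag i t' ∧ s ≤ t'.val := by
      by_contra hcon
      push Not at hcon
      exact hret ⟨⟨t, hb⟩, fun t' ht' => hcon t' ht'⟩
    obtain ⟨t', ht', hst'⟩ := h2
    have hs : s < E.len i := lt_of_le_of_lt hst' t'.2
    exact ⟨hs, E.bag_conv i b t ⟨s, hs⟩ t' (Fin.le_def.2 hts.le) (Fin.le_def.2 hst') hb ht'⟩
  rw [h1, Pi.add_apply] at h
  have h2 : (∑ a ∈ univ.filter (fun a => Ret E i a s),
      ∑ b ∈ univ.filter (fun b => ¬ Ret E i b s), yb E H a b) e ≠ 0 ∨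
      (∑ t ∈ univ.filter (fun t : Fin (E.len i) => t.val < s ∧ ¬ Ret E i (E.soc i t) s),
        esum E H (E.soc i t)) e ≠ 0 := by
    by_contra hcon
    push Not at hcon
    rw [hcon.1, hcon.2, add_zero] at h
    exact h rfl
  rcases h2 with h2 | h2
  · rw [Finset.sum_apply] at h2
    obtain ⟨a, ha, h3⟩ := Finset.exists_ne_zero_of_sum_ne_zero h2
    rw [Finset.sum_apply] at h3
    obtain ⟨b, hb, h4⟩ := Finset.exists_ne_zero_of_sum_ne_zero h3
    simp only [mem_filter, mem_univ, true_and] at ha hb
    obtain ⟨i', t, hat, hbt⟩ := yb_bag E H hapex h4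
    obtain ⟨t₀, ht₀⟩ := ha.1
    have hi := E.bag_disj i' i t t₀ a hat ht₀
    subst hi
    obtain ⟨hs, hbs⟩ := hnr b t hbt (ha.2 t hat) hb
    refine ⟨hs, b, hbs, ?_⟩
    have h5 : H.y b a e ≠ 0 := by
      unfold yb at h4
      split_ifs at h4
      · exact absurd rfl h4
      · rwa [H.y_symm b a]
    exact (H.y_star b a).mem e h5
  · rw [Finset.sum_apply] at h2
    obtain ⟨t, ht, h3⟩ := Finset.exists_ne_zero_of_sum_ne_zero h2
    simp only [mem_filter, mem_univ, true_and] at ht
    obtain ⟨hs, hbs⟩ := hnr (E.soc i t) t (E.soc_mem i t) ht.1 ht.2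
    exact ⟨hs, _, hbs, (esum_star E H _).mem e h3⟩

theorem cont_len (hapex : ∀ a ∈ E.apex, H.f a ∉ Y) (i : Fin E.r) {s : ℕ} (hs : E.len i ≤ s) :
    cont E H i s = 0 := by
  funext e
  by_contra h
  obtain ⟨hlt, _⟩ := cont_cover E H hapex i s e h
  omega

theorem cont_nu (hapex : ∀ a ∈ E.apex, H.f a ∉ Y) (i : Fin E.r) (s : ℕ) :
    NuLe (cont E H i s) k := by
  by_cases hs : s < E.len i
  · have h1 := nuLe_of_cover (K := cont E H i s) ((E.bag i ⟨s, hs⟩).image H.f) (by
      intro e he
      obtain ⟨_, b, hb, hbe⟩ := cont_cover E H hapex i s e he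
      exact ⟨H.f b, mem_image_of_mem _ hb, hbe⟩)
    exact h1.mono (fun _ h => h) (card_image_le.trans (E.bag_card i _))
  · rw [cont_len E H hapex i (not_lt.1 hs)]
    intro M hM _
    rcases M.eq_empty_or_nonempty with h | ⟨e, he⟩
    · rw [h]; exact Nat.zero_le _
    · exact absurd rfl (hM e he)

theorem cont_supp (i : Fin E.r) (s : ℕ) : Supp X Y (cont E H i s) := by
  intro e he
  unfold cont at he
  rw [Pi.add_apply, Finset.sum_apply, Finset.sum_apply] at he
  have h2 : ∑ a ∈ univ.filter (fun a => Ret E i a s), (H.t a • star X Y (H.f a)) e ≠ 0 ∨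
      ∑ t ∈ univ.filter (fun t : Fin (E.len i) => t.val < s), esum E H (E.soc i t) e ≠ 0 := by
    by_contra hcon
    push Not at hcon
    rw [hcon.1, hcon.2, add_zero] at he
    exact he rfl
  rcases h2 with h2 | h2
  · obtain ⟨a, _, h3⟩ := Finset.exists_ne_zero_of_sum_ne_zero h2
    have h4 : star X Y (H.f a) e ≠ 0 := by
      intro h4
      apply h3
      rw [Pi.smul_apply, h4, smul_zero]
    have h5 := star_ne.1 h4
    exact ⟨h5.1, h5.2.2⟩
  · obtain ⟨t, _, h3⟩ := Finset.exists_ne_zero_of_sum_ne_zero h2
    exact (esum_star E H _).supp e h3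

/-- off the star of the society vertex the content before its bag is small -/
theorem cont_cut (hapex : ∀ a ∈ E.apex, H.f a ∉ Y) (i : Fin E.r) (t : Fin (E.len i)) :
    NuLt (cut (H.f (E.soc i t)) (cont E H i t)) k := by
  have h1 := nuLe_of_cover (K := cut (H.f (E.soc i t)) (cont E H i t))
    (((E.bag i t).erase (E.soc i t)).image H.f) (by
      intro e he
      unfold cut at he
      split_ifs at he with h2
      · exact absurd rfl he
      · obtain ⟨_, b, hb, hbe⟩ := cont_cover E H hapex i t e he
        refine ⟨H.f b, mem_image_of_mem _ (mem_erase.2 ⟨?_, hb⟩), hbe⟩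
        rintro rfl
        exact h2 hbe)
  have h2 : (((E.bag i t).erase (E.soc i t)).image H.f).card < k := by
    have h3 : ((E.bag i t).erase (E.soc i t)).card < (E.bag i t).card :=
      Finset.card_erase_lt_of_mem (E.soc_mem i t)
    have h4 := E.bag_card i t
    have h5 : (((E.bag i t).erase (E.soc i t)).image H.f).card ≤
      ((E.bag i t).erase (E.soc i t)).card := card_image_le
    omega
  intro M hM hM'
  exact lt_of_le_of_lt (h1 M hM hM') h2

end Pool.Agent.HomV
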