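import Pool.Agent.HomV.Loc

/-!
# Step II: without labels between ordinary vertices there is a face with two vortex corners

Suppose not.  `across` of an ordinary flag is at a vortex (`R0`).  So a cycle of `fac` is
`v, o, v` (`v` at a vortex, `o` ordinary; a digon) or it contains only one flag (`R3`) or two
different flags at vortices.  So all ordinary corners are digons, `vert_ge` shows that there are no
ordinary flags, and there are no flags at all (`MinM.nonempty`).
-/

set_option autoImplicit false

namespace Pool.Agent.HomV

open Finset Classical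

variable {U : Type} [Fintype U] {X : SimpleGraph U} {Y : Finset U} {w : ℕ} {D : Type} [Fintype D]
  {Q N : ℕ} {β : Prop}

theorem step2 {M : Pic X Y w D} (h : MinM Q True N M) :
    ∃ x y : D × Bool, M.Vor x ∧ M.Vor y ∧ M.SameF x y ∧ y ≠ x ∧ y ≠ M.corner x := by
  by_contra hno
  push Not at hno
  have hOV : ∀ x : D × Bool, ¬ M.Ord x → M.Vor x := by
    intro x hx
    unfold Pic.Vor
    cases hk : M.kind x.1 with
    | inl i => exact absurd ⟨i, hk⟩ hx
    | inr n => exact ⟨n, rfl⟩
  -- `across` of an ordinary flag is at a vortex
  have h1 : ∀ x : D × Bool, M.Ord x → M.Vor (M.across x) := by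
    intro x hx
    apply hOV
    rintro ⟨j, hj⟩
    obtain ⟨i, hi⟩ := hx
    exact R0 h x.1 (h.cex.2.2 trivial x.1 i j hi hj)
  have hcor : ∀ x : D × Bool, M.Ord x → M.Ord (M.corner x) := by
    rintro x ⟨i, hi⟩
    exact ⟨i, by rw [M.kind_corner]; exact hi⟩
  have h2 : ∀ x : D × Bool, M.Ord x → M.Digon x := by
    intro x hx
    refine ⟨hx, h1 x hx, ?_⟩
    have hF : M.SameF (M.across x) (M.across (M.corner x)) :=
      ((M.sameF_across x).symm.trans _ _ _ (M.sameF_corner x)).trans _ _ _
        (M.sameF_across (M.corner x))
    have hne : M.across (M.corner x) ≠ M.across x := by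
      intro h'
      have := congrArg M.across h'
      rw [M.across_across, M.across_across] at this
      exact M.corner_ne x this
    exact (hno _ _ (h1 x hx) (h1 _ (hcor x hx)) hF hne).symm
  have h3 : ∀ x : D × Bool, ¬ M.Ord x := by
    intro x hx
    have h4 := vert_ge h hx
    rw [Finset.sum_eq_zero] at h4
    · omega
    · intro s _
      unfold Pic.nd
      rw [if_pos (h2 _ (M.ord_rot hx s))]
  obtain ⟨d⟩ := h.nonempty
  have h5 := hno (d, false) (M.across (d, false)) (hOV _ (h3 _)) (hOV _ (h3 _))
    (M.sameF_across _) (M.across_ne _)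
  exact R3 h (d, false) h5.symm

end Pool.Agent.HomV
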