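import Pool.Agent.HomV.Step3a

/-!
# Step III, second case: a vortex with two corners at one face is split

`x`, `y` have the same number `n`, so they are at one vertex (`vor_conn`), and there is
`q ∈ {y, corner y}` with `rot ^ k x = q` (`sameV_iff`), `q ≠ x`.  `M₁ = M.switch x q` (as maps);
all flags of the old vortex are at the vertex of `x` or of `corner x` in `M₁`
(`sameV_switch_cover`).

(a) `M₁` connects `x` and `corner x`: `G2 M₁ + 2 ≤ G2 M` (`G2_switch_conn`).  Pay the covers of
`K x` and `K y`, then the switch is a picture over `Y \ T`; the darts of the vertex of `x` keep the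
number `n`, the other darts of the vortex get a new number.

(b) otherwise let `S` be the component of `x` in `M₁`, `corner x ∉ S`.  Summing `vor_eqn` and
`ord_sum` over `S` gives `K x + K q = dl (∑ d ∈ S, T d)` (the flags of `S` are paired by the old
corners except `x` and `corner q`, where `K (corner q) = K q`); by `rigid` this is `dl Z` with
small `Z` (`Z = ∑ T` or its complement).  Gauge at the corner of `q` by `Z`, switch at `x`, `q`,
new number for the part of `corner x`: a picture over `Y` with `G2 M₁ ≤ G2 M` (`G2_switch_rot`)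
and one vortex more, but both `S` and `Sᶜ` miss one of the numbers: contradiction by `shrink` for
`S` or for `Sᶜ` (one of the two parities is `0`).
-/

set_option autoImplicit false

namespace Pool.Agent.HomV

open Finset Classical

variable {U : Type} [Fintype U] {X : SimpleGraph U} {Y : Finset U} {w : ℕ} {D : Type} [Fintype D]
  {Q N : ℕ} {β : Prop}

/-- the kinds after the splitting of the vortex `n` at the flags `x`, `y`: the part at `corner x`
gets the number `l` -/
noncomputable def splitKind (M : Pic X Y w D) (x y : D × Bool) (n l : ℕ) (d : D) : U ⊕ ℕ :=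
  if M.kind d = Sum.inr n ∧ ¬ (M.switch x y).SameV x (d, false) then Sum.inr l else M.kind d

theorem splitKind_ord (M : Pic X Y w D) (x y : D × Bool) (n l : ℕ) (d : D) (i : U) :
    splitKind M x y n l d = Sum.inl i ↔ M.kind d = Sum.inl i := by
  unfold splitKind
  split_ifs with h
  · rw [h.1]
    simp
  · rfl

section split

variable {M : Pic X Y w D} {x y : D × Bool} {n l : ℕ} (hx : M.kind x.1 = Sum.inr n)
  (hxy : M.SameV x y)
include hx hxy

theorem splitKind_corner (z : D × Bool) :
    splitKind M x y n l ((M.switch x y).corner z).1 = splitKind M x y n l z.1 := by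
  have hy : M.kind y.1 = Sum.inr n := (M.kind_sameV hxy).symm.trans hx
  have hksw : ∀ z : D × Bool, M.kind (Equiv.swap x y z).1 = M.kind z.1 := by
    intro z
    by_cases h1 : z = x
    · subst h1; rw [Equiv.swap_apply_left, hx, hy]
    · by_cases h2 : z = y
      · subst h2; rw [Equiv.swap_apply_right, hx, hy]
      · rw [Equiv.swap_apply_of_ne_of_ne h1 h2]
  have h1 : M.kind ((M.switch x y).corner z).1 = M.kind z.1 := by
    rw [CMap.switch_corner, hksw, M.kind_corner, hksw]
  have h2 : (M.switch x y).SameV x (((M.switch x y).corner z).1, false) ↔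
      (M.switch x y).SameV x (z.1, false) := by
    rw [CMap.sameV_false, CMap.sameV_false]
    exact ⟨fun h => h.trans _ _ _ ((M.switch x y).sameV_corner z).symm,
      fun h => h.trans _ _ _ ((M.switch x y).sameV_corner z)⟩
  unfold splitKind
  rw [h1, h2]

theorem splitKind_conn (hl : l ∉ M.vnums Set.univ) (a b : D × Bool) (m : ℕ)
    (ha : splitKind M x y n l a.1 = Sum.inr m) (hb : splitKind M x y n l b.1 = Sum.inr m) :
    (M.switch x y).SameV a b := by
  have hy : M.kind y.1 = Sum.inr n := (M.kind_sameV hxy).symm.trans hx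
  have hval : ∀ c : D × Bool, splitKind M x y n l c.1 = Sum.inr m →
      (m = l ∧ M.kind c.1 = Sum.inr n ∧ ¬ (M.switch x y).SameV x c) ∨
      (m ≠ l ∧ m = n ∧ M.kind c.1 = Sum.inr n ∧ (M.switch x y).SameV x c) ∨
      (m ≠ l ∧ m ≠ n ∧ M.kind c.1 = Sum.inr m) := by
    intro c hc
    unfold splitKind at hc
    rw [CMap.sameV_false] at hc
    split_ifs at hc with h1
    · left
      exact ⟨(Sum.inr_injective hc).symm, h1⟩
    · right
      have hml : m ≠ l := by
        rintro rfl
        exact hl ⟨c.1, Set.mem_univ _, hc⟩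
      by_cases hmn : m = n
      · left
        subst hmn
        refine ⟨hml, rfl, hc, ?_⟩
        by_contra h2
        exact h1 ⟨hc, h2⟩
      · right
        exact ⟨hml, hmn, hc⟩
  rcases hval a ha with ⟨h1, h2, h3⟩ | ⟨h1, h2, h3, h4⟩ | ⟨h1, h2, h3⟩ <;>
    rcases hval b hb with ⟨g1, g2, g3⟩ | ⟨g1, g2, g3, g4⟩ | ⟨g1, g2, g3⟩
  · have k1 := M.toCMap.sameV_switch_cover (q := y) (M.vor_conn x a n hx h2)
    have k2 := M.toCMap.sameV_switch_cover (q := y) (M.vor_conn x b n hx g2)
    exact (k1.resolve_left h3).symm.trans _ _ _ (k2.resolve_left g3)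
  · exact absurd h1 g1
  · exact absurd h1 g1
  · exact absurd g1 h1
  · exact h4.symm.trans _ _ _ g4
  · exact absurd h2 g2
  · exact absurd g1 h1
  · exact absurd g2 h2
  · have hnx : ¬ M.SameV x a := by
      intro h
      have := M.kind_sameV h
      rw [hx, h3] at this
      exact h2 (Sum.inr_injective this).symm
    have hny : ¬ M.SameV y a := by
      intro h
      have := M.kind_sameV h
      rw [hy, h3] at this
      exact h2 (Sum.inr_injective this).symm
    exact (M.toCMap.sameV_switch_iff hnx hny b).2 (M.vor_conn a b m h3 g3)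

end split

theorem step3_split_conn {M : Pic X Y w D} (h : Cex β N M) {x y : D × Bool} {n k : ℕ}
    (hx : M.kind x.1 = Sum.inr n) (hq : (M.rot ^ k) x = y) (hxy : y ≠ x) (hF : M.SameF x y)
    (hc : (M.switch x y).SameC x (M.corner x)) :
    ∃ (T : Finset U) (N' : ℕ) (M' : Pic X (Y \ T) w D), T.card ≤ 4 * w ∧ N = N' + 1 ∧
      Cex False N' M' := by
  have hV : M.SameV x y := (M.sameV_iff x y).2 ⟨k, Or.inl hq⟩
  have hy : M.kind y.1 = Sum.inr n := (M.kind_sameV hV).symm.trans hx
  obtain ⟨T, hT, hKx, hKy⟩ := M.exists_cover ⟨n, hx⟩ ⟨n, hy⟩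
  obtain ⟨l, hl⟩ : ∃ l, l ∉ M.vnums Set.univ := (M.vnums_finite Set.univ).exists_notMem
  let M' : Pic X (Y \ T) w D := (M.pay T).vsw x y (splitKind (M.pay T) x y n l) ⟨n, hx⟩ ⟨n, hy⟩
    (hKx.trans hKy.symm) (splitKind_ord (M.pay T) x y n l)
    (splitKind_corner (M := M.pay T) hx hV) (splitKind_conn (M := M.pay T) hx hV hl)
  have hG : M'.G2 + 2 ≤ M.G2 := M.toCMap.G2_switch_conn x y k hq hxy hF hc
  have hv : (M'.vnums Set.univ).ncard ≤ (M.vnums Set.univ).ncard + 1 := by
    refine le_trans (Set.ncard_le_ncard (t := insert l (M.vnums Set.univ)) ?_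
      ((M.vnums_finite _).insert _)) (Set.ncard_insert_le _ _)
    rintro m ⟨d, _, hd⟩
    change splitKind (M.pay T) x y n l d = Sum.inr m at hd
    unfold splitKind at hd
    split_ifs at hd with h1
    · left
      exact (Sum.inr_injective hd).symm
    · right
      exact ⟨d, Set.mem_univ _, hd⟩
  have h1 := h.2.1
  have h2 := M'.G2_nonneg
  refine ⟨T, N - 1, M', hT, ?_, ?_, ?_, False.elim⟩
  · have h3 : (0 : ℤ) ≤ ((M'.vnums Set.univ).ncard : ℤ) := Int.natCast_nonneg _
    omega
  · exact (h.pay T).1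
  · have h3 : (0 : ℤ) ≤ ((M'.vnums Set.univ).ncard : ℤ) := Int.natCast_nonneg _
    omega

/-- the labels in a set of darts which is closed under `opp` cancel -/
theorem Pic.sum_lam (M : Pic X Y w D) (S : Set D) (hopp : ∀ d ∈ S, M.opp d ∈ S) :
    ∑ d ∈ univ.filter (fun d => d ∈ S), M.lam d = 0 := by
  refine Finset.sum_involution (fun d _ => M.opp d) ?_ ?_ ?_ ?_
  · intro d _
    rw [M.lam_opp, ch_add_self]
  · intro d _ _
    exact M.opp_ne d
  · intro d hd
    simp only [mem_filter, mem_univ, true_and] at hd ⊢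
    exact hopp d hd
  · intro d _
    exact M.opp_opp d

/-- the sum over the ordinary darts of a set which contains the ordinary vertices that it meets -/
theorem Pic.sum_ord (M : Pic X Y w D) (S : Set D)
    (hV : ∀ x z : D × Bool, M.Ord x → M.SameV x z → x.1 ∈ S → z.1 ∈ S) :
    ∑ d ∈ univ.filter (fun d => d ∈ S ∧ M.Ord (d, false)), (M.lam d + dl X Y (M.T d)) = 0 := by
  have : Fintype (Quot M.VRel) := Fintype.ofFinite _
  rw [← Finset.sum_fiberwise (s := univ.filter (fun d => d ∈ S ∧ M.Ord (d, false)))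
    (g := fun d => Quot.mk M.VRel (d, false))]
  refine Finset.sum_eq_zero fun v _ => ?_
  rcases (filter (fun d => Quot.mk M.VRel (d, false) = v)
    (univ.filter (fun d => d ∈ S ∧ M.Ord (d, false)))).eq_empty_or_nonempty with h0 | ⟨d₀, hd₀⟩
  · rw [h0, Finset.sum_empty]
  · simp only [mem_filter, mem_univ, true_and] at hd₀
    obtain ⟨⟨h1, i, h2⟩, h3⟩ := hd₀
    rw [← M.ord_sum (d₀, false) i h2]
    refine Finset.sum_congr ?_ fun _ _ => rfl
    ext d
    simp only [mem_filter, mem_univ, true_and]
    constructor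
    · rintro ⟨_, h4⟩
      exact Quot.eqvGen_exact (h3.trans h4.symm)
    · intro h4
      refine ⟨⟨hV (d₀, false) (d, false) ⟨i, h2⟩ h4 h1, i, ?_⟩, ?_⟩
      · exact (M.kind_sameV h4).symm.trans h2
      · rw [← h3]
        exact (Quot.eqvGen_sound h4).symm

/-- the flux: the cut of the odd vertices in `S` is the sum of the contents in `S` -/
theorem Pic.flux (M : Pic X Y w D) (S : Set D) (hopp : ∀ d ∈ S, M.opp d ∈ S)
    (hV : ∀ x z : D × Bool, M.Ord x → M.SameV x z → x.1 ∈ S → z.1 ∈ S) :
    dl X Y (∑ d ∈ univ.filter (fun d => d ∈ S), M.T d) =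
      ∑ z ∈ univ.filter (fun z : D × Bool => z.1 ∈ S ∧ M.Vor z), M.K z := by
  have h1 : ∑ d ∈ univ.filter (fun d => d ∈ S), (M.lam d + dl X Y (M.T d)) =
      dl X Y (∑ d ∈ univ.filter (fun d => d ∈ S), M.T d) := by
    rw [Finset.sum_add_distrib, M.sum_lam S hopp, zero_add, dl_sum]
  rw [← h1, ← Finset.sum_filter_add_sum_filter_not (univ.filter (fun d => d ∈ S))
    (fun d => M.Ord (d, false)), Finset.filter_filter, M.sum_ord S hV, zero_add,
    Finset.filter_filter]
  have h2 : ∀ d, ¬ M.Ord (d, false) ↔ M.Vor (d, false) := by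
    intro d
    constructor
    · intro hn
      rcases h : M.kind d with i | n
      · exact absurd ⟨i, h⟩ hn
      · exact ⟨n, h⟩
    · rintro ⟨n, hn⟩ ⟨i, hi⟩
      have := hn.symm.trans hi
      cases this
  have h3 : ∑ z ∈ univ.filter (fun z : D × Bool => z.1 ∈ S ∧ M.Vor z), M.K z =
      ∑ d ∈ univ.filter (fun d => d ∈ S ∧ ¬ M.Ord (d, false)), (M.K (d, false) + M.K (d, true)) := by
    rw [Finset.sum_filter, Fintype.sum_prod_type, Finset.sum_filter]
    refine Finset.sum_congr rfl fun d _ => ?_
    rw [Fintype.sum_bool]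
    by_cases hd : d ∈ S
    · by_cases hv : M.Vor (d, false)
      · have hv' : M.Vor (d, true) := hv
        rw [if_pos ⟨hd, hv'⟩, if_pos ⟨hd, hv⟩, if_pos ⟨hd, (h2 d).2 hv⟩, add_comm]
      · have hv' : ¬ M.Vor (d, true) := hv
        rw [if_neg (fun h => hv' h.2), if_neg (fun h => hv h.2),
          if_neg (fun h => hv ((h2 d).1 h.2)), add_zero]
    · rw [if_neg (fun h => hd h.1), if_neg (fun h => hd h.1), if_neg (fun h => hd h.1), add_zero]
  rw [h3]
  refine Finset.sum_congr rfl fun d hd => ?_
  simp only [mem_filter, mem_univ, true_and] at hd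
  obtain ⟨n, hn⟩ := (h2 d).1 hd.2
  exact (M.vor_eqn d n hn).symm

theorem step3_split_sep {M : Pic X Y w D} (h : MinM Q β N M) {x y : D × Bool} {n k : ℕ}
    (hx : M.kind x.1 = Sum.inr n) (hq : (M.rot ^ k) x = y) (hxy : y ≠ x)
    (hc : ¬ (M.switch x y).SameC x (M.corner x)) : False := by
  have hV : M.SameV x y := (M.sameV_iff x y).2 ⟨k, Or.inl hq⟩
  have hy : M.kind y.1 = Sum.inr n := (M.kind_sameV hV).symm.trans hx
  have hne : y ≠ M.corner x := by
    intro h1
    have h2 := M.rot_pow_ne_corner k x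
    rw [zpow_natCast, hq] at h2
    exact h2 h1
  obtain ⟨l, hl⟩ : ∃ l, l ∉ M.vnums Set.univ := (M.vnums_finite Set.univ).exists_notMem
  -- the component of `x` in the new map
  let S : Set D := {d | (M.switch x y).SameC x (d, false)}
  have hS : (M.switch x y).Closed S := (M.switch x y).closed_component x
  have hmem : ∀ z : D × Bool, z.1 ∈ S ↔ (M.switch x y).SameC x z := fun z =>
    ((M.switch x y).mem_component).symm
  have hxS : x.1 ∈ S := (hmem x).2 (Relation.EqvGen.refl _)
  have hcxS : (M.corner x).1 ∉ S := fun h' => hc ((hmem _).1 h')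
  have hcyS : (M.corner y).1 ∈ S := by
    refine (hmem _).2 ?_
    have := (M.switch x y).sameC_corner x
    rwa [CMap.switch_corner_p hne] at this
  have hyS : y.1 ∉ S := by
    intro h'
    refine hc (((hmem _).1 h').trans _ _ _ ?_)
    have := (M.switch x y).sameC_corner y
    rwa [CMap.switch_corner_q hne] at this
  have hkindxy : ∀ z : D × Bool, M.Ord z → ¬ M.SameV x z ∧ ¬ M.SameV y z := by
    rintro z ⟨i, hi⟩
    constructor
    · intro h'
      have := M.kind_sameV h'
      rw [hx, hi] at this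
      cases this
    · intro h'
      have := M.kind_sameV h'
      rw [hy, hi] at this
      cases this
  have hflux := M.flux S hS.1 (by
    intro a b ha hab haS
    obtain ⟨h1, h2⟩ := hkindxy a ha
    have h3 := (M.toCMap.sameV_switch_iff h1 h2 b).2 hab
    exact CMap.Closed.sameV _ hS h3 haS)
  -- the sum of the contents
  have hxcy : x ≠ M.corner y := by
    intro h'
    apply hne
    rw [h', M.cc]
  have hsum : ∑ z ∈ univ.filter (fun z : D × Bool => z.1 ∈ S ∧ M.Vor z), M.K z = M.K x + M.K y := by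
    have h1 : univ.filter (fun z : D × Bool => z.1 ∈ S ∧ M.Vor z) =
        insert x (insert (M.corner y) (univ.filter (fun z : D × Bool =>
          (z.1 ∈ S ∧ M.Vor z) ∧ z ≠ x ∧ z ≠ M.corner y))) := by
      ext z
      simp only [mem_filter, mem_univ, true_and, mem_insert]
      constructor
      · intro hz
        by_cases h1 : z = x
        · left; exact h1
        · by_cases h2 : z = M.corner y
          · right; left; exact h2
          · right; right; exact ⟨hz, h1, h2⟩
      · rintro (rfl | rfl | hz)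
        · exact ⟨hxS, n, hx⟩
        · exact ⟨hcyS, n, by rw [M.kind_corner, hy]⟩
        · exact hz.1
    rw [h1, Finset.sum_insert, Finset.sum_insert]
    · have h2 : ∑ z ∈ univ.filter (fun z : D × Bool =>
          (z.1 ∈ S ∧ M.Vor z) ∧ z ≠ x ∧ z ≠ M.corner y), M.K z = 0 := by
        refine Finset.sum_involution (fun z _ => M.corner z) ?_ ?_ ?_ ?_
        · intro z hz
          simp only [mem_filter, mem_univ, true_and] at hz
          obtain ⟨⟨_, m, hm⟩, _⟩ := hz
          rw [M.vor_K z m hm, ch_add_self]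
        · intro z _ _
          exact M.corner_ne z
        · intro z hz
          simp only [mem_filter, mem_univ, true_and] at hz ⊢
          obtain ⟨⟨h3, m, hm⟩, h4, h5⟩ := hz
          have e2 : z ≠ y := by rintro rfl; exact hyS h3
          have e3 : z ≠ M.corner x := by rintro rfl; exact hcxS h3
          refine ⟨⟨?_, m, ?_⟩, ?_, ?_⟩
          · have := hS.2 z h3
            rwa [M.switch_corner_of_ne h4 e2 e3 h5] at this
          · rw [M.kind_corner, hm]
          · intro h6
            apply e3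
            rw [← h6, M.cc]
          · intro h6
            exact e2 (M.corner_inj h6)
        · intro z _
          exact M.cc z
      rw [h2, add_zero, M.vor_K y n hy]
    · simp
    · simp only [mem_insert, mem_filter, mem_univ, true_and, not_or]
      refine ⟨hxcy, ?_⟩
      rintro ⟨_, h2, _⟩
      exact h2 rfl
  rw [hsum] at hflux
  -- the small set
  obtain ⟨Z, hZ, hdZ⟩ : ∃ Z : U → ZMod 2, sz Y Z ≤ 4 * w ∧ dl X Y Z = M.K x + M.K y := by
    have h1 : NuLe (M.K x + M.K y) (w + w) := (M.vor_nu x n hx).add (M.vor_nu y n hy)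
    rw [← hflux] at h1
    have hb := h.big
    rcases rigid h.good (by omega) h1 with h2 | h2
    · exact ⟨_, by omega, hflux⟩
    · refine ⟨_, h2.trans (by omega), ?_⟩
      rw [dl_add, dl_one, zero_add, hflux]
  have hKy : M.K y + dl X Y Z = M.K x := by
    rw [hdZ, ← add_assoc, add_comm (M.K y) (M.K x), add_assoc, ch_add_self, add_zero]
  have hKyn : NuLe (M.K y + dl X Y Z) w := by
    rw [hKy]
    exact M.vor_nu x n hx
  -- the gauged picture
  let M₂ := M.gauge h.good h.big y Z n hy (by omega) hKyn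
  have hM₂ : Cex β N M₂ := M.gauge_cex h.good h.big y Z n hy (by omega) hKyn h.cex
  have hK₂x : M₂.K x = M.K x := by
    change M.K x + (if x = y then dl X Y Z else 0) + (if x = M.corner y then dl X Y Z else 0) = _
    rw [if_neg hxy.symm, if_neg hxcy, add_zero, add_zero]
  have hK₂y : M₂.K y = M.K x := by
    change M.K y + (if y = y then dl X Y Z else 0) + (if y = M.corner y then dl X Y Z else 0) = _
    rw [if_pos rfl, if_neg (M.corner_ne y).symm, add_zero, hKy]
  -- the split picture
  let M₃ : Pic X Y w D := M₂.vsw x y (splitKind M₂ x y n l) ⟨n, hx⟩ ⟨n, hy⟩ (hK₂x.trans hK₂y.symm)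
    (splitKind_ord M₂ x y n l) (splitKind_corner (M := M₂) hx hV)
    (splitKind_conn (M := M₂) hx hV hl)
  have hG : M₃.G2 ≤ M.G2 := M.toCMap.G2_switch_rot x y k hq
  have hS₃ : M₃.Closed S := hS
  have hp : ∀ i ∈ Y, ∑ d, M₃.T d i = 1 := hM₂.1
  have hβ : β → ∀ d i j, M₃.kind d = Sum.inl i → M₃.kind (M₃.opp d) = Sum.inl j → M₃.lam d = 0 := by
    intro hb d i j hi hj
    exact hM₂.2.2 hb d i j ((splitKind_ord M₂ x y n l _ _).1 hi)
      ((splitKind_ord M₂ x y n l _ _).1 hj)
  -- the numbers of vortices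
  have hn : n ∈ M.vnums Set.univ := ⟨x.1, Set.mem_univ _, hx⟩
  have hkS : ∀ d ∈ S, M.kind d = Sum.inr n → (M.switch x y).SameV x (d, false) := by
    intro d hd hk
    have h1 := M.toCMap.sameV_switch_cover (q := y) (M.vor_conn x (d, false) n hx hk)
    rcases h1 with h1 | h1
    · exact h1
    · exfalso
      exact hc (((hmem (d, false)).1 hd).trans _ _ _ ((M.switch x y).sameV_sameC h1).symm)
  have hkS' : ∀ d ∉ S, ¬ (M.switch x y).SameV x (d, false) := by
    intro d hd h1
    exact hd ((hmem (d, false)).2 ((M.switch x y).sameV_sameC h1))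
  have hvS : ((M₃.vnums S).ncard : ℤ) ≤ ((M.vnums Set.univ).ncard : ℤ) := by
    have := Set.ncard_le_ncard (s := M₃.vnums S) (t := M.vnums Set.univ) (by
      rintro m ⟨d, hd, hm⟩
      change splitKind M₂ x y n l d = Sum.inr m at hm
      unfold splitKind at hm
      split_ifs at hm with h1
      · exact absurd (hkS d hd h1.1) h1.2
      · exact ⟨d, Set.mem_univ _, hm⟩) (M.vnums_finite _)
    exact_mod_cast this
  have hvS' : ((M₃.vnums Sᶜ).ncard : ℤ) ≤ ((M.vnums Set.univ).ncard : ℤ) := by
    have h1 : M₃.vnums Sᶜ ⊆ insert l (M.vnums Set.univ \ {n}) := by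
      rintro m ⟨d, hd, hm⟩
      change splitKind M₂ x y n l d = Sum.inr m at hm
      unfold splitKind at hm
      split_ifs at hm with h1
      · left
        exact (Sum.inr_injective hm).symm
      · right
        refine ⟨⟨d, Set.mem_univ _, hm⟩, ?_⟩
        rintro rfl
        exact h1 ⟨hm, hkS' d hd⟩
    have h2 := Set.ncard_le_ncard h1 (((M.vnums_finite _).subset Set.sdiff_subset).insert _)
    have h3 := Set.ncard_insert_le l (M.vnums Set.univ \ {n})
    have h4 := Set.ncard_sdiff_singleton_add_one hn (M.vnums_finite _)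
    have h5 : (M₃.vnums Sᶜ).ncard ≤ (M.vnums Set.univ).ncard := by omega
    exact_mod_cast h5
  have hN := h.cex.2.1
  -- the parities
  obtain ⟨i₀, hi₀⟩ := h.good.ne
  have hpar : ∑ d ∈ univ.filter (fun d => d ∈ S), M₃.T d i₀ +
      ∑ d ∈ univ.filter (fun d => d ∈ Sᶜ), M₃.T d i₀ = 1 := by
    rw [← hp i₀ hi₀, ← Finset.sum_filter_add_sum_filter_not univ (fun d => d ∈ S)]
    rfl
  have h01 : ∀ a b : ZMod 2, a + b = 1 → a = 0 ∨ b = 0 := by decide
  rcases h01 _ _ hpar with h0 | h0
  · refine shrink h M₃ hp hβ S hS₃ ⟨x.1, hxS⟩ hi₀ h0 ?_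
    omega
  · refine shrink h M₃ hp hβ Sᶜ hS₃.compl ⟨y.1, hyS⟩ hi₀ (by convert h0) ?_
    rw [compl_compl]
    omega

/-- Step III -/
theorem step3 {M : Pic X Y w D} (h : MinM Q β N M) {x y : D × Bool} (hx : M.Vor x) (hy : M.Vor y)
    (hF : M.SameF x y) (h1 : y ≠ x) (h2 : y ≠ M.corner x) :
    ∃ (T : Finset U) (N' : ℕ) (M' : Pic X (Y \ T) w D), T.card ≤ 4 * w ∧ N = N' + 1 ∧
      Cex False N' M' := by
  obtain ⟨m, hm⟩ := hx
  obtain ⟨n, hn⟩ := hy
  by_cases hmn : m = n
  · subst hmn
    have hV := M.vor_conn x y m hm hn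
    obtain ⟨q, k, hk, hqx, hFq⟩ : ∃ (q : D × Bool) (k : ℕ), (M.rot ^ k) x = q ∧ q ≠ x ∧
        M.SameF x q := by
      obtain ⟨k, hk | hk⟩ := (M.sameV_iff x y).1 hV
      · exact ⟨y, k, hk, h1, hF⟩
      · refine ⟨M.corner y, k, hk, ?_, hF.trans _ _ _ (M.sameF_corner y)⟩
        intro h3
        apply h2
        rw [← h3, M.cc]
    by_cases hc : (M.switch x q).SameC x (M.corner x)
    · exact step3_split_conn h.cex hm hk hqx hFq hc
    · exact (step3_split_sep h hm hk hqx hc).elim
  · exact step3_merge h.cex hm hn hmn hF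

end Pool.Agent.HomV
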