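import Pool.Agent.HomV.Step1
import Pool.Agent.HomV.Step2
import Pool.Agent.HomV.Step3b

/-!
# The key theorem: there are no counterexamples over good sets
-/

set_option autoImplicit false

namespace Pool.Agent.HomV

open Finset Classical

/-- a counterexample with the minimal number of darts -/
theorem exists_min {U : Type} [Fintype U] {X : SimpleGraph U} {Y : Finset U} {w Q N : ℕ} {β : Prop}
    (hG : Good X Y Q) (hQ : 200 * (w + 1) ≤ Q) {D : Type} [Fintype D] {M : Pic X Y w D}
    (h : Cex β N M) :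
    ∃ (D' : Type) (_ : Fintype D') (M' : Pic X Y w D'), MinM Q β N M' := by
  have key : ∀ n : ℕ, ∀ (D : Type) (_ : Fintype D) (M : Pic X Y w D), Cex β N M →
      Fintype.card D ≤ n → ∃ (D' : Type) (_ : Fintype D') (M' : Pic X Y w D'), MinM Q β N M' := by
    intro n
    induction n with
    | zero =>
      intro D _ M h hn
      exact ⟨D, inferInstance, M, hG, hQ, h, fun D' _ M' hlt => by omega⟩
    | succ n ih =>
      intro D _ M h hn
      by_cases hex : ∃ (D' : Type) (_ : Fintype D') (M' : Pic X Y w D'),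
          Fintype.card D' < Fintype.card D ∧ Cex β N M'
      · obtain ⟨D', _, M', hlt, h'⟩ := hex
        exact ih D' inferInstance M' h' (by omega)
      · refine ⟨D, inferInstance, M, hG, hQ, h, fun D' _ M' hlt h' => hex ⟨D', _, M', hlt, h'⟩⟩
  exact key _ D inferInstance M h le_rfl

theorem key (w : ℕ) : ∀ N : ℕ, ∃ Q : ℕ, ∀ {U : Type} [Fintype U] (X : SimpleGraph U) (Y : Finset U),
    Good X Y Q → ∀ (D : Type) [Fintype D] (M : Pic X Y w D), ¬ Cex False N M := by
  intro N
  induction N with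
  | zero =>
    refine ⟨200 * (w + 1), fun X Y hG D _ M h => ?_⟩
    obtain ⟨D', _, M', hM'⟩ := exists_min hG le_rfl h
    obtain ⟨T, hT, hc⟩ := step1 hM'
    have hG' : Good X (Y \ T) (200 * (w + 1) - 0) := hG.sdiff T (by simpa using hT) (by omega)
    obtain ⟨D'', _, M'', hM''⟩ := exists_min hG' (by omega) hc
    obtain ⟨x, y, hx, hy, hF, h1, h2⟩ := step2 hM''
    obtain ⟨T', N', M3, _, hN, _⟩ := step3 hM'' hx hy hF h1 h2
    omega
  | succ N ih =>
    obtain ⟨Q, hQ⟩ := ih
    refine ⟨Q + 200 * (w + 1) + 48 * (N + 1) + 4 * w, fun X Y hG D _ M h => ?_⟩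
    obtain ⟨D', _, M', hM'⟩ := exists_min hG (by omega) h
    obtain ⟨T, hT, hc⟩ := step1 hM'
    have hG' := hG.sdiff T hT (by omega)
    obtain ⟨D'', _, M'', hM''⟩ := exists_min hG' (by omega) hc
    obtain ⟨x, y, hx, hy, hF, h1, h2⟩ := step2 hM''
    obtain ⟨T', N', M3, hT', hN, h3⟩ := step3 hM'' hx hy hF h1 h2
    have hG'' := hG'.sdiff T' hT' (by omega)
    have hN' : N' = N := by omega
    subst hN'
    refine hQ X _ ?_ _ M3 h3
    exact hG''.mono (by omega)

end Pool.Agent.HomV
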