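import Pool.Agent.HomV.Swp

/-!
# Local structure of minimal counterexamples

`rot x = corner (fl x)` walks around a vertex; the corner between the darts of `rot ^ s x` and
`rot ^ (s + 1) x` is the corner of the flag `rot ^ (s + 1) x`.

`arc`: between two different darts of an ordinary vertex with the same label there are at least
two corners which are not corners of digons.  Induction on `t` for all minimal counterexamples:
`t = 1` is `R1` (`nd = 1` cannot help: `t = 1` is a contradiction to `R1`).  For `t > 1`, if the sum is at most `1`, the first or the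
last corner of the arc is a digon; exchange the two labels there (`R4b`), this gives a minimal
counterexample with a shorter arc.

`run`: a run of `t + 1` darts (`t > 0`) with digons between them has at most `2 w` darts: the
labels are different (`arc`), and all of them are in the set `G` of `exists_gset` for the content
at `across x` (outside of the run): move the label to the first dart with `R4b`; the content at
`across x` is not changed.

`vert_ge`: every ordinary vertex has at least `4` non-digon corners, an odd one (`∑ lam ≠ 0`) even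
`5`: if it is even, some label of the vertex occurs twice, use `arc` for both arcs; if it is odd,
all labels of the star occur (`lam = Pi.single e 1`), the degree is at least `Q ≥ 5 * (2 * w + 1)`,
and among any `2 w + 1` consecutive corners one is not a digon (`run`).
-/

set_option autoImplicit false

namespace Pool.Agent.HomV

open Finset Classical

variable {U : Type} [Fintype U] {X : SimpleGraph U} {Y : Finset U} {w : ℕ} {D : Type} [Fintype D]
  {Q N : ℕ} {β : Prop}

/-- the number of darts of the vertex of `x` -/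
noncomputable def CMap.deg {D : Type} (M : CMap D) (x : D × Bool) : ℕ :=
  Function.minimalPeriod M.rot x

omit [Fintype D] in
private theorem Loc_succ (M : CMap D) (x : D × Bool) (s : ℕ) :
    (M.rot ^ (s + 1)) x = M.corner (fl ((M.rot ^ s) x)) := by
  rw [pow_succ', Equiv.Perm.mul_apply]
  rfl

omit [Fintype D] in
private theorem Loc_add (M : CMap D) (x : D × Bool) (s t : ℕ) :
    (M.rot ^ s) ((M.rot ^ t) x) = (M.rot ^ (s + t)) x := by
  rw [pow_add, Equiv.Perm.mul_apply]

omit [Fintype D] in
private theorem Loc_cancel (M : CMap D) {x : D × Bool} {s t : ℕ}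
    (h : (M.rot ^ (s + t)) x = (M.rot ^ t) x) : (M.rot ^ s) x = x := by
  rw [add_comm, ← Loc_add] at h
  exact (M.rot ^ t).injective h

omit [Fintype D] in
private theorem Loc_ne_fl (M : CMap D) (x : D × Bool) (s : ℕ) : (M.rot ^ s) x ≠ fl x := by
  have := M.rot_pow_ne_fl s x
  rwa [zpow_natCast] at this

omit [Fintype D] in
private theorem Loc_iter (M : CMap D) (x : D × Bool) (s : ℕ) :
    (⇑M.rot)^[s] x = (M.rot ^ s) x := by
  rw [Equiv.Perm.iterate_eq_pow]

private theorem Loc_deg_pos (M : CMap D) (x : D × Bool) : 0 < M.deg x := by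
  have h1 : (M.rot ^ orderOf M.rot) x = x := by
    rw [pow_orderOf_eq_one]
    rfl
  have h2 : Function.IsPeriodicPt M.rot (orderOf M.rot) x := by
    unfold Function.IsPeriodicPt Function.IsFixedPt
    rw [Loc_iter, h1]
  exact h2.minimalPeriod_pos (orderOf_pos M.rot)

omit [Fintype D] in
private theorem Loc_pow_deg (M : CMap D) (x : D × Bool) : (M.rot ^ M.deg x) x = x := by
  rw [← Loc_iter]
  exact Function.iterate_minimalPeriod

omit [Fintype D] in
private theorem Loc_pow_ne (M : CMap D) {x : D × Bool} {s : ℕ} (h0 : 0 < s) (h1 : s < M.deg x) :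
    (M.rot ^ s) x ≠ x := by
  intro h
  rw [← Loc_iter] at h
  exact Function.not_isPeriodicPt_of_pos_of_lt_minimalPeriod h0.ne' h1 h

theorem CMap.rot_fst_ne (M : CMap D) (x : D × Bool) (s : ℕ) (h : ((M.rot ^ s) x) ≠ x) :
    ((M.rot ^ s) x).1 ≠ x.1 := by
  intro h1
  rcases eq_or_eq_fl h1 with h2 | h2
  · exact h h2
  · exact Loc_ne_fl M x s h2

/-- the darts of the vertex of `x` are visited exactly once by `rot ^ s x`, `s < deg x` -/
theorem CMap.sum_vertex {A : Type} [AddCommMonoid A] (M : CMap D) (x : D × Bool) (g : D → A) :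
    ∑ d ∈ univ.filter (fun d => M.SameV x (d, false)), g d =
      ∑ s ∈ range (M.deg x), g ((M.rot ^ s) x).1 := by
  symm
  apply Finset.sum_nbij (fun s => ((M.rot ^ s) x).1)
  · intro s _
    rw [mem_filter]
    refine ⟨mem_univ _, ?_⟩
    have h1 : M.SameV x ((M.rot ^ s) x) := (M.sameV_iff _ _).2 ⟨s, Or.inl rfl⟩
    rcases eq_or_eq_fl (x := (M.rot ^ s) x) (y := (((M.rot ^ s) x).1, false)) rfl with h2 | h2
    · rw [h2]
      exact h1
    · rw [h2]
      exact h1.trans _ _ _ (M.sameV_fl _)
  · have key : ∀ s t : ℕ, s ≤ t → t < M.deg x → ((M.rot ^ s) x).1 = ((M.rot ^ t) x).1 → s = t := by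
      intro s t hst ht h1
      obtain ⟨k, rfl⟩ := Nat.exists_eq_add_of_le' hst
      rw [← Loc_add] at h1
      by_contra hne
      refine M.rot_fst_ne ((M.rot ^ s) x) k ?_ h1.symm
      rw [Loc_add]
      intro h2
      exact Loc_pow_ne M (by omega) (by omega) (Loc_cancel M h2)
    intro s hs t ht h1
    rw [mem_coe, mem_range] at hs ht
    rcases le_total s t with h2 | h2
    · exact key s t h2 ht h1
    · exact (key t s h2 hs h1.symm).symm
  · intro d hd
    rw [mem_coe, mem_filter] at hd
    obtain ⟨n, hn⟩ := (M.sameV_iff _ _).1 hd.2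
    have hpos := Loc_deg_pos M x
    have key : ∃ m : ℕ, ((M.rot ^ m) x).1 = d := by
      rcases hn with hn | hn
      · exact ⟨n, by rw [hn]⟩
      · refine ⟨n + (M.deg x - 1), ?_⟩
        have h1 : M.rot ((M.rot ^ (n + (M.deg x - 1))) x) = M.rot (fl (d, false)) := by
          have h2 : M.rot ((M.rot ^ (n + (M.deg x - 1))) x) =
              (M.rot ^ (n + (M.deg x - 1) + 1)) x := by
            rw [pow_succ', Equiv.Perm.mul_apply]
          rw [h2, show n + (M.deg x - 1) + 1 = n + M.deg x by omega, ← Loc_add, Loc_pow_deg, hn,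
            M.rot_apply, fl_fl]
        rw [M.rot.injective h1]
        rfl
    obtain ⟨m, hm⟩ := key
    refine ⟨m % M.deg x, ?_, ?_⟩
    · rw [mem_coe, mem_range]
      exact Nat.mod_lt _ hpos
    · change ((M.rot ^ (m % M.deg x)) x).1 = d
      rw [← hm, ← Loc_iter, ← Loc_iter]
      congr 1
      exact Function.iterate_mod_minimalPeriod_eq
  · intro s _
    rfl

theorem Pic.ord_rot (M : Pic X Y w D) {x : D × Bool} (hx : M.Ord x) (s : ℕ) :
    M.Ord ((M.rot ^ s) x) := by
  obtain ⟨i, hi⟩ := hx
  refine ⟨i, ?_⟩
  induction s with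
  | zero => exact hi
  | succ s ih => rw [Loc_succ, M.kind_corner]; exact ih

theorem Pic.ord_of_sameV (M : Pic X Y w D) {x y : D × Bool} (hx : M.Ord x) (h : M.SameV x y) :
    M.Ord y := by
  have key : ∀ x y, M.SameV x y → M.kind x.1 = M.kind y.1 := by
    intro x y h
    induction h with
    | rel x y h =>
      rcases h with h | h
      · rw [h, M.kind_corner]
      · rw [h]; rfl
    | refl x => rfl
    | symm x y _ ih => exact ih.symm
    | trans x y z _ _ h1 h2 => exact h1.trans h2
  obtain ⟨i, hi⟩ := hx
  exact ⟨i, by rw [← key x y h, hi]⟩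

private theorem Loc_ord_rot' (M : Pic X Y w D) {x : D × Bool} {i : U} (hi : M.kind x.1 = Sum.inl i)
    (s : ℕ) : M.kind ((M.rot ^ s) x).1 = Sum.inl i := by
  induction s with
  | zero => exact hi
  | succ s ih => rw [Loc_succ, M.kind_corner]; exact ih

private theorem Loc_ne_opp (M : Pic X Y w D) {x y : D × Bool} (hy : M.Digon y) (hx : M.Ord x) :
    x.1 ≠ M.opp y.1 := by
  intro h
  obtain ⟨-, ⟨n, hn⟩, -⟩ := hy
  obtain ⟨i, hi⟩ := hx
  rw [h] at hi
  rw [M.across_fst] at hn
  rw [hi] at hn
  cases hn

private theorem Loc_digon_fl {M : Pic X Y w D} {x : D × Bool} {s : ℕ}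
    (h : M.Digon ((M.rot ^ (s + 1)) x)) : M.Digon (fl ((M.rot ^ s) x)) := by
  rw [Loc_succ] at h
  exact (digon_corner M _).1 h

private theorem Loc_nd_le (M : Pic X Y w D) (x : D × Bool) : M.nd x ≤ 1 := by
  unfold Pic.nd
  split_ifs <;> omega

private theorem Loc_nd_eq_one {M : Pic X Y w D} {x : D × Bool} (h : ¬ M.Digon x) : M.nd x = 1 := by
  unfold Pic.nd
  rw [if_neg h]

private theorem Loc_nd_eq_zero {M : Pic X Y w D} {x : D × Bool} (h : M.Digon x) : M.nd x = 0 := by
  unfold Pic.nd
  rw [if_pos h]

theorem arc {M : Pic X Y w D} (h : MinM Q β N M) {x : D × Bool} (hx : M.Ord x) {t : ℕ} (ht : 0 < t)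
    (hper : ∀ s, 0 < s → s ≤ t → (M.rot ^ s) x ≠ x) (hlam : M.lam x.1 = M.lam ((M.rot ^ t) x).1) :
    2 ≤ ∑ s ∈ range t, M.nd ((M.rot ^ (s + 1)) x) := by
  induction t generalizing M x with
  | zero => omega
  | succ t ih =>
    rcases Nat.eq_zero_or_pos t with rfl | ht'
    · exfalso
      have h1 : M.Ord (fl x) := hx
      refine R1 h h1 ?_ ?_
      · have h2 := M.rot_fst_ne x 1 (hper 1 one_pos (by omega))
        rwa [pow_one] at h2
      · rw [zero_add, pow_one] at hlam
        exact hlam.symm
    · have hne1 : ∀ s s' : ℕ, s < s' → s' ≤ t + 1 →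
          ((M.rot ^ s') x).1 ≠ ((M.rot ^ s) x).1 := by
        intro s s' hs hs'
        obtain ⟨k, rfl⟩ := Nat.exists_eq_add_of_lt hs
        have h1 : (M.rot ^ (s + k + 1)) x = (M.rot ^ (k + 1)) ((M.rot ^ s) x) := by
          rw [Loc_add]
          congr 2
          omega
        rw [h1]
        apply M.rot_fst_ne
        intro h2
        rw [Loc_add] at h2
        exact hper (k + 1) (by omega) (by omega) (Loc_cancel M.toCMap h2)
      by_cases hA : M.Digon ((M.rot ^ 1) x)
      · -- exchange at the first corner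
        obtain ⟨M', e1, e2, hM', e3, e4, e5, -⟩ := R4b h (Loc_digon_fl (s := 0) hA)
        have hc : M.corner (fl x) = (M.rot ^ 1) x := by rw [pow_one]; rfl
        change M'.lam x.1 = M.lam (M.corner (fl x)).1 at e3
        change M'.lam (M.corner (fl x)).1 = M.lam x.1 at e4
        rw [hc] at e4
        have hlast : M'.lam ((M.rot ^ (t + 1)) x).1 = M.lam ((M.rot ^ (t + 1)) x).1 := by
          have ho := Pic.ord_rot M hx (t + 1)
          apply e5
          · exact hne1 0 (t + 1) (by omega) le_rfl
          · exact Loc_ne_opp M (Loc_digon_fl (s := 0) hA) ho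
          · change _ ≠ (M.corner (fl x)).1
            rw [hc]
            exact hne1 1 (t + 1) (by omega) le_rfl
          · change _ ≠ M.opp (M.corner (fl x)).1
            rw [hc]
            exact Loc_ne_opp M hA ho
        have hrot : M'.rot = M.rot := by rw [e1]
        have h3 := ih (M := M') (x := (M.rot ^ 1) x) hM'
          (by
            obtain ⟨i, hi⟩ := Pic.ord_rot M hx 1
            exact ⟨i, by rw [e2]; exact hi⟩) ht'
          (by
            intro s hs hs'
            rw [hrot, Loc_add]
            intro h4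
            exact hper s hs (by omega) (Loc_cancel M.toCMap h4))
          (by
            rw [e4, hrot, Loc_add, hlast]
            exact hlam)
        rw [Finset.sum_range_succ']
        refine h3.trans (le_add_right (le_of_eq ?_))
        apply Finset.sum_congr rfl
        intro s _
        rw [nd_congr e1 e2, hrot, Loc_add]
      · by_cases hB : M.Digon ((M.rot ^ (t + 1)) x)
        · -- exchange at the last corner
          obtain ⟨M', e1, e2, hM', e3, e4, e5, -⟩ := R4b h (Loc_digon_fl hB)
          have hc : M.corner (fl ((M.rot ^ t) x)) = (M.rot ^ (t + 1)) x := by rw [Loc_succ]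
          change M'.lam ((M.rot ^ t) x).1 = M.lam (M.corner (fl ((M.rot ^ t) x))).1 at e3
          rw [hc] at e3
          have hfirst : M'.lam x.1 = M.lam x.1 := by
            apply e5
            · exact (hne1 0 t (by omega) (by omega)).symm
            · exact Loc_ne_opp M (Loc_digon_fl hB) hx
            · rw [hc]
              exact (hne1 0 (t + 1) (by omega) (by omega)).symm
            · rw [hc]
              exact Loc_ne_opp M hB hx
          have hrot : M'.rot = M.rot := by rw [e1]
          have h3 := ih (M := M') (x := x) hM'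
            (by
              obtain ⟨i, hi⟩ := hx
              exact ⟨i, by rw [e2]; exact hi⟩) ht'
            (by
              intro s hs hs'
              rw [hrot]
              exact hper s hs (by omega))
            (by
              rw [hrot, hfirst, e3]
              exact hlam)
          rw [Finset.sum_range_succ]
          refine h3.trans (le_add_right (le_of_eq ?_))
          apply Finset.sum_congr rfl
          intro s _
          rw [nd_congr e1 e2, hrot]
        · rw [Finset.sum_range_succ]
          have h1 : M.nd ((M.rot ^ (0 + 1)) x) ≤ ∑ s ∈ range t, M.nd ((M.rot ^ (s + 1)) x) :=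
            Finset.single_le_sum (f := fun s => M.nd ((M.rot ^ (s + 1)) x))
              (fun _ _ => Nat.zero_le _) (mem_range.2 ht')
          rw [zero_add, Loc_nd_eq_one hA] at h1
          rw [Loc_nd_eq_one hB]
          omega

private theorem Loc_move {M : Pic X Y w D} (h : MinM Q β N M) {x : D × Bool} {t : ℕ}
    (hper : ∀ s, 0 < s → s ≤ t → (M.rot ^ s) x ≠ x)
    (hdig : ∀ s < t, M.Digon ((M.rot ^ (s + 1)) x)) :
    ∃ M' : Pic X Y w D, M'.toCMap = M.toCMap ∧ M'.kind = M.kind ∧ MinM Q β N M' ∧
      M'.lam x.1 = M.lam ((M.rot ^ t) x).1 ∧ M'.K (M.across x) = M.K (M.across x) := by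
  induction t generalizing M with
  | zero => exact ⟨M, rfl, rfl, h, rfl, rfl⟩
  | succ t ih =>
    obtain ⟨M₁, e1, e2, hM₁, e3, -, -, e6⟩ := R4b h (Loc_digon_fl (hdig t (by omega)))
    have hc : M.corner (fl ((M.rot ^ t) x)) = (M.rot ^ (t + 1)) x := by rw [Loc_succ]
    change M₁.lam ((M.rot ^ t) x).1 = M.lam (M.corner (fl ((M.rot ^ t) x))).1 at e3
    rw [hc] at e3
    have hrot : M₁.rot = M.rot := by rw [e1]
    have hac : M₁.across x = M.across x := by rw [e1]
    obtain ⟨M', g1, g2, hM', g3, g4⟩ := ih (M := M₁) hM₁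
      (by
        intro s hs hs'
        rw [hrot]
        exact hper s hs (by omega))
      (by
        intro s hs
        rw [hrot, digon_congr e1 e2]
        exact hdig s (by omega))
    refine ⟨M', g1.trans e1, g2.trans e2, hM', ?_, ?_⟩
    · rw [g3, hrot, e3]
    · rw [hac] at g4
      rw [g4]
      apply e6
      · intro h1
        have h2 := congrArg M.across h1
        rw [M.across_across, M.across_across] at h2
        have h3 := congrArg fl h2
        rw [fl_fl] at h3
        exact Loc_ne_fl M.toCMap x t h3.symm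
      · rw [hc]
        intro h1
        have h2 := congrArg M.across h1
        rw [M.across_across, M.across_across] at h2
        exact hper (t + 1) (by omega) le_rfl h2.symm

theorem run {M : Pic X Y w D} (h : MinM Q β N M) {x : D × Bool} (hx : M.Ord x) {t : ℕ} (ht : 0 < t)
    (hper : ∀ s, 0 < s → s ≤ t → (M.rot ^ s) x ≠ x)
    (hdig : ∀ s < t, M.Digon ((M.rot ^ (s + 1)) x)) : t + 1 ≤ 2 * w := by
  obtain ⟨i, hi⟩ := hx
  have hsing : ∀ s, ∃ e, star X Y i e ≠ 0 ∧ M.lam ((M.rot ^ s) x).1 = Pi.single e 1 :=
    fun s => exists_single h (Loc_ord_rot' M hi s)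
  choose e he1 he2 using hsing
  have hinj : ∀ s s' : ℕ, s < s' → s' ≤ t → e s ≠ e s' := by
    intro s s' hs hs' hee
    obtain ⟨k, rfl⟩ := Nat.exists_eq_add_of_lt hs
    have hk : ∀ r, (M.rot ^ r) ((M.rot ^ s) x) = (M.rot ^ (r + s)) x := fun r => Loc_add M.toCMap x r s
    have h1 := arc h (x := (M.rot ^ s) x) (Pic.ord_rot M ⟨i, hi⟩ s) (t := k + 1) (by omega)
      (by
        intro r hr hr' h2
        rw [hk] at h2
        exact hper r hr (by omega) (Loc_cancel M.toCMap h2))
      (by rw [hk, he2, he2, show k + 1 + s = s + k + 1 by omega, hee])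
    have h2 : ∑ r ∈ range (k + 1), M.nd ((M.rot ^ (r + 1)) ((M.rot ^ s) x)) = 0 := by
      apply Finset.sum_eq_zero
      intro r hr
      rw [mem_range] at hr
      apply Loc_nd_eq_zero
      rw [hk, show r + 1 + s = (r + s) + 1 by omega]
      exact hdig _ (by omega)
    omega
  -- the dart of `x` leads to a vortex
  obtain ⟨-, ⟨n, hn⟩, -⟩ := Loc_digon_fl (s := 0) (hdig 0 ht)
  have hn' : M.kind (M.opp x.1) = Sum.inr n := hn
  have hfull : ¬ Absb X Y w i (M.K (M.across x)) := by
    refine R4a h (x := M.across x) (n := n) (i := i) hn' ?_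
    rw [M.across_fst, M.opp_opp]
    exact hi
  obtain ⟨G, hG1, hG2⟩ := exists_gset h.good h.big (M.vor_supp (M.across x) n hn')
    (M.vor_nu (M.across x) n hn') i hfull
  have hmem : ∀ s ≤ t, e s ∈ G := by
    intro s hs
    obtain ⟨M', g1, g2, hM', g3, g4⟩ := Loc_move h (x := x) (t := s)
      (fun r hr hr' => hper r hr (by omega)) (fun r hr => hdig r (by omega))
    have hn2 : M'.kind (M.opp x.1) = Sum.inr n := by rw [g2]; exact hn'
    refine hG2 (e s) (M'.K (fl (M.across x))) (M'.T (M.opp x.1)) (he1 s)
      (M'.vor_nu _ n hn2) (M'.vor_T _ n hn2) ?_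
    have hopp : M'.opp = M.opp := by rw [g1]
    have h1 := M'.vor_eqn (M.opp x.1) n hn2
    have h2 : M'.lam (M.opp x.1) = Pi.single (e s) 1 := by
      rw [← hopp, M'.lam_opp, g3, he2]
    rw [← g4, ← h2, ← h1]
    rcases Bool.eq_false_or_eq_true (M.across x).2 with hb | hb
    · have h3 : M.across x = (M.opp x.1, true) := Prod.ext rfl hb
      rw [h3, add_comm]
      rfl
    · have h3 : M.across x = (M.opp x.1, false) := Prod.ext rfl hb
      rw [h3]
      rfl
  have hcard : (range (t + 1)).card ≤ G.card := by
    apply Finset.card_le_card_of_injOn e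
    · intro s hs
      rw [mem_coe, mem_range] at hs
      exact hmem s (by omega)
    · intro s hs s' hs' hee
      rw [mem_coe, mem_range] at hs hs'
      by_contra hne
      rcases Nat.lt_or_gt_of_ne hne with h1 | h1
      · exact hinj s s' h1 (by omega) hee
      · exact hinj s' s h1 (by omega) hee.symm
  rw [card_range] at hcard
  omega

private theorem Loc_ge_arcs {M : Pic X Y w D} (h : MinM Q β N M) {x : D × Bool} (hx : M.Ord x)
    {t : ℕ} (ht : 0 < t) (ht' : t < M.deg x) (hlam : M.lam x.1 = M.lam ((M.rot ^ t) x).1) :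
    4 ≤ ∑ s ∈ range (M.deg x), M.nd ((M.rot ^ s) x) := by
  have h1 := arc h hx ht (fun s hs hs' => Loc_pow_ne M.toCMap hs (by omega)) hlam
  have h2 := arc h (x := (M.rot ^ t) x) (Pic.ord_rot M hx t) (t := M.deg x - t) (by omega)
    (by
      intro s hs hs' h3
      rw [Loc_add] at h3
      exact Loc_pow_ne M.toCMap hs (by omega) (Loc_cancel M.toCMap h3))
    (by rw [Loc_add, show M.deg x - t + t = M.deg x by omega, Loc_pow_deg, hlam])
  have h3 : ∑ s ∈ range (M.deg x), M.nd ((M.rot ^ s) x) =
      ∑ s ∈ range (M.deg x), M.nd ((M.rot ^ (s + 1)) x) := by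
    have h4 := Finset.sum_range_succ (fun s => M.nd ((M.rot ^ s) x)) (M.deg x)
    have h5 := Finset.sum_range_succ' (fun s => M.nd ((M.rot ^ s) x)) (M.deg x)
    rw [h4] at h5
    rw [Loc_pow_deg, pow_zero, Equiv.Perm.one_apply] at h5
    omega
  have h4 : ∑ s ∈ range (M.deg x), M.nd ((M.rot ^ (s + 1)) x) =
      ∑ s ∈ range t, M.nd ((M.rot ^ (s + 1)) x) +
        ∑ s ∈ range (M.deg x - t), M.nd ((M.rot ^ (s + 1)) ((M.rot ^ t) x)) := by
    obtain ⟨k, hk⟩ := Nat.exists_eq_add_of_le ht'.le
    rw [hk, Finset.sum_range_add, Nat.add_sub_cancel_left]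
    congr 1
    apply Finset.sum_congr rfl
    intro s _
    rw [Loc_add, show s + 1 + t = t + s + 1 by omega]
  rw [h3, h4]
  omega

private theorem Loc_kind {M : Pic X Y w D} {x : D × Bool} {i : U} (hi : M.kind x.1 = Sum.inl i)
    {d : D} (hd : M.SameV x (d, false)) : M.kind d = Sum.inl i := by
  have key : ∀ x y, M.SameV x y → M.kind x.1 = M.kind y.1 := by
    intro x y h
    induction h with
    | rel x y h =>
      rcases h with h | h
      · rw [h, M.kind_corner]
      · rw [h]; rfl
    | refl x => rfl
    | symm x y _ ih => exact ih.symm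
    | trans x y z _ _ h1 h2 => exact h1.trans h2
  have := key _ _ hd
  rw [hi] at this
  exact this.symm

private theorem Loc_odd_deg {M : Pic X Y w D} (h : MinM Q β N M) {x : D × Bool} (hx : M.Ord x)
    (hodd : ∑ d ∈ univ.filter (fun d => M.SameV x (d, false)), M.lam d ≠ 0) : Q ≤ M.deg x := by
  obtain ⟨i, hi⟩ := hx
  set F := univ.filter (fun d => M.SameV x (d, false)) with hF
  have h1 := M.ord_sum x i hi
  rw [← hF, Finset.sum_add_distrib] at h1
  have h2 : ∑ d ∈ F, dl X Y (M.T d) = ((∑ d ∈ F, M.T d) i) • star X Y i := by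
    rw [← dl_sum]
    apply dl_single
    intro j hj
    rw [Finset.sum_apply]
    apply Finset.sum_eq_zero
    intro d hd
    rw [hF, mem_filter] at hd
    exact M.ord_T d i (Loc_kind hi hd.2) j hj
  have h3 : ∑ d ∈ F, M.lam d = ((∑ d ∈ F, M.T d) i) • star X Y i := by
    rw [← h2]
    have h4 := congrArg (fun K => K + ∑ d ∈ F, dl X Y (M.T d)) h1
    simp only [zero_add] at h4
    rw [add_assoc, ch_add_self, add_zero] at h4
    exact h4
  have h4 : ∑ d ∈ F, M.lam d = star X Y i := by
    have h5 : ∀ c : ZMod 2, c = 0 ∨ c = 1 := by decide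
    rcases h5 ((∑ d ∈ F, M.T d) i) with h6 | h6
    · rw [h6, zero_smul] at h3
      exact absurd h3 hodd
    · rw [h6, one_smul] at h3
      exact h3
  have h5 : F.card = M.deg x := by
    rw [Finset.card_eq_sum_ones, hF, M.sum_vertex x (fun _ => 1)]
    simp
  have h6 : ∀ j ∈ Y.filter (fun j => X.Adj i j), ∃ d ∈ F, M.lam d s(i, j) ≠ 0 := by
    intro j hj
    rw [mem_filter] at hj
    by_contra hcon
    push Not at hcon
    have h7 : star X Y i s(i, j) ≠ 0 := by
      rw [star_ne]
      refine ⟨(SimpleGraph.mem_edgeSet _).2 hj.2, Sym2.mem_mk_left _ _, ?_⟩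
      intro k hk
      rw [Sym2.mem_iff] at hk
      rcases hk with rfl | rfl
      · exact ord_mem h hi
      · exact hj.1
    apply h7
    rw [← h4, Finset.sum_apply]
    exact Finset.sum_eq_zero hcon
  have hne : Nonempty D := ⟨x.1⟩
  choose! f hf1 hf2 using h6
  have h7 : (Y.filter (fun j => X.Adj i j)).card ≤ F.card := by
    apply Finset.card_le_card_of_injOn f
    · intro j hj
      exact hf1 j hj
    · intro j hj j' hj' hjj
      have h8 := hf2 j hj
      have h9 := hf2 j' hj'
      rw [← hjj] at h9
      have h10 := hf1 j hj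
      rw [hF, mem_filter] at h10
      obtain ⟨e, -, he⟩ := exists_single h (Loc_kind hi h10.2)
      rw [he] at h8 h9
      have h11 : s(i, j) = e := by
        by_contra hne
        exact h8 (Pi.single_eq_of_ne hne 1)
      have h12 : s(i, j') = e := by
        by_contra hne
        exact h9 (Pi.single_eq_of_ne hne 1)
      rw [← h12] at h11
      exact Sym2.congr_right.1 h11
  rw [← h5]
  exact (h.good.deg i (ord_mem h hi)).trans h7

theorem vert_ge_odd {M : Pic X Y w D} (h : MinM Q β N M) {x : D × Bool} (hx : M.Ord x)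
    (hodd : ∑ d ∈ univ.filter (fun d => M.SameV x (d, false)), M.lam d ≠ 0) :
    5 ≤ ∑ s ∈ range (M.deg x), M.nd ((M.rot ^ s) x) := by
  have hQ := Loc_odd_deg h hx hodd
  have hbig := h.big
  set L := 2 * w + 1 with hL
  have hdeg : 5 * L + 1 ≤ M.deg x := by omega
  have hwin : ∀ k, k < 5 → ∃ r, r < L ∧ M.nd ((M.rot ^ (k * L + r + 1)) x) = 1 := by
    intro k hk
    by_contra hcon
    push Not at hcon
    have hkL : k * L ≤ 4 * L := Nat.mul_le_mul_right L (by omega)
    have h1 := run h (x := (M.rot ^ (k * L)) x) (Pic.ord_rot M hx _) (t := L) (by omega)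
      (by
        intro s hs hs' h3
        rw [Loc_add] at h3
        exact Loc_pow_ne M.toCMap hs (by omega) (Loc_cancel M.toCMap h3))
      (by
        intro s hs
        rw [Loc_add]
        by_contra h3
        refine hcon s hs ?_
        rw [show k * L + s + 1 = s + 1 + k * L by omega]
        exact Loc_nd_eq_one h3)
    omega
  choose! r hr1 hr2 using hwin
  have h1 : ∀ k k' : ℕ, k < k' → k' < 5 → k * L + r k + 1 < k' * L + r k' + 1 := by
    intro k k' hk hk'
    have h2 := hr1 k (by omega)
    have h3 : (k + 1) * L ≤ k' * L := Nat.mul_le_mul_right L hk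
    rw [Nat.add_mul, one_mul] at h3
    omega
  have h2 : ((range 5).image (fun k => k * L + r k + 1)).card = 5 := by
    rw [Finset.card_image_of_injOn, card_range]
    intro k hk k' hk' hkk
    rw [mem_coe, mem_range] at hk hk'
    simp only at hkk
    by_contra hne
    rcases Nat.lt_or_gt_of_ne hne with h3 | h3
    · have := h1 k k' h3 hk'
      omega
    · have := h1 k' k h3 hk
      omega
  calc 5 = ∑ s ∈ (range 5).image (fun k => k * L + r k + 1), 1 := by
        rw [Finset.sum_const, h2]
        rfl
    _ = ∑ s ∈ (range 5).image (fun k => k * L + r k + 1), M.nd ((M.rot ^ s) x) := by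
        apply Finset.sum_congr rfl
        intro s hs
        rw [mem_image] at hs
        obtain ⟨k, hk, rfl⟩ := hs
        rw [mem_range] at hk
        exact (hr2 k hk).symm
    _ ≤ ∑ s ∈ range (M.deg x), M.nd ((M.rot ^ s) x) := by
        apply Finset.sum_le_sum_of_subset
        intro s hs
        rw [mem_image] at hs
        obtain ⟨k, hk, rfl⟩ := hs
        rw [mem_range] at hk
        have h3 := hr1 k hk
        have h4 : k * L ≤ 4 * L := Nat.mul_le_mul_right L (by omega)
        rw [mem_range]
        omega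

theorem vert_ge {M : Pic X Y w D} (h : MinM Q β N M) {x : D × Bool} (hx : M.Ord x) :
    4 ≤ ∑ s ∈ range (M.deg x), M.nd ((M.rot ^ s) x) := by
  by_cases hodd : ∑ d ∈ univ.filter (fun d => M.SameV x (d, false)), M.lam d = 0
  · obtain ⟨i, hi⟩ := hx
    obtain ⟨e, he1, he2⟩ := exists_single h hi
    rw [M.sum_vertex x M.lam] at hodd
    have h1 := congrFun hodd e
    rw [Finset.sum_apply] at h1
    have hpos := Loc_deg_pos M.toCMap x
    have h2 : ∃ t, 0 < t ∧ t < M.deg x ∧ M.lam ((M.rot ^ t) x).1 e ≠ 0 := by
      by_contra hcon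
      push Not at hcon
      rw [Finset.sum_eq_single 0] at h1
      · rw [pow_zero, Equiv.Perm.one_apply, he2, Pi.single_eq_same, Pi.zero_apply] at h1
        exact absurd h1 (by decide)
      · intro t ht ht'
        rw [mem_range] at ht
        exact hcon t (by omega) ht
      · intro h3
        exact absurd (mem_range.2 hpos) h3
    obtain ⟨t, ht, ht', h3⟩ := h2
    obtain ⟨e', -, he'⟩ := exists_single h (Loc_ord_rot' M hi t)
    have h4 : e = e' := by
      by_contra hne
      rw [he'] at h3
      exact h3 (Pi.single_eq_of_ne hne 1)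
    exact Loc_ge_arcs h ⟨i, hi⟩ ht ht' (by rw [he2, he', h4])
  · exact le_trans (by norm_num) (vert_ge_odd h hx hodd)

end Pool.Agent.HomV
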