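import Pool.Agent.HomV.Det

/-!
# R3: a minimal counterexample has no face of length 1

`corner x = across x =: x₀`, `y = fl x`, `y₀ = fl x₀`.
Ordinary: `delete_edges` for `{x.1, opp x.1}`.
Vortex: if `corner y = y₀`, then `{x.1, opp x.1}` is closed and its parity is `0` on `Y`
(`dl (T x.1 + T (opp x.1)) = 0`, small), `no_junk`.  Otherwise gauge at the corner of `y₀` by
`S = T x.1 + T (opp x.1)` (then `K y = K y₀`, the sum of the two `T` is `0`; the `T` of the dart of
`corner y₀` stays small by `rigid'`), switch at `corner y` and `y₀` (`rot (rot y₀) = corner y`),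
and make the vertex `{x.1, opp x.1}` ordinary with label, content and `T` equal to `0`.
-/

set_option autoImplicit false

namespace Pool.Agent.HomV

open Finset Classical

variable {U : Type} [Fintype U] {X : SimpleGraph U} {Y : Finset U} {w : ℕ} {D : Type} [Fintype D]
  {Q N : ℕ} {β : Prop}

theorem sum_pair_filter {α : Type} [AddCommMonoid α] {d e : D} (hde : d ≠ e) {P : Set D}
    (hP : ∀ x, x ∈ P ↔ x = d ∨ x = e) (f : D → α) :
    ∑ a ∈ univ.filter (fun a => a ∈ P), f a = f d + f e := by
  have : univ.filter (fun a => a ∈ P) = {d, e} := by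
    ext a
    simp only [mem_filter, mem_univ, true_and, hP, mem_insert, mem_singleton]
  rw [this, Finset.sum_pair hde]

/-- no loop at an ordinary vertex -/
theorem no_loop {M : Pic X Y w D} (h : MinM Q β N M) {d : D} {i : U}
    (hd : M.kind d = Sum.inl i) : ¬ M.SameV (d, false) (M.opp d, false) := by
  intro hs
  obtain ⟨Z, hZ⟩ := exists_pair d (M.opp d)
  have hopp : ∀ a ∈ Z, M.opp a ∈ Z := by
    intro a ha
    rw [hZ] at ha ⊢
    rcases ha with rfl | rfl
    · exact Or.inr rfl
    · exact Or.inl (M.opp_opp d)
  have hord : ∀ a ∈ Z, ∃ i, M.kind a = Sum.inl i := by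
    intro a ha
    rw [hZ] at ha
    rcases ha with rfl | rfl
    · exact ⟨i, hd⟩
    · exact ⟨i, by rw [← hd]; exact (M.kind_sameV hs).symm⟩
  have hE := delete_edges h Z hopp hord (by
    intro x _
    by_cases hx : M.SameV x (d, false)
    · have h1 : (univ.filter fun a => M.SameV x (a, false) ∧ a ∈ Z) = univ.filter (fun a => a ∈ Z) := by
        ext a
        simp only [mem_filter, mem_univ, true_and]
        refine ⟨fun h => h.2, fun h => ⟨?_, h⟩⟩
        rw [hZ] at h
        rcases h with rfl | rfl
        · exact hx
        · exact hx.trans _ _ _ hs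
      rw [h1, sum_pair_filter (M.opp_ne d).symm hZ, M.lam_opp, ch_add_self]
    · refine Finset.sum_eq_zero fun a ha => ?_
      exfalso
      rw [mem_filter, hZ] at ha
      rcases ha.2 with ⟨h1, rfl | rfl⟩
      · exact hx h1
      · exact hx (h1.trans _ _ _ hs.symm))
  have : d ∈ Z := (hZ d).2 (Or.inl rfl)
  rw [hE] at this
  exact this

theorem R3 {M : Pic X Y w D} (h : MinM Q β N M) (x : D × Bool) : M.corner x ≠ M.across x := by
  intro hx
  have hSV : M.SameV x (M.across x) := by rw [← hx]; exact M.sameV_corner x
  rcases hk : M.kind x.1 with i | n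
  · refine no_loop h hk ?_
    have h1 : M.SameV x (M.opp x.1, false) := (M.toCMap.sameV_false (y := M.across x)).2 hSV
    exact ((M.toCMap.sameV_false (y := x)).2 (Relation.EqvGen.refl _)).symm.trans _ _ _ h1
  · -- the four flags
    have hoc : M.corner (M.across x) = x := by rw [← hx, M.cc]
    have hk₀ : M.kind (M.across x).1 = Sum.inr n := by rw [← M.kind_sameV hSV]; exact hk
    have hne : M.opp x.1 ≠ x.1 := M.opp_ne x.1
    have hK₀ : M.K (M.across x) = M.K x := by rw [← hx]; exact M.vor_K x n hk
    have e1 : M.K x + M.K (fl x) = M.lam x.1 + dl X Y (M.T x.1) := by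
      rw [M.K_fl]; exact M.vor_eqn x.1 n hk
    have e2 : M.K x + M.K (fl (M.across x)) = M.lam x.1 + dl X Y (M.T (M.opp x.1)) := by
      rw [← hK₀, M.K_fl, ← M.lam_opp x.1]
      exact M.vor_eqn (M.across x).1 n hk₀
    have e3 : M.K (fl (M.across x)) + dl X Y (M.T x.1 + M.T (M.opp x.1)) = M.K (fl x) := by
      rw [ch_eq_of_add e1, ch_eq_of_add e2, dl_add]
      have : ∀ a b c d : Ch U, a + (b + d) + (c + d) = a + (b + c) + (d + d) := by
        intro a b c d; ring
      rw [this, ch_add_self, add_zero]
    obtain ⟨P, hP⟩ := exists_pair x.1 (M.opp x.1)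
    have hPopp : ∀ a ∈ P, M.opp a ∈ P := by
      intro a ha
      rw [hP] at ha ⊢
      rcases ha with rfl | rfl
      · exact Or.inr rfl
      · exact Or.inl (M.opp_opp x.1)
    -- flags over `P`
    have hPf : ∀ f : D × Bool, f.1 ∈ P → f = x ∨ f = fl x ∨ f = M.across x ∨ f = fl (M.across x) := by
      intro f hf
      rw [hP] at hf
      rcases hf with hf | hf
      · rcases eq_or_eq_fl hf with h1 | h1
        · exact Or.inl h1
        · exact Or.inr (Or.inl h1)
      · rcases eq_or_eq_fl (x := M.across x) hf with h1 | h1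
        · exact Or.inr (Or.inr (Or.inl h1))
        · exact Or.inr (Or.inr (Or.inr h1))
    have hsz : sz Y (M.T x.1 + M.T (M.opp x.1)) ≤ 2 * (4 * w + 2) := by
      have h1 := sz_add_le (Y := Y) (M.T x.1) (M.T (M.opp x.1))
      have h2 := M.vor_T x.1 n hk
      have h3 := M.vor_T _ n hk₀
      have h4 : (M.across x).1 = M.opp x.1 := rfl
      rw [h4] at h3
      omega
    obtain ⟨i₀, hi₀⟩ := h.good.ne
    by_cases hy : M.corner (fl x) = fl (M.across x)
    · refine h.no_junk h.cex P ⟨hPopp, ?_⟩ ⟨x.1, (hP _).2 (Or.inl rfl)⟩ hi₀ ?_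
      · intro f hf
        rw [hP]
        rcases hPf f hf with rfl | rfl | rfl | rfl
        · right; rw [hx]; rfl
        · right; rw [hy]; rfl
        · left; rw [hoc]
        · left; rw [← hy, M.cc]; rfl
      · rw [sum_pair_filter hne.symm hP]
        have h1 : M.K (fl (M.across x)) = M.K (fl x) := by
          rw [← hy]; exact M.vor_K (fl x) n hk
        have h2 : dl X Y (M.T x.1 + M.T (M.opp x.1)) = 0 := by
          rw [h1] at e3
          exact add_eq_left.1 e3
        have hb := h.big
        exact eq_of_dl_eq_zero h.good h2 (by omega) (by omega) i₀ hi₀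
    · have hc1 : M.corner (fl (M.across x)) ≠ fl x := fun h' => hy (by rw [← h', M.cc])
      have hc2 : ∀ f : D × Bool, f.1 ∈ P → M.corner (fl (M.across x)) ≠ f := by
        intro f hf h'
        rcases hPf f hf with rfl | rfl | rfl | rfl
        · have := congrArg M.corner h'
          rw [M.cc, hx] at this
          exact fl_ne _ this
        · exact hc1 h'
        · have := congrArg M.corner h'
          rw [M.cc, hoc] at this
          exact hne (congrArg Prod.fst this)
        · exact M.corner_ne _ h'
      have hc3 : (M.corner (fl (M.across x))).1 ∉ P := fun h' => hc2 _ h' rfl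
      have hc4 : (M.corner (fl (M.across x))).1 ≠ x.1 := fun h' => hc3 (by rw [h', hP]; exact Or.inl rfl)
      have hc5 : (M.corner (fl (M.across x))).1 ≠ M.opp x.1 :=
        fun h' => hc3 (by rw [h', hP]; exact Or.inr rfl)
      have hyy : fl x ≠ fl (M.across x) := fun h' => hne (congrArg Prod.fst h').symm
      have hnu : NuLe (M.K (fl (M.across x)) + dl X Y (M.T x.1 + M.T (M.opp x.1))) w := by
        rw [e3]; exact M.vor_nu _ n hk
      set M₁ := M.gauge h.good h.big (fl (M.across x)) (M.T x.1 + M.T (M.opp x.1)) n hk₀ hsz hnu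
        with hM₁
      have hC₁ : Cex β N M₁ :=
        M.gauge_cex h.good h.big (fl (M.across x)) _ n hk₀ hsz hnu h.cex
      have hK₁ : M₁.K (fl x) = M₁.K (fl (M.across x)) := by
        rw [hM₁, Pic.gauge_K, Pic.gauge_K, if_neg hyy, if_neg hc1.symm, if_pos rfl,
          if_neg (M.corner_ne _).symm, add_zero, add_zero, add_zero, e3]
      have hT₁ : M₁.T x.1 + M₁.T (M.opp x.1) = 0 := by
        have h1 : x.1 ≠ (fl (M.across x)).1 := hne.symm
        have h2 : M.opp x.1 = (fl (M.across x)).1 := rfl
        rw [hM₁, Pic.gauge_T, Pic.gauge_T, if_neg h1, if_neg hc4.symm, if_pos h2,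
          if_neg hc5.symm, add_zero, add_zero, add_zero]
        have : ∀ a b : U → ZMod 2, a + (b + (a + b)) = (a + a) + (b + b) := by
          intro a b; ring
        rw [this, tt_add_self, tt_add_self, add_zero]
      -- the switch
      have hk₁ : M₁.kind (M.corner (fl x)).1 = Sum.inr n := by
        have : M₁.kind (M.corner (fl x)).1 = M.kind (M.corner (fl x)).1 := rfl
        rw [this, M.kind_corner]; exact hk
      have hpq : M₁.SameV (M.corner (fl x)) (fl (M.across x)) :=
        (M.sameV_corner _).symm.trans _ _ _ ((M.sameV_fl x).symm.trans _ _ _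
          (hSV.trans _ _ _ (M.sameV_fl _)))
      have hK₂ : M₁.K (M.corner (fl x)) = M₁.K (fl (M.across x)) := by
        rw [← hK₁]; exact M₁.vor_K (fl x) n hk
      have h' : fl (M.across x) ≠ M.corner (M.corner (fl x)) := by
        rw [M.cc]; exact hyy.symm
      have hxc : ∀ f, f = x ∨ f = M.across x →
          (M₁.toCMap.switch (M.corner (fl x)) (fl (M.across x))).corner f = M.corner f := by
        intro f hf
        have hcf : M.corner f = x ∨ M.corner f = M.across x := by
          rcases hf with rfl | rfl
          · right; exact hx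
          · left; exact hoc
        have a1 : x ≠ fl x := (fl_ne x).symm
        have a2 : x ≠ fl (M.across x) := fun h => hne (congrArg Prod.fst h).symm
        have a3 : M.across x ≠ fl x := fun h => hne (congrArg Prod.fst h)
        have a4 : M.across x ≠ fl (M.across x) := (fl_ne _).symm
        refine M.toCMap.switch_corner_of_ne ?_ ?_ ?_ ?_
        · intro h1
          have : M.corner f = fl x := by rw [h1, M.cc]
          rcases hcf with h2 | h2
          · exact a1 (h2.symm.trans this)
          · exact a3 (h2.symm.trans this)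
        · rcases hf with rfl | rfl
          · exact a2
          · exact a4
        · rw [M.cc]
          rcases hf with rfl | rfl
          · exact a1
          · exact a3
        · intro h1
          have : M.corner f = fl (M.across x) := by rw [h1, M.cc]
          rcases hcf with h2 | h2
          · exact a2 (h2.symm.trans this)
          · exact a4 (h2.symm.trans this)
      have hPc : ∀ f : D × Bool, f.1 ∈ P →
          ((M₁.toCMap.switch (M.corner (fl x)) (fl (M.across x))).corner f).1 ∈ P := by
        intro f hf
        rw [hP]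
        rcases hPf f hf with rfl | rfl | rfl | rfl
        · right; rw [hxc _ (Or.inl rfl), hx]; rfl
        · right
          have h1 := CMap.switch_corner_cp (M := M.toCMap) h'
          rw [M.cc] at h1
          have h2 : (M₁.toCMap.switch (M.corner (fl x)) (fl (M.across x))).corner (fl x) =
            fl (M.across x) := h1
          rw [h2]; rfl
        · left; rw [hxc _ (Or.inr rfl), hoc]
        · left
          have h1 := CMap.switch_corner_q (M := M.toCMap) h'
          rw [M.cc] at h1
          have h2 : (M₁.toCMap.switch (M.corner (fl x)) (fl (M.across x))).corner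
            (fl (M.across x)) = fl x := h1
          rw [h2]; rfl
      have hlam : ∀ d ∈ P, M₁.opp d ∉ P → M₁.lam d = 0 := fun d hd h1 => absurd (hPopp d hd) h1
      have hg : (M₁.toCMap.switch (M.corner (fl x)) (fl (M.across x))).G2 ≤ M₁.G2 := by
        rw [CMap.switch_comm]
        refine M.toCMap.G2_switch_rot _ _ 2 ?_
        rw [pow_two, Equiv.Perm.mul_apply, M.rot_apply, M.rot_apply, fl_fl, hoc]
      have hTP : ∀ i ∈ Y, ∑ d ∈ univ.filter (fun d => d ∈ P), M₁.T d i = 0 := by
        intro i _
        rw [sum_pair_filter hne.symm hP]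
        exact congrFun hT₁ i
      have hqP : (fl (M.across x)).1 ∈ P := (hP _).2 (Or.inr rfl)
      have hC₂ := M₁.toOrd_cex (M.corner (fl x)) (fl (M.across x)) n hk₁ hpq hK₂ P hqP hPc hlam i₀
        hg hTP hC₁
      refine h.no_junk hC₂ P ⟨hPopp, hPc⟩ ⟨x.1, (hP _).2 (Or.inl rfl)⟩ hi₀ ?_
      refine Finset.sum_eq_zero fun a ha => ?_
      rw [mem_filter] at ha
      rw [Pic.toOrd_T, if_pos ha.2]
      rfl

end Pool.Agent.HomV
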