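import Pool.Agent.HomV.Shr

/-!
# Operations on pictures

Re-gauging a corner of a vortex, moving odd vertices between the darts of an ordinary vertex,
splitting an ordinary vertex, splitting off a piece of a vortex and making it ordinary.
-/

set_option autoImplicit false

namespace Pool.Agent.HomV

open Finset Classical

namespace CMap

variable {D : Type} (M : CMap D)

theorem sameV_fl_right {x y : D × Bool} : M.SameV x (fl y) ↔ M.SameV x y :=
  ⟨fun h => h.trans _ _ _ (M.sameV_fl y).symm, fun h => h.trans _ _ _ (M.sameV_fl y)⟩

theorem sameV_false {x y : D × Bool} : M.SameV x (y.1, false) ↔ M.SameV x y := by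
  rcases eq_or_eq_fl (x := y) (y := (y.1, false)) rfl with h | h
  · rw [h]
  · rw [h]; exact M.sameV_fl_right

/-- a property which is invariant under `corner` and `fl` is constant on the vertices -/
theorem sameV_inv {P : D × Bool → Prop} (hc : ∀ x, P x → P (M.corner x))
    (hf : ∀ x, P x → P (fl x)) {x y : D × Bool} (h : M.SameV x y) : P x ↔ P y := by
  induction h with
  | rel u v huv =>
    rcases huv with rfl | rfl
    · exact ⟨hc u, fun h => by simpa using hc _ h⟩
    · exact ⟨hf u, fun h => by simpa using hf _ h⟩
  | refl u => exact Iff.rfl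
  | symm u v _ ih => exact ih.symm
  | trans u v t _ _ ih1 ih2 => exact ih1.trans ih2

theorem sameV_set {P : Set D} (hc : ∀ x : D × Bool, x.1 ∈ P → (M.corner x).1 ∈ P) {x y : D × Bool}
    (h : M.SameV x y) : x.1 ∈ P ↔ y.1 ∈ P :=
  M.sameV_inv (P := fun x => x.1 ∈ P) hc (fun _ h => h) h

theorem switch_corner_of_not {p q x : D × Bool} (hp : ¬ M.SameV p x) (hq : ¬ M.SameV q x) :
    (M.switch p q).corner x = M.corner x := by
  refine M.switch_corner_of_ne ?_ ?_ ?_ ?_
  · rintro rfl; exact hp (Relation.EqvGen.refl _)
  · rintro rfl; exact hq (Relation.EqvGen.refl _)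
  · rintro rfl; exact hp (M.sameV_corner p)
  · rintro rfl; exact hq (M.sameV_corner q)

/-- the vertices after merging two vertices -/
theorem sameV_merge [Finite D] {p q : D × Bool} (h : ¬ M.SameV p q) {x y : D × Bool} :
    (M.switch p q).SameV x y ↔
      M.SameV x y ∨ ((M.SameV p x ∨ M.SameV q x) ∧ (M.SameV p y ∨ M.SameV q y)) := by
  have h' : q ≠ M.corner p := fun e => h (by rw [e]; exact M.sameV_corner p)
  have lpq : (M.switch p q).SameV p q := by
    have h1 := (M.switch p q).sameV_corner p
    rw [switch_corner_p h'] at h1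
    exact h1.trans _ _ _ (M.sameV_switch_of_not h (M.sameV_corner q).symm)
  constructor
  · intro hxy
    by_cases hx : M.SameV p x ∨ M.SameV q x
    · right
      refine ⟨hx, ?_⟩
      refine ((M.switch p q).sameV_inv (P := fun x => M.SameV p x ∨ M.SameV q x) ?_ ?_ hxy).1 hx
      · intro u hu
        by_cases h1 : u = p
        · subst h1; rw [switch_corner_p h']; exact Or.inr (M.sameV_corner q)
        by_cases h2 : u = q
        · subst h2; rw [switch_corner_q h']; exact Or.inl (M.sameV_corner p)
        by_cases h3 : u = M.corner p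
        · subst h3; rw [switch_corner_cp h']; exact Or.inr (Relation.EqvGen.refl _)
        by_cases h4 : u = M.corner q
        · subst h4; rw [switch_corner_cq h']; exact Or.inl (Relation.EqvGen.refl _)
        rw [M.switch_corner_of_ne h1 h2 h3 h4]
        exact hu.imp (fun h => h.trans _ _ _ (M.sameV_corner u))
          (fun h => h.trans _ _ _ (M.sameV_corner u))
      · intro u hu
        exact hu.imp (fun h => h.trans _ _ _ (M.sameV_fl u))
          (fun h => h.trans _ _ _ (M.sameV_fl u))
    · left
      rw [not_or] at hx
      exact (M.sameV_switch_iff hx.1 hx.2 y).1 hxy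
  · rintro (hxy | ⟨hx, hy⟩)
    · exact M.sameV_switch_of_not h hxy
    · have key : ∀ z, M.SameV p z ∨ M.SameV q z → (M.switch p q).SameV p z := by
        rintro z (hz | hz)
        · exact M.sameV_switch_of_not h hz
        · exact lpq.trans _ _ _ (M.sameV_switch_of_not h hz)
      exact (key x hx).symm.trans _ _ _ (key y hy)

end CMap

variable {U : Type} [Fintype U] {X : SimpleGraph U} {Y : Finset U} {w : ℕ} {D : Type} [Fintype D]
  {Q N : ℕ} {β : Prop}

theorem supp_zero : Supp X Y (0 : Ch U) := fun _ h => absurd rfl h

theorem inStar_zero (i : U) : InStar X Y i (0 : Ch U) := fun _ h => absurd rfl h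

theorem single_zero (i : U) : Single (0 : Ch U) := ⟨s(i, i), fun _ h => absurd rfl h⟩

theorem nuLe_zero (m : ℕ) : NuLe (0 : Ch U) m := by
  intro M hM _
  rcases M.eq_empty_or_nonempty with h | ⟨e, he⟩
  · rw [h]; exact Nat.zero_le _
  · exact absurd rfl (hM e he)

theorem ch_eq_of_add {K L R : Ch U} (h : K + L = R) : L = K + R := by
  rw [← h, ← add_assoc, ch_add_self, zero_add]

theorem tt_add_self (T : U → ZMod 2) : T + T = 0 := by
  funext i
  exact CharTwo.add_self_eq_zero _

namespace Pic

variable (M : Pic X Y w D)

theorem kind_sameV {x y : D × Bool} (h : M.SameV x y) : M.kind x.1 = M.kind y.1 := by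
  induction h with
  | rel u v huv =>
    rcases huv with rfl | rfl
    · exact (M.kind_corner u).symm
    · rfl
  | refl u => rfl
  | symm u v _ ih => exact ih.symm
  | trans u v t _ _ ih1 ih2 => exact ih1.trans ih2

theorem K_fl (f : D × Bool) : M.K f + M.K (fl f) = M.K (f.1, false) + M.K (f.1, true) := by
  obtain ⟨d, s⟩ := f
  cases s
  · rfl
  · exact add_comm _ _

theorem ite_flag (d : D) (x : D × Bool) (c : Ch U) :
    (if (d, false) = x then c else 0) + (if (d, true) = x then c else 0) =
      if d = x.1 then c else 0 := by
  obtain ⟨e, s⟩ := x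
  by_cases h : d = e
  · subst h
    cases s <;> simp
  · simp [h]

/-- change of the representative at a corner of a vortex -/
noncomputable def gauge (hG : Good X Y Q) (hQ : 200 * (w + 1) ≤ Q) (x : D × Bool)
    (S : U → ZMod 2) (n : ℕ) (hx : M.kind x.1 = Sum.inr n) (hS : sz Y S ≤ 2 * (4 * w + 2))
    (hK : NuLe (M.K x + dl X Y S) w) : Pic X Y w D :=
  have hKz : ∀ z, M.K z + (if z = x then dl X Y S else 0) +
      (if z = M.corner x then dl X Y S else 0) = if z = x ∨ z = M.corner x then M.K x + dl X Y S
        else M.K z := by
    intro z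
    by_cases h1 : z = x
    · subst h1
      simp [(M.corner_ne z).symm]
    · by_cases h2 : z = M.corner x
      · subst h2
        simp [M.corner_ne x, M.vor_K x n hx]
      · simp [h1, h2]
  have hne : ∀ d i, M.kind d = Sum.inl i → d ≠ x.1 ∧ d ≠ (M.corner x).1 := by
    intro d i hd
    constructor
    · rintro rfl; rw [hx] at hd; cases hd
    · rintro rfl; rw [M.kind_corner, hx] at hd; cases hd
  have hsupp : ∀ z m, M.kind z.1 = Sum.inr m → Supp X Y (M.K z + (if z = x then dl X Y S else 0) +
      (if z = M.corner x then dl X Y S else 0)) := by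
    intro z m hz
    refine ((M.vor_supp z m hz).add ?_).add ?_
    · split_ifs
      · exact dl_supp S
      · exact supp_zero
    · split_ifs
      · exact dl_supp S
      · exact supp_zero
  have hnu : ∀ z m, M.kind z.1 = Sum.inr m → NuLe (M.K z + (if z = x then dl X Y S else 0) +
      (if z = M.corner x then dl X Y S else 0)) w := by
    intro z m hz
    rw [hKz z]
    split_ifs
    · exact hK
    · exact M.vor_nu z m hz
  have heqn : ∀ d m, M.kind d = Sum.inr m →
      (M.K (d, false) + (if (d, false) = x then dl X Y S else 0) +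
        (if (d, false) = M.corner x then dl X Y S else 0)) +
      (M.K (d, true) + (if (d, true) = x then dl X Y S else 0) +
        (if (d, true) = M.corner x then dl X Y S else 0)) =
      M.lam d + dl X Y (M.T d + (if d = x.1 then S else 0) +
        (if d = (M.corner x).1 then S else 0)) := by
    intro d m hd
    rw [dl_add, dl_add, apply_ite (dl X Y), apply_ite (dl X Y), dl_zero, ← ite_flag d x,
      ← ite_flag d (M.corner x)]
    have h1 := M.vor_eqn d m hd
    have h2 : ∀ a b c d e f g h : Ch U, a + b = g + h →
        (a + c + d) + (b + e + f) = g + (h + (c + e) + (d + f)) := by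
      intro a b c d e f g h hab
      have : (a + c + d) + (b + e + f) = (a + b) + (c + e) + (d + f) := by ring
      rw [this, hab]
      ring
    exact h2 _ _ _ _ _ _ _ _ h1
  { toCMap := M.toCMap
    kind := M.kind
    lam := M.lam
    K := fun z => M.K z + (if z = x then dl X Y S else 0) +
      (if z = M.corner x then dl X Y S else 0)
    T := fun d => M.T d + (if d = x.1 then S else 0) + (if d = (M.corner x).1 then S else 0)
    kind_corner := M.kind_corner
    vor_conn := M.vor_conn
    lam_opp := M.lam_opp
    lam_supp := M.lam_supp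
    lam_nu := M.lam_nu
    ord_lam := M.ord_lam
    ord_T := by
      intro d i hd j hj
      obtain ⟨h1, h2⟩ := hne d i hd
      rw [if_neg h1, if_neg h2, add_zero, add_zero]
      exact M.ord_T d i hd j hj
    ord_sum := by
      intro z i hz
      rw [← M.ord_sum z i hz]
      refine Finset.sum_congr rfl fun d hd => ?_
      rw [mem_filter] at hd
      have h3 : M.kind d = Sum.inl i := by rw [← M.kind_sameV hd.2, hz]
      obtain ⟨h1, h2⟩ := hne d i h3
      rw [if_neg h1, if_neg h2, add_zero, add_zero]
    vor_K := by
      intro z m hz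
      rw [M.vor_K z m hz, add_assoc, add_assoc]
      congr 1
      rw [add_comm]
      congr 1
      · by_cases h : z = x
        · rw [if_pos h, if_pos (by rw [h])]
        · rw [if_neg h, if_neg (fun h' => h (M.corner_inj h'))]
      · by_cases h : z = M.corner x
        · rw [if_pos h, if_pos (by rw [h, M.cc])]
        · rw [if_neg h, if_neg (fun h' => h (by rw [← h', M.cc]))]
    vor_eqn := heqn
    vor_nu := hnu
    vor_supp := hsupp
    vor_T := by
      intro d m hd
      have hb : sz Y (M.T d + (if d = x.1 then S else 0) + (if d = (M.corner x).1 then S else 0)) ≤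
          5 * (4 * w + 2) := by
        have h0 := M.vor_T d m hd
        have h1 : sz Y (if d = x.1 then S else 0) ≤ 2 * (4 * w + 2) := by
          split_ifs
          · exact hS
          · rw [sz_zero]; exact Nat.zero_le _
        have h2 : sz Y (if d = (M.corner x).1 then S else 0) ≤ 2 * (4 * w + 2) := by
          split_ifs
          · exact hS
          · rw [sz_zero]; exact Nat.zero_le _
        have h3 := sz_add_le (Y := Y) (M.T d + (if d = x.1 then S else 0))
          (if d = (M.corner x).1 then S else 0)
        have h4 := sz_add_le (Y := Y) (M.T d) (if d = x.1 then S else 0)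
        omega
      have hr : NuLe (dl X Y (M.T d + (if d = x.1 then S else 0) +
          (if d = (M.corner x).1 then S else 0))) (2 * w + 1) := by
        have h1 := heqn d m hd
        have h2 := ch_eq_of_add h1.symm
        rw [h2]
        have h3 := (M.lam_nu d).add ((hnu (d, false) m hd).add (hnu (d, true) m hd))
        have h4 : 1 + (w + w) = 2 * w + 1 := by omega
        rw [h4] at h3
        exact h3
      have := rigid' hG (m := 2 * w + 1) (b := 5 * (4 * w + 2)) (by omega) hr hb
      omega
    ord_vor := by
      intro d i m hd hd'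
      rcases M.ord_vor d i m hd hd' with h | ⟨s, h⟩
      · exact Or.inl h
      · right
        refine ⟨s, ?_⟩
        rw [hKz]
        split_ifs with h1
        · have h2 : M.K (M.across (d, s)) = M.K x := by
            rcases h1 with h1 | h1
            · rw [h1]
            · rw [h1, M.vor_K x n hx]
          rw [h2] at h
          exact h.gauge hG hQ (by omega) hK
        · exact h }

section gauge

variable (hG : Good X Y Q) (hQ : 200 * (w + 1) ≤ Q) (x : D × Bool)
    (S : U → ZMod 2) (n : ℕ) (hx : M.kind x.1 = Sum.inr n) (hS : sz Y S ≤ 2 * (4 * w + 2))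
    (hK : NuLe (M.K x + dl X Y S) w)

theorem gauge_T (d : D) : (M.gauge hG hQ x S n hx hS hK).T d =
    M.T d + (if d = x.1 then S else 0) + (if d = (M.corner x).1 then S else 0) := rfl

theorem gauge_K (z : D × Bool) : (M.gauge hG hQ x S n hx hS hK).K z =
    M.K z + (if z = x then dl X Y S else 0) + (if z = M.corner x then dl X Y S else 0) := rfl

theorem gauge_map : (M.gauge hG hQ x S n hx hS hK).toCMap = M.toCMap := rfl

theorem gauge_cex (hM : Cex β N M) : Cex β N (M.gauge hG hQ x S n hx hS hK) := by
  refine ⟨?_, hM.2.1, hM.2.2⟩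
  intro i hi
  rw [← hM.1 i hi]
  have : ∀ d, (M.gauge hG hQ x S n hx hS hK).T d i = M.T d i +
      ((if d = x.1 then S i else 0) + (if d = (M.corner x).1 then S i else 0)) := by
    intro d
    rw [gauge_T]
    simp only [Pi.add_apply]
    rw [add_assoc]
    congr 2 <;> split_ifs <;> rfl
  rw [Finset.sum_congr rfl fun d _ => this d, Finset.sum_add_distrib, Finset.sum_add_distrib,
    Finset.sum_ite_eq', Finset.sum_ite_eq']
  simp only [mem_univ, if_true]
  rw [CharTwo.add_self_eq_zero, add_zero]

end gauge

/-- change of the odd vertices at the ordinary vertices -/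
noncomputable def setT (T' : D → U → ZMod 2)
    (hv : ∀ d n, M.kind d = Sum.inr n → T' d = M.T d)
    (ho : ∀ d i, M.kind d = Sum.inl i → ∀ j, j ≠ i → T' d j = 0)
    (hs : ∀ x i, M.kind x.1 = Sum.inl i →
      ∑ d ∈ univ.filter (fun d => M.SameV x (d, false)), dl X Y (T' d) =
        ∑ d ∈ univ.filter (fun d => M.SameV x (d, false)), dl X Y (M.T d)) : Pic X Y w D :=
  { toCMap := M.toCMap
    kind := M.kind
    lam := M.lam
    K := M.K
    T := T'
    kind_corner := M.kind_corner
    vor_conn := M.vor_conn
    lam_opp := M.lam_opp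
    lam_supp := M.lam_supp
    lam_nu := M.lam_nu
    ord_lam := M.ord_lam
    ord_T := ho
    ord_sum := by
      intro x i hx
      have h1 := M.ord_sum x i hx
      rw [Finset.sum_add_distrib] at h1 ⊢
      rw [hs x i hx]
      exact h1
    vor_K := M.vor_K
    vor_eqn := by
      intro d n hd
      rw [hv d n hd]
      exact M.vor_eqn d n hd
    vor_nu := M.vor_nu
    vor_supp := M.vor_supp
    vor_T := by
      intro d n hd
      rw [hv d n hd]
      exact M.vor_T d n hd
    ord_vor := M.ord_vor }

/-- move the odd vertices of the dart `d` to the dart `d₁` of the same ordinary vertex -/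
theorem exists_move {d d₁ : D} {i : U} (hd : M.kind d = Sum.inl i)
    (h : M.SameV (d, false) (d₁, false)) (hM : Cex β N M) :
    ∃ M' : Pic X Y w D, Cex β N M' ∧ M'.toCMap = M.toCMap ∧ M'.kind = M.kind ∧ M'.lam = M.lam ∧
      M'.K = M.K ∧
      ∀ e, M'.T e = M.T e + (if e = d then M.T d else 0) + (if e = d₁ then M.T d else 0) := by
  have hd₁ : M.kind d₁ = Sum.inl i := by rw [← hd]; exact (M.kind_sameV h).symm
  refine ⟨M.setT (fun e => M.T e + (if e = d then M.T d else 0) + (if e = d₁ then M.T d else 0))
    ?_ ?_ ?_, ?_, rfl, rfl, rfl, rfl, fun e => rfl⟩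
  · intro e n he
    have h1 : e ≠ d := by rintro rfl; rw [hd] at he; cases he
    have h2 : e ≠ d₁ := by rintro rfl; rw [hd₁] at he; cases he
    simp only [if_neg h1, if_neg h2, add_zero]
  · intro e j he l hl
    have h1 : M.T e l = 0 := M.ord_T e j he l hl
    simp only [Pi.add_apply, h1, zero_add]
    by_cases h2 : e = d
    · subst h2
      rw [if_pos rfl, h1]
      split_ifs
      · rw [h1]; exact add_zero _
      · exact add_zero _
    · by_cases h3 : e = d₁
      · subst h3
        rw [if_neg h2, if_pos rfl]
        have : j = i := by rw [hd₁] at he; exact (Sum.inl.inj he).symm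
        subst this
        rw [M.ord_T d j hd l hl]
        exact add_zero _
      · rw [if_neg h2, if_neg h3]; exact add_zero _
  · intro x j _
    have h1 : ∀ e, dl X Y (M.T e + (if e = d then M.T d else 0) + (if e = d₁ then M.T d else 0)) =
        dl X Y (M.T e) + ((if e = d then dl X Y (M.T d) else 0) +
          (if e = d₁ then dl X Y (M.T d) else 0)) := by
      intro e
      rw [dl_add, dl_add, apply_ite (dl X Y), apply_ite (dl X Y), dl_zero, add_assoc]
    rw [Finset.sum_congr rfl fun e _ => h1 e, Finset.sum_add_distrib, Finset.sum_add_distrib,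
      Finset.sum_ite_eq', Finset.sum_ite_eq']
    have h2 : d ∈ univ.filter (fun d => M.SameV x (d, false)) ↔
        d₁ ∈ univ.filter (fun d => M.SameV x (d, false)) := by
      simp only [mem_filter, mem_univ, true_and]
      exact ⟨fun h' => h'.trans _ _ _ h, fun h' => h'.trans _ _ _ h.symm⟩
    by_cases h3 : d ∈ univ.filter (fun d => M.SameV x (d, false))
    · rw [if_pos h3, if_pos (h2.1 h3), ch_add_self, add_zero]
    · rw [if_neg h3, if_neg (fun h' => h3 (h2.2 h')), add_zero, add_zero]
  · refine ⟨?_, hM.2.1, hM.2.2⟩
    intro l hl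
    rw [← hM.1 l hl]
    have : ∀ e, (M.T e + (if e = d then M.T d else 0) + (if e = d₁ then M.T d else 0)) l =
        M.T e l + ((if e = d then M.T d l else 0) + (if e = d₁ then M.T d l else 0)) := by
      intro e
      simp only [Pi.add_apply]
      rw [add_assoc]
      congr 2 <;> split_ifs <;> rfl
    refine (Finset.sum_congr rfl fun e _ => this e).trans ?_
    rw [Finset.sum_add_distrib, Finset.sum_add_distrib, Finset.sum_ite_eq', Finset.sum_ite_eq']
    simp only [mem_univ, if_true]
    rw [CharTwo.add_self_eq_zero, add_zero]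

end Pic

end Pool.Agent.HomV
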