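import Pool.Agent.HomV.Ops

/-!
# Operations on pictures that switch corners
-/

set_option autoImplicit false

namespace Pool.Agent.HomV

open Finset Classical

variable {U : Type} [Fintype U] {X : SimpleGraph U} {Y : Finset U} {w : ℕ} {D : Type} [Fintype D]
  {Q N : ℕ} {β : Prop}

namespace Pic

variable (M : Pic X Y w D)

/-- the kinds are constant on the new vertices if `p` and `q` were at one vertex -/
theorem kind_switch {p q : D × Bool} (hpq : M.SameV p q) (x : D × Bool) :
    M.kind ((M.toCMap.switch p q).corner x).1 = M.kind x.1 :=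
  (M.kind_sameV (M.toCMap.sameV_of_switch hpq ((M.toCMap.switch p q).sameV_corner x))).symm

/-- the sum over a vertex -/
noncomputable def vsum (M' : CMap D) (f : D → Ch U) (x : D × Bool) : Ch U :=
  ∑ d ∈ univ.filter (fun d => M'.SameV x (d, false)), f d

theorem vsum_congr {M' : CMap D} (f : D → Ch U) {x y : D × Bool} (h : M'.SameV x y) :
    vsum M' f x = vsum M' f y := by
  unfold vsum
  congr 1
  ext d
  simp only [mem_filter, mem_univ, true_and]
  exact ⟨fun h' => h.symm.trans _ _ _ h', fun h' => h.trans _ _ _ h'⟩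

/-- splitting a vertex: if the sum over the old vertex and over the part of `p` is `0`, then also
over the part of `corner p` -/
theorem vsum_split {p q : D × Bool} (hpq : M.SameV p q) (f : D → Ch U)
    (h0 : vsum M.toCMap f p = 0) (h1 : vsum (M.toCMap.switch p q) f p = 0) {x : D × Bool}
    (hx : M.SameV p x) : vsum (M.toCMap.switch p q) f x = 0 := by
  by_cases hs : (M.toCMap.switch p q).SameV p (M.corner p)
  · rcases M.toCMap.sameV_switch_cover (q := q) hx with h | h
    · rw [← vsum_congr f h]; exact h1
    · rw [← vsum_congr f (hs.trans _ _ _ h)]; exact h1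
  · have key : vsum M.toCMap f p = vsum (M.toCMap.switch p q) f p +
        vsum (M.toCMap.switch p q) f (M.corner p) := by
      unfold vsum
      rw [← Finset.sum_union]
      · congr 1
        ext d
        simp only [mem_filter, mem_univ, true_and, mem_union]
        constructor
        · intro h; exact M.toCMap.sameV_switch_cover h
        · rintro (h | h)
          · exact M.toCMap.sameV_of_switch hpq h
          · exact (M.sameV_corner p).trans _ _ _ (M.toCMap.sameV_of_switch hpq h)
      · rw [Finset.disjoint_left]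
        intro d hd hd'
        simp only [mem_filter, mem_univ, true_and] at hd hd'
        exact hs (hd.trans _ _ _ hd'.symm)
    rw [h0, h1, zero_add] at key
    rcases M.toCMap.sameV_switch_cover (q := q) hx with h | h
    · rw [← vsum_congr f h]; exact h1
    · rw [← vsum_congr f h]; exact key.symm

/-- the sums over the other vertices are not changed -/
theorem vsum_switch {p q x : D × Bool} (hp : ¬ M.SameV p x) (hq : ¬ M.SameV q x)
    (f : D → Ch U) : vsum (M.toCMap.switch p q) f x = vsum M.toCMap f x := by
  unfold vsum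
  congr 1
  ext d
  simp only [mem_filter, mem_univ, true_and]
  exact M.toCMap.sameV_switch_iff hp hq _

/-- splitting an ordinary vertex into two vertices of the same fibre -/
noncomputable def split (p q : D × Bool) (i : U) (hp : M.kind p.1 = Sum.inl i)
    (hpq : M.SameV p q)
    (hsum : vsum (M.toCMap.switch p q) (fun d => M.lam d + dl X Y (M.T d)) p = 0) :
    Pic X Y w D :=
  have hnot : ∀ x n, M.kind x.1 = Sum.inr n → ¬ M.SameV p x ∧ ¬ M.SameV q x := by
    intro x n hx
    have h1 : ¬ M.SameV p x := by
      intro h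
      rw [← M.kind_sameV h, hp] at hx
      cases hx
    exact ⟨h1, fun h => h1 (hpq.trans _ _ _ h)⟩
  { toCMap := M.toCMap.switch p q
    kind := M.kind
    lam := M.lam
    K := M.K
    T := M.T
    kind_corner := M.kind_switch hpq
    vor_conn := by
      intro x y n hx hy
      obtain ⟨h1, h2⟩ := hnot x n hx
      exact (M.toCMap.sameV_switch_iff h1 h2 y).2 (M.vor_conn x y n hx hy)
    lam_opp := M.lam_opp
    lam_supp := M.lam_supp
    lam_nu := M.lam_nu
    ord_lam := M.ord_lam
    ord_T := M.ord_T
    ord_sum := by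
      intro x j hx
      by_cases h : M.SameV p x
      · exact M.vsum_split hpq _ (M.ord_sum p i hp) hsum h
      · have h2 : ¬ M.SameV q x := fun h' => h (hpq.trans _ _ _ h')
        exact (M.vsum_switch h h2 _).trans (M.ord_sum x j hx)
    vor_K := by
      intro x n hx
      obtain ⟨h1, h2⟩ := hnot x n hx
      rw [M.toCMap.switch_corner_of_not h1 h2]
      exact M.vor_K x n hx
    vor_eqn := M.vor_eqn
    vor_nu := M.vor_nu
    vor_supp := M.vor_supp
    vor_T := M.vor_T
    ord_vor := M.ord_vor }

theorem split_cex (p q : D × Bool) (i : U) (hp : M.kind p.1 = Sum.inl i)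
    (hpq : M.SameV p q)
    (hsum : vsum (M.toCMap.switch p q) (fun d => M.lam d + dl X Y (M.T d)) p = 0)
    (hg : (M.toCMap.switch p q).G2 ≤ M.G2) (hM : Cex β N M) :
    Cex β N (M.split p q i hp hpq hsum) := by
  refine ⟨hM.1, ?_, hM.2.2⟩
  have h1 : (M.split p q i hp hpq hsum).G2 = (M.toCMap.switch p q).G2 := rfl
  have h2 : (M.split p q i hp hpq hsum).vnums Set.univ = M.vnums Set.univ := rfl
  rw [h1, h2]
  have := hM.2.1
  linarith

/-- the contents after a switch at two corners with the same content -/
theorem K_switch {p q : D × Bool} {n : ℕ} (hp : M.kind p.1 = Sum.inr n) (hq : M.kind q.1 = Sum.inr n)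
    (hK : M.K p = M.K q) {x : D × Bool} {m : ℕ} (hx : M.kind x.1 = Sum.inr m) :
    M.K ((M.toCMap.switch p q).corner x) = M.K x := by
  by_cases h' : q = M.corner p
  · rw [h', M.switch_corner_self]
    exact M.vor_K x m hx
  by_cases h1 : x = p
  · subst h1; rw [CMap.switch_corner_p h', M.vor_K q n hq, hK]
  by_cases h2 : x = q
  · subst h2; rw [CMap.switch_corner_q h', M.vor_K p n hp, hK]
  by_cases h3 : x = M.corner p
  · subst h3; rw [CMap.switch_corner_cp h', M.vor_K p n hp, hK]
  by_cases h4 : x = M.corner q
  · subst h4; rw [CMap.switch_corner_cq h', M.vor_K q n hq, hK]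
  rw [M.toCMap.switch_corner_of_ne h1 h2 h3 h4]
  exact M.vor_K x m hx

/-- splitting off a piece of a vortex, whose labels are erased, and making it ordinary -/
noncomputable def toOrd (p q : D × Bool) (n : ℕ) (hp : M.kind p.1 = Sum.inr n)
    (hpq : M.SameV p q) (hK : M.K p = M.K q) (P : Set D) (hq : q.1 ∈ P)
    (hP : ∀ x : D × Bool, x.1 ∈ P → ((M.toCMap.switch p q).corner x).1 ∈ P)
    (hlam : ∀ d ∈ P, M.opp d ∉ P → M.lam d = 0) (i₀ : U) : Pic X Y w D :=
  have hPV : ∀ {x y : D × Bool}, (M.toCMap.switch p q).SameV x y → (x.1 ∈ P ↔ y.1 ∈ P) :=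
    fun h => (M.toCMap.switch p q).sameV_set hP h
  have hq' : M.kind q.1 = Sum.inr n := by rw [← M.kind_sameV hpq, hp]
  have hcq : ∀ {x : D × Bool}, (M.toCMap.switch p q).SameV (M.corner p) x → x.1 ∈ P := by
    intro x h
    refine (hPV (x := q) ?_).1 hq
    refine Relation.EqvGen.trans _ _ _ ?_ h
    by_cases h' : q = M.corner p
    · rw [h']; exact Relation.EqvGen.refl _
    · have := (M.toCMap.switch p q).sameV_corner (M.corner p)
      rw [CMap.switch_corner_cp h'] at this
      exact this.symm
  have hkind : ∀ {d : D} {m : ℕ}, (if d ∈ P then Sum.inl i₀ else M.kind d) = Sum.inr m →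
      d ∉ P ∧ M.kind d = Sum.inr m := by
    intro d m h
    by_cases hd : d ∈ P
    · rw [if_pos hd] at h; cases h
    · rw [if_neg hd] at h; exact ⟨hd, h⟩
  { toCMap := M.toCMap.switch p q
    kind := fun d => if d ∈ P then Sum.inl i₀ else M.kind d
    lam := fun d => if d ∈ P then 0 else M.lam d
    K := M.K
    T := fun d => if d ∈ P then 0 else M.T d
    kind_corner := by
      intro x
      have h1 : ((M.toCMap.switch p q).corner x).1 ∈ P ↔ x.1 ∈ P :=
        (hPV ((M.toCMap.switch p q).sameV_corner x)).symm
      by_cases h : x.1 ∈ P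
      · simp only [if_pos h, if_pos (h1.2 h)]
      · simp only [if_neg h, if_neg (fun h' => h (h1.1 h'))]
        exact M.kind_switch hpq x
    vor_conn := by
      intro x y m hx hy
      obtain ⟨hx1, hx2⟩ := hkind hx
      obtain ⟨hy1, hy2⟩ := hkind hy
      have hxy := M.vor_conn x y m hx2 hy2
      by_cases h : M.SameV p x
      · have h2 : M.SameV p y := h.trans _ _ _ hxy
        have h3 : (M.toCMap.switch p q).SameV p x :=
          (M.toCMap.sameV_switch_cover h).resolve_right fun h' => hx1 (hcq h')
        have h4 : (M.toCMap.switch p q).SameV p y :=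
          (M.toCMap.sameV_switch_cover h2).resolve_right fun h' => hy1 (hcq h')
        exact h3.symm.trans _ _ _ h4
      · have h2 : ¬ M.SameV q x := fun h' => h (hpq.trans _ _ _ h')
        exact (M.toCMap.sameV_switch_iff h h2 y).2 hxy
    lam_opp := by
      intro d
      have h0 : M.opp (M.opp d) = d := M.opp_opp d
      have h1 : (M.toCMap.switch p q).opp d = M.opp d := rfl
      rw [h1]
      by_cases h2 : d ∈ P
      · by_cases h3 : M.opp d ∈ P
        · rw [if_pos h2, if_pos h3]
        · rw [if_pos h2, if_neg h3, M.lam_opp, hlam d h2 h3]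
      · by_cases h3 : M.opp d ∈ P
        · rw [if_neg h2, if_pos h3, ← M.lam_opp, hlam _ h3 (by rwa [h0])]
        · rw [if_neg h2, if_neg h3, M.lam_opp]
    lam_supp := by
      intro d
      split_ifs
      · exact supp_zero
      · exact M.lam_supp d
    lam_nu := by
      intro d
      split_ifs
      · exact nuLe_zero 1
      · exact M.lam_nu d
    ord_lam := by
      intro d i hd
      by_cases h : d ∈ P
      · rw [if_pos h]; exact inStar_zero i
      · rw [if_neg h] at hd ⊢; exact M.ord_lam d i hd
    ord_T := by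
      intro d i hd j hj
      by_cases h : d ∈ P
      · rw [if_pos h]; rfl
      · rw [if_neg h] at hd ⊢; exact M.ord_T d i hd j hj
    ord_sum := by
      intro x i hx
      by_cases h : x.1 ∈ P
      · refine Finset.sum_eq_zero fun d hd => ?_
        rw [mem_filter] at hd
        have h1 : d ∈ P := (hPV hd.2).1 h
        rw [if_pos h1, if_pos h1, dl_zero, add_zero]
      · rw [if_neg h] at hx
        have h1 : ¬ M.SameV p x := by
          intro h'
          rw [← M.kind_sameV h', hp] at hx
          cases hx
        have h2 : ¬ M.SameV q x := fun h' => h1 (hpq.trans _ _ _ h')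
        refine Eq.trans ?_ ((M.vsum_switch h1 h2 _).trans (M.ord_sum x i hx))
        refine Finset.sum_congr rfl fun d hd => ?_
        rw [mem_filter] at hd
        have h3 : d ∉ P := fun h' => h ((hPV hd.2).2 h')
        rw [if_neg h3, if_neg h3]
    vor_K := by
      intro x m hx
      exact M.K_switch hp hq' hK (hkind hx).2
    vor_eqn := by
      intro d m hd
      obtain ⟨h1, h2⟩ := hkind hd
      rw [if_neg h1, if_neg h1]
      exact M.vor_eqn d m h2
    vor_nu := fun x m hx => M.vor_nu x m (hkind hx).2
    vor_supp := fun x m hx => M.vor_supp x m (hkind hx).2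
    vor_T := by
      intro d m hd
      obtain ⟨h1, h2⟩ := hkind hd
      rw [if_neg h1]
      exact M.vor_T d m h2
    ord_vor := by
      intro d i m hd hd'
      by_cases h : d ∈ P
      · left; rw [if_pos h]; exact single_zero i
      · rw [if_neg h] at hd ⊢
        exact M.ord_vor d i m hd (hkind hd').2 }

section toOrd

variable (p q : D × Bool) (n : ℕ) (hp : M.kind p.1 = Sum.inr n)
    (hpq : M.SameV p q) (hK : M.K p = M.K q) (P : Set D) (hq : q.1 ∈ P)
    (hP : ∀ x : D × Bool, x.1 ∈ P → ((M.toCMap.switch p q).corner x).1 ∈ P)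
    (hlam : ∀ d ∈ P, M.opp d ∉ P → M.lam d = 0) (i₀ : U)

theorem toOrd_T (d : D) : (M.toOrd p q n hp hpq hK P hq hP hlam i₀).T d =
    if d ∈ P then 0 else M.T d := rfl

theorem toOrd_lam (d : D) : (M.toOrd p q n hp hpq hK P hq hP hlam i₀).lam d =
    if d ∈ P then 0 else M.lam d := rfl

theorem toOrd_map : (M.toOrd p q n hp hpq hK P hq hP hlam i₀).toCMap = M.toCMap.switch p q := rfl

theorem toOrd_cex (hg : (M.toCMap.switch p q).G2 ≤ M.G2)
    (hT : ∀ i ∈ Y, ∑ d ∈ univ.filter (fun d => d ∈ P), M.T d i = 0) (hM : Cex β N M) :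
    Cex β N (M.toOrd p q n hp hpq hK P hq hP hlam i₀) := by
  refine ⟨?_, ?_, ?_⟩
  · intro i hi
    rw [← hM.1 i hi, ← Finset.sum_filter_add_sum_filter_not univ (fun d => d ∈ P)
      (fun d => M.T d i), hT i hi, zero_add, Finset.sum_filter]
    refine Finset.sum_congr rfl fun d _ => ?_
    rw [toOrd_T]
    by_cases h : d ∈ P
    · rw [if_pos h, if_neg (not_not.2 h)]; rfl
    · rw [if_neg h, if_pos h]
  · have h1 : (M.toOrd p q n hp hpq hK P hq hP hlam i₀).G2 = (M.toCMap.switch p q).G2 := rfl
    have h2 : (M.toOrd p q n hp hpq hK P hq hP hlam i₀).vnums Set.univ ⊆ M.vnums Set.univ := by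
      rintro m ⟨d, _, hd⟩
      have hd' : (if d ∈ P then Sum.inl i₀ else M.kind d) = Sum.inr m := hd
      by_cases h : d ∈ P
      · rw [if_pos h] at hd'; cases hd'
      · rw [if_neg h] at hd'; exact ⟨d, Set.mem_univ _, hd'⟩
    have h3 : (M.vnums Set.univ).Finite := by
      have : M.vnums Set.univ ⊆ Set.range (fun d => (M.kind d).elim (fun _ => 0) id) := by
        rintro m ⟨d, _, hd⟩
        exact ⟨d, by simp [hd]⟩
      exact (Set.finite_range _).subset this
    have h4 := Set.ncard_le_ncard h2 h3
    have h5 := hM.2.1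
    rw [h1]
    have h6 : (((M.toOrd p q n hp hpq hK P hq hP hlam i₀).vnums Set.univ).ncard : ℤ) ≤
        ((M.vnums Set.univ).ncard : ℤ) := by exact_mod_cast h4
    linarith
  · intro hβ d i j hd hd'
    rw [toOrd_lam]
    by_cases h : d ∈ P
    · rw [if_pos h]
    · rw [if_neg h]
      have e1 : (if d ∈ P then Sum.inl i₀ else M.kind d) = Sum.inl i := hd
      have e2 : (if M.opp d ∈ P then Sum.inl i₀ else M.kind (M.opp d)) = Sum.inl j := hd'
      rw [if_neg h] at e1
      by_cases h' : M.opp d ∈ P
      · rw [← M.lam_opp]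
        exact hlam _ h' (by rwa [M.opp_opp])
      · rw [if_neg h'] at e2
        exact hM.2.2 hβ d i j e1 e2

end toOrd

end Pic

end Pool.Agent.HomV
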