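import Pool.Agent.HomV.Loop

/-!
# Operations on pictures: merging vertices
-/

set_option autoImplicit false

namespace Pool.Agent.HomV

open Finset Classical

variable {U : Type} [Fintype U] {X : SimpleGraph U} {Y : Finset U} {w : ℕ} {D : Type} [Fintype D]
  {Q N : ℕ} {β : Prop}

namespace Pic

variable (M : Pic X Y w D)

/-- the sum over a merged vertex -/
theorem vsum_merge {p q : D × Bool} (h : ¬ M.SameV p q) (f : D → Ch U) {x : D × Bool}
    (hx : M.SameV p x ∨ M.SameV q x) :
    vsum (M.toCMap.switch p q) f x = vsum M.toCMap f p + vsum M.toCMap f q := by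
  unfold vsum
  rw [← Finset.sum_union]
  · congr 1
    ext d
    simp only [mem_filter, mem_univ, true_and, mem_union]
    rw [M.toCMap.sameV_merge h]
    constructor
    · rintro (h1 | ⟨_, h1⟩)
      · exact hx.imp (fun h2 => h2.trans _ _ _ h1) (fun h2 => h2.trans _ _ _ h1)
      · exact h1
    · intro h1
      exact Or.inr ⟨hx, h1⟩
  · rw [Finset.disjoint_left]
    intro d hd hd'
    simp only [mem_filter, mem_univ, true_and] at hd hd'
    exact h (hd.trans _ _ _ hd'.symm)

/-- merging two ordinary vertices of the same fibre -/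
noncomputable def merge (p q : D × Bool) (i : U) (hp : M.kind p.1 = Sum.inl i)
    (hq : M.kind q.1 = Sum.inl i) (hpq : ¬ M.SameV p q) : Pic X Y w D :=
  have hnot : ∀ x n, M.kind x.1 = Sum.inr n → ¬ M.SameV p x ∧ ¬ M.SameV q x := by
    intro x n hx
    constructor
    · intro h
      rw [← M.kind_sameV h, hp] at hx
      cases hx
    · intro h
      rw [← M.kind_sameV h, hq] at hx
      cases hx
  { toCMap := M.toCMap.switch p q
    kind := M.kind
    lam := M.lam
    K := M.K
    T := M.T
    kind_corner := by
      intro x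
      have h1 := (M.toCMap.sameV_merge hpq).1 ((M.toCMap.switch p q).sameV_corner x)
      rcases h1 with h1 | ⟨h1, h2⟩
      · exact (M.kind_sameV h1).symm
      · have key : ∀ y : D × Bool, M.SameV p y ∨ M.SameV q y → M.kind y.1 = Sum.inl i := by
          rintro y (h | h)
          · rw [← M.kind_sameV h, hp]
          · rw [← M.kind_sameV h, hq]
        rw [key _ h1, key _ h2]
    vor_conn := by
      intro x y n hx hy
      exact M.toCMap.sameV_switch_of_not hpq (M.vor_conn x y n hx hy)
    lam_opp := M.lam_opp
    lam_supp := M.lam_supp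
    lam_nu := M.lam_nu
    ord_lam := M.ord_lam
    ord_T := M.ord_T
    ord_sum := by
      intro x j hx
      by_cases h : M.SameV p x ∨ M.SameV q x
      · refine (M.vsum_merge hpq _ h).trans ?_
        have h1 : vsum M.toCMap (fun d => M.lam d + dl X Y (M.T d)) p = 0 := M.ord_sum p i hp
        have h2 : vsum M.toCMap (fun d => M.lam d + dl X Y (M.T d)) q = 0 := M.ord_sum q i hq
        rw [h1, h2, add_zero]
      · rw [not_or] at h
        exact (M.vsum_switch h.1 h.2 _).trans (M.ord_sum x j hx)
    vor_K := by
      intro x n hx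
      obtain ⟨h1, h2⟩ := hnot x n hx
      rw [M.toCMap.switch_corner_of_not h1 h2]
      exact M.vor_K x n hx
    vor_eqn := M.vor_eqn
    vor_nu := M.vor_nu
    vor_supp := M.vor_supp
    vor_T := M.vor_T
    ord_vor := M.ord_vor }

theorem merge_cex (p q : D × Bool) (i : U) (hp : M.kind p.1 = Sum.inl i)
    (hq : M.kind q.1 = Sum.inl i) (hpq : ¬ M.SameV p q)
    (hg : (M.toCMap.switch p q).G2 ≤ M.G2) (hM : Cex β N M) :
    Cex β N (M.merge p q i hp hq hpq) := by
  refine ⟨hM.1, ?_, hM.2.2⟩
  have h1 : (M.merge p q i hp hq hpq).G2 = (M.toCMap.switch p q).G2 := rfl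
  have h2 : (M.merge p q i hp hq hpq).vnums Set.univ = M.vnums Set.univ := rfl
  rw [h1, h2]
  have := hM.2.1
  linarith

section fold

/-- Data for folding the vertex `{x.1, z.1}` into the vertex of `across z`. -/
structure FoldData (x z : D × Bool) (i : U) : Prop where
  corner_x : M.corner x = z
  corner_y : M.corner (fl x) = fl z
  ne : z.1 ≠ x.1
  opp_ne : M.opp z.1 ≠ x.1
  kind_x : M.kind x.1 = Sum.inl i
  lam_eq : M.lam z.1 = M.lam x.1
  r2 : ∀ d j, (d = x.1 ∨ d = z.1) → M.kind (M.opp d) = Sum.inl j → j ≠ i

variable {M} {x z : D × Bool} {i : U} (F : FoldData M x z i)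

include F

theorem FoldData.corner_z : M.corner z = x := by rw [← F.corner_x, M.cc]

theorem FoldData.corner_u : M.corner (fl z) = fl x := by rw [← F.corner_y, M.cc]

theorem FoldData.flags {f : D × Bool} (hf : f.1 = x.1 ∨ f.1 = z.1) :
    f = x ∨ f = fl x ∨ f = z ∨ f = fl z := by
  rcases hf with hf | hf
  · rcases eq_or_eq_fl hf with h1 | h1
    · exact Or.inl h1
    · exact Or.inr (Or.inl h1)
  · rcases eq_or_eq_fl hf with h1 | h1
    · exact Or.inr (Or.inr (Or.inl h1))
    · exact Or.inr (Or.inr (Or.inr h1))

/-- the vertex of `x` consists of the two darts -/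
theorem FoldData.mem_iff {f : D × Bool} : M.SameV x f ↔ f.1 = x.1 ∨ f.1 = z.1 := by
  constructor
  · intro h
    refine (M.toCMap.sameV_inv (P := fun f => f.1 = x.1 ∨ f.1 = z.1) ?_ (fun _ h => h) h).1
      (Or.inl rfl)
    intro g hg
    rcases F.flags hg with rfl | rfl | rfl | rfl
    · right; rw [F.corner_x]
    · right; rw [F.corner_y]; rfl
    · left; rw [F.corner_z]
    · left; rw [F.corner_u]; rfl
  · intro h
    have hxz : M.SameV x z := by rw [← F.corner_x]; exact M.sameV_corner x
    rcases F.flags h with rfl | rfl | rfl | rfl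
    · exact Relation.EqvGen.refl _
    · exact M.sameV_fl _
    · exact hxz
    · exact hxz.trans _ _ _ (M.sameV_fl _)

theorem FoldData.kind_z : M.kind z.1 = Sum.inl i := by
  rw [← M.kind_sameV (F.mem_iff.2 (Or.inr rfl)), F.kind_x]

theorem FoldData.not_sameV : ¬ M.SameV x (M.across z) := by
  intro h
  rcases F.mem_iff.1 h with h1 | h1
  · exact F.opp_ne h1
  · exact M.opp_ne z.1 h1

theorem FoldData.not_mem {f : D × Bool} (hf : ¬ M.SameV x f) : ¬ (f.1 = x.1 ∨ f.1 = z.1) :=
  fun h => hf (F.mem_iff.2 h)

theorem FoldData.across_ne (s : Bool) : ¬ ((M.opp z.1, s).1 = x.1 ∨ (M.opp z.1, s).1 = z.1) := by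
  rintro (h | h)
  · exact F.opp_ne h
  · exact M.opp_ne z.1 h

/-- the corners of the switch at `x`, `across z` -/
theorem FoldData.corner_fl (f : D × Bool) (hf : f = fl x ∨ f = fl z) :
    (M.toCMap.switch x (M.across z)).corner f = M.corner f := by
  have hc : M.corner f = fl x ∨ M.corner f = fl z := by
    rcases hf with rfl | rfl
    · right; exact F.corner_y
    · left; exact F.corner_u
  have hf1 : f.1 = x.1 ∨ f.1 = z.1 := by
    rcases hf with rfl | rfl
    · exact Or.inl rfl
    · exact Or.inr rfl
  have hc1 : (M.corner f).1 = x.1 ∨ (M.corner f).1 = z.1 := by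
    rcases hc with h | h
    · rw [h]; exact Or.inl rfl
    · rw [h]; exact Or.inr rfl
  have a1 : ∀ s : Bool, ∀ t : D × Bool, (t = fl x ∨ t = fl z) → t ≠ x ∧ t ≠ z := by
    rintro _ t (rfl | rfl)
    · refine ⟨fl_ne x, fun h => F.ne ?_⟩
      have h1 := congrArg Prod.fst h
      exact h1.symm
    · refine ⟨fun h => F.ne ?_, fl_ne z⟩
      have h1 := congrArg Prod.fst h
      exact h1
  refine M.toCMap.switch_corner_of_ne ?_ ?_ ?_ ?_
  · exact (a1 true f hf).1
  · intro h
    rw [h] at hf1
    exact F.across_ne false hf1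
  · rw [F.corner_x]; exact (a1 true f hf).2
  · intro h
    rw [h, M.cc] at hc1
    exact F.across_ne false hc1

/-- the merged vertex -/
theorem FoldData.kind_class {f : D × Bool} (hf : M.SameV x f ∨ M.SameV (M.across z) f) :
    (if f.1 = x.1 ∨ f.1 = z.1 then M.kind (M.opp z.1) else M.kind f.1) = M.kind (M.opp z.1) := by
  by_cases h : f.1 = x.1 ∨ f.1 = z.1
  · rw [if_pos h]
  · rw [if_neg h]
    rcases hf with hf | hf
    · exact absurd (F.mem_iff.1 hf) h
    · exact (M.kind_sameV hf).symm

theorem FoldData.kind_other {f : D × Bool} (hf : ¬ M.SameV x f) :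
    (if f.1 = x.1 ∨ f.1 = z.1 then M.kind (M.opp z.1) else M.kind f.1) = M.kind f.1 := by
  rw [if_neg (F.not_mem hf)]

/-- the new contents -/
noncomputable def FoldData.K' (_ : FoldData M x z i) (f : D × Bool) : Ch U :=
  if f = x ∨ f = z then M.K (M.across z) else if f = fl x ∨ f = fl z then M.K (fl (M.across z))
    else M.K f

theorem FoldData.K'_x : F.K' x = M.K (M.across z) := if_pos (Or.inl rfl)

theorem FoldData.K'_z : F.K' z = M.K (M.across z) := if_pos (Or.inr rfl)

theorem FoldData.K'_fl {f : D × Bool} (hf : f = fl x ∨ f = fl z) :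
    F.K' f = M.K (fl (M.across z)) := by
  unfold FoldData.K'
  rw [if_neg, if_pos hf]
  rintro (h | h)
  · rcases hf with h1 | h1
    · rw [h] at h1; exact fl_ne x h1.symm
    · rw [h] at h1
      have h2 := congrArg Prod.fst h1
      exact F.ne h2.symm
  · rcases hf with h1 | h1
    · rw [h] at h1
      have h2 := congrArg Prod.fst h1
      exact F.ne h2
    · rw [h] at h1; exact fl_ne z h1.symm

theorem FoldData.K'_other {f : D × Bool} (hf : ¬ (f.1 = x.1 ∨ f.1 = z.1)) : F.K' f = M.K f := by
  unfold FoldData.K'
  rw [if_neg, if_neg]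
  · rintro (rfl | rfl)
    · exact hf (Or.inl rfl)
    · exact hf (Or.inr rfl)
  · rintro (rfl | rfl)
    · exact hf (Or.inl rfl)
    · exact hf (Or.inr rfl)

/-- the contents are contents of the vortex of `across z` on the two darts -/
theorem FoldData.K'_cases (f : D × Bool) (hf : f.1 = x.1 ∨ f.1 = z.1) :
    ∃ g : D × Bool, g.1 = M.opp z.1 ∧ F.K' f = M.K g := by
  rcases F.flags hf with rfl | rfl | rfl | rfl
  · exact ⟨M.across z, rfl, F.K'_x⟩
  · exact ⟨fl (M.across z), rfl, F.K'_fl (Or.inl rfl)⟩
  · exact ⟨M.across f, rfl, F.K'_z⟩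
  · exact ⟨fl (M.across z), rfl, F.K'_fl (Or.inr rfl)⟩

theorem FoldData.lam_opp_z (d : D) (hd : d = x.1 ∨ d = z.1) : M.lam d = M.lam (M.opp z.1) := by
  rw [M.lam_opp]
  rcases hd with rfl | rfl
  · exact F.lam_eq.symm
  · rfl

/-- the fold -/
noncomputable def FoldData.fold : Pic X Y w D :=
  have hm := fun {f g : D × Bool} => M.toCMap.sameV_merge F.not_sameV (x := f) (y := g)
  have hkO : ∀ {d : D}, (d = x.1 ∨ d = z.1) → M.kind d = Sum.inl i := by
    rintro d (rfl | rfl)
    · exact F.kind_x
    · exact F.kind_z
  { toCMap := M.toCMap.switch x (M.across z)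
    kind := fun d => if d = x.1 ∨ d = z.1 then M.kind (M.opp z.1) else M.kind d
    lam := M.lam
    K := F.K'
    T := fun d => if d = x.1 ∨ d = z.1 then M.T (M.opp z.1) else M.T d
    kind_corner := by
      intro f
      rcases hm.1 ((M.toCMap.switch x (M.across z)).sameV_corner f) with h1 | ⟨h1, h2⟩
      · by_cases hf : M.SameV x f
        · exact (F.kind_class (Or.inl (hf.trans _ _ _ h1))).trans (F.kind_class (Or.inl hf)).symm
        · have hf' : ¬ M.SameV x ((M.toCMap.switch x (M.across z)).corner f) :=
            fun h => hf (h.trans _ _ _ h1.symm)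
          exact (F.kind_other hf').trans ((M.kind_sameV h1).symm.trans (F.kind_other hf).symm)
      · exact (F.kind_class h2).trans (F.kind_class h1).symm
    vor_conn := by
      intro f g n hf hg
      rw [hm]
      by_cases h1 : M.SameV x f ∨ M.SameV (M.across z) f
      · by_cases h2 : M.SameV x g ∨ M.SameV (M.across z) g
        · exact Or.inr ⟨h1, h2⟩
        · exfalso
          have h3 : M.kind (M.opp z.1) = Sum.inr n := (F.kind_class h1).symm.trans hf
          rw [not_or] at h2
          have h4 : M.kind g.1 = Sum.inr n := (F.kind_other h2.1).symm.trans hg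
          exact h2.2 (M.vor_conn (M.across z) g n h3 h4)
      · by_cases h2 : M.SameV x g ∨ M.SameV (M.across z) g
        · exfalso
          have h3 : M.kind (M.opp z.1) = Sum.inr n := (F.kind_class h2).symm.trans hg
          rw [not_or] at h1
          have h4 : M.kind f.1 = Sum.inr n := (F.kind_other h1.1).symm.trans hf
          exact h1.2 (M.vor_conn (M.across z) f n h3 h4)
        · left
          rw [not_or] at h1 h2
          exact M.vor_conn f g n ((F.kind_other h1.1).symm.trans hf)
            ((F.kind_other h2.1).symm.trans hg)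
    lam_opp := M.lam_opp
    lam_supp := M.lam_supp
    lam_nu := M.lam_nu
    ord_lam := by
      intro d j hd
      by_cases h : d = x.1 ∨ d = z.1
      · rw [if_pos h] at hd
        rw [F.lam_opp_z d h]
        exact M.ord_lam _ j hd
      · rw [if_neg h] at hd
        exact M.ord_lam d j hd
    ord_T := by
      intro d j hd l hl
      by_cases h : d = x.1 ∨ d = z.1
      · rw [if_pos h] at hd ⊢
        exact M.ord_T _ j hd l hl
      · rw [if_neg h] at hd ⊢
        exact M.ord_T d j hd l hl
    ord_sum := by
      intro f j hf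
      by_cases h : M.SameV x f ∨ M.SameV (M.across z) f
      · refine (M.vsum_merge F.not_sameV _ h).trans ?_
        have hk : M.kind (M.opp z.1) = Sum.inl j := (F.kind_class h).symm.trans hf
        have h1 : vsum M.toCMap (fun d => M.lam d +
            dl X Y (if d = x.1 ∨ d = z.1 then M.T (M.opp z.1) else M.T d)) x = 0 := by
          unfold vsum
          have : (univ.filter fun d => M.SameV x (d, false)) = {x.1, z.1} := by
            ext d
            simp only [mem_filter, mem_univ, true_and, mem_insert, mem_singleton]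
            exact F.mem_iff
          rw [this, Finset.sum_pair F.ne.symm, if_pos (Or.inl rfl), if_pos (Or.inr rfl), F.lam_eq,
            ch_add_self]
        have h2 : vsum M.toCMap (fun d => M.lam d +
            dl X Y (if d = x.1 ∨ d = z.1 then M.T (M.opp z.1) else M.T d)) (M.across z) = 0 := by
          refine Eq.trans ?_ (M.ord_sum (M.across z) j hk)
          refine Finset.sum_congr rfl fun d hd => ?_
          rw [mem_filter] at hd
          have h3 : ¬ M.SameV x (d, false) := fun h' => F.not_sameV (h'.trans _ _ _ hd.2.symm)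
          have h4 : ¬ (d = x.1 ∨ d = z.1) := F.not_mem h3
          simp only [if_neg h4]
        rw [h1, h2, add_zero]
      · rw [not_or] at h
        have hk : M.kind f.1 = Sum.inl j := (F.kind_other h.1).symm.trans hf
        refine (M.vsum_switch h.1 h.2 _).trans ?_
        refine Eq.trans ?_ (M.ord_sum f j hk)
        refine Finset.sum_congr rfl fun d hd => ?_
        rw [mem_filter] at hd
        have h3 : ¬ M.SameV x (d, false) := fun h' => h.1 (h'.trans _ _ _ hd.2.symm)
        have h4 : ¬ (d = x.1 ∨ d = z.1) := F.not_mem h3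
        simp only [if_neg h4]
    vor_K := by
      intro f n hf
      have hne' : M.across z ≠ M.corner x := by
        rw [F.corner_x]; exact M.across_ne z
      by_cases h : M.SameV x f
      · have hk : M.kind (M.opp z.1) = Sum.inr n := (F.kind_class (Or.inl h)).symm.trans hf
        have hK : M.K (M.corner (M.across z)) = M.K (M.across z) := M.vor_K _ n hk
        rcases F.flags (F.mem_iff.1 h) with rfl | rfl | rfl | rfl
        · rw [CMap.switch_corner_p hne', F.K'_x, F.K'_other, hK]
          refine F.not_mem fun h' => F.not_sameV (h'.trans _ _ _ (M.sameV_corner _).symm)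
        · rw [F.corner_fl _ (Or.inl rfl), F.corner_y, F.K'_fl (Or.inl rfl), F.K'_fl (Or.inr rfl)]
        · have h1 := CMap.switch_corner_cp (M := M.toCMap) hne'
          rw [F.corner_x] at h1
          rw [h1, F.K'_z, F.K'_other (F.not_mem F.not_sameV)]
        · rw [F.corner_fl _ (Or.inr rfl), F.corner_u, F.K'_fl (Or.inl rfl), F.K'_fl (Or.inr rfl)]
      · have hk : M.kind f.1 = Sum.inr n := (F.kind_other h).symm.trans hf
        rw [F.K'_other (F.not_mem h)]
        by_cases h1 : f = M.across z
        · subst h1
          rw [CMap.switch_corner_q hne', F.corner_x, F.K'_z]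
        by_cases h2 : f = M.corner (M.across z)
        · subst h2
          rw [CMap.switch_corner_cq hne', F.K'_x]
          have hk' : M.kind (M.across z).1 = Sum.inr n := by rw [← M.kind_corner]; exact hk
          exact (M.vor_K _ n hk').symm
        rw [M.toCMap.switch_corner_of_ne _ h1 _ h2, F.K'_other, M.vor_K f n hk]
        · exact F.not_mem fun h' => h (h'.trans _ _ _ (M.sameV_corner _).symm)
        · rintro rfl; exact h (Relation.EqvGen.refl _)
        · rintro rfl; exact h (M.sameV_corner _)
    vor_eqn := by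
      intro d n hd
      by_cases h : d = x.1 ∨ d = z.1
      · rw [if_pos h] at hd ⊢
        rw [F.lam_opp_z d h, ← M.vor_eqn _ n hd]
        have h1 := M.K_fl (M.across z)
        have h2 : M.K ((M.across z).1, false) + M.K ((M.across z).1, true) =
          M.K (M.opp z.1, false) + M.K (M.opp z.1, true) := rfl
        rw [← h2, ← h1]
        rcases h with rfl | rfl
        · rcases eq_or_eq_fl (x := x) (y := (x.1, false)) rfl with h3 | h3
          · have h4 : (x.1, true) = fl x := by rw [← h3]; rfl
            rw [h4, h3, F.K'_x, F.K'_fl (Or.inl rfl)]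
          · have h4 : (x.1, true) = x := by rw [← fl_fl x, ← h3]; rfl
            rw [h4, h3, F.K'_x, F.K'_fl (Or.inl rfl), add_comm]
        · rcases eq_or_eq_fl (x := z) (y := (z.1, false)) rfl with h3 | h3
          · have h4 : (z.1, true) = fl z := by rw [← h3]; rfl
            rw [h4, h3, F.K'_z, F.K'_fl (Or.inr rfl)]
          · have h4 : (z.1, true) = z := by rw [← fl_fl z, ← h3]; rfl
            rw [h4, h3, F.K'_z, F.K'_fl (Or.inr rfl), add_comm]
      · rw [if_neg h] at hd ⊢
        rw [F.K'_other h, F.K'_other h]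
        exact M.vor_eqn d n hd
    vor_nu := by
      intro f n hf
      by_cases h : f.1 = x.1 ∨ f.1 = z.1
      · rw [if_pos h] at hf
        obtain ⟨g, hg, hK⟩ := F.K'_cases f h
        rw [hK]
        exact M.vor_nu g n (by rw [hg]; exact hf)
      · rw [if_neg h] at hf
        rw [F.K'_other h]
        exact M.vor_nu f n hf
    vor_supp := by
      intro f n hf
      by_cases h : f.1 = x.1 ∨ f.1 = z.1
      · rw [if_pos h] at hf
        obtain ⟨g, hg, hK⟩ := F.K'_cases f h
        rw [hK]
        exact M.vor_supp g n (by rw [hg]; exact hf)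
      · rw [if_neg h] at hf
        rw [F.K'_other h]
        exact M.vor_supp f n hf
    vor_T := by
      intro d n hd
      by_cases h : d = x.1 ∨ d = z.1
      · rw [if_pos h] at hd ⊢
        exact M.vor_T _ n hd
      · rw [if_neg h] at hd ⊢
        exact M.vor_T d n hd
    ord_vor := by
      intro d j n hd hd'
      have hd2 : (if M.opp d = x.1 ∨ M.opp d = z.1 then M.kind (M.opp z.1) else M.kind (M.opp d)) =
        Sum.inr n := hd'
      by_cases h : d = x.1 ∨ d = z.1
      · rw [if_pos h] at hd
        left
        refine single_of_inStar (F.r2 z.1 j (Or.inr rfl) hd) (K := M.lam d) ?_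
          (M.ord_lam d i (hkO h))
        rw [F.lam_opp_z d h]
        exact M.ord_lam _ j hd
      · rw [if_neg h] at hd
        by_cases h1 : M.opp d = x.1 ∨ M.opp d = z.1
        · rw [if_pos h1] at hd2
          left
          have h2 : M.opp (M.opp d) = d := M.opp_opp d
          refine single_of_inStar (F.r2 (M.opp d) j h1 (by rw [h2]; exact hd)) (K := M.lam d)
            (M.ord_lam d j hd) ?_
          rw [← M.lam_opp]
          exact M.ord_lam _ i (hkO h1)
        · rw [if_neg h1] at hd2
          rcases M.ord_vor d j n hd hd2 with h2 | ⟨s, h2⟩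
          · exact Or.inl h2
          · right
            refine ⟨s, ?_⟩
            have h3 : F.K' (M.across (d, s)) = M.K (M.across (d, s)) := F.K'_other h1
            have h4 : (M.toCMap.switch x (M.across z)).across (d, s) = M.across (d, s) := rfl
            rw [h4, h3]
            exact h2 }

theorem FoldData.fold_cex (hT : ∀ j ∈ Y, M.T x.1 j + M.T z.1 j = 0) (hM : Cex β N M) :
    Cex β N F.fold := by
  refine ⟨?_, ?_, ?_⟩
  · intro j hj
    rw [← hM.1 j hj]
    have h1 : ∀ d, F.fold.T d j = if d ∈ ({x.1, z.1} : Finset D) then M.T (M.opp z.1) j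
        else M.T d j := by
      intro d
      have : F.fold.T d = if d = x.1 ∨ d = z.1 then M.T (M.opp z.1) else M.T d := rfl
      rw [this]
      simp only [mem_insert, mem_singleton]
      split_ifs <;> rfl
    rw [Finset.sum_congr rfl fun d _ => h1 d, Finset.sum_ite,
      ← Finset.sum_filter_add_sum_filter_not univ (fun d => d ∈ ({x.1, z.1} : Finset D))
      (fun d => M.T d j)]
    congr 1
    rw [Finset.filter_mem_eq_inter, Finset.univ_inter, Finset.sum_pair F.ne.symm,
      Finset.sum_pair F.ne.symm, hT j hj, CharTwo.add_self_eq_zero]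
  · have h1 : F.fold.G2 = (M.toCMap.switch x (M.across z)).G2 := rfl
    have hg : (M.toCMap.switch x (M.across z)).G2 ≤ M.G2 := by
      rw [CMap.switch_comm]
      refine M.toCMap.G2_switch_fac (M.across z) x 1 ?_
      rw [pow_one, M.fac_apply, M.across_across, F.corner_z]
    have h2 : F.fold.vnums Set.univ ⊆ M.vnums Set.univ := by
      rintro m ⟨d, _, hd⟩
      have hd' : (if d = x.1 ∨ d = z.1 then M.kind (M.opp z.1) else M.kind d) = Sum.inr m := hd
      by_cases h : d = x.1 ∨ d = z.1
      · rw [if_pos h] at hd'; exact ⟨M.opp z.1, Set.mem_univ _, hd'⟩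
      · rw [if_neg h] at hd'; exact ⟨d, Set.mem_univ _, hd'⟩
    have h3 : (M.vnums Set.univ).Finite := by
      have : M.vnums Set.univ ⊆ Set.range (fun d => (M.kind d).elim (fun _ => 0) id) := by
        rintro m ⟨d, _, hd⟩
        exact ⟨d, by simp [hd]⟩
      exact (Set.finite_range _).subset this
    have h4 := Set.ncard_le_ncard h2 h3
    have h5 := hM.2.1
    rw [h1]
    have h6 : ((F.fold.vnums Set.univ).ncard : ℤ) ≤ ((M.vnums Set.univ).ncard : ℤ) := by
      exact_mod_cast h4
    linarith
  · intro hβ d j l hd hd'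
    have e1 : (if d = x.1 ∨ d = z.1 then M.kind (M.opp z.1) else M.kind d) = Sum.inl j := hd
    have e2 : (if M.opp d = x.1 ∨ M.opp d = z.1 then M.kind (M.opp z.1) else M.kind (M.opp d)) =
      Sum.inl l := hd'
    have e3 : F.fold.lam d = M.lam d := rfl
    rw [e3]
    by_cases h : d = x.1 ∨ d = z.1
    · rw [if_pos h] at e1
      rw [F.lam_opp_z d h, M.lam_opp]
      exact hM.2.2 hβ z.1 i j F.kind_z e1
    · rw [if_neg h] at e1
      by_cases h1 : M.opp d = x.1 ∨ M.opp d = z.1
      · rw [if_pos h1] at e2
        rw [← M.lam_opp, F.lam_opp_z _ h1, M.lam_opp]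
        exact hM.2.2 hβ z.1 i l F.kind_z e2
      · rw [if_neg h1] at e2
        exact hM.2.2 hβ d j l e1 e2

end fold

end Pic

end Pool.Agent.HomV
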