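import Pool.Agent.HomV.PicDef

/-!
# Deleting fibres: the restriction of a picture to `Y \ T₀`
-/

set_option autoImplicit false

namespace Pool.Agent.HomV

open Finset Classical

variable {U : Type} [Fintype U] {X : SimpleGraph U} {Y : Finset U} {w : ℕ} {D : Type} [Fintype D]
  {N : ℕ} {β : Prop}

private theorem pay_resC_ne {Y' : Finset U} {K : Ch U} {e : Sym2 U} (h : resC Y' K e ≠ 0) :
    (∀ j ∈ e, j ∈ Y') ∧ K e ≠ 0 := by
  unfold resC at h
  split_ifs at h with h1
  · exact ⟨h1, h⟩
  · exact absurd rfl h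

private theorem pay_resC_zero (Y' : Finset U) : resC Y' (0 : Ch U) = 0 := by
  funext e
  unfold resC
  split_ifs <;> rfl

private theorem pay_resC_sum {ι : Type} (Y' : Finset U) (s : Finset ι) (f : ι → Ch U) :
    resC Y' (∑ a ∈ s, f a) = ∑ a ∈ s, resC Y' (f a) := by
  induction s using Finset.induction_on with
  | empty => simp [pay_resC_zero]
  | insert a s ha ih => rw [Finset.sum_insert ha, Finset.sum_insert ha, resC_add, ih]

private theorem pay_resC_dl (T₀ : Finset U) (T : U → ZMod 2) :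
    resC (Y \ T₀) (dl X Y T) = dl X (Y \ T₀) T := by
  funext e
  induction e using Sym2.ind with
  | _ i j =>
    unfold resC
    rw [dl_mk, dl_mk]
    have h1 : (∀ k ∈ s(i, j), k ∈ Y \ T₀) ↔ i ∈ Y \ T₀ ∧ j ∈ Y \ T₀ := by
      constructor
      · intro h
        exact ⟨h i (Sym2.mem_mk_left i j), h j (Sym2.mem_mk_right i j)⟩
      · rintro ⟨hi, hj⟩ k hk
        rw [Sym2.mem_iff] at hk
        rcases hk with rfl | rfl
        · exact hi
        · exact hj
    by_cases h2 : i ∈ Y \ T₀ ∧ j ∈ Y \ T₀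
    · rw [if_pos (h1.mpr h2)]
      have hi := (Finset.mem_sdiff.mp h2.1).1
      have hj := (Finset.mem_sdiff.mp h2.2).1
      by_cases h3 : X.Adj i j
      · rw [if_pos ⟨h3, hi, hj⟩, if_pos ⟨h3, h2.1, h2.2⟩]
      · rw [if_neg (fun h => h3 h.1), if_neg (fun h => h3 h.1)]
    · rw [if_neg (fun h => h2 (h1.mp h)), if_neg (fun h => h2 h.2)]

private theorem pay_resC_supp {K : Ch U} (h : Supp X Y K) (T₀ : Finset U) :
    Supp X (Y \ T₀) (resC (Y \ T₀) K) := by
  intro e he
  have h1 := pay_resC_ne he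
  exact ⟨(h e h1.2).1, h1.1⟩

private theorem pay_sz_sdiff_le (T₀ : Finset U) (T : U → ZMod 2) : sz (Y \ T₀) T ≤ sz Y T := by
  unfold sz
  exact Finset.card_le_card (Finset.filter_subset_filter _ Finset.sdiff_subset)

theorem Absb.pay {i : U} {K : Ch U} (h : Absb X Y w i K) (T₀ : Finset U) :
    Absb X (Y \ T₀) w i (resC (Y \ T₀) K) := by
  obtain ⟨S, hS, hnu⟩ := h
  refine ⟨S, (pay_sz_sdiff_le T₀ S).trans hS, hnu.mono ?_⟩
  intro e he
  rw [← pay_resC_dl, ← resC_add] at he
  unfold cut at he ⊢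
  split_ifs at he ⊢ with h1
  · exact absurd rfl he
  · exact (pay_resC_ne he).2

/-- The restriction of a picture to the live vertices outside of `T₀`: the same map, labels and
contents are restricted. -/
noncomputable def Pic.pay (M : Pic X Y w D) (T₀ : Finset U) : Pic X (Y \ T₀) w D where
  toCMap := M.toCMap
  kind := M.kind
  lam d := resC (Y \ T₀) (M.lam d)
  K x := resC (Y \ T₀) (M.K x)
  T := M.T
  kind_corner := M.kind_corner
  vor_conn := M.vor_conn
  lam_opp := by
    intro d
    rw [M.lam_opp]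
  lam_supp := by
    intro d
    exact pay_resC_supp (M.lam_supp d) T₀
  lam_nu := by
    intro d
    exact (M.lam_nu d).mono (fun e he => (pay_resC_ne he).2) le_rfl
  ord_lam := by
    intro d i hd e he
    have h1 := pay_resC_ne he
    have h2 := star_ne.mp (M.ord_lam d i hd e h1.2)
    exact star_ne.mpr ⟨h2.1, h2.2.1, h1.1⟩
  ord_T := M.ord_T
  ord_sum := by
    intro x i hx
    have h1 := M.ord_sum x i hx
    have h2 := congrArg (resC (Y \ T₀)) h1
    rw [pay_resC_zero, pay_resC_sum] at h2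
    rw [← h2]
    refine Finset.sum_congr rfl fun d _ => ?_
    rw [resC_add, pay_resC_dl]
  vor_K := by
    intro x n hx
    rw [M.vor_K x n hx]
  vor_eqn := by
    intro d n hd
    rw [← resC_add, M.vor_eqn d n hd, resC_add, pay_resC_dl]
  vor_nu := by
    intro x n hx
    exact (M.vor_nu x n hx).mono (fun e he => (pay_resC_ne he).2) le_rfl
  vor_supp := by
    intro x n hx
    exact pay_resC_supp (M.vor_supp x n hx) T₀
  vor_T := by
    intro d n hd
    exact (pay_sz_sdiff_le T₀ _).trans (M.vor_T d n hd)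
  ord_vor := by
    intro d i n hd hd'
    rcases M.ord_vor d i n hd hd' with ⟨e, he⟩ | ⟨s, hs⟩
    · exact Or.inl ⟨e, fun e' he' => he e' (pay_resC_ne he').2⟩
    · exact Or.inr ⟨s, hs.pay T₀⟩

theorem Cex.pay {M : Pic X Y w D} (h : Cex β N M) (T₀ : Finset U) : Cex β N (M.pay T₀) := by
  refine ⟨?_, h.2.1, ?_⟩
  · intro i hi
    exact h.1 i (Finset.mem_sdiff.mp hi).1
  · intro hb d i j hd hd'
    have h1 : M.lam d = 0 := h.2.2 hb d i j hd hd'
    change resC (Y \ T₀) (M.lam d) = 0
    rw [h1, pay_resC_zero]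

end Pool.Agent.HomV
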