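import Pool.Agent.HomV.Ops3

/-!
# R2 and R1

`R2`: no edge joins two ordinary vertices of the same fibre.  Let `x.1 = d`, `x₀ = across x`.
If `x`, `x₀` are at the same vertex, `delete_edges` for `{d, opp d}`.  Otherwise switch at
`p = corner x`, `q = x₀` (`fac q = p`, `G2_switch_fac`): the two vertices of the same fibre are
merged, the result is a counterexample with `corner x = across x`, contradiction to `R3`
(`MinM.of_cex`).

`R1`: consecutive darts `d = x.1`, `d' = z.1` (`z = corner x`, `d ≠ d'`) of an ordinary vertex have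
different labels.  If `opp d = d'`: R2.  Otherwise suppose `lam d = lam d'`.
1. `T d = T d' = 0`: move them to a third dart of the vertex; if there is none, then
   `dl (T d + T d') = 0`, so `T d = T d'` on `Y`, and both can be put equal to `0`.
2. `y = fl x`, `u = fl z`; if `corner y ≠ u` switch at `corner y` and `u`
   (`rot (rot u) = corner y`): now `{d, d'}` is a vertex.
3. `z₀ = across z`; give `d`, `d'` the kind of `z₀`; if it is a vortex: `K x = K z = K z₀`,
   `K y = K u = K (fl z₀)`, `T d = T d' = T (opp d')`.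
4. switch at `x` and `z₀` (`fac z₀ = x`): `{d, d'}` is merged with the vertex of `z₀`.
The result (steps 1-4 together) is a counterexample with `corner z = across z`: `R3`.
(`ord_vor` for `opp d` if it is ordinary and `z₀` is at a vortex: `lam d` is supported in two
different stars (`R2`), so `Single`.)
-/

set_option autoImplicit false

namespace Pool.Agent.HomV

open Finset Classical

variable {U : Type} [Fintype U] {X : SimpleGraph U} {Y : Finset U} {w : ℕ} {D : Type} [Fintype D]
  {Q N : ℕ} {β : Prop}

theorem R2 {M : Pic X Y w D} (h : MinM Q β N M) {d : D} {i : U} (hd : M.kind d = Sum.inl i) :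
    M.kind (M.opp d) ≠ Sum.inl i := by
  intro hd'
  have hnl := no_loop h hd
  have hx₀ : M.SameV (M.opp d, false) (M.across (d, false)) :=
    ((M.toCMap.sameV_false (y := M.across (d, false))).2 (Relation.EqvGen.refl _)).symm
  have hpq : ¬ M.SameV (M.corner (d, false)) (M.across (d, false)) := fun h1 =>
    hnl ((M.sameV_corner _).trans _ _ _ (h1.trans _ _ _ hx₀.symm))
  have hp : M.kind (M.corner (d, false)).1 = Sum.inl i := by rw [M.kind_corner]; exact hd
  have hg : (M.toCMap.switch (M.corner (d, false)) (M.across (d, false))).G2 ≤ M.G2 := by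
    rw [CMap.switch_comm]
    refine M.toCMap.G2_switch_fac _ _ 1 ?_
    rw [pow_one, M.fac_apply, M.across_across]
  have hC := M.merge_cex _ _ i hp hd' hpq hg h.cex
  refine R3 (h.of_cex hC) (M.across (d, false)) ?_
  have h' : M.across (d, false) ≠ M.corner (M.corner (d, false)) := by
    rw [M.cc]; exact M.across_ne _
  refine (CMap.switch_corner_q (M := M.toCMap) h').trans ?_
  rw [M.cc]
  exact (M.across_across (d, false)).symm

/-- step 1 -/
theorem R1_step1 (hG : Good X Y Q) (hQ : 2 < Q) (M : Pic X Y w D) (hM : Cex β N M)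
    {x z : D × Bool} {i : U} (hk : M.kind x.1 = Sum.inl i) (hz : M.corner x = z)
    (hne : z.1 ≠ x.1) (hl : M.lam z.1 = M.lam x.1) :
    ∃ M₁ : Pic X Y w D, Cex β N M₁ ∧ M₁.toCMap = M.toCMap ∧ M₁.kind = M.kind ∧
      M₁.lam = M.lam ∧ ∀ j ∈ Y, M₁.T x.1 j + M₁.T z.1 j = 0 := by
  have hxz : M.SameV x z := by rw [← hz]; exact M.sameV_corner x
  have hkz : M.kind z.1 = Sum.inl i := by rw [← M.kind_sameV hxz]; exact hk
  by_cases hA : ∀ e, M.SameV x (e, false) → e = x.1 ∨ e = z.1
  · refine ⟨M, hM, rfl, rfl, rfl, ?_⟩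
    have h1 := M.ord_sum x i hk
    have h2 : (univ.filter fun e => M.SameV x (e, false)) = {x.1, z.1} := by
      ext e
      simp only [mem_filter, mem_univ, true_and, mem_insert, mem_singleton]
      refine ⟨hA e, ?_⟩
      rintro (rfl | rfl)
      · exact (M.toCMap.sameV_false (y := x)).2 (Relation.EqvGen.refl _)
      · exact (M.toCMap.sameV_false (y := z)).2 hxz
    rw [h2, Finset.sum_pair hne.symm, hl] at h1
    have h3 : dl X Y (M.T x.1 + M.T z.1) = 0 := by
      rw [dl_add]
      have : ∀ a b c : Ch U, a + b + (a + c) = (a + a) + (b + c) := by intro a b c; ring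
      rw [this, ch_add_self, zero_add] at h1
      exact h1
    have h4 : sz Y (M.T x.1 + M.T z.1) ≤ 1 := by
      unfold sz
      rw [Finset.card_le_one]
      have key : ∀ a ∈ Y.filter (fun j => (M.T x.1 + M.T z.1) j ≠ 0), a = i := by
        intro a ha
        rw [mem_filter] at ha
        by_contra hai
        apply ha.2
        rw [Pi.add_apply, M.ord_T x.1 i hk a hai, M.ord_T z.1 i hkz a hai, add_zero]
      intro a ha b hb
      rw [key a ha, key b hb]
    exact eq_of_dl_eq_zero hG h3 (lt_of_le_of_lt h4 (by omega)) (by omega)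
  · push Not at hA
    obtain ⟨e, he, hex, hez⟩ := hA
    have hx1 : M.SameV (x.1, false) (e, false) :=
      ((M.toCMap.sameV_false (y := x)).2 (Relation.EqvGen.refl _)).symm.trans _ _ _ he
    obtain ⟨M₁, hM₁, hmap, hkind, hlam, _, hT⟩ := M.exists_move hk hx1 hM
    have hz1 : M₁.SameV (z.1, false) (e, false) := by
      rw [hmap]
      exact ((M.toCMap.sameV_false (y := z)).2 (Relation.EqvGen.refl _)).symm.trans _ _ _
        (hxz.symm.trans _ _ _ he)
    have hkz₁ : M₁.kind z.1 = Sum.inl i := by rw [hkind]; exact hkz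
    obtain ⟨M₂, hM₂, hmap₂, hkind₂, hlam₂, _, hT₂⟩ := M₁.exists_move hkz₁ hz1 hM₁
    refine ⟨M₂, hM₂, by rw [hmap₂, hmap], by rw [hkind₂, hkind], by rw [hlam₂, hlam], ?_⟩
    intro j _
    have h1 : M₂.T x.1 = 0 := by
      rw [hT₂, hT, if_pos rfl, if_neg hex.symm, if_neg hne.symm, if_neg hex.symm, add_zero,
        add_zero, add_zero, tt_add_self]
    have h2 : M₂.T z.1 = 0 := by
      rw [hT₂, if_pos rfl, if_neg hez.symm, add_zero, tt_add_self]
    rw [h1, h2]
    exact add_zero _

/-- step 2 -/
theorem R1_step2 (M : Pic X Y w D) (hM : Cex β N M)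
    {x z : D × Bool} {i : U} (hk : M.kind x.1 = Sum.inl i) (hz : M.corner x = z)
    (hne : z.1 ≠ x.1) (hl : M.lam z.1 = M.lam x.1)
    (hT : ∀ j ∈ Y, M.T x.1 j + M.T z.1 j = 0) :
    ∃ M₁ : Pic X Y w D, Cex β N M₁ ∧ M₁.opp = M.opp ∧ M₁.kind = M.kind ∧
      M₁.lam = M.lam ∧ M₁.T = M.T ∧ M₁.corner x = z ∧ M₁.corner (fl x) = fl z := by
  have hxz : M.SameV x z := by rw [← hz]; exact M.sameV_corner x
  have hkz : M.kind z.1 = Sum.inl i := by rw [← M.kind_sameV hxz]; exact hk
  have hzx : M.corner z = x := by rw [← hz, M.cc]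
  have hyu : fl x ≠ fl z := fun h1 => hne (by
    have := congrArg Prod.fst h1
    exact this.symm)
  have h' : M.corner (fl x) ≠ M.corner (fl z) := fun h1 => hyu (M.corner_inj h1)
  have hSV : M.SameV (fl z) (M.corner (fl x)) :=
    (M.sameV_fl z).symm.trans _ _ _ (hxz.symm.trans _ _ _
      ((M.sameV_fl x).trans _ _ _ (M.sameV_corner _)))
  have b1 : x ≠ fl z := fun h1 => hne (by
    have := congrArg Prod.fst h1
    exact this.symm)
  have b2 : x ≠ fl x := (fl_ne x).symm
  have b3 : z ≠ fl z := (fl_ne z).symm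
  have b4 : z ≠ fl x := fun h1 => hne (by
    have := congrArg Prod.fst h1
    exact this)
  have c1 : (M.toCMap.switch (fl z) (M.corner (fl x))).corner x = z := by
    rw [M.toCMap.switch_corner_of_ne b1 _ _ _]
    · exact hz
    · intro h1
      have := congrArg M.corner h1
      rw [M.cc, hz] at this
      exact b4 this
    · intro h1
      have := congrArg M.corner h1
      rw [M.cc, hz] at this
      exact b3 this
    · rw [M.cc]; exact b2
  have c2 : (M.toCMap.switch (fl z) (M.corner (fl x))).corner (fl x) = fl z := by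
    have := CMap.switch_corner_cq (M := M.toCMap) h'
    rw [M.cc] at this
    exact this
  have c3 : (M.toCMap.switch (fl z) (M.corner (fl x))).corner z = x := by
    have := (M.toCMap.switch (fl z) (M.corner (fl x))).cc x
    rw [c1] at this
    exact this
  have c4 : (M.toCMap.switch (fl z) (M.corner (fl x))).corner (fl z) = fl x := by
    have := (M.toCMap.switch (fl z) (M.corner (fl x))).cc (fl x)
    rw [c2] at this
    exact this
  have hsum : Pic.vsum (M.toCMap.switch (fl z) (M.corner (fl x)))
      (fun d => M.lam d + dl X Y (M.T d)) (fl z) = 0 := by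
    unfold Pic.vsum
    have hf : (univ.filter fun e =>
        (M.toCMap.switch (fl z) (M.corner (fl x))).SameV (fl z) (e, false)) = {x.1, z.1} := by
      ext e
      simp only [mem_filter, mem_univ, true_and, mem_insert, mem_singleton]
      constructor
      · intro h1
        have := ((M.toCMap.switch (fl z) (M.corner (fl x))).sameV_inv
          (P := fun f => f.1 = x.1 ∨ f.1 = z.1) (by
            intro f hf
            rcases hf with hf | hf
            · rcases eq_or_eq_fl hf with rfl | rfl
              · rw [c1]; exact Or.inr rfl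
              · rw [c2]; exact Or.inr rfl
            · rcases eq_or_eq_fl hf with rfl | rfl
              · rw [c3]; exact Or.inl rfl
              · rw [c4]; exact Or.inl rfl) (fun _ h => h) h1).1 (Or.inr rfl)
        exact this
      · have hy : (M.toCMap.switch (fl z) (M.corner (fl x))).SameV (fl z) (fl x) := by
          have := (M.toCMap.switch (fl z) (M.corner (fl x))).sameV_corner (fl z)
          rwa [c4] at this
        rintro (rfl | rfl)
        · exact ((M.toCMap.switch (fl z) (M.corner (fl x))).sameV_false (y := fl x)).2 hy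
        · exact ((M.toCMap.switch (fl z) (M.corner (fl x))).sameV_false (y := fl z)).2
            (Relation.EqvGen.refl _)
    rw [hf, Finset.sum_pair hne.symm, hl]
    have h3 : dl X Y (M.T x.1 + M.T z.1) = 0 := by
      rw [dl_congr (S := M.T x.1 + M.T z.1) (T := 0) (fun j hj => hT j hj), dl_zero]
    rw [dl_add] at h3
    have : ∀ a b c : Ch U, a + b + (a + c) = (a + a) + (b + c) := by intro a b c; ring
    rw [this, ch_add_self, zero_add, h3]
  have hg : (M.toCMap.switch (fl z) (M.corner (fl x))).G2 ≤ M.G2 := by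
    refine M.toCMap.G2_switch_rot _ _ 2 ?_
    rw [pow_two, Equiv.Perm.mul_apply, M.rot_apply, M.rot_apply, fl_fl, hzx]
  exact ⟨M.split (fl z) (M.corner (fl x)) i hkz hSV hsum,
    M.split_cex (fl z) (M.corner (fl x)) i hkz hSV hsum hg hM, rfl, rfl, rfl, rfl, c1, c2⟩

theorem R1 {M : Pic X Y w D} (h : MinM Q β N M) {x : D × Bool} (hx : M.Ord x)
    (hne : (M.corner x).1 ≠ x.1) : M.lam (M.corner x).1 ≠ M.lam x.1 := by
  intro hl
  obtain ⟨i, hk⟩ := hx
  have hb := h.big
  have hkz : M.kind (M.corner x).1 = Sum.inl i := by rw [M.kind_corner]; exact hk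
  obtain ⟨z, hz⟩ : ∃ z, M.corner x = z := ⟨_, rfl⟩
  rw [hz] at hne hl hkz
  obtain ⟨M₁, hM₁, hmap, hkind, hlam, hT⟩ :=
    R1_step1 h.good (by omega) M h.cex hk hz hne hl
  obtain ⟨M₂, hM₂, hopp₂, hkind₂, hlam₂, hT₂, hc₂, hc₂'⟩ :=
    R1_step2 M₁ hM₁ (x := x) (z := z) (i := i) (by rw [hkind]; exact hk)
      (by rw [hmap]; exact hz) hne (by rw [hlam]; exact hl) hT
  have h₂ := h.of_cex hM₂
  have hkx₂ : M₂.kind x.1 = Sum.inl i := by rw [hkind₂, hkind]; exact hk
  have hkz₂ : M₂.kind z.1 = Sum.inl i := by rw [hkind₂, hkind]; exact hkz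
  have hF : Pic.FoldData M₂ x z i :=
    { corner_x := hc₂
      corner_y := hc₂'
      ne := hne
      opp_ne := by
        intro h1
        refine R2 h₂ hkz₂ ?_
        rw [h1]; exact hkx₂
      kind_x := hkx₂
      lam_eq := by rw [hlam₂, hlam]; exact hl
      r2 := by
        rintro d j (rfl | rfl) hj rfl
        · exact R2 h₂ hkx₂ hj
        · exact R2 h₂ hkz₂ hj }
  have hC := hF.fold_cex (fun j hj => by rw [hT₂]; exact hT j hj) hM₂
  refine R3 (h₂.of_cex hC) (M₂.across z) ?_
  have h' : M₂.across z ≠ M₂.corner x := by rw [hc₂]; exact M₂.across_ne z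
  refine (CMap.switch_corner_q (M := M₂.toCMap) h').trans ?_
  rw [hc₂]
  exact (M₂.across_across z).symm

end Pool.Agent.HomV
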