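import Pool.Agent.HomV.PicDef

/-!
# Components of pictures

`par_const`: for a closed set `S` of darts, `dl (∑ d ∈ S, T d) = ∑ d ∈ S, (lam d + dl (T d)) = 0`:
the labels cancel along the edges, the sums over ordinary vertices are `0` (`ord_sum`), the darts
of the vortices give the sum of `K` over the flags, where the two flags of a corner cancel.
So the parity is constant on `Y` (`const_of_dl_eq_zero`).

`shrink`: if the parity of the nonempty closed set `S` is `0`, the restriction of `M` to `Sᶜ` is a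
smaller counterexample (`G2_restrict`, `G2_nonneg`).
-/

set_option autoImplicit false

namespace Pool.Agent.HomV

open Finset Classical

variable {U : Type} [Fintype U] {X : SimpleGraph U} {Y : Finset U} {w : ℕ} {D : Type} [Fintype D]
  {Q N : ℕ} {β : Prop}

/-- The restriction of a picture to a union of components. -/
noncomputable def Pic.restrict (M : Pic X Y w D) (S : Set D) (hS : M.Closed S) : Pic X Y w S where
  toCMap := M.toCMap.restrict S hS
  kind d := M.kind d
  lam d := M.lam d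
  K x := M.K ((x.1 : D), x.2)
  T d := M.T d
  kind_corner := by
    intro x
    exact M.kind_corner ((x.1 : D), x.2)
  vor_conn := by
    intro x y n hx hy
    exact (M.toCMap.restrict_sameV S hS x y).2 (M.vor_conn _ _ n hx hy)
  lam_opp := by
    intro d
    exact M.lam_opp d
  lam_supp := by
    intro d
    exact M.lam_supp d
  lam_nu := by
    intro d
    exact M.lam_nu d
  ord_lam := by
    intro d i h
    exact M.ord_lam d i h
  ord_T := by
    intro d i h
    exact M.ord_T d i h
  ord_sum := by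
    intro x i hx
    have h1 := M.ord_sum ((x.1 : D), x.2) i hx
    refine Eq.trans ?_ h1
    refine Finset.sum_bij (fun d _ => (d : D)) ?_ ?_ ?_ ?_
    · intro d hd
      rw [Finset.mem_filter] at hd ⊢
      exact ⟨Finset.mem_univ _, (M.toCMap.restrict_sameV S hS x (d, false)).1 hd.2⟩
    · intro a _ b _ hab
      exact Subtype.ext hab
    · intro d hd
      rw [Finset.mem_filter] at hd
      have hdS : d ∈ S := CMap.Closed.sameV M.toCMap hS hd.2 x.1.2
      refine ⟨⟨d, hdS⟩, ?_, rfl⟩
      rw [Finset.mem_filter]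
      exact ⟨Finset.mem_univ _, (M.toCMap.restrict_sameV S hS x (⟨d, hdS⟩, false)).2 hd.2⟩
    · intro d _
      rfl
  vor_K := by
    intro x n hx
    exact M.vor_K ((x.1 : D), x.2) n hx
  vor_eqn := by
    intro d n hd
    exact M.vor_eqn d n hd
  vor_nu := by
    intro x n hx
    exact M.vor_nu ((x.1 : D), x.2) n hx
  vor_supp := by
    intro x n hx
    exact M.vor_supp ((x.1 : D), x.2) n hx
  vor_T := by
    intro d n hd
    exact M.vor_T d n hd
  ord_vor := by
    intro d i n hd hd'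
    exact M.ord_vor d i n hd hd'

private theorem shr_lam (M : Pic X Y w D) (S : Set D) (hS : M.Closed S) :
    ∑ d ∈ univ.filter (fun d => d ∈ S), M.lam d = 0 := by
  refine Finset.sum_involution (fun d _ => M.opp d) ?_ ?_ ?_ ?_
  · intro d _
    rw [M.lam_opp, ch_add_self]
  · intro d _ _
    exact M.opp_ne d
  · intro d hd
    rw [Finset.mem_filter] at hd ⊢
    exact ⟨Finset.mem_univ _, hS.1 d hd.2⟩
  · intro d _
    exact M.opp_opp d

private theorem kind_sameV (M : Pic X Y w D) {x y : D × Bool} (h : M.SameV x y) :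
    M.kind x.1 = M.kind y.1 := by
  induction h with
  | rel x y h =>
    rcases h with h | h
    · rw [h, M.kind_corner]
    · rw [h]; rfl
  | refl x => rfl
  | symm x y _ ih => exact ih.symm
  | trans x y z _ _ h1 h2 => exact h1.trans h2

private theorem shr_ord (M : Pic X Y w D) (S : Set D) (hS : M.Closed S) :
    ∑ d ∈ (univ.filter (fun d => d ∈ S)).filter (fun d => ∃ i, M.kind d = Sum.inl i),
      (M.lam d + dl X Y (M.T d)) = 0 := by
  rw [← Finset.sum_fiberwise_of_maps_to (g := fun d : D => Quot.mk M.VRel (d, false))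
    (t := ((univ.filter (fun d => d ∈ S)).filter (fun d => ∃ i, M.kind d = Sum.inl i)).image
      (fun d : D => Quot.mk M.VRel (d, false))) (fun d hd => Finset.mem_image_of_mem _ hd)]
  refine Finset.sum_eq_zero fun v hv => ?_
  rw [Finset.mem_image] at hv
  obtain ⟨d₀, hd₀, rfl⟩ := hv
  rw [Finset.mem_filter, Finset.mem_filter] at hd₀
  obtain ⟨⟨-, hd₀S⟩, i, hi⟩ := hd₀
  refine Eq.trans ?_ (M.ord_sum (d₀, false) i hi)
  refine Finset.sum_congr ?_ fun _ _ => rfl
  ext d
  rw [Finset.mem_filter, Finset.mem_filter, Finset.mem_filter, Finset.mem_filter]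
  constructor
  · rintro ⟨_, h2⟩
    exact ⟨Finset.mem_univ _, (Quot.eqvGen_exact h2).symm⟩
  · rintro ⟨_, h2⟩
    refine ⟨⟨⟨Finset.mem_univ _, CMap.Closed.sameV M.toCMap hS h2 hd₀S⟩, i, ?_⟩, ?_⟩
    · exact (kind_sameV M h2).symm.trans hi
    · exact Quot.eqvGen_sound h2.symm

private theorem shr_vor (M : Pic X Y w D) (S : Set D) (hS : M.Closed S) :
    ∑ d ∈ (univ.filter (fun d => d ∈ S)).filter (fun d => ¬ ∃ i, M.kind d = Sum.inl i),
      (M.lam d + dl X Y (M.T d)) = 0 := by
  have h1 : ∀ d ∈ (univ.filter (fun d => d ∈ S)).filter (fun d => ¬ ∃ i, M.kind d = Sum.inl i),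
      M.lam d + dl X Y (M.T d) = ∑ s : Bool, M.K (d, s) := by
    intro d hd
    rw [Finset.mem_filter, Finset.mem_filter] at hd
    obtain ⟨n, hn⟩ : ∃ n, M.kind d = Sum.inr n := by
      rcases h : M.kind d with i | n
      · exact absurd ⟨i, h⟩ hd.2
      · exact ⟨n, rfl⟩
    rw [← M.vor_eqn d n hn, Fintype.sum_bool, add_comm]
  rw [Finset.sum_congr rfl h1, ← Finset.sum_product']
  refine Finset.sum_involution (fun x _ => M.corner x) ?_ ?_ ?_ ?_
  · intro x hx
    rw [Finset.mem_product, Finset.mem_filter, Finset.mem_filter] at hx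
    obtain ⟨n, hn⟩ : ∃ n, M.kind x.1 = Sum.inr n := by
      rcases h : M.kind x.1 with i | n
      · exact absurd ⟨i, h⟩ hx.1.2
      · exact ⟨n, rfl⟩
    have h2 := M.vor_K x n hn
    change M.K x + M.K (M.corner x) = 0
    rw [h2, ch_add_self]
  · intro x _ _
    exact M.corner_ne x
  · intro x hx
    rw [Finset.mem_product, Finset.mem_filter, Finset.mem_filter] at hx ⊢
    refine ⟨⟨⟨Finset.mem_univ _, hS.2 x hx.1.1.2⟩, ?_⟩, Finset.mem_univ _⟩
    rw [M.kind_corner]
    exact hx.1.2
  · intro x _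
    exact M.corner_corner x

theorem dl_sum_closed (M : Pic X Y w D) (S : Set D) (hS : M.Closed S) :
    dl X Y (∑ d ∈ univ.filter (fun d => d ∈ S), M.T d) = 0 := by
  have h1 : ∑ d ∈ univ.filter (fun d => d ∈ S), (M.lam d + dl X Y (M.T d)) = 0 := by
    rw [← Finset.sum_filter_add_sum_filter_not (univ.filter (fun d => d ∈ S))
      (fun d => ∃ i, M.kind d = Sum.inl i), shr_ord M S hS, shr_vor M S hS, add_zero]
  rw [Finset.sum_add_distrib, shr_lam M S hS, zero_add] at h1
  rw [dl_sum]
  exact h1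

theorem par_const (hG : Good X Y Q) (hQ : 0 < Q) (M : Pic X Y w D) (S : Set D)
    (hS : M.Closed S) : ∀ i ∈ Y, ∀ j ∈ Y,
      ∑ d ∈ univ.filter (fun d => d ∈ S), M.T d i = ∑ d ∈ univ.filter (fun d => d ∈ S), M.T d j := by
  intro i hi j hj
  have h1 := const_of_dl_eq_zero hG hQ (dl_sum_closed M S hS) i hi j hj
  rwa [Finset.sum_apply, Finset.sum_apply] at h1

private theorem vnums_mono (M : Pic X Y w D) (S : Set D) :
    (M.vnums S).ncard ≤ (M.vnums Set.univ).ncard := by
  refine Set.ncard_le_ncard ?_ ?_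
  · rintro n ⟨d, _, h⟩
    exact ⟨d, Set.mem_univ _, h⟩
  · refine (Set.toFinite (Set.range (fun d : D => M.kind d))).preimage
      (f := fun n : ℕ => (Sum.inr n : U ⊕ ℕ)) (Sum.inr_injective.injOn) |>.subset ?_
    rintro n ⟨d, _, h⟩
    exact ⟨d, h⟩

private theorem parity_split (M : Pic X Y w D) (S : Set D) (i : U) :
    ∑ d, M.T d i = ∑ d ∈ univ.filter (fun d => d ∈ S), M.T d i +
      ∑ d ∈ univ.filter (fun d => d ∈ Sᶜ), M.T d i := by
  rw [← Finset.sum_filter_add_sum_filter_not univ (fun d => d ∈ S)]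
  rfl

private theorem shrink_aux {M₀ : Pic X Y w D} (h : MinM Q β N M₀) (M : Pic X Y w D)
    (hβ : β → ∀ d i j, M.kind d = Sum.inl i → M.kind (M.opp d) = Sum.inl j → M.lam d = 0)
    (R : Set D) (hR : M.Closed R) {d₀ : D} (hd₀ : d₀ ∉ R)
    (hp : ∀ i ∈ Y, ∑ d ∈ univ.filter (fun d => d ∈ R), M.T d i = 1)
    (hN : (M.toCMap.restrict R hR).G2 + ((M.vnums R).ncard : ℤ) ≤ N) : False := by
  refine h.min _ _ (M.restrict R hR) (Fintype.card_subtype_lt (x := d₀) hd₀) ⟨?_, ?_, ?_⟩
  · intro i hi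
    rw [← hp i hi]
    refine Finset.sum_bij (fun d _ => (d : D)) ?_ ?_ ?_ ?_
    · intro d _
      rw [Finset.mem_filter]
      exact ⟨Finset.mem_univ _, d.2⟩
    · intro a _ b _ hab
      exact Subtype.ext hab
    · intro d hd
      rw [Finset.mem_filter] at hd
      exact ⟨⟨d, hd.2⟩, Finset.mem_univ _, rfl⟩
    · intro d _
      rfl
  · have h3 : (M.restrict R hR).vnums Set.univ = M.vnums R := by
      ext n
      constructor
      · rintro ⟨d, _, hd⟩
        exact ⟨d, d.2, hd⟩
      · rintro ⟨d, hdS, hd⟩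
        exact ⟨⟨d, hdS⟩, Set.mem_univ _, hd⟩
    rw [h3]
    exact hN
  · intro hb d i j hd hd'
    exact hβ hb d i j hd hd'

theorem shrink {M₀ : Pic X Y w D} (h : MinM Q β N M₀) (M : Pic X Y w D)
    (hp : ∀ i ∈ Y, ∑ d, M.T d i = 1)
    (hβ : β → ∀ d i j, M.kind d = Sum.inl i → M.kind (M.opp d) = Sum.inl j → M.lam d = 0)
    (S : Set D) (hS : M.Closed S) (hne : S.Nonempty) {i₀ : U} (hi₀ : i₀ ∈ Y)
    (h0 : ∑ d ∈ univ.filter (fun d => d ∈ S), M.T d i₀ = 0)
    (hN : M.G2 + ((M.vnums Sᶜ).ncard : ℤ) ≤ N) : False := by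
  have hQ : 0 < Q := by
    have := h.big
    omega
  obtain ⟨d₀, hd₀⟩ := hne
  refine shrink_aux h M hβ Sᶜ hS.compl (d₀ := d₀) (fun h' => h' hd₀) ?_ ?_
  · intro i hi
    have h1 := hp i hi
    rw [parity_split M S i, par_const h.good hQ M S hS i hi i₀ hi₀, h0, zero_add] at h1
    rw [← h1]
    refine Finset.sum_congr ?_ (fun _ _ => rfl)
    ext d
    simp only [mem_filter, mem_univ, true_and]
  · have h1 := M.toCMap.G2_restrict S hS
    have h2 : 0 ≤ (M.toCMap.restrict S hS).G2 := CMap.G2_nonneg _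
    linarith

private theorem zmod2_cases (a : ZMod 2) : a = 0 ∨ a = 1 := by
  revert a; decide

/-- A minimal counterexample is connected. -/
theorem MinM.eq_univ {M : Pic X Y w D} (h : MinM Q β N M) (S : Set D) (hS : M.Closed S)
    (hne : S.Nonempty) : S = Set.univ := by
  by_contra hS1
  obtain ⟨i₀, hi₀⟩ := h.good.ne
  have hc : (Sᶜ : Set D).Nonempty := by
    rw [Set.nonempty_compl]
    exact hS1
  have h1 := h.cex.1 i₀ hi₀
  rw [parity_split M S i₀] at h1
  have hN := h.cex.2.1
  rcases zmod2_cases (∑ d ∈ univ.filter (fun d => d ∈ S), M.T d i₀) with h2 | h2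
  · refine shrink h M h.cex.1 h.cex.2.2 S hS hne hi₀ h2 ?_
    have := vnums_mono M Sᶜ
    have h3 : ((M.vnums Sᶜ).ncard : ℤ) ≤ ((M.vnums Set.univ).ncard : ℤ) := by exact_mod_cast this
    linarith
  · rw [h2] at h1
    have h3 : ∑ d ∈ univ.filter (fun d => d ∈ Sᶜ), M.T d i₀ = 0 := by
      rcases zmod2_cases (∑ d ∈ univ.filter (fun d => d ∈ Sᶜ), M.T d i₀) with h4 | h4
      · exact h4
      · rw [h4] at h1
        exact absurd h1 (by decide)
    refine shrink h M h.cex.1 h.cex.2.2 Sᶜ hS.compl hc hi₀ (by convert h3) ?_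
    have := vnums_mono M Sᶜᶜ
    have h4 : ((M.vnums Sᶜᶜ).ncard : ℤ) ≤ ((M.vnums Set.univ).ncard : ℤ) := by exact_mod_cast this
    linarith

theorem MinM.sameC {M : Pic X Y w D} (h : MinM Q β N M) (x y : D × Bool) : M.SameC x y := by
  have h1 := h.eq_univ {d | M.SameC x (d, false)} (M.toCMap.closed_component x)
    ⟨x.1, (M.toCMap.mem_component).1 (Relation.EqvGen.refl x)⟩
  have h2 : y.1 ∈ {d | M.SameC x (d, false)} := by
    rw [h1]
    exact Set.mem_univ _
  exact (M.toCMap.mem_component).2 h2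

/-- A counterexample on the same darts with a closed set of darts without parity is impossible:
the form of `shrink` that is used for the reductions. -/
theorem MinM.no_junk {M₀ : Pic X Y w D} (h : MinM Q β N M₀) {M : Pic X Y w D} (hM : Cex β N M)
    (S : Set D) (hS : M.Closed S) (hne : S.Nonempty) {i₀ : U} (hi₀ : i₀ ∈ Y)
    (h0 : ∑ d ∈ univ.filter (fun d => d ∈ S), M.T d i₀ = 0) : False := by
  refine shrink h M hM.1 hM.2.2 S hS hne hi₀ h0 ?_
  have h1 := vnums_mono M Sᶜ
  have h2 := hM.2.1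
  have h3 : ((M.vnums Sᶜ).ncard : ℤ) ≤ ((M.vnums Set.univ).ncard : ℤ) := by exact_mod_cast h1
  linarith

theorem MinM.nonempty {M : Pic X Y w D} (h : MinM Q β N M) : Nonempty D := by
  by_contra hcon
  rw [not_nonempty_iff] at hcon
  obtain ⟨i₀, hi₀⟩ := h.good.ne
  have h1 := h.cex.1 i₀ hi₀
  rw [Finset.univ_eq_empty, Finset.sum_empty] at h1
  exact absurd h1 (by decide)

end Pool.Agent.HomV
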