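import Pool.Agent.HomV.GB
import Pool.Agent.HomV.Pay

/-!
# Step I: all edges between ordinary vertices can be paid

`T` from `bad_fibres`, `Z` = the darts `d` of edges between ordinary vertices such that no edge of
`X` in `lam d` meets `T`.  The end vertices of such an edge have fibres outside of `T`
(`exists_single`), so they are good, `good_vertex` gives the hypothesis of `delete_edges`, so `Z`
is empty.  Hence over `Y \ T` all labels between ordinary vertices are `0`.
-/

set_option autoImplicit false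

namespace Pool.Agent.HomV

open Finset Classical

variable {U : Type} [Fintype U] {X : SimpleGraph U} {Y : Finset U} {w : ℕ} {D : Type} [Fintype D]
  {Q N : ℕ} {β : Prop}

private theorem kind_sameV (M : Pic X Y w D) {x y : D × Bool} (h : M.SameV x y) :
    M.kind y.1 = M.kind x.1 := by
  induction h with
  | rel x y h =>
    rcases h with h | h
    · rw [h]; exact M.kind_corner x
    · rw [h]; rfl
  | refl x => rfl
  | symm x y _ ih => exact ih.symm
  | trans x y z _ _ h1 h2 => exact h2.trans h1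

theorem step1 {M : Pic X Y w D} (h : MinM Q β N M) :
    ∃ T : Finset U, T.card ≤ 48 * N ∧ Cex True N (M.pay T) := by
  obtain ⟨T, hT, hgood⟩ := bad_fibres h
  refine ⟨T, hT, ?_⟩
  obtain ⟨hc1, hc2, _⟩ := h.cex.pay T
  refine ⟨hc1, hc2, ?_⟩
  intro _ d i j hi hj
  by_contra hne
  obtain ⟨e, he⟩ := Function.ne_iff.1 hne
  -- the set of the edges between ordinary vertices with a label outside of `T`
  obtain ⟨P, hP⟩ : ∃ P : Ch U → Prop, ∀ L, P L ↔ ∃ e, L e ≠ 0 ∧ ∀ j ∈ e, j ∉ T :=
    ⟨_, fun _ => Iff.rfl⟩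
  obtain ⟨Z, hZm⟩ : ∃ Z : Set D, ∀ d, d ∈ Z ↔ ((∃ i, M.kind d = Sum.inl i) ∧
      (∃ j, M.kind (M.opp d) = Sum.inl j) ∧ P (M.lam d)) :=
    ⟨{d | (∃ i, M.kind d = Sum.inl i) ∧ (∃ j, M.kind (M.opp d) = Sum.inl j) ∧
      P (M.lam d)}, fun _ => Iff.rfl⟩
  have hZ : Z = ∅ := by
    refine delete_edges h Z ?_ (fun d hd => ((hZm d).1 hd).1) ?_
    · intro d hd
      obtain ⟨h1, h2, h3⟩ := (hZm d).1 hd
      refine (hZm _).2 ⟨h2, ?_, ?_⟩
      · rw [M.opp_opp]; exact h1
      · rw [M.lam_opp]; exact h3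
    · intro x hx
      obtain ⟨i, hxi⟩ := hx
      have hkind : ∀ d, M.SameV x (d, false) → M.kind d = Sum.inl i := by
        intro d hd
        rw [← hxi]
        exact kind_sameV M hd
      by_cases hiT : i ∈ T
      · refine Finset.sum_eq_zero fun d hd => ?_
        exfalso
        rw [mem_filter, hZm, hP] at hd
        obtain ⟨_, hd1, _, _, e, he1, he2⟩ := hd
        exact he2 i ((M.ord_lam d i (hkind d hd1)).mem e he1) hiT
      · obtain ⟨h4, hxor⟩ := hgood x i hxi hiT
        have h5 := good_vertex h ⟨i, hxi⟩ h4 hxor P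
        rw [← h5]
        refine Finset.sum_congr ?_ fun _ _ => rfl
        ext d
        simp only [mem_filter, mem_univ, true_and, hZm]
        constructor
        · rintro ⟨h6, h7⟩
          exact ⟨h6, h7.2⟩
        · rintro ⟨h6, h7⟩
          exact ⟨h6, ⟨i, hkind d h6⟩, h7⟩
  have hd : d ∈ Z := by
    refine (hZm d).2 ⟨⟨i, hi⟩, ⟨j, hj⟩, (hP _).2 ⟨e, ?_⟩⟩
    have he' : resC (Y \ T) (M.lam d) e ≠ 0 := he
    unfold resC at he'
    split_ifs at he' with h1
    · exact ⟨he', fun k hk => (mem_sdiff.1 (h1 k hk)).2⟩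
    · exact absurd rfl he'
  rw [hZ] at hd
  exact hd

end Pool.Agent.HomV
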