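import Pool.Agent.HomV.Pay
import Pool.Agent.HomV.Ops

/-!
# Step III, first case: two vortices at one face are merged

`T` = vertex covers of `M.K x` and `M.K y` (`NuLe.cover`), so that both contents are `0` over
`Y \ T`.  By `sameF_iff` there is `q ∈ {y, corner y}` with `fac ^ n x = q`; switch at `x`, `q`
(`G2_switch_fac`), give the darts with the number of `y` the number of `x`.  Both vortices have
different numbers, so they are different vertices, and all old flags stay connected
(`sameV_switch_of_not`); the number of vortices drops by one.  (If `x`, `y` have different numbers,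
then `¬ SameV x y` by `kind_corner`.)
-/

set_option autoImplicit false

namespace Pool.Agent.HomV

open Finset Classical

variable {U : Type} [Fintype U] {X : SimpleGraph U} {Y : Finset U} {w : ℕ} {D : Type} [Fintype D]
  {Q N : ℕ} {β : Prop}

/-- there are finitely many vortices -/
theorem Pic.vnums_finite (M : Pic X Y w D) (S : Set D) : (M.vnums S).Finite := by
  refine Set.Finite.subset ((Set.finite_range M.kind).preimage
    (Sum.inr_injective.injOn (s := Sum.inr ⁻¹' Set.range M.kind))) ?_
  rintro n ⟨d, _, hd⟩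
  exact ⟨d, hd⟩

/-- A switch at two flags at vortices with the same content. -/
noncomputable def Pic.vsw (M : Pic X Y w D) (p q : D × Bool) (kind' : D → U ⊕ ℕ)
    (hp : M.Vor p) (hq : M.Vor q) (hK : M.K p = M.K q)
    (hord : ∀ d i, kind' d = Sum.inl i ↔ M.kind d = Sum.inl i)
    (hcorner : ∀ z, kind' ((M.switch p q).corner z).1 = kind' z.1)
    (hconn : ∀ x y n, kind' x.1 = Sum.inr n → kind' y.1 = Sum.inr n →
      (M.switch p q).SameV x y) : Pic X Y w D :=
  have hvor : ∀ d, (∃ n, kind' d = Sum.inr n) → ∃ n, M.kind d = Sum.inr n := by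
    rintro d ⟨n, hn⟩
    rcases h : M.kind d with i | k
    · rw [← hord] at h
      rw [h] at hn
      cases hn
    · exact ⟨k, rfl⟩
  have hsw : ∀ z, M.K (Equiv.swap p q z) = M.K z := by
    intro z
    by_cases h1 : z = p
    · subst h1; rw [Equiv.swap_apply_left, hK]
    · by_cases h2 : z = q
      · subst h2; rw [Equiv.swap_apply_right, hK]
      · rw [Equiv.swap_apply_of_ne_of_ne h1 h2]
  have hswv : ∀ z : D × Bool, M.Vor z → M.Vor (Equiv.swap p q z) := by
    intro z hz
    by_cases h1 : z = p
    · subst h1; rw [Equiv.swap_apply_left]; exact hq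
    · by_cases h2 : z = q
      · subst h2; rw [Equiv.swap_apply_right]; exact hp
      · rw [Equiv.swap_apply_of_ne_of_ne h1 h2]; exact hz
  { toCMap := M.switch p q
    kind := kind'
    lam := M.lam
    K := M.K
    T := M.T
    kind_corner := hcorner
    vor_conn := hconn
    lam_opp := M.lam_opp
    lam_supp := M.lam_supp
    lam_nu := M.lam_nu
    ord_lam := fun d i h => M.ord_lam d i ((hord d i).1 h)
    ord_T := fun d i h => M.ord_T d i ((hord d i).1 h)
    ord_sum := by
      intro x i hx
      have hx' := (hord _ _).1 hx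
      have h1 : ¬ M.SameV p x := by
        intro h
        obtain ⟨n, hn⟩ := hp
        rw [M.kind_sameV h, hx'] at hn
        cases hn
      have h2 : ¬ M.SameV q x := by
        intro h
        obtain ⟨n, hn⟩ := hq
        rw [M.kind_sameV h, hx'] at hn
        cases hn
      rw [← M.ord_sum x i hx']
      refine Finset.sum_congr ?_ fun _ _ => rfl
      ext d
      simp only [mem_filter, mem_univ, true_and]
      exact M.sameV_switch_iff h1 h2 _
    vor_K := by
      intro x n hx
      obtain ⟨k, hk⟩ := hvor _ ⟨n, hx⟩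
      obtain ⟨l, hl⟩ := hswv x ⟨k, hk⟩
      rw [CMap.switch_corner, hsw, M.vor_K _ l hl, hsw]
    vor_eqn := fun d n h => by
      obtain ⟨k, hk⟩ := hvor _ ⟨n, h⟩
      exact M.vor_eqn d k hk
    vor_nu := fun x n h => by
      obtain ⟨k, hk⟩ := hvor _ ⟨n, h⟩
      exact M.vor_nu x k hk
    vor_supp := fun x n h => by
      obtain ⟨k, hk⟩ := hvor _ ⟨n, h⟩
      exact M.vor_supp x k hk
    vor_T := fun d n h => by
      obtain ⟨k, hk⟩ := hvor _ ⟨n, h⟩
      exact M.vor_T d k hk
    ord_vor := fun d i n hd ho => by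
      obtain ⟨k, hk⟩ := hvor _ ⟨n, ho⟩
      exact M.ord_vor d i k ((hord _ _).1 hd) hk }

/-- a covered content is paid -/
theorem resC_cover {T : Finset U} {K : Ch U} (h : ∀ e, K e ≠ 0 → ∃ i ∈ T, i ∈ e) :
    resC (Y \ T) K = 0 := by
  funext e
  unfold resC
  split_ifs with he
  · by_contra hK
    obtain ⟨i, hi, hie⟩ := h e hK
    exact (mem_sdiff.1 (he i hie)).2 hi
  · rfl

theorem Pic.exists_cover (M : Pic X Y w D) {x y : D × Bool} (hx : M.Vor x) (hy : M.Vor y) :
    ∃ T : Finset U, T.card ≤ 4 * w ∧ (M.pay T).K x = 0 ∧ (M.pay T).K y = 0 := by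
  obtain ⟨m, hm⟩ := hx
  obtain ⟨n, hn⟩ := hy
  obtain ⟨S₁, h1, h2⟩ := (M.vor_nu x m hm).cover (M.vor_supp x m hm)
  obtain ⟨S₂, h3, h4⟩ := (M.vor_nu y n hn).cover (M.vor_supp y n hn)
  refine ⟨S₁ ∪ S₂, ?_, resC_cover ?_, resC_cover ?_⟩
  · refine (Finset.card_union_le _ _).trans ?_
    omega
  · intro e he
    obtain ⟨i, hi, hie⟩ := h2 e he
    exact ⟨i, mem_union_left _ hi, hie⟩
  · intro e he
    obtain ⟨i, hi, hie⟩ := h4 e he
    exact ⟨i, mem_union_right _ hi, hie⟩

theorem step3_merge {M : Pic X Y w D} (h : Cex β N M) {x y : D × Bool} {m n : ℕ}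
    (hx : M.kind x.1 = Sum.inr m) (hy : M.kind y.1 = Sum.inr n) (hmn : m ≠ n)
    (hF : M.SameF x y) :
    ∃ (T : Finset U) (N' : ℕ) (M' : Pic X (Y \ T) w D), T.card ≤ 4 * w ∧ N = N' + 1 ∧
      Cex False N' M' := by
  -- the second flag
  obtain ⟨q, k, hk, hqK, hq⟩ : ∃ (q : D × Bool) (k : ℕ), (M.fac ^ k) x = q ∧
      (∀ T, (M.pay T).K y = 0 → (M.pay T).K q = 0) ∧ M.kind q.1 = Sum.inr n := by
    obtain ⟨k, hk | hk⟩ := (M.sameF_iff x y).1 hF
    · exact ⟨y, k, hk, fun _ h => h, hy⟩
    · refine ⟨M.corner y, k, hk, fun T hT => ?_, ?_⟩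
      · rw [← hT]
        exact (M.pay T).vor_K y n hy
      · rw [M.kind_corner, hy]
  obtain ⟨T, hT, hKx, hKy⟩ := M.exists_cover ⟨m, hx⟩ ⟨n, hy⟩
  have hKq := hqK T hKy
  have hne : ¬ M.SameV x q := by
    intro hs
    have := M.kind_sameV hs
    rw [hx, hq] at this
    exact hmn (Sum.inr_injective this)
  let kind' : D → U ⊕ ℕ := fun d => if M.kind d = Sum.inr n then Sum.inr m else M.kind d
  have hkx : kind' x.1 = Sum.inr m := by
    simp only [kind', hx]
    split_ifs <;> rfl
  have hkq : kind' q.1 = Sum.inr m := by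
    simp only [kind', hq, if_true]
  have hksw : ∀ z : D × Bool, kind' (Equiv.swap x q z).1 = kind' z.1 := by
    intro z
    by_cases h1 : z = x
    · subst h1; rw [Equiv.swap_apply_left, hkx, hkq]
    · by_cases h2 : z = q
      · subst h2; rw [Equiv.swap_apply_right, hkx, hkq]
      · rw [Equiv.swap_apply_of_ne_of_ne h1 h2]
  have hkc : ∀ z : D × Bool, kind' (M.corner z).1 = kind' z.1 := by
    intro z
    simp only [kind', M.kind_corner]
  have hxq : (M.switch x q).SameV x q := by
    have hq2 : q ≠ M.corner x := by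
      rintro rfl
      exact hne (M.sameV_corner x)
    have h1 := (M.switch x q).sameV_corner x
    rw [CMap.switch_corner_p hq2] at h1
    exact h1.trans _ _ _ (M.sameV_switch_of_not hne (M.sameV_corner q)).symm
  -- the new picture
  let M' : Pic X (Y \ T) w D := (M.pay T).vsw x q kind' ⟨m, hx⟩ ⟨n, hq⟩ (hKx.trans hKq.symm) (by
      intro d i
      change kind' d = Sum.inl i ↔ M.kind d = Sum.inl i
      simp only [kind']
      split_ifs with h1
      · rw [h1]
        simp
      · rfl) (by
      intro z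
      change kind' (M.toCMap.switch x q |>.corner z).1 = kind' z.1
      rw [CMap.switch_corner, hksw, hkc, hksw]) (by
      intro a b l ha hb
      change (M.toCMap.switch x q).SameV a b
      have hval : ∀ c : D × Bool, kind' c.1 = Sum.inr l → M.kind c.1 = Sum.inr l ∨
          (M.kind c.1 = Sum.inr n ∧ l = m) := by
        intro c hc
        simp only [kind'] at hc
        split_ifs at hc with h1
        · right
          exact ⟨h1, (Sum.inr_injective hc).symm⟩
        · left; exact hc
      have hbase : ∀ c d : D × Bool, ∀ l, M.kind c.1 = Sum.inr l → M.kind d.1 = Sum.inr l →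
          (M.toCMap.switch x q).SameV c d := fun c d l hc hd =>
        M.sameV_switch_of_not hne (M.vor_conn c d l hc hd)
      rcases hval a ha with h1 | ⟨h1, h1'⟩ <;> rcases hval b hb with h2 | ⟨h2, h2'⟩
      · exact hbase a b l h1 h2
      · subst h2'
        exact (hbase a x l h1 hx).trans _ _ _ (hxq.trans _ _ _ (hbase q b n hq h2))
      · subst h1'
        exact (hbase a q n h1 hq).trans _ _ _ (hxq.symm.trans _ _ _ (hbase x b l hx h2))
      · exact hbase a b n h1 h2)
  have hG : M'.G2 ≤ M.G2 := M.toCMap.G2_switch_fac x q k hk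
  have hv : (M'.vnums Set.univ).ncard + 1 ≤ (M.vnums Set.univ).ncard := by
    have hn : n ∈ M.vnums Set.univ := ⟨y.1, Set.mem_univ _, hy⟩
    rw [← Set.ncard_sdiff_singleton_add_one hn (M.vnums_finite _)]
    refine Nat.succ_le_succ (Set.ncard_le_ncard ?_ ((M.vnums_finite _).subset Set.sdiff_subset))
    rintro l ⟨d, _, hd⟩
    change kind' d = Sum.inr l at hd
    simp only [kind'] at hd
    split_ifs at hd with h1
    · have : l = m := (Sum.inr_injective hd).symm
      subst this
      exact ⟨⟨x.1, Set.mem_univ _, hx⟩, hmn⟩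
    · refine ⟨⟨d, Set.mem_univ _, hd⟩, ?_⟩
      rintro rfl
      exact h1 hd
  have h1 := h.2.1
  have h2 := M'.G2_nonneg
  refine ⟨T, N - 1, M', hT, ?_, ?_, ?_, False.elim⟩
  · have h3 : (0 : ℤ) ≤ ((M'.vnums Set.univ).ncard : ℤ) := Int.natCast_nonneg _
    omega
  · exact (h.pay T).1
  · have h3 : (0 : ℤ) ≤ ((M'.vnums Set.univ).ncard : ℤ) := Int.natCast_nonneg _
    omega

end Pool.Agent.HomV
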