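import Pool.Agent.HomV.Defs

/-!
# Switches of combinatorial maps: definitions and basic facts

`M.switch p q` replaces the corners `{p, p'}`, `{q, q'}` by `{q, p'}`, `{p, q'}`
(`p' = M.corner p`, `q' = M.corner q`): the involution `corner` is conjugated by the transposition
of the flags `p` and `q`.
-/

set_option autoImplicit false

namespace Pool.Agent.HomV

open Finset Classical

variable {D : Type}

@[simp] theorem fl_fl (x : D × Bool) : fl (fl x) = x := by simp [fl]

theorem fl_ne (x : D × Bool) : fl x ≠ x := by
  intro h
  have := congrArg Prod.snd h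
  simp [fl] at this

@[simp] theorem fl_fst (x : D × Bool) : (fl x).1 = x.1 := rfl

theorem fl_inj {x y : D × Bool} (h : fl x = fl y) : x = y := by
  rw [← fl_fl x, h, fl_fl]

/-- flags of the same dart -/
theorem eq_or_eq_fl {x y : D × Bool} (h : y.1 = x.1) : y = x ∨ y = fl x := by
  obtain ⟨d, s⟩ := x
  obtain ⟨e, t⟩ := y
  simp only at h
  subst h
  cases s <;> cases t <;> simp [fl]

namespace CMap

variable (M : CMap D)

@[simp] theorem cc (x : D × Bool) : M.corner (M.corner x) = x := M.corner_corner x

@[simp] theorem across_across (x : D × Bool) : M.across (M.across x) = x := by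
  obtain ⟨d, s⟩ := x
  simp [across, M.opp_opp, M.tw_opp]

@[simp] theorem across_fst (x : D × Bool) : (M.across x).1 = M.opp x.1 := rfl

theorem across_ne (x : D × Bool) : M.across x ≠ x := fun h => M.opp_ne x.1 (congrArg Prod.fst h)

theorem across_fl (x : D × Bool) : M.across (fl x) = fl (M.across x) := by
  obtain ⟨d, s⟩ := x
  cases s <;> cases h : M.tw d <;> simp [across, fl, h]

theorem corner_inj {x y : D × Bool} (h : M.corner x = M.corner y) : x = y := by
  rw [← M.cc x, h, M.cc]

theorem corner_eq_iff {x y : D × Bool} : M.corner x = y ↔ x = M.corner y :=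
  ⟨fun h => by rw [← h, M.cc], fun h => by rw [h, M.cc]⟩

theorem across_eq_iff {x y : D × Bool} : M.across x = y ↔ x = M.across y :=
  ⟨fun h => by rw [← h, M.across_across], fun h => by rw [h, M.across_across]⟩

/-- the same vertex -/
abbrev SameV (x y : D × Bool) : Prop := Relation.EqvGen M.VRel x y

/-- the same face -/
abbrev SameF (x y : D × Bool) : Prop := Relation.EqvGen M.FRel x y

/-- the same component -/
abbrev SameC (x y : D × Bool) : Prop := Relation.EqvGen M.CRel x y

theorem sameV_corner (x : D × Bool) : M.SameV x (M.corner x) := Relation.EqvGen.rel _ _ (Or.inl rfl)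

theorem sameV_fl (x : D × Bool) : M.SameV x (fl x) := Relation.EqvGen.rel _ _ (Or.inr rfl)

theorem sameF_corner (x : D × Bool) : M.SameF x (M.corner x) := Relation.EqvGen.rel _ _ (Or.inl rfl)

theorem sameF_across (x : D × Bool) : M.SameF x (M.across x) := Relation.EqvGen.rel _ _ (Or.inr rfl)

theorem sameC_corner (x : D × Bool) : M.SameC x (M.corner x) := Relation.EqvGen.rel _ _ (Or.inl rfl)

theorem sameC_across (x : D × Bool) : M.SameC x (M.across x) :=
  Relation.EqvGen.rel _ _ (Or.inr (Or.inl rfl))

theorem sameC_fl (x : D × Bool) : M.SameC x (fl x) :=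
  Relation.EqvGen.rel _ _ (Or.inr (Or.inr rfl))

theorem sameV_sameC {x y : D × Bool} (h : M.SameV x y) : M.SameC x y := by
  induction h with
  | rel x y h =>
    rcases h with h | h
    · rw [h]; exact M.sameC_corner x
    · rw [h]; exact M.sameC_fl x
  | refl x => exact Relation.EqvGen.refl x
  | symm x y _ ih => exact ih.symm
  | trans x y z _ _ h1 h2 => exact h1.trans _ _ _ h2

theorem sameF_sameC {x y : D × Bool} (h : M.SameF x y) : M.SameC x y := by
  induction h with
  | rel x y h =>
    rcases h with h | h
    · rw [h]; exact M.sameC_corner x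
    · rw [h]; exact M.sameC_across x
  | refl x => exact Relation.EqvGen.refl x
  | symm x y _ ih => exact ih.symm
  | trans x y z _ _ h1 h2 => exact h1.trans _ _ _ h2

/-- the rotation around the vertices: from a flag through its dart to the next one -/
def rot : Equiv.Perm (D × Bool) where
  toFun x := M.corner (fl x)
  invFun x := fl (M.corner x)
  left_inv x := by simp
  right_inv x := by simp

/-- the walk around the faces: along the edge and through the corner -/
def fac : Equiv.Perm (D × Bool) where
  toFun x := M.corner (M.across x)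
  invFun x := M.across (M.corner x)
  left_inv x := by simp
  right_inv x := by simp

theorem rot_apply (x : D × Bool) : M.rot x = M.corner (fl x) := rfl

theorem fac_apply (x : D × Bool) : M.fac x = M.corner (M.across x) := rfl

/-- Twice the (total) Euler genus. -/
noncomputable def G2 : ℤ := 4 * (M.nC : ℤ) - 2 * M.nV - 2 * M.nF + Nat.card D

/-- The switch at the flags `p` and `q`. -/
noncomputable def switch (p q : D × Bool) : CMap D where
  opp := M.opp
  opp_opp := M.opp_opp
  opp_ne := M.opp_ne
  tw := M.tw
  tw_opp := M.tw_opp
  corner x := Equiv.swap p q (M.corner (Equiv.swap p q x))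
  corner_corner x := by simp
  corner_ne x h := M.corner_ne (Equiv.swap p q x) (by
    rw [← Equiv.swap_apply_eq_iff.mpr h.symm])

@[simp] theorem switch_opp (p q : D × Bool) : (M.switch p q).opp = M.opp := rfl

@[simp] theorem switch_across (p q x : D × Bool) : (M.switch p q).across x = M.across x := rfl

theorem switch_corner (p q x : D × Bool) :
    (M.switch p q).corner x = Equiv.swap p q (M.corner (Equiv.swap p q x)) := rfl

theorem switch_comm (p q : D × Bool) : M.switch p q = M.switch q p := by
  simp only [switch, Equiv.swap_comm]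

section values

variable {M} {p q : D × Bool} (h2 : q ≠ M.corner p)
include h2

theorem switch_corner_p : (M.switch p q).corner p = M.corner q := by
  rw [switch_corner, Equiv.swap_apply_left, Equiv.swap_apply_of_ne_of_ne]
  · intro h; exact h2 ((M.corner_eq_iff).1 h)
  · exact M.corner_ne q

theorem switch_corner_q : (M.switch p q).corner q = M.corner p := by
  rw [switch_corner, Equiv.swap_apply_right, Equiv.swap_apply_of_ne_of_ne]
  · exact M.corner_ne p
  · exact fun h => h2 h.symm

theorem switch_corner_cp : (M.switch p q).corner (M.corner p) = q := by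
  rw [switch_corner, Equiv.swap_apply_of_ne_of_ne (M.corner_ne p) (fun h => h2 h.symm), M.cc,
    Equiv.swap_apply_left]

theorem switch_corner_cq : (M.switch p q).corner (M.corner q) = p := by
  rw [switch_corner, Equiv.swap_apply_of_ne_of_ne _ (M.corner_ne q), M.cc,
    Equiv.swap_apply_right]
  intro h; exact h2 ((M.corner_eq_iff).1 h)

end values

theorem switch_corner_of_ne {p q x : D × Bool} (h1 : x ≠ p) (h2 : x ≠ q) (h3 : x ≠ M.corner p)
    (h4 : x ≠ M.corner q) : (M.switch p q).corner x = M.corner x := by
  rw [switch_corner, Equiv.swap_apply_of_ne_of_ne h1 h2, Equiv.swap_apply_of_ne_of_ne]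
  · intro h; exact h3 ((M.corner_eq_iff).1 h)
  · intro h; exact h4 ((M.corner_eq_iff).1 h)

theorem switch_corner_self (p : D × Bool) : M.switch p (M.corner p) = M := by
  have : ∀ x, (M.switch p (M.corner p)).corner x = M.corner x := by
    intro x
    rw [switch_corner]
    by_cases hx : x = p
    · subst hx
      simp
    · by_cases hx' : x = M.corner p
      · subst hx'
        simp
      · rw [Equiv.swap_apply_of_ne_of_ne hx hx', Equiv.swap_apply_of_ne_of_ne]
        · intro h; exact hx' ((M.corner_eq_iff).1 h)
        · intro h; exact hx (M.corner_inj h)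
  cases M
  simp only [switch] at this ⊢
  congr
  funext x
  exact this x

/-- A set of darts that is a union of components. -/
def Closed (S : Set D) : Prop := (∀ d ∈ S, M.opp d ∈ S) ∧ ∀ x : D × Bool, x.1 ∈ S → (M.corner x).1 ∈ S

theorem Closed.compl {S : Set D} (h : M.Closed S) : M.Closed Sᶜ := by
  refine ⟨fun d hd hd' => hd ?_, fun x hx hx' => hx ?_⟩
  · have := h.1 _ hd'
    rwa [M.opp_opp] at this
  · have := h.2 _ hx'
    rwa [M.cc] at this

/-- The restriction of a map to a union of components. -/
def restrict (S : Set D) (h : M.Closed S) : CMap S where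
  opp d := ⟨M.opp d, h.1 _ d.2⟩
  opp_opp d := Subtype.ext (M.opp_opp d)
  opp_ne d h' := M.opp_ne d (congrArg Subtype.val h')
  tw d := M.tw d
  tw_opp d := M.tw_opp d
  corner x := (⟨(M.corner (x.1, x.2)).1, h.2 _ x.1.2⟩, (M.corner (x.1, x.2)).2)
  corner_corner x := by
    obtain ⟨⟨d, hd⟩, s⟩ := x
    simp
  corner_ne x h' := by
    obtain ⟨⟨d, hd⟩, s⟩ := x
    apply M.corner_ne (d, s)
    have h1 := congrArg (fun y => (y.1 : D)) h'
    have h2 := congrArg Prod.snd h'
    exact Prod.ext h1 h2

end CMap

end Pool.Agent.HomV
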