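import Pool.Agent.HomV.CycSwap

/-!
# The Euler genus under a switch

`τ = swap p q`, `p' = corner p`, `q' = corner q`.  The new `fac` is
`τ * corner * τ * across = τ * swap p' q' * fac` (as `corner * τ * corner = swap p' q'`), and in
the same way for `rot`.  So the number of cycles of `fac` (twice the number of faces) changes by
`2` if `p`, `q` are in one cycle of `fac` (then `p'`, `q'` are in the other cycle of the same
face), by `0` if `p`, `q'` are in one cycle, and by `-2` if `p`, `q` are in different faces; in the
last two cases `p` and `p'` are in the same face of the new map, so components do not fall apart.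
In all cases the number of components grows by at most one: `CRel` and the new `CRel` generate the
same relation together with `p ~ q`.
-/

set_option autoImplicit false

namespace Pool.Agent.HomV

open Finset Classical

/-! ## Two involutions -/

section invol

variable {α : Type} {c a : Equiv.Perm α}

/-- the conjugate of `c` by the transposition of `p` and `q` -/
noncomputable def sw (c : Equiv.Perm α) (p q : α) : Equiv.Perm α :=
  Equiv.swap p q * c * Equiv.swap p q

theorem Inv2.sw (h : Inv2 c a) (p q : α) : Inv2 (HomV.sw c p q) a := by
  refine ⟨fun x => ?_, h.aa, fun x hx => ?_, h.a_ne⟩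
  · simp [HomV.sw, h.cc]
  · have h1 : c (Equiv.swap p q x) = Equiv.swap p q x := by
      have h2 : Equiv.swap p q (c (Equiv.swap p q x)) = x := hx
      rw [Equiv.swap_apply_eq_iff] at h2
      exact h2
    exact h.c_ne _ h1

/-- the new product -/
theorem sw_mul_eq (p q : α) :
    HomV.sw c p q * a = Equiv.swap p q * (Equiv.swap (c p) (c q) * (c * a)) := by
  ext x
  have h1 : c (Equiv.swap p q (a x)) = Equiv.swap (c p) (c q) (c (a x)) := by
    have := Equiv.swap_apply_apply c p q
    rw [this]
    simp
  simp [HomV.sw, h1]

variable [Finite α]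

/-- both on one cycle: one class more -/
theorem Inv2.card_sw_of_sameCycle (h : Inv2 c a) {p q : α} (hpq : p ≠ q)
    (hs : (c * a).SameCycle p q) :
    Nat.card (Quot (Lnk (HomV.sw c p q) a)) = Nat.card (Quot (Lnk c a)) + 1 := by
  have h1 := h.cyc_eq
  have h2 := (h.sw p q).cyc_eq
  have h3 : cyc (Equiv.swap (c p) (c q) * (c * a)) = cyc (c * a) + 1 :=
    cyc_swap_mul_of_sameCycle _ (fun h' => hpq (c.injective h')) (h.sameCycle_c hs)
  have hn1 : ¬ (c * a).SameCycle (c p) p := fun h' => h.not_sameCycle_c p h'.symm
  have hn2 : ¬ (c * a).SameCycle (c q) p := fun h' => h.not_sameCycle_c p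
    (h'.symm.trans (h.sameCycle_c hs).symm)
  have h4 : (Equiv.swap (c p) (c q) * (c * a)).SameCycle p q :=
    (sameCycle_swap_mul_iff _ hn1 hn2 q).2 hs
  have h5 := cyc_swap_mul_of_sameCycle _ hpq h4
  rw [← sw_mul_eq, h2, h3, h1] at h5
  omega

/-- otherwise at most one class less, and `p`, `c p` stay together -/
theorem Inv2.card_sw_of_not (h : Inv2 c a) {p q : α} (hs : ¬ (c * a).SameCycle p q) :
    Nat.card (Quot (Lnk c a)) ≤ Nat.card (Quot (Lnk (HomV.sw c p q) a)) + 1 ∧
    (Relation.EqvGen (Lnk c a) p q →
      Nat.card (Quot (Lnk c a)) ≤ Nat.card (Quot (Lnk (HomV.sw c p q) a))) ∧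
    Relation.EqvGen (Lnk (HomV.sw c p q) a) p (c p) := by
  have h1 := h.cyc_eq
  have h2 := (h.sw p q).cyc_eq
  have hs' : ¬ (c * a).SameCycle (c p) (c q) := fun h' => hs (h.sameCycle_c_iff.1 h')
  have h3 := cyc_swap_mul_of_not_sameCycle _ hs'
  have hself := sameCycle_swap_mul_self _ hs'
  set f := Equiv.swap (c p) (c q) * (c * a) with hf
  have hne : p ≠ q := by
    rintro rfl
    exact hs (Equiv.Perm.SameCycle.refl _ _)
  -- the new involution
  have hsw : HomV.sw c p q * a = Equiv.swap p q * f := sw_mul_eq p q
  have hcq : q ≠ c p → HomV.sw c p q q = c p := by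
    intro hq
    simp only [HomV.sw, Equiv.Perm.mul_apply, Equiv.swap_apply_right]
    exact Equiv.swap_apply_of_ne_of_ne (h.c_ne p) (fun h' => hq h'.symm)
  have hcp : q ≠ c p → HomV.sw c p q p = c q := by
    intro hq
    simp only [HomV.sw, Equiv.Perm.mul_apply, Equiv.swap_apply_left]
    refine Equiv.swap_apply_of_ne_of_ne (fun h' => hq ?_) (h.c_ne q)
    rw [← h', h.cc]
  by_cases hq : q = c p
  · -- trivial switch
    subst hq
    have htriv : HomV.sw c p (c p) = c := by
      ext x
      simp only [HomV.sw, Equiv.Perm.mul_apply]
      by_cases hx : x = p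
      · subst hx
        rw [Equiv.swap_apply_left, h.cc, Equiv.swap_apply_left]
      · by_cases hx' : x = c p
        · subst hx'
          rw [Equiv.swap_apply_right, Equiv.swap_apply_right, h.cc]
        · rw [Equiv.swap_apply_of_ne_of_ne hx hx', Equiv.swap_apply_of_ne_of_ne]
          · intro h'
            exact hx' (by rw [← h', h.cc])
          · intro h'
            exact hx (c.injective h')
    rw [htriv]
    exact ⟨by omega, fun _ => le_rfl, Relation.EqvGen.rel _ _ (Or.inl rfl)⟩
  have hsame : ∀ x y, (c * a).SameCycle x y → f.SameCycle x y := fun x y hxy =>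
    sameCycle_swap_mul_of_not _ hs' hxy
  by_cases hB : (c * a).SameCycle p (c q)
  · -- one face before: the new map has the same number of classes
    have hB' : (c * a).SameCycle (c p) q := by
      have := h.sameCycle_c hB
      rwa [h.cc] at this
    have hpq : f.SameCycle p q := (hsame _ _ hB).trans (hself.symm.trans (hsame _ _ hB'))
    have h5 := cyc_swap_mul_of_sameCycle f hne hpq
    rw [← hsw, h2] at h5
    refine ⟨by omega, fun _ => by omega, ?_⟩
    -- `c p` is in the cycle of `p`
    refine ((h.sw p q).eqvGen_iff p (c p)).2 ?_
    rw [hsw]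
    have hcpf : f.SameCycle p (c p) := hpq.trans (hsame _ _ hB').symm
    -- the two cycles of the new permutation which cover the cycle of `f`
    have hcover : ∀ x, f.SameCycle p x → (Equiv.swap p q * f).SameCycle p x ∨
        (Equiv.swap p q * f).SameCycle q x := by
      intro x hx
      obtain ⟨n, rfl⟩ := (CMap.exists_pow_iff f p x).2 hx
      clear hx
      induction n with
      | zero => left; exact Equiv.Perm.SameCycle.refl _ _
      | succ n ih =>
        rw [pow_succ_apply]
        set y := (f ^ n) p
        by_cases hy1 : f y = p
        · left; rw [hy1]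
        · by_cases hy2 : f y = q
          · right; rw [hy2]
          · have h6 : (Equiv.swap p q * f) y = f y := Equiv.swap_apply_of_ne_of_ne hy1 hy2
            have h7 : (Equiv.swap p q * f).SameCycle y (f y) := ⟨1, by rw [zpow_one, h6]⟩
            rcases ih with ih | ih
            · left; exact ih.trans h7
            · right; exact ih.trans h7
    rcases hcover _ hcpf with h6 | h6
    · left; exact h6
    · exfalso
      have h7 := (h.sw p q).not_sameCycle_c q
      rw [hsw, hcq hq] at h7
      exact h7 h6
  · -- different faces before
    have hnpq : ¬ f.SameCycle p q := by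
      have hx1 : ¬ (c * a).SameCycle (c p) p := fun h' => h.not_sameCycle_c p h'.symm
      have hx2 : ¬ (c * a).SameCycle (c q) p := fun h' => hB h'.symm
      rw [hf, sameCycle_swap_mul_iff _ hx1 hx2 q]
      exact hs
    have h5 := cyc_swap_mul_of_not_sameCycle f hnpq
    rw [← hsw, h2] at h5
    refine ⟨by omega, fun hE => ?_, ?_⟩
    · exfalso
      rcases (h.eqvGen_iff p q).1 hE with h6 | h6
      · exact hs h6
      · exact hB h6
    · refine ((h.sw p q).eqvGen_iff p (c p)).2 ?_
      rw [hsw]
      right
      have h6 := sameCycle_swap_mul_self f hnpq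
      have h7 : HomV.sw c p q (c p) = q := by
        rw [← hcq hq, (h.sw p q).cc]
      rw [h7]
      exact h6

end invol

/-! ## Maps -/

variable {D : Type}

namespace CMap

variable (M : CMap D)

theorem switch_cP (p q : D × Bool) : (M.switch p q).cP = sw M.cP p q := by
  refine Equiv.ext fun x => ?_
  unfold sw
  rw [Equiv.Perm.mul_apply, Equiv.Perm.mul_apply, cP_apply, cP_apply, switch_corner]
  have h : ∀ i₁ i₂ : DecidableEq (D × Bool), @Equiv.swap _ i₁ p q = @Equiv.swap _ i₂ p q :=
    fun i₁ i₂ => by rw [Subsingleton.elim i₁ i₂]
  exact congrArg₂ (fun (e : Equiv.Perm (D × Bool)) (y : D × Bool) => e y) (h _ _)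
    (congrArg (fun e : Equiv.Perm (D × Bool) => M.corner (e x)) (h _ _))

theorem switch_aP (p q : D × Bool) : (M.switch p q).aP = M.aP := by
  ext x <;> rfl

theorem switch_VRel (p q : D × Bool) : (M.switch p q).VRel = Lnk (sw M.cP p q) fP := by
  rw [VRel_eq, switch_cP]

theorem switch_FRel (p q : D × Bool) : (M.switch p q).FRel = Lnk (sw M.cP p q) M.aP := by
  rw [FRel_eq, switch_cP, switch_aP]

theorem nV_eq : M.nV = Nat.card (Quot (Lnk M.cP (fP (D := D)))) := rfl

theorem nF_eq : M.nF = Nat.card (Quot (Lnk M.cP M.aP)) := rfl

theorem nV_switch (p q : D × Bool) :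
    (M.switch p q).nV = Nat.card (Quot (Lnk (sw M.cP p q) (fP (D := D)))) := by
  rw [nV_eq, switch_cP]

theorem nF_switch (p q : D × Bool) :
    (M.switch p q).nF = Nat.card (Quot (Lnk (sw M.cP p q) M.aP)) := by
  rw [nF_eq, switch_cP, switch_aP]

/-- the new links are old links modulo `p ~ q` -/
theorem switch_add (p q x y : D × Bool) (h : (M.switch p q).CRel x y) :
    Relation.EqvGen (Add M.CRel p q) x y := by
  have hpq : Relation.EqvGen (Add M.CRel p q) p q := Relation.EqvGen.rel _ _ (Or.inr ⟨rfl, rfl⟩)
  have hτ : ∀ z, Relation.EqvGen (Add M.CRel p q) z (Equiv.swap p q z) := by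
    intro z
    by_cases hp : z = p
    · subst hp
      rw [Equiv.swap_apply_left]
      exact hpq
    · by_cases hq : z = q
      · subst hq
        rw [Equiv.swap_apply_right]
        exact hpq.symm
      · rw [Equiv.swap_apply_of_ne_of_ne hp hq]
        exact Relation.EqvGen.refl _
  rcases h with rfl | rfl | rfl
  · rw [switch_corner]
    refine (hτ x).trans _ _ _ ?_
    have h1 : Relation.EqvGen (Add M.CRel p q) (Equiv.swap p q x) (M.corner (Equiv.swap p q x)) :=
      Relation.EqvGen.rel _ _ (Or.inl (Or.inl rfl))
    exact h1.trans _ _ _ (hτ _)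
  · exact Relation.EqvGen.rel _ _ (Or.inl (Or.inr (Or.inl rfl)))
  · exact Relation.EqvGen.rel _ _ (Or.inl (Or.inr (Or.inr rfl)))

/-- if `p` and `corner p` stay connected, then the components do not fall apart -/
theorem sameC_switch_of {p q : D × Bool} (hc : (M.switch p q).SameC p (M.corner p))
    {x y : D × Bool} (h : M.SameC x y) : (M.switch p q).SameC x y := by
  by_cases hq : q = M.corner p
  · subst hq
    rwa [switch_corner_self]
  have hq' : (M.switch p q).SameC q (M.corner q) := by
    have h1 : (M.switch p q).SameC q (M.corner p) := by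
      have := (M.switch p q).sameC_corner q
      rwa [switch_corner_q hq] at this
    have h2 : (M.switch p q).SameC p (M.corner q) := by
      have := (M.switch p q).sameC_corner p
      rwa [switch_corner_p hq] at this
    exact h1.trans _ _ _ (hc.symm.trans _ _ _ h2)
  induction h with
  | rel x y h =>
    rcases h with rfl | rfl | rfl
    · by_cases h1 : x = p
      · subst h1; exact hc
      · by_cases h2 : x = q
        · subst h2; exact hq'
        · by_cases h3 : x = M.corner p
          · subst h3
            rw [M.cc]
            exact hc.symm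
          · by_cases h4 : x = M.corner q
            · subst h4
              rw [M.cc]
              exact hq'.symm
            · have := (M.switch p q).sameC_corner x
              rwa [M.switch_corner_of_ne h1 h2 h3 h4] at this
    · exact (M.switch p q).sameC_across x
    · exact (M.switch p q).sameC_fl x
  | refl x => exact Relation.EqvGen.refl _
  | symm x y _ ih => exact ih.symm
  | trans x y z _ _ h1 h2 => exact h1.trans _ _ _ h2

/-- surjections of classes -/
theorem card_quot_le_of {α : Type} [Finite α] {r s : α → α → Prop}
    (h : ∀ x y, r x y → Relation.EqvGen s x y) : Nat.card (Quot s) ≤ Nat.card (Quot r) := by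
  refine Nat.card_le_card_of_surjective (Quot.lift (fun x => Quot.mk s x) fun x y hxy =>
    Quot.eqvGen_sound (h x y hxy)) ?_
  intro u
  obtain ⟨x, rfl⟩ := Quot.exists_rep u
  exact ⟨Quot.mk _ x, rfl⟩

variable [Finite D]

theorem nC_switch_le (p q : D × Bool) : (M.switch p q).nC ≤ M.nC + 1 := by
  have h1 : Nat.card (Quot (Add (M.switch p q).CRel p q)) ≤ M.nC := by
    refine card_quot_le_of ?_
    intro x y hxy
    have h2 := (M.switch p q).switch_add p q x y (by
      have : (M.switch p q).switch p q = M := by
        have : ∀ x, ((M.switch p q).switch p q).corner x = M.corner x := by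
          intro x
          rw [switch_corner, switch_corner]
          simp
        cases M
        simp only [switch] at this ⊢
        congr
        funext x
        exact this x
      rwa [this])
    exact h2
  have h2 : (M.switch p q).nC ≤ Nat.card (Quot (Add (M.switch p q).CRel p q)) + 1 := by
    by_cases h : Relation.EqvGen (M.switch p q).CRel p q
    · rw [quot_add_of _ h]
      exact Nat.le_succ _
    · rw [quot_add_of_not _ h]
      exact le_rfl
  omega

theorem nC_switch_le_of {p q : D × Bool} (hc : (M.switch p q).SameC p (M.corner p)) :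
    (M.switch p q).nC ≤ M.nC :=
  card_quot_le_of fun x y hxy => M.sameC_switch_of hc (Relation.EqvGen.rel x y hxy)

omit [Finite D] in
theorem switch_self (p : D × Bool) : M.switch p p = M := by
  have : ∀ x, (M.switch p p).corner x = M.corner x := by
    intro x
    rw [switch_corner]
    simp
  cases M
  simp only [switch] at this ⊢
  congr
  funext x
  exact this x

/-- if `p`, `q` are not on one cycle of `fac`, then `p` and `corner p` stay in one component -/
theorem sameC_of_not_fac {p q : D × Bool} (h : ¬ M.fac.SameCycle p q) :
    (M.switch p q).SameC p (M.corner p) := by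
  rw [fac_eq] at h
  have := (M.inv2_fac.card_sw_of_not h).2.2
  refine (M.switch p q).sameF_sameC ?_
  rw [SameF, switch_FRel]
  exact this

theorem sameC_of_not_rot {p q : D × Bool} (h : ¬ M.rot.SameCycle p q) :
    (M.switch p q).SameC p (M.corner p) := by
  rw [rot_eq] at h
  have := (M.inv2_rot.card_sw_of_not h).2.2
  refine (M.switch p q).sameV_sameC ?_
  rw [SameV, switch_VRel]
  exact this

theorem nV_switch_of {p q : D × Bool} (hpq : p ≠ q) (h : M.rot.SameCycle p q) :
    (M.switch p q).nV = M.nV + 1 := by
  rw [rot_eq] at h
  rw [nV_switch, nV_eq]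
  exact M.inv2_rot.card_sw_of_sameCycle hpq h

theorem nF_switch_of {p q : D × Bool} (hpq : p ≠ q) (h : M.fac.SameCycle p q) :
    (M.switch p q).nF = M.nF + 1 := by
  rw [fac_eq] at h
  rw [nF_switch, nF_eq]
  exact M.inv2_fac.card_sw_of_sameCycle hpq h

theorem nV_switch_ge (p q : D × Bool) : M.nV ≤ (M.switch p q).nV + 1 := by
  by_cases hpq : p = q
  · subst hpq
    rw [switch_self]
    exact Nat.le_succ _
  by_cases h : M.rot.SameCycle p q
  · rw [M.nV_switch_of hpq h]
    omega
  · rw [rot_eq] at h
    rw [nV_switch, nV_eq]
    exact (M.inv2_rot.card_sw_of_not h).1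

theorem nF_switch_ge (p q : D × Bool) : M.nF ≤ (M.switch p q).nF + 1 := by
  by_cases hpq : p = q
  · subst hpq
    rw [switch_self]
    exact Nat.le_succ _
  by_cases h : M.fac.SameCycle p q
  · rw [M.nF_switch_of hpq h]
    omega
  · rw [fac_eq] at h
    rw [nF_switch, nF_eq]
    exact (M.inv2_fac.card_sw_of_not h).1

theorem nF_switch_ge_of {p q : D × Bool} (hF : M.SameF p q) : M.nF ≤ (M.switch p q).nF := by
  by_cases hpq : p = q
  · subst hpq
    rw [switch_self]
  by_cases h : M.fac.SameCycle p q
  · rw [M.nF_switch_of hpq h]
    omega
  · rw [fac_eq] at h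
    rw [nF_switch, nF_eq]
    exact (M.inv2_fac.card_sw_of_not h).2.1 hF

/-- a switch that creates a face does not increase the genus -/
theorem G2_switch_fac (p q : D × Bool) (n : ℕ) (h : (M.fac ^ n) p = q) :
    (M.switch p q).G2 ≤ M.G2 := by
  by_cases hpq : p = q
  · subst hpq
    rw [switch_self]
  have hs : M.fac.SameCycle p q := (exists_pow_iff _ _ _).1 ⟨n, h⟩
  have h1 := M.nF_switch_of hpq hs
  unfold G2
  by_cases hr : M.rot.SameCycle p q
  · have h2 := M.nV_switch_of hpq hr
    have h3 := M.nC_switch_le p q
    omega
  · have h2 := M.nV_switch_ge p q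
    have h3 := M.nC_switch_le_of (M.sameC_of_not_rot hr)
    omega

/-- a switch that creates a vertex does not increase the genus -/
theorem G2_switch_rot (p q : D × Bool) (n : ℕ) (h : (M.rot ^ n) p = q) :
    (M.switch p q).G2 ≤ M.G2 := by
  by_cases hpq : p = q
  · subst hpq
    rw [switch_self]
  have hs : M.rot.SameCycle p q := (exists_pow_iff _ _ _).1 ⟨n, h⟩
  have h1 := M.nV_switch_of hpq hs
  unfold G2
  by_cases hr : M.fac.SameCycle p q
  · have h2 := M.nF_switch_of hpq hr
    have h3 := M.nC_switch_le p q
    omega
  · have h2 := M.nF_switch_ge p q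
    have h3 := M.nC_switch_le_of (M.sameC_of_not_fac hr)
    omega

/-- splitting a vertex at two corners of one face without disconnecting the map -/
theorem G2_switch_conn (p q : D × Bool) (n : ℕ) (h : (M.rot ^ n) p = q) (hpq : q ≠ p)
    (hF : M.SameF p q) (hc : (M.switch p q).SameC p (M.corner p)) :
    (M.switch p q).G2 + 2 ≤ M.G2 := by
  have hs : M.rot.SameCycle p q := (exists_pow_iff _ _ _).1 ⟨n, h⟩
  have h1 := M.nV_switch_of hpq.symm hs
  have h2 := M.nF_switch_ge_of hF
  have h3 := M.nC_switch_le_of hc
  unfold G2
  omega

/-- if the switch does not split a vertex, then the old vertices stay connected -/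
theorem sameV_switch_of_not {p q : D × Bool} (h : ¬ M.SameV p q) {x y : D × Bool}
    (hxy : M.SameV x y) : (M.switch p q).SameV x y := by
  have hr : ¬ M.rot.SameCycle p q := fun h' => h ((M.sameV_iff' p q).2 (Or.inl h'))
  have hq : q ≠ M.corner p := by
    rintro rfl
    exact h (M.sameV_corner p)
  rw [rot_eq] at hr
  have hc : (M.switch p q).SameV p (M.corner p) := by
    rw [SameV, switch_VRel]
    exact (M.inv2_rot.card_sw_of_not hr).2.2
  have hq' : (M.switch p q).SameV q (M.corner q) := by
    have h1 : (M.switch p q).SameV q (M.corner p) := by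
      have := (M.switch p q).sameV_corner q
      rwa [switch_corner_q hq] at this
    have h2 : (M.switch p q).SameV p (M.corner q) := by
      have := (M.switch p q).sameV_corner p
      rwa [switch_corner_p hq] at this
    exact h1.trans _ _ _ (hc.symm.trans _ _ _ h2)
  induction hxy with
  | rel x y h =>
    rcases h with rfl | rfl
    · by_cases h1 : x = p
      · subst h1; exact hc
      · by_cases h2 : x = q
        · subst h2; exact hq'
        · by_cases h3 : x = M.corner p
          · subst h3
            rw [M.cc]
            exact hc.symm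
          · by_cases h4 : x = M.corner q
            · subst h4
              rw [M.cc]
              exact hq'.symm
            · have := (M.switch p q).sameV_corner x
              rwa [M.switch_corner_of_ne h1 h2 h3 h4] at this
    · exact (M.switch p q).sameV_fl x
  | refl x => exact Relation.EqvGen.refl _
  | symm x y _ ih => exact ih.symm
  | trans x y z _ _ h1 h2 => exact h1.trans _ _ _ h2

end CMap

section

variable {D : Type} (M : CMap D)

/-- every flag of the vertex of `p` is afterwards at the vertex of `p` or of `corner p` -/
theorem CMap.sameV_switch_cover {p q x : D × Bool} (h : M.SameV p x) :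
    (M.switch p q).SameV p x ∨ (M.switch p q).SameV (M.corner p) x := by
  by_cases hq : q = M.corner p
  · subst hq
    rw [switch_corner_self]
    left; exact h
  -- the set is closed under the old links
  set P : D × Bool → Prop := fun z => (M.switch p q).SameV p z ∨ (M.switch p q).SameV (M.corner p) z
    with hP
  have hPp : P p := Or.inl (Relation.EqvGen.refl _)
  have hPp' : P (M.corner p) := Or.inr (Relation.EqvGen.refl _)
  have hPq' : P (M.corner q) := by
    left
    have := (M.switch p q).sameV_corner p
    rwa [switch_corner_p hq] at this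
  have hPq : P q := by
    right
    have := (M.switch p q).sameV_corner q
    rw [switch_corner_q hq] at this
    exact this.symm
  have hc : ∀ z, P z → P (M.corner z) := by
    intro z hz
    by_cases h1 : z = p
    · subst h1; exact hPp'
    · by_cases h2 : z = q
      · subst h2; exact hPq'
      · by_cases h3 : z = M.corner p
        · subst h3
          rw [M.cc]; exact hPp
        · by_cases h4 : z = M.corner q
          · subst h4
            rw [M.cc]; exact hPq
          · have := (M.switch p q).sameV_corner z
            rw [M.switch_corner_of_ne h1 h2 h3 h4] at this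
            rcases hz with hz | hz
            · left; exact hz.trans _ _ _ this
            · right; exact hz.trans _ _ _ this
  have hf : ∀ z, P z → P (fl z) := by
    intro z hz
    have := (M.switch p q).sameV_fl z
    rcases hz with hz | hz
    · left; exact hz.trans _ _ _ this
    · right; exact hz.trans _ _ _ this
  have key : ∀ z w, M.SameV z w → (P z ↔ P w) := by
    intro z w hzw
    induction hzw with
    | rel z w h =>
      rcases h with rfl | rfl
      · exact ⟨hc z, fun h => by simpa using hc _ h⟩
      · exact ⟨hf z, fun h => by simpa using hf _ h⟩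
    | refl z => exact Iff.rfl
    | symm z w _ ih => exact ih.symm
    | trans z w u _ _ h1 h2 => exact h1.trans h2
  exact (key p x h).1 hPp

/-- the other vertices are not changed -/
theorem CMap.sameV_switch_iff {p q x : D × Bool} (hp : ¬ M.SameV p x) (hq : ¬ M.SameV q x)
    (y : D × Bool) : (M.switch p q).SameV x y ↔ M.SameV x y := by
  have hne : ∀ z, M.SameV x z → (M.switch p q).corner z = M.corner z := by
    intro z hz
    refine M.switch_corner_of_ne ?_ ?_ ?_ ?_
    · rintro rfl; exact hp hz.symm
    · rintro rfl; exact hq hz.symm
    · rintro rfl; exact hp ((M.sameV_corner p).trans _ _ _ hz.symm)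
    · rintro rfl; exact hq ((M.sameV_corner q).trans _ _ _ hz.symm)
  have key1 : ∀ z w, (M.switch p q).SameV z w → (M.SameV x z ↔ M.SameV x w) := by
    have hc : ∀ z, M.SameV x z → M.SameV x ((M.switch p q).corner z) := by
      intro z hz
      rw [hne z hz]
      exact hz.trans _ _ _ (M.sameV_corner z)
    intro z w hzw
    induction hzw with
    | rel z w h =>
      rcases h with rfl | rfl
      · exact ⟨hc z, fun h => by simpa using hc _ h⟩
      · exact ⟨fun h => h.trans _ _ _ (M.sameV_fl z), fun h => h.trans _ _ _ (M.sameV_fl z).symm⟩
    | refl z => exact Iff.rfl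
    | symm z w _ ih => exact ih.symm
    | trans z w u _ _ h1 h2 => exact h1.trans h2
  constructor
  · intro h
    exact (key1 x y h).1 (Relation.EqvGen.refl _)
  · intro h
    have key2 : ∀ z w, M.SameV z w → M.SameV x z → (M.switch p q).SameV z w := by
      intro z w hzw
      induction hzw with
      | rel z w h =>
        intro hz
        rcases h with rfl | rfl
        · rw [← hne z hz]
          exact (M.switch p q).sameV_corner z
        · exact (M.switch p q).sameV_fl z
      | refl z => exact fun _ => Relation.EqvGen.refl _
      | symm z w hzw ih => exact fun hw => (ih (hw.trans _ _ _ hzw.symm)).symm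
      | trans z w u hzw _ h1 h2 =>
        exact fun hz => (h1 hz).trans _ _ _ (h2 (hz.trans _ _ _ hzw))
    exact key2 x y h (Relation.EqvGen.refl _)

/-- the flags of the new map are related by the old map together with `p ~ q` -/
theorem CMap.sameV_of_switch {p q x y : D × Bool} (hpq : M.SameV p q)
    (h : (M.switch p q).SameV x y) : M.SameV x y := by
  have hτ : ∀ z, M.SameV z (Equiv.swap p q z) := by
    intro z
    by_cases hp : z = p
    · subst hp
      rw [Equiv.swap_apply_left]
      exact hpq
    · by_cases hq : z = q
      · subst hq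
        rw [Equiv.swap_apply_right]
        exact hpq.symm
      · rw [Equiv.swap_apply_of_ne_of_ne hp hq]
        exact Relation.EqvGen.refl _
  induction h with
  | rel x y h =>
    rcases h with rfl | rfl
    · rw [switch_corner]
      exact (hτ x).trans _ _ _ ((M.sameV_corner _).trans _ _ _ (hτ _))
    · exact M.sameV_fl x
  | refl x => exact Relation.EqvGen.refl _
  | symm x y _ ih => exact ih.symm
  | trans x y z _ _ h1 h2 => exact h1.trans _ _ _ h2

end

end Pool.Agent.HomV
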