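import Pool.Agent.HomV.Abs

/-!
# R4b: the two labels of a digon can be exchanged

`x` ordinary, `x' = corner x`, `a = across x`, `a' = across x'` at a vortex, `corner a = a'`.
`K (fl a) =: K₀`, `K a = K a' =: K₁`, `K (fl a') =: K₂`; `exchange` (with `exists_single`, `R1`)
gives the new content at `a`, `a'` and the new `T a.1`, `T a'.1` with the same sum.  The map and
the kinds are the same.
-/

set_option autoImplicit false

namespace Pool.Agent.HomV

open Finset Classical

variable {U : Type} [Fintype U] {X : SimpleGraph U} {Y : Finset U} {w : ℕ} {D : Type} [Fintype D]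
  {Q N : ℕ} {β : Prop}

/-- the exchange, with all data made explicit -/
theorem R4b_aux {M : Pic X Y w D} (h : MinM Q β N M) {x z a b : D × Bool} {i : U} {n : ℕ}
    (hz : M.corner x = z) (ha : M.across x = a) (hb : M.across z = b) (hab : M.corner a = b)
    (hi : M.kind x.1 = Sum.inl i) (hn : M.kind a.1 = Sum.inr n) :
    ∃ M' : Pic X Y w D, M'.toCMap = M.toCMap ∧ M'.kind = M.kind ∧ MinM Q β N M' ∧
      M'.lam x.1 = M.lam z.1 ∧ M'.lam z.1 = M.lam x.1 ∧
      (∀ d, d ≠ x.1 → d ≠ M.opp x.1 → d ≠ z.1 → d ≠ M.opp z.1 → M'.lam d = M.lam d) ∧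
      ∀ y, y ≠ a → y ≠ b → M'.K y = M.K y := by
  have hG := h.good
  have hQ := h.big
  have hzx : z.1 ≠ x.1 := by rw [← hz]; exact corner_fst_ne h ⟨i, hi⟩
  have hiz : M.kind z.1 = Sum.inl i := by rw [← hz, M.kind_corner]; exact hi
  have hnb : M.kind b.1 = Sum.inr n := by rw [← hab, M.kind_corner]; exact hn
  have hox : M.opp x.1 = a.1 := by rw [← ha]; rfl
  have hoz : M.opp z.1 = b.1 := by rw [← hb]; rfl
  have hoa : M.opp a.1 = x.1 := by rw [← hox, M.opp_opp]
  have hob : M.opp b.1 = z.1 := by rw [← hoz, M.opp_opp]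
  have hba : b.1 ≠ a.1 := by
    intro h1
    apply hzx
    rw [← hob, h1, hoa]
  have ov : ∀ {d e : D} {j : U} {m : ℕ}, M.kind d = Sum.inl j → M.kind e = Sum.inr m → d ≠ e := by
    rintro d e j m h1 h2 rfl
    rw [h1] at h2
    cases h2
  obtain ⟨e, he, hle⟩ := exists_single h hi
  obtain ⟨f, hf, hlf⟩ := exists_single h hiz
  have hR1 : M.lam z.1 ≠ M.lam x.1 := by
    rw [← hz]
    exact R1 h ⟨i, hi⟩ (by rw [hz]; exact hzx)
  have hef : e ≠ f := by
    rintro rfl
    exact hR1 (by rw [hle, hlf])
  have hla : M.lam a.1 = Pi.single e 1 := by rw [← hox, M.lam_opp, hle]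
  have hlb : M.lam b.1 = Pi.single f 1 := by rw [← hoz, M.lam_opp, hlf]
  have hKb : M.K b = M.K a := by rw [← hab]; exact M.vor_K a n hn
  have e₁ : M.K (fl a) + M.K a = Pi.single e 1 + dl X Y (M.T a.1) := by
    rw [add_comm, M.K_fl, M.vor_eqn a.1 n hn, hla]
  have e₂ : M.K a + M.K (fl b) = Pi.single f 1 + dl X Y (M.T b.1) := by
    rw [← hKb, M.K_fl, M.vor_eqn b.1 n hnb, hlb]
  obtain ⟨K₁, T₁, T₂, hK₁, sK₁, sT₁, sT₂, hTT, f₁, f₂⟩ := exchange hG hQ he hf hef
    (M.vor_supp (fl a) n hn) (M.vor_nu (fl a) n hn) (M.vor_nu a n hn) (M.vor_nu (fl b) n hnb)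
    (M.vor_T a.1 n hn) (M.vor_T b.1 n hnb) e₁ e₂
  -- the four darts
  have hlam_in : ∀ d, (d = x.1 ∨ d = a.1) → M.lam d + (M.lam x.1 + M.lam z.1) = M.lam z.1 := by
    intro d hd
    have h1 : M.lam d = M.lam x.1 := by
      rcases hd with rfl | rfl
      · rfl
      · rw [← hox, M.lam_opp]
    rw [h1, ← add_assoc, ch_add_self, zero_add]
  have hlam_in' : ∀ d, (d = z.1 ∨ d = b.1) → M.lam d + (M.lam x.1 + M.lam z.1) = M.lam x.1 := by
    intro d hd
    have h1 : M.lam d = M.lam z.1 := by
      rcases hd with rfl | rfl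
      · rfl
      · rw [← hoz, M.lam_opp]
    rw [h1, add_comm (M.lam x.1), ← add_assoc, ch_add_self, zero_add]
  have hEopp : ∀ d, (M.opp d = x.1 ∨ M.opp d = a.1 ∨ M.opp d = z.1 ∨ M.opp d = b.1) ↔
      (d = x.1 ∨ d = a.1 ∨ d = z.1 ∨ d = b.1) := by
    intro d
    have key : ∀ c c' : D, M.opp c = c' → (M.opp d = c' ↔ d = c) := by
      intro c c' hc
      constructor
      · intro h1
        rw [← M.opp_opp d, h1, ← hc, M.opp_opp]
      · rintro rfl; exact hc
    rw [key a.1 x.1 hoa, key x.1 a.1 hox, key b.1 z.1 hob, key z.1 b.1 hoz]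
    tauto
  have hfab : fl a ≠ a ∧ fl a ≠ b :=
    ⟨fl_ne a, fun h1 => hba (by
      have := congrArg Prod.fst h1
      exact this.symm)⟩
  have hfba : fl b ≠ a ∧ fl b ≠ b :=
    ⟨fun h1 => hba (by
      have := congrArg Prod.fst h1
      exact this), fl_ne b⟩
  have hEord : ∀ d j, M.kind d = Sum.inl j → (d = x.1 ∨ d = a.1 ∨ d = z.1 ∨ d = b.1) →
      d = x.1 ∨ d = z.1 := by
    intro d j hd hE
    rcases hE with h1 | h1 | h1 | h1
    · exact Or.inl h1
    · exact absurd h1 (ov hd hn)
    · exact Or.inr h1
    · exact absurd h1 (ov hd hnb)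
  have hEvor : ∀ d m, M.kind d = Sum.inr m → (d = x.1 ∨ d = a.1 ∨ d = z.1 ∨ d = b.1) →
      d = a.1 ∨ d = b.1 := by
    intro d m hd hE
    rcases hE with h1 | h1 | h1 | h1
    · exact absurd h1.symm (ov hi hd)
    · exact Or.inl h1
    · exact absurd h1.symm (ov hiz hd)
    · exact Or.inr h1
  have hflag : ∀ (c : D × Bool) (L : D × Bool → Ch U), L (c.1, false) + L (c.1, true) =
      L c + L (fl c) := by
    rintro ⟨c, s⟩ L
    cases s
    · rfl
    · exact add_comm _ _
  let M' : Pic X Y w D :=
    { toCMap := M.toCMap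
      kind := M.kind
      lam := fun d => if d = x.1 ∨ d = a.1 ∨ d = z.1 ∨ d = b.1 then
        M.lam d + (M.lam x.1 + M.lam z.1) else M.lam d
      K := fun y => if y = a ∨ y = b then K₁ else M.K y
      T := fun d => if d = a.1 then T₁ else if d = b.1 then T₂ else M.T d
      kind_corner := M.kind_corner
      vor_conn := M.vor_conn
      lam_opp := by
        intro d
        have h1 := hEopp d
        by_cases hE : d = x.1 ∨ d = a.1 ∨ d = z.1 ∨ d = b.1
        · rw [if_pos hE, if_pos (h1.2 hE), M.lam_opp]
        · rw [if_neg hE, if_neg (fun h2 => hE (h1.1 h2)), M.lam_opp]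
      lam_supp := by
        intro d
        split_ifs
        · exact (M.lam_supp d).add ((M.lam_supp x.1).add (M.lam_supp z.1))
        · exact M.lam_supp d
      lam_nu := by
        intro d
        split_ifs with hE
        · rcases hE with h1 | h1 | h1 | h1
          · rw [hlam_in d (Or.inl h1)]; exact M.lam_nu _
          · rw [hlam_in d (Or.inr h1)]; exact M.lam_nu _
          · rw [hlam_in' d (Or.inl h1)]; exact M.lam_nu _
          · rw [hlam_in' d (Or.inr h1)]; exact M.lam_nu _
        · exact M.lam_nu d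
      ord_lam := by
        intro d j hd
        split_ifs with hE
        · rcases hEord d j hd hE with h1 | h1
          · have hj : j = i := by
              rw [h1, hi] at hd; exact (Sum.inl.inj hd).symm
            rw [hlam_in d (Or.inl h1), hj]
            exact M.ord_lam _ i hiz
          · have hj : j = i := by
              rw [h1, hiz] at hd; exact (Sum.inl.inj hd).symm
            rw [hlam_in' d (Or.inl h1), hj]
            exact M.ord_lam _ i hi
        · exact M.ord_lam d j hd
      ord_T := by
        intro d j hd l hl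
        rw [if_neg (ov hd hn), if_neg (ov hd hnb)]
        exact M.ord_T d j hd l hl
      ord_sum := by
        intro y j hy
        refine Eq.trans ?_ (M.ord_sum y j hy)
        have h1 : ∀ d ∈ univ.filter (fun d => M.SameV y (d, false)),
            ((if d = x.1 ∨ d = a.1 ∨ d = z.1 ∨ d = b.1 then
              M.lam d + (M.lam x.1 + M.lam z.1) else M.lam d) +
              dl X Y (if d = a.1 then T₁ else if d = b.1 then T₂ else M.T d)) =
            (M.lam d + dl X Y (M.T d)) + ((if d = x.1 then M.lam x.1 + M.lam z.1 else 0) +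
              (if d = z.1 then M.lam x.1 + M.lam z.1 else 0)) := by
          intro d hd
          rw [mem_filter] at hd
          have hk : M.kind d = Sum.inl j := by rw [← M.kind_sameV hd.2, hy]
          rw [if_neg (ov hk hn), if_neg (ov hk hnb)]
          by_cases hE : d = x.1 ∨ d = a.1 ∨ d = z.1 ∨ d = b.1
          · rw [if_pos hE]
            rcases hEord d j hk hE with h2 | h2
            · rw [if_pos h2, if_neg (fun h3 => hzx (h3.symm.trans h2)), add_zero]
              exact add_right_comm _ _ _
            · rw [if_pos h2, if_neg (fun h3 => hzx (h2.symm.trans h3)), zero_add]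
              exact add_right_comm _ _ _
          · rw [if_neg hE, if_neg (fun h2 => hE (Or.inl h2)),
              if_neg (fun h2 => hE (Or.inr (Or.inr (Or.inl h2)))), add_zero, add_zero]
        have hxz : M.SameV x z := by rw [← hz]; exact M.sameV_corner x
        have h2 : x.1 ∈ univ.filter (fun d => M.SameV y (d, false)) ↔
            z.1 ∈ univ.filter (fun d => M.SameV y (d, false)) := by
          simp only [mem_filter, mem_univ, true_and]
          rw [M.toCMap.sameV_false, M.toCMap.sameV_false]
          exact ⟨fun h' => h'.trans _ _ _ hxz, fun h' => h'.trans _ _ _ hxz.symm⟩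
        have h4 : ∑ d ∈ univ.filter (fun d => M.SameV y (d, false)),
            ((if d = x.1 then M.lam x.1 + M.lam z.1 else 0) +
              (if d = z.1 then M.lam x.1 + M.lam z.1 else 0)) = 0 := by
          rw [Finset.sum_add_distrib, Finset.sum_ite_eq', Finset.sum_ite_eq']
          by_cases h3 : x.1 ∈ univ.filter (fun d => M.SameV y (d, false))
          · rw [if_pos h3, if_pos (h2.1 h3), ch_add_self]
          · rw [if_neg h3, if_neg (fun h' => h3 (h2.2 h')), add_zero]
        rw [Finset.sum_congr rfl h1, Finset.sum_add_distrib, h4, add_zero]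
      vor_K := by
        intro y m hy
        have h1 : (M.corner y = a ∨ M.corner y = b) ↔ (y = a ∨ y = b) := by
          constructor
          · rintro (h2 | h2)
            · right; rw [← hab, ← h2, M.cc]
            · left; rw [← M.cc y, h2, ← hab, M.cc]
          · rintro (rfl | rfl)
            · exact Or.inr hab
            · left; rw [← hab, M.cc]
        by_cases h2 : y = a ∨ y = b
        · rw [if_pos h2, if_pos (h1.2 h2)]
        · rw [if_neg h2, if_neg (fun h3 => h2 (h1.1 h3))]
          exact M.vor_K y m hy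
      vor_eqn := by
        intro d m hd
        by_cases h1 : d = a.1
        · subst h1
          rw [hflag a (fun y => if y = a ∨ y = b then K₁ else M.K y), if_pos (Or.inl rfl),
            if_neg (not_or.2 hfab), if_pos (Or.inr (Or.inl rfl)), if_pos rfl,
            hlam_in _ (Or.inr rfl), hlf, add_comm]
          exact f₁
        by_cases h2 : d = b.1
        · subst h2
          rw [hflag b (fun y => if y = a ∨ y = b then K₁ else M.K y), if_pos (Or.inr rfl),
            if_neg (not_or.2 hfba), if_pos (Or.inr (Or.inr (Or.inr rfl))), if_neg hba, if_pos rfl,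
            hlam_in' _ (Or.inr rfl), hle]
          exact f₂
        have h3 : ¬ (d = x.1 ∨ d = a.1 ∨ d = z.1 ∨ d = b.1) := by
          intro hE
          rcases hEvor d m hd hE with h4 | h4
          · exact h1 h4
          · exact h2 h4
        have h4 : ∀ s : Bool, ¬ ((d, s) = a ∨ (d, s) = b) := by
          rintro s (h5 | h5)
          · exact h1 (congrArg Prod.fst h5)
          · exact h2 (congrArg Prod.fst h5)
        rw [if_neg (h4 false), if_neg (h4 true), if_neg h3, if_neg h1, if_neg h2]
        exact M.vor_eqn d m hd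
      vor_nu := by
        intro y m hy
        split_ifs
        · exact hK₁
        · exact M.vor_nu y m hy
      vor_supp := by
        intro y m hy
        split_ifs
        · exact sK₁
        · exact M.vor_supp y m hy
      vor_T := by
        intro d m hd
        split_ifs
        · exact sT₁
        · exact sT₂
        · exact M.vor_T d m hd
      ord_vor := by
        intro d j m hd hd'
        left
        have hs : Single (M.lam d) := by
          rcases M.ord_vor d j m hd hd' with h1 | ⟨s, h1⟩
          · exact h1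
          · exfalso
            refine R4a h (x := M.across (d, s)) (n := m) (i := j) hd' ?_ h1
            have : M.opp (M.across (d, s)).1 = d := M.opp_opp d
            rw [this]; exact hd
        split_ifs with hE
        · rcases hEord d j hd hE with h1 | h1
          · rw [hlam_in d (Or.inl h1), hlf]
            exact ⟨f, fun e' he' => by
              by_contra hne
              exact he' (Pi.single_eq_of_ne hne _)⟩
          · rw [hlam_in' d (Or.inl h1), hle]
            exact ⟨e, fun e' he' => by
              by_contra hne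
              exact he' (Pi.single_eq_of_ne hne _)⟩
        · exact hs }
  have hC : Cex β N M' := by
    refine ⟨?_, h.cex.2.1, ?_⟩
    · intro j hj
      rw [← h.cex.1 j hj]
      have h1 : ∀ d, M'.T d j = M.T d j + ((if d = a.1 then M.T a.1 j + T₁ j else 0) +
          (if d = b.1 then M.T b.1 j + T₂ j else 0)) := by
        intro d
        have : M'.T d = if d = a.1 then T₁ else if d = b.1 then T₂ else M.T d := rfl
        rw [this]
        by_cases h1 : d = a.1
        · rw [if_pos h1, if_pos h1, if_neg (fun h2 => hba (h2.symm.trans h1)), add_zero, h1,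
            ← add_assoc, CharTwo.add_self_eq_zero, zero_add]
        by_cases h2 : d = b.1
        · rw [if_neg h1, if_pos h2, if_neg h1, if_pos h2, zero_add, h2, ← add_assoc,
            CharTwo.add_self_eq_zero, zero_add]
        · rw [if_neg h1, if_neg h2, if_neg h1, if_neg h2, add_zero, add_zero]
      rw [Finset.sum_congr rfl fun d _ => h1 d, Finset.sum_add_distrib, Finset.sum_add_distrib,
        Finset.sum_ite_eq', Finset.sum_ite_eq']
      simp only [mem_univ, if_true]
      have h2 := congrFun hTT j
      simp only [Pi.add_apply] at h2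
      have h3 : M.T a.1 j + T₁ j + (M.T b.1 j + T₂ j) = (T₁ j + T₂ j) + (M.T a.1 j + M.T b.1 j) := by
        ring
      rw [h3, h2, CharTwo.add_self_eq_zero, add_zero]
    · intro hβ d j l hd hd'
      have h1 : M'.lam d = if d = x.1 ∨ d = a.1 ∨ d = z.1 ∨ d = b.1 then
        M.lam d + (M.lam x.1 + M.lam z.1) else M.lam d := rfl
      have hd2 : M.kind (M.opp d) = Sum.inl l := hd'
      rw [h1, if_neg]
      · exact h.cex.2.2 hβ d j l hd hd'
      · intro hE
        rcases hEord d j hd hE with h2 | h2
        · rw [h2, hox] at hd2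
          exact ov hd2 hn rfl
        · rw [h2, hoz] at hd2
          exact ov hd2 hnb rfl
  refine ⟨M', rfl, rfl, h.of_cex hC, ?_, ?_, ?_, ?_⟩
  · exact (if_pos (Or.inl rfl)).trans (hlam_in _ (Or.inl rfl))
  · exact (if_pos (Or.inr (Or.inr (Or.inl rfl)))).trans (hlam_in' _ (Or.inl rfl))
  · intro d h1 h2 h3 h4
    rw [hox] at h2
    rw [hoz] at h4
    exact if_neg (by tauto)
  · intro y h1 h2
    exact if_neg (by tauto)

theorem R4b {M : Pic X Y w D} (h : MinM Q β N M) {x : D × Bool} (hx : M.Digon x) :
    ∃ M' : Pic X Y w D, M'.toCMap = M.toCMap ∧ M'.kind = M.kind ∧ MinM Q β N M' ∧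
      M'.lam x.1 = M.lam (M.corner x).1 ∧ M'.lam (M.corner x).1 = M.lam x.1 ∧
      (∀ d, d ≠ x.1 → d ≠ M.opp x.1 → d ≠ (M.corner x).1 → d ≠ M.opp (M.corner x).1 →
        M'.lam d = M.lam d) ∧
      ∀ y, y ≠ M.across x → y ≠ M.across (M.corner x) → M'.K y = M.K y := by
  obtain ⟨⟨i, hi⟩, ⟨n, hn⟩, hc⟩ := hx
  exact R4b_aux h rfl rfl rfl hc hi hn

theorem digon_congr {M M' : Pic X Y w D} (h1 : M'.toCMap = M.toCMap) (h2 : M'.kind = M.kind)
    (x : D × Bool) : M'.Digon x ↔ M.Digon x := by
  unfold Pic.Digon Pic.Ord Pic.Vor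
  rw [h1, h2]

theorem nd_congr {M M' : Pic X Y w D} (h1 : M'.toCMap = M.toCMap) (h2 : M'.kind = M.kind)
    (x : D × Bool) : M'.nd x = M.nd x := by
  unfold Pic.nd
  by_cases h : M.Digon x
  · rw [if_pos h, if_pos ((digon_congr h1 h2 x).2 h)]
  · rw [if_neg h, if_neg (fun h' => h ((digon_congr h1 h2 x).1 h'))]

/-- being (the corner of) a digon does not depend on the flag of the corner -/
theorem digon_corner (M : Pic X Y w D) (x : D × Bool) : M.Digon (M.corner x) ↔ M.Digon x := by
  have key : ∀ y, M.Digon y → M.Digon (M.corner y) := by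
    rintro y ⟨⟨i, hi⟩, ⟨n, hn⟩, hc⟩
    refine ⟨⟨i, by rw [M.kind_corner]; exact hi⟩, ⟨n, ?_⟩, ?_⟩
    · rw [← hc, M.kind_corner]; exact hn
    · rw [← hc, M.cc, M.cc]
  refine ⟨fun h => ?_, key x⟩
  have := key _ h
  rwa [M.cc] at this

end Pool.Agent.HomV
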